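import Mathlib
import Pool.Agent.TH881.RK.Defs
import Pool.Agent.TH881.RK.DefsG
import Pool.Agent.TH663.J3811
import Pool.Agent.TH416.J3004

/-!
# RK-S3: unions of classes, Goldbach form (job 4028, helper429 for helper881)
-/

set_option autoImplicit false

namespace Pool.Agent.TH429.J4028

open Finset Filter Topology
open Pool.Agent.TH881
open Pool.Agent.TH881.RG
open Pool.Agent.TH881.RQ
open Pool.Agent.TH881.RK
open Pool.Agent.TH663.J3811
open Pool.Agent.H373R2.T7

/-- a prime which divides `Wp w` does not divide an integer representative of a unit -/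
lemma int_not_dvd_of_unit {w p : ℕ} {z : ℤ} (hp : p.Prime) (hpw : p ≤ w)
    (h : IsUnit (z : ZMod (Wp w))) : ¬ (p : ℤ) ∣ z := by
  intro hd
  have : Fact p.Prime := ⟨hp⟩
  have h1 := h.map (ZMod.castHom ((prime_dvd_Wp hp).2 hpw) (ZMod p))
  rw [map_intCast, (ZMod.intCast_zmod_eq_zero_iff_dvd z p).2 hd] at h1
  exact not_isUnit_zero h1

open Classical in
/-- the negatives -/
noncomputable def negs {W : ℕ} (B : Finset (ZMod W)) : Finset (ZMod W) := B.image (fun b => -b)

lemma negs_card {W : ℕ} (B : Finset (ZMod W)) : (negs B).card = B.card := by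
  classical
  unfold negs
  exact card_image_of_injective _ neg_injective

lemma mem_negs {W : ℕ} {B : Finset (ZMod W)} {a : ZMod W} (h : a ∈ negs B) : -a ∈ B := by
  classical
  unfold negs at h
  rw [mem_image] at h
  obtain ⟨b, hb, rfl⟩ := h
  rw [neg_neg]
  exact hb

lemma negs_sub {pr : Bool} {w : ℕ} {B : Finset (ZMod (Wp w))} (hB : B ⊆ AA pr w) :
    negs B ⊆ AA pr w := by
  classical
  intro a ha
  have h1 := hB (mem_negs ha)
  unfold AA at h1 ⊢
  rw [mem_filter] at h1 ⊢
  refine ⟨mem_univ _, fun hpr => ?_⟩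
  have h2 := (h1.2 hpr).neg
  rwa [neg_neg] at h2

lemma not_hitG {m : ℕ} (pr : Bool) (w : ℕ) (B : Finset (ZMod (Wp w))) (h : Fin m → ℕ)
    (hh : ∀ a ∈ B, ¬ gk (cl (Wp w) h) a) (hw : ∀ j, 2 * w < h j) :
    h ∉ hitG pr m {n : ℕ | (n : ZMod (Wp w)) ∈ negs B} := by
  classical
  rintro ⟨n, hn, -, hp⟩
  have h1 : -(n : ZMod (Wp w)) ∈ B := mem_negs hn
  apply hh _ h1
  intro j
  obtain ⟨-, h2, h3⟩ := hp j
  have h4 := unit_of_prime (w := w) h3 (by have := hw j; omega)
  unfold cl
  rw [Nat.cast_sub (by omega)] at h4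
  rw [← sub_eq_add_neg]
  exact h4

lemma admG_of {m : ℕ} (pr : Bool) (w : ℕ) (hmw : m + 1 ≤ w) (h : Fin m → ℕ)
    (hh : wk pr m w (cl (Wp w) h) ≠ 0) : AdmG pr h := by
  classical
  intro p hp
  have hW := Wp_pos w
  have : NeZero (Wp w) := ⟨hW.ne'⟩
  by_cases hpw : p ≤ w
  · -- a class of arguments
    have h1 : ((AA pr w).filter (fun a => gk (cl (Wp w) h) a)).Nonempty := by
      rw [nonempty_iff_ne_empty]
      intro h0
      apply hh
      unfold wk
      have : ((AA pr w).filter (fun a => gk (cl (Wp w) h) a)).card = 0 := by rw [h0, card_empty]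
      have h2 : (((AA pr w).filter (fun a => gk (cl (Wp w) h) a)).card : ℝ) = 0 := by
        rw [this]; norm_num
      rw [div_eq_zero_iff]
      left
      convert h2
    obtain ⟨a, ha⟩ := h1
    rw [mem_filter] at ha
    obtain ⟨haA, hag⟩ := ha
    refine ⟨(-a).val, fun hpr => ?_, fun j => ?_⟩
    · unfold AA at haA
      rw [mem_filter] at haA
      have hu := (haA.2 hpr).neg
      rw [← ZMod.natCast_zmod_val (-a)] at hu
      exact not_dvd_of_unit hp hpw hu
    · have hu := hag j
      unfold cl at hu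
      apply int_not_dvd_of_unit hp hpw
      rw [Int.cast_sub, Int.cast_natCast, Int.cast_natCast, ZMod.natCast_zmod_val, sub_neg_eq_add]
      exact hu
  · -- a large prime
    have : Fact p.Prime := ⟨hp⟩
    have hcard : (insert (0 : ZMod p) (univ.image (fun j : Fin m => (h j : ZMod p)))).card <
        (univ : Finset (ZMod p)).card := by
      have h1 := card_insert_le (0 : ZMod p) (univ.image (fun j : Fin m => (h j : ZMod p)))
      have h2 : (univ.image (fun j : Fin m => (h j : ZMod p))).card ≤ m := by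
        refine card_image_le.trans ?_
        rw [card_univ, Fintype.card_fin]
      rw [card_univ, ZMod.card]
      omega
    obtain ⟨a, -, ha⟩ := exists_mem_notMem_of_card_lt_card hcard
    rw [mem_insert, not_or] at ha
    refine ⟨a.val, fun _ => ?_, fun j => ?_⟩
    · intro hd
      apply ha.1
      rw [← ZMod.natCast_zmod_val a]
      exact (ZMod.natCast_eq_zero_iff _ _).2 hd
    · intro hd
      apply ha.2
      rw [mem_image]
      refine ⟨j, mem_univ _, ?_⟩
      have h1 : (((h j : ℤ) - (a.val : ℤ) : ℤ) : ZMod p) = 0 :=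
        (ZMod.intCast_zmod_eq_zero_iff_dvd _ p).2 hd
      rw [Int.cast_sub, Int.cast_natCast, Int.cast_natCast, ZMod.natCast_zmod_val, sub_eq_zero] at h1
      exact h1

lemma part_low (pr : Bool) (m w : ℕ) (B : Finset (ZMod (Wp w))) (hmw : m + 1 ≤ w) :
    ((misk pr m w B).card : ℝ) / (Wp w : ℝ) ^ m ≤
      udk (losG pr m {n : ℕ | (n : ZMod (Wp w)) ∈ negs B}) := by
  classical
  have hW := Wp_pos w
  have hWR : (0 : ℝ) < Wp w := by exact_mod_cast hW
  set S := losG pr m {n : ℕ | (n : ZMod (Wp w)) ∈ negs B} with hS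
  set M : ℝ := ((misk pr m w B).card : ℝ) with hM
  -- the lower bound for the count
  have hlow : ∀ᶠ x : ℕ in atTop, M * (1 / (Wp w : ℝ) - (1 + (2 * w : ℕ)) * (1 / (x : ℝ))) ^ m ≤
      (cntk S x : ℝ) / (x : ℝ) ^ m := by
    have hlin : ∀ᶠ x : ℕ in atTop, (Wp w : ℝ) * (1 + (2 * w : ℕ)) ≤ (x : ℝ) :=
      tendsto_natCast_atTop_atTop.eventually_ge_atTop _
    filter_upwards [hlin, eventually_ge_atTop 1] with x hx hx1
    have hx0 : (0 : ℝ) < x := by exact_mod_cast hx1
    have h1 : 0 ≤ (x : ℝ) / Wp w - 1 - (2 * w : ℕ) := by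
      have : (1 + (2 * w : ℕ) : ℝ) ≤ (x : ℝ) / Wp w := by
        rw [le_div_iff₀ hWR]
        linarith
      linarith
    have h2 := VV_lower (m := m) (Wp w) hW (2 * w) x (misk pr m w B) h1
    have h3 : (VV (Wp w) (2 * w + 1) x (misk pr m w B)).card ≤ cntk S x := by
      unfold cntk
      apply card_le_card
      intro h hh
      unfold VV at hh
      rw [mem_filter, Fintype.mem_piFinset] at hh
      obtain ⟨h4, h5⟩ := hh
      unfold misk at h5
      rw [mem_filter] at h5
      rw [mem_filter, Fintype.mem_piFinset]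
      refine ⟨fun j => ?_, admG_of pr w hmw h h5.2.1, not_hitG pr w B h h5.2.2 (fun j => ?_)⟩
      · have := mem_Icc.1 (h4 j)
        rw [mem_Icc]
        omega
      · have := mem_Icc.1 (h4 j)
        omega
    have h4 : ((VV (Wp w) (2 * w + 1) x (misk pr m w B)).card : ℝ) ≤ cntk S x := by exact_mod_cast h3
    rw [le_div_iff₀ (by positivity)]
    refine le_trans (le_of_eq ?_) (h2.trans h4)
    rw [mul_assoc, ← mul_pow]
    congr 2
    field_simp
    ring
  have hlim : Tendsto (fun x : ℕ => M * (1 / (Wp w : ℝ) - (1 + (2 * w : ℕ)) * (1 / (x : ℝ))) ^ m) atTop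
      (𝓝 (M * (1 / (Wp w : ℝ) - (1 + (2 * w : ℕ)) * 0) ^ m)) :=
    ((tendsto_const_nhds.sub (lim_inv.const_mul _)).pow m).const_mul M
  have e : M * (1 / (Wp w : ℝ) - (1 + (2 * w : ℕ)) * 0) ^ m = M / (Wp w : ℝ) ^ m := by
    rw [mul_zero, sub_zero, div_pow, one_pow, mul_one_div]
  rw [e] at hlim
  unfold udk
  rw [← hlim.limsup_eq]
  exact limsup_le_limsup hlow hlim.isBoundedUnder_ge.isCoboundedUnder_le (bdd_above S)

end Pool.Agent.TH429.J4028

namespace Pool.Agent.TH881.RK

open Finset Filter Topology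
open Pool.Agent.TH881
open Pool.Agent.TH881.RG
open Pool.Agent.TH881.RQ
open Pool.Agent.H373R2.T7

theorem stLowG_in (hPC : StPC) (pr : Bool) (m : ℕ) (hm : 1 ≤ m) : StLowG pr m := by
  intro w B hB hmw
  refine ⟨{n : ℕ | (n : ZMod (Wp w)) ∈ Pool.Agent.TH429.J4028.negs B}, ?_,
    Pool.Agent.TH429.J4028.part_low pr m w B hmw⟩
  rw [← Pool.Agent.TH429.J4028.negs_card B]
  cases pr with
  | false => exact Pool.Agent.TH416.J3004.rel_false w _
  | true => exact Pool.Agent.TH416.J3004.rel_true hPC w _ (Pool.Agent.TH429.J4028.negs_sub hB)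

end Pool.Agent.TH881.RK
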