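import Pool.Agent.TH279.MD.Defs

/-!
# MD-WL (job 2482), adapted from Pool/Agent/TH959/J1681.lean
-/

set_option autoImplicit false

open Set Filter Metric MeasureTheory Topology
open Pool.Agent.TH279.MD

namespace Pool.Agent.TH429.J2482

/-- a property which holds near `0` holds on all small closed balls -/
theorem ball_of_ev {P : ℂ → Prop} (h : ∀ᶠ z in 𝓝 (0 : ℂ), P z) :
    ∀ᶠ r in nhdsWithin (0 : ℝ) (Ioi 0), 0 < r ∧ ∀ z ∈ closedBall (0 : ℂ) r, P z := by
  obtain ⟨ε, hε, h1⟩ := Metric.eventually_nhds_iff_ball.1 h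
  filter_upwards [Ioo_mem_nhdsGT hε] with r hr
  exact ⟨hr.1, fun z hz => h1 z (lt_of_le_of_lt (mem_closedBall.1 hz) hr.2)⟩

/-- a function which is continuous near zero is integrable on small circles -/
theorem circ_int {F : ℂ → ℝ} (h : ∀ᶠ z in 𝓝 (0 : ℂ), ContinuousAt F z) :
    ∀ᶠ r in nhdsWithin (0 : ℝ) (Ioi 0), CircleIntegrable F 0 r := by
  filter_upwards [ball_of_ev h] with r hr
  refine ContinuousOn.circleIntegrable hr.1.le fun z hz => ?_
  exact (hr.2 z (sphere_subset_closedBall hz)).continuousWithinAt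

theorem ev_cont {a : ℝ} (ha : 0 < a) {φ : ℂ → ℝ} (hφ : Continuous φ) {g e : ℂ → ℂ}
    (hg : AnalyticAt ℂ g 0) (he : AnalyticAt ℂ e 0) :
    ∀ᶠ z in 𝓝 (0 : ℂ), ContinuousAt (fun ζ => ‖e ζ‖ ^ a * φ (g ζ)) z := by
  filter_upwards [hg.eventually_analyticAt, he.eventually_analyticAt] with z h1 h2
  exact (h2.continuousAt.norm.rpow_const (Or.inr ha.le)).mul (hφ.continuousAt.comp h1.continuousAt)

/-- the sub-mean value property of the norm of an analytic germ -/
theorem norm_le_avg {e : ℂ → ℂ} (he : AnalyticAt ℂ e 0) :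
    ∀ᶠ r in nhdsWithin (0 : ℝ) (Ioi 0), ‖e 0‖ ≤ Real.circleAverage (fun ζ => ‖e ζ‖) 0 r := by
  filter_upwards [ball_of_ev he.eventually_analyticAt] with r hr
  have h1 : DifferentiableOn ℂ e (closedBall 0 |r|) := by
    rw [abs_of_pos hr.1]
    exact fun z hz => (hr.2 z hz).differentiableAt.differentiableWithinAt
  have h2 : DiffContOnCl ℂ e (ball 0 |r|) := by
    refine ⟨h1.mono ball_subset_closedBall, ?_⟩
    exact h1.continuousOn.mono closure_ball_subset_closedBall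
  have h3 := h2.circleAverage
  rw [← h3]
  unfold Real.circleAverage
  rw [norm_smul, smul_eq_mul, Real.norm_of_nonneg (by positivity)]
  refine mul_le_mul_of_nonneg_left ?_ (by positivity)
  exact intervalIntegral.norm_integral_le_integral_norm (by positivity)

theorem WL_one {a : ℝ} (ha : 0 < a) : WL a (fun _ => 1) := by
  refine ⟨continuous_const, fun _ => zero_le_one, fun g e _ he => ?_⟩
  by_cases h0 : e 0 = 0
  · refine Eventually.of_forall fun r => ?_
    rw [h0, norm_zero, Real.zero_rpow ha.ne', zero_mul]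
    refine Real.circleAverage_nonneg_of_nonneg fun z _ => ?_
    positivity
  · have hKa : AnalyticAt ℂ (fun t => Complex.exp (a * Complex.log (e t / e 0))) 0 := by
      refine AnalyticAt.cexp (analyticAt_const.mul (AnalyticAt.clog (he.div analyticAt_const h0) ?_))
      rw [div_self h0]
      exact Complex.one_mem_slitPlane
    have hne : ∀ᶠ t in 𝓝 (0 : ℂ), e t ≠ 0 := he.continuousAt.eventually_ne h0
    have hn : ∀ t, e t ≠ 0 → ‖e t‖ ^ a = ‖e 0‖ ^ a * ‖Complex.exp (a * Complex.log (e t / e 0))‖ := by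
      intro t ht
      rw [Complex.norm_exp]
      have h1 : ((a : ℂ) * Complex.log (e t / e 0)).re = a * Real.log (‖e t‖ / ‖e 0‖) := by
        rw [Complex.re_ofReal_mul, Complex.log_re, norm_div]
      have hp0 : 0 < ‖e 0‖ := norm_pos_iff.2 h0
      have hp1 : 0 < ‖e t‖ := norm_pos_iff.2 ht
      rw [h1, mul_comm a, ← Real.rpow_def_of_pos (by positivity), ← Real.mul_rpow hp0.le
        (by positivity)]
      congr 1
      field_simp
    filter_upwards [norm_le_avg hKa, ball_of_ev hne] with r h1 h2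
    have h3 : Real.circleAverage (fun ζ => ‖e ζ‖ ^ a * 1) 0 r =
        ‖e 0‖ ^ a • Real.circleAverage
          (fun ζ => ‖Complex.exp (a * Complex.log (e ζ / e 0))‖) 0 r := by
      rw [← Real.circleAverage_fun_smul]
      refine Real.circleAverage_congr_sphere fun t ht => ?_
      rw [abs_of_pos h2.1] at ht
      show ‖e t‖ ^ a * 1 = ‖e 0‖ ^ a • ‖Complex.exp (a * Complex.log (e t / e 0))‖
      rw [mul_one, smul_eq_mul]
      exact hn t (h2.2 t (sphere_subset_closedBall ht))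
    rw [h3, smul_eq_mul]
    refine mul_le_mul_of_nonneg_left ?_ (by positivity)
    rw [div_self h0, Complex.log_one, mul_zero, Complex.exp_zero, norm_one] at h1
    exact h1

theorem WL_mul {a : ℝ} (ha : 0 < a) {φ : ℂ → ℝ} (h : WL a φ) {E : ℂ → ℂ} (hE : Differentiable ℂ E) :
    WL a (fun z => ‖E z‖ ^ a * φ z) := by
  refine ⟨(hE.continuous.norm.rpow_const fun _ => Or.inr ha.le).mul h.1,
    fun z => mul_nonneg (by positivity) (h.2.1 z), fun g e hg he => ?_⟩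
  have h1 : AnalyticAt ℂ (fun ζ => e ζ * E (g ζ)) 0 :=
    he.mul ((hE.analyticAt (g 0)).comp hg)
  filter_upwards [h.2.2 g _ hg h1] with r hr
  simp only [norm_mul] at hr
  simp only [Real.mul_rpow (norm_nonneg _) (norm_nonneg _)] at hr
  simpa only [mul_assoc] using hr

/-- the sum over the roots of unity -/
noncomputable def SS (d : ℕ) (φ : ℂ → ℝ) (y : ℂ) : ℝ := ∑ ζ ∈ RU d, φ (ζ * y)

theorem RU_mul {d : ℕ} (hd : 2 ≤ d) {ω ζ : ℂ} (hω : ω ∈ RU d) (hζ : ζ ∈ RU d) : ζ * ω ∈ RU d := by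
  rw [mem_RU hd] at *
  rw [mul_pow, hω, hζ, mul_one]

theorem RU_ne {d : ℕ} (hd : 2 ≤ d) {ω : ℂ} (hω : ω ∈ RU d) : ω ≠ 0 := by
  rintro rfl
  rw [mem_RU hd, zero_pow (by omega)] at hω
  exact zero_ne_one hω

theorem RU_inv {d : ℕ} (hd : 2 ≤ d) {ω : ℂ} (hω : ω ∈ RU d) : ω⁻¹ ∈ RU d := by
  rw [mem_RU hd] at *
  rw [inv_pow, hω, inv_one]

theorem SS_inv {d : ℕ} (hd : 2 ≤ d) (φ : ℂ → ℝ) {ω : ℂ} (hω : ω ∈ RU d) (y : ℂ) :
    SS d φ (ω * y) = SS d φ y := by
  have h0 := RU_ne hd hω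
  unfold SS
  refine Finset.sum_nbij' (fun ζ => ζ * ω) (fun ζ => ζ * ω⁻¹) ?_ ?_ ?_ ?_ ?_
  · intro ζ hζ
    exact RU_mul hd hω hζ
  · intro ζ hζ
    exact RU_mul hd (RU_inv hd hω) hζ
  · intro ζ _
    field_simp
  · intro ζ _
    field_simp
  · intro ζ _
    rw [mul_assoc]

/-- the values of an invariant function at the root -/
theorem rt_inv {d : ℕ} (hd : 2 ≤ d) {ψ : ℂ → ℝ} (hψ : ∀ ω ∈ RU d, ∀ y, ψ (ω * y) = ψ y) {y w : ℂ}
    (h : y ^ d = w) : ψ (rt d w) = ψ y := by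
  have h1 : rt d w ^ d = y ^ d := by rw [rt_pow hd, h]
  by_cases hy : y = 0
  · rw [hy, zero_pow (by omega)] at h1
    have h2 : rt d w = 0 := by
      by_contra h3
      exact pow_ne_zero d h3 h1
    rw [hy, h2]
  · have h2 : rt d w / y ∈ RU d := by
      rw [mem_RU hd, div_pow, h1, div_self (pow_ne_zero d hy)]
    have h3 : rt d w = (rt d w / y) * y := by field_simp
    rw [h3, hψ _ h2]

theorem cont_inv {d : ℕ} (hd : 2 ≤ d) {ψ : ℂ → ℝ} (hc : Continuous ψ)
    (hψ : ∀ ω ∈ RU d, ∀ y, ψ (ω * y) = ψ y) : Continuous fun z => ψ (rt d z) := by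
  rw [continuous_iff_continuousAt]
  intro z
  rw [Metric.continuousAt_iff]
  intro ε hε
  have hδ : ∀ ζ : ℂ, ∃ δ > 0, ∀ ⦃x : ℂ⦄, dist x (ζ * rt d z) < δ →
      dist (ψ x) (ψ (ζ * rt d z)) < ε := fun ζ =>
    Metric.continuousAt_iff.1 (hc.continuousAt (x := ζ * rt d z)) ε hε
  choose δ hδ0 hδ1 using hδ
  refine ⟨∏ ζ ∈ RU d, δ ζ, Finset.prod_pos fun ζ _ => hδ0 ζ, fun w hw => ?_⟩
  have h3 : dist w z = ∏ ζ ∈ RU d, dist (rt d w) (ζ * rt d z) := by
    have h4 := pow_sub_pow hd (rt d w) (rt d z)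
    rw [rt_pow hd, rt_pow hd] at h4
    rw [dist_eq_norm, h4, norm_prod]
    refine Finset.prod_congr rfl fun ζ _ => ?_
    rw [dist_eq_norm]
  rw [h3] at hw
  have h4 : ∃ ζ ∈ RU d, dist (rt d w) (ζ * rt d z) < δ ζ := by
    by_contra h5
    push Not at h5
    exact absurd hw (not_lt.2 (Finset.prod_le_prod (fun ζ _ => (hδ0 ζ).le) h5))
  obtain ⟨ζ, hζ, h5⟩ := h4
  have h6 := hδ1 ζ h5
  rwa [hψ ζ hζ] at h6

theorem continuous_SS {d : ℕ} {φ : ℂ → ℝ} (h : Continuous φ) : Continuous (SS d φ) := by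
  unfold SS
  refine continuous_finsetSum _ fun ζ _ => ?_
  exact h.comp (continuous_const.mul continuous_id)

theorem continuous_TR {d : ℕ} (hd : 2 ≤ d) {φ : ℂ → ℝ} (h : Continuous φ) (c : ℂ) :
    Continuous (TR d c φ) := by
  have h1 : Continuous fun z => SS d φ (rt d z) :=
    cont_inv hd (continuous_SS h) fun ω hω y => SS_inv hd φ hω y
  exact h1.comp (continuous_id.sub continuous_const)

/-- a holomorphic root of `G (t ^ d)` -/
theorem exists_root {d : ℕ} (hd : 2 ≤ d) {G : ℂ → ℂ} (hG : AnalyticAt ℂ G 0) :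
    ∃ Y : ℂ → ℂ, AnalyticAt ℂ Y 0 ∧ ∀ᶠ t in 𝓝 (0 : ℂ), Y t ^ d = G (t ^ d) := by
  have hd0 : d ≠ 0 := by omega
  have hdc : (d : ℂ) ≠ 0 := by exact_mod_cast hd0
  have hsq : Tendsto (fun t : ℂ => t ^ d) (𝓝 0) (𝓝 0) := by
    have : ContinuousAt (fun t : ℂ => t ^ d) 0 := by fun_prop
    simpa [ContinuousAt, zero_pow hd0] using this
  have hsqa : AnalyticAt ℂ (fun t : ℂ => t ^ d) 0 := analyticAt_id.pow d
  by_cases h0 : ∀ᶠ z in 𝓝 (0 : ℂ), G z = 0
  · refine ⟨fun _ => 0, analyticAt_const, ?_⟩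
    filter_upwards [hsq.eventually h0] with t ht
    rw [ht, zero_pow hd0]
  · obtain ⟨m, H, hH, hH0, hev⟩ := hG.exists_eventuallyEq_pow_smul_nonzero_iff.2 h0
    have hKa : AnalyticAt ℂ (fun t => rt d (H 0) * Complex.exp (Complex.log (H t / H 0) / d)) 0 := by
      refine analyticAt_const.mul (AnalyticAt.cexp ?_)
      refine AnalyticAt.div (AnalyticAt.clog (hH.div analyticAt_const hH0) ?_) analyticAt_const
        hdc
      rw [div_self hH0]
      exact Complex.one_mem_slitPlane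
    have hK2 : ∀ᶠ t in 𝓝 (0 : ℂ),
        (rt d (H 0) * Complex.exp (Complex.log (H t / H 0) / d)) ^ d = H t := by
      filter_upwards [hH.continuousAt.eventually_ne hH0] with t ht
      rw [mul_pow, rt_pow hd, ← Complex.exp_nat_mul]
      have : (d : ℂ) * (Complex.log (H t / H 0) / d) = Complex.log (H t / H 0) := by
        field_simp
      rw [this, Complex.exp_log (div_ne_zero ht hH0)]
      field_simp
    obtain ⟨K, hKa, hK2⟩ : ∃ K : ℂ → ℂ, AnalyticAt ℂ K 0 ∧ ∀ᶠ t in 𝓝 (0 : ℂ), K t ^ d = H t :=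
      ⟨_, hKa, hK2⟩
    refine ⟨fun t => t ^ m * K (t ^ d), ?_, ?_⟩
    · refine (analyticAt_id.pow m).mul ?_
      refine AnalyticAt.comp_of_eq hKa hsqa ?_
      simp [zero_pow hd0]
    · filter_upwards [hsq.eventually hK2, hsq.eventually hev] with t h1 h2
      rw [h2, mul_pow, h1, sub_zero, smul_eq_mul, ← pow_mul, ← pow_mul, mul_comm m d]

/-- `d`-fold cover -/
theorem avg_pow {d : ℕ} (hd : 2 ≤ d) {F : ℂ → ℝ} {r : ℝ} (h : CircleIntegrable F 0 (r ^ d)) :
    Real.circleAverage F 0 (r ^ d) = Real.circleAverage (fun t => F (t ^ d)) 0 r := by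
  have hd0 : (d : ℝ) ≠ 0 := by
    have : d ≠ 0 := by omega
    exact_mod_cast this
  unfold Real.circleAverage
  congr 1
  have h1 : ∀ θ : ℝ, (circleMap 0 r θ) ^ d = circleMap 0 (r ^ d) (d * θ) := by
    intro θ
    simp only [circleMap, zero_add]
    rw [mul_pow, ← Complex.exp_nat_mul]
    push_cast
    ring_nf
  simp only [h1]
  rw [intervalIntegral.integral_comp_mul_left (fun θ => F (circleMap 0 (r ^ d) θ)) hd0]
  have hper : Function.Periodic (fun θ => F (circleMap 0 (r ^ d) θ)) (2 * Real.pi) := by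
    intro θ
    show F (circleMap 0 (r ^ d) (θ + 2 * Real.pi)) = _
    rw [periodic_circleMap]
  have hint : ∀ t₁ t₂, IntervalIntegrable (fun θ => F (circleMap 0 (r ^ d) θ)) volume t₁ t₂ := by
    intro t₁ t₂
    exact hper.intervalIntegrable₀ (by positivity) (by simpa [CircleIntegrable] using h) t₁ t₂
  have h2 := hper.intervalIntegral_add_zsmul_eq (d : ℤ) 0 hint
  rw [zero_add, zero_add] at h2
  have h3 : ((d : ℤ) • (2 * Real.pi) : ℝ) = (d : ℝ) * (2 * Real.pi) := by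
    rw [zsmul_eq_mul]; push_cast; ring
  rw [h3] at h2
  rw [mul_zero, h2, smul_eq_mul, zsmul_eq_mul]
  push_cast
  field_simp

theorem WL_TR {d : ℕ} (hd : 2 ≤ d) {a : ℝ} (ha : 0 < a) {φ : ℂ → ℝ} (h : WL a φ) (c : ℂ) :
    WL a (TR d c φ) := by
  have hd0 : d ≠ 0 := by omega
  refine ⟨continuous_TR hd h.1 c, fun z => Finset.sum_nonneg fun ζ _ => h.2.1 _,
    fun g e hg he => ?_⟩
  obtain ⟨Y, hY, hYG⟩ := exists_root hd (G := fun z => g z - c) (hg.sub analyticAt_const)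
  have hsqa : AnalyticAt ℂ (fun t : ℂ => t ^ d) 0 := analyticAt_id.pow d
  have he2 : AnalyticAt ℂ (fun t => e (t ^ d)) 0 :=
    AnalyticAt.comp_of_eq he hsqa (by simp [zero_pow hd0])
  have key : ∀ y w : ℂ, y ^ d = w → SS d φ (rt d w) = SS d φ y := by
    intro y w hw
    exact rt_inv hd (fun ω hω y => SS_inv hd φ hω y) hw
  have hYn : ∀ ζ : ℂ, AnalyticAt ℂ (fun t => ζ * Y t) 0 := fun ζ => analyticAt_const.mul hY
  have h1 : ∀ᶠ r in nhdsWithin (0 : ℝ) (Ioi 0), ∀ ζ ∈ RU d,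
      ‖e ((0 : ℂ) ^ d)‖ ^ a * φ (ζ * Y 0) ≤
        Real.circleAverage (fun t => ‖e (t ^ d)‖ ^ a * φ (ζ * Y t)) 0 r :=
    (Filter.eventually_all_finset _).2 fun ζ _ => h.2.2 (fun t => ζ * Y t) _ (hYn ζ) he2
  have i1 : ∀ᶠ r in nhdsWithin (0 : ℝ) (Ioi 0), ∀ ζ ∈ RU d,
      CircleIntegrable (fun t => ‖e (t ^ d)‖ ^ a * φ (ζ * Y t)) 0 r :=
    (Filter.eventually_all_finset _).2 fun ζ _ => circ_int (ev_cont ha h.1 (hYn ζ) he2)
  have i3 := circ_int (ev_cont ha (continuous_TR hd h.1 c) hg he)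
  have hev : ∀ᶠ r in nhdsWithin (0 : ℝ) (Ioi 0), CircleIntegrable
      (fun ζ => ‖e ζ‖ ^ a * TR d c φ (g ζ)) 0 (r ^ d) →
      ‖e 0‖ ^ a * TR d c φ (g 0) ≤
        Real.circleAverage (fun ζ => ‖e ζ‖ ^ a * TR d c φ (g ζ)) 0 (r ^ d) := by
    filter_upwards [h1, i1, ball_of_ev hYG] with r h1 i1 h3 h4
    rw [avg_pow hd h4]
    have e1 : Real.circleAverage (fun t => ‖e (t ^ d)‖ ^ a * TR d c φ (g (t ^ d))) 0 r =
        Real.circleAverage (fun t => ∑ ζ ∈ RU d, ‖e (t ^ d)‖ ^ a * φ (ζ * Y t)) 0 r := by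
      refine Real.circleAverage_congr_sphere fun t ht => ?_
      rw [abs_of_pos h3.1] at ht
      have h5 := h3.2 t (sphere_subset_closedBall ht)
      show ‖e (t ^ d)‖ ^ a * TR d c φ (g (t ^ d)) = ∑ ζ ∈ RU d, ‖e (t ^ d)‖ ^ a * φ (ζ * Y t)
      rw [← Finset.mul_sum]
      congr 1
      exact key _ _ h5
    rw [e1, Real.circleAverage_fun_sum i1]
    have h5 := h3.2 0 (mem_closedBall_self h3.1.le)
    have e0 : ((0 : ℂ) ^ d) = 0 := zero_pow hd0
    have h6 : TR d c φ (g 0) = ∑ ζ ∈ RU d, φ (ζ * Y 0) := by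
      refine key _ _ ?_
      rw [h5, e0]
    rw [h6, Finset.mul_sum]
    rw [e0] at h1
    exact Finset.sum_le_sum h1
  have ht : Tendsto (fun r : ℝ => r ^ (1 / (d : ℝ))) (nhdsWithin (0 : ℝ) (Ioi 0))
      (nhdsWithin (0 : ℝ) (Ioi 0)) := by
    refine tendsto_nhdsWithin_of_tendsto_nhds_of_eventually_within _ ?_ ?_
    · have hp : (0 : ℝ) < 1 / (d : ℝ) := by positivity
      have : ContinuousAt (fun r : ℝ => r ^ (1 / (d : ℝ))) 0 :=
        Real.continuousAt_rpow_const 0 _ (Or.inr hp.le)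
      have h3 := this.tendsto
      simp only [Real.zero_rpow hp.ne'] at h3
      exact h3.mono_left nhdsWithin_le_nhds
    · filter_upwards [self_mem_nhdsWithin] with r hr
      exact Real.rpow_pos_of_pos hr _
  filter_upwards [ht.eventually hev, i3, self_mem_nhdsWithin] with r h3 h4 h5
  have h6 : (r ^ (1 / (d : ℝ))) ^ d = r := by
    rw [one_div]
    exact Real.rpow_inv_natCast_pow (le_of_lt h5) hd0
  rw [h6] at h3
  exact h3 h4

end Pool.Agent.TH429.J2482
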