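import Pool.Agent.TH91.LG.Defs

/-!
# LG-3a: extending a faithful nilpotent representation by a derivation

The matrices `A x = ρ (exp (s D) x)` with polynomial entries act on the vectors with polynomial
entries, `d/ds` induces the derivation, and the monomials of bounded weight span a finite
dimensional invariant subspace.
-/

set_option autoImplicit false

namespace Pool.Agent.TH429.Birkhoff

open Pool.Agent.TH91.LG
open Polynomial Finset

theorem exists_adapted (w : ℕ) : ∀ (V : Type) [AddCommGroup V] [Module ℝ V]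
    [Module.Finite ℝ V] (F : ℕ → Submodule ℝ V), F 0 = ⊤ → F w = ⊥ → Antitone F →
    ∃ (n : ℕ) (b : Module.Basis (Fin n) ℝ V), ∀ T : V →ₗ[ℝ] V,
      (∀ i, ∀ v ∈ F i, T v ∈ F (i + 1)) → ∀ i j, j ≤ i → b.repr (T (b j)) i = 0 := by
  induction w with
  | zero =>
    intro V _ _ _ F h0 hw hF
    have hs : Subsingleton V := by
      rw [← Submodule.subsingleton_iff ℝ, ← subsingleton_iff_bot_eq_top, ← h0, ← hw]
    refine ⟨0, Module.Basis.empty V, ?_⟩
    intro T _ i
    exact i.elim0
  | succ w ih =>
    intro V _ _ _ F h0 hw hF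
    obtain ⟨n, b', hb'⟩ := ih (F 1) (fun i => (F (i + 1)).comap (F 1).subtype)
      (by simp) (by
        simp only [hw]
        rw [Submodule.comap_bot, Submodule.ker_subtype]) (by
        intro i j hij
        exact Submodule.comap_mono (hF (by omega)))
    obtain ⟨C, hC⟩ := Submodule.exists_isCompl (F 1)
    let c := Module.finBasis ℝ C
    let e := Submodule.prodEquivOfIsCompl (F 1) C hC
    let b := ((b'.prod c).map e).reindex finSumFinEquiv
    have hbl : ∀ (v : V) (hv : v ∈ F 1) i₀, b.repr v (finSumFinEquiv (Sum.inl i₀)) =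
        b'.repr ⟨v, hv⟩ i₀ := by
      intro v hv i₀
      have h1 : e.symm v = (⟨v, hv⟩, 0) := by
        rw [LinearEquiv.symm_apply_eq]
        simp [e]
      simp [b, h1]
    have hbr : ∀ (v : V) (hv : v ∈ F 1) i₀, b.repr v (finSumFinEquiv (Sum.inr i₀)) = 0 := by
      intro v hv i₀
      have h1 : e.symm v = (⟨v, hv⟩, 0) := by
        rw [LinearEquiv.symm_apply_eq]
        simp [e]
      simp [b, h1]
    refine ⟨_, b, ?_⟩
    intro T hT i j hij
    have hT1 : ∀ v, T v ∈ F 1 := by
      intro v
      exact hT 0 v (by rw [h0]; exact Submodule.mem_top)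
    obtain ⟨i', rfl⟩ := finSumFinEquiv.surjective i
    obtain ⟨j', rfl⟩ := finSumFinEquiv.surjective j
    rcases i' with i₀ | i₀
    · rcases j' with j₀ | j₀
      · rw [hbl _ (hT1 _)]
        have hbj : b (finSumFinEquiv (Sum.inl j₀)) = (b' j₀ : V) := by
          simp [b, e]
        let T' : F 1 →ₗ[ℝ] F 1 := T.restrict (fun v _ => hT1 v)
        have h2 := hb' T' (by
          intro i v hv
          exact hT (i + 1) v hv) i₀ j₀ (by
            rw [Fin.le_def] at hij ⊢
            simpa using hij)
        have h3 : T' (b' j₀) = ⟨T (b (finSumFinEquiv (Sum.inl j₀))), hT1 _⟩ := by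
          apply Subtype.ext
          rw [hbj]
          rfl
        rw [← h3]
        exact h2
      · exfalso
        rw [Fin.le_def] at hij
        simp only [finSumFinEquiv_apply_left, finSumFinEquiv_apply_right, Fin.val_natAdd,
          Fin.val_castAdd] at hij
        have := i₀.2
        omega
    · exact hbr _ (hT1 _) i₀

section main

variable {E : Type*} [AddCommGroup E] [Module ℝ E] {B : E →ₗ[ℝ] E →ₗ[ℝ] E} {N : ℕ}
  (R : NilRep B N) (D : Module.End ℝ E) (r : ℕ)

/-- the matrix `ρ (exp (s D) x)` -/
noncomputable def Am : E →ₗ[ℝ] Matrix (Fin N) (Fin N) ℝ[X] where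
  toFun x := Matrix.of fun i j =>
    ∑ k ∈ range (r + 1), monomial k ((k.factorial : ℝ)⁻¹ * R.ρ ((D ^ k) x) i j)
  map_add' x y := by
    apply Matrix.ext
    intro i j
    simp only [Matrix.of_apply, Matrix.add_apply, map_add, mul_add, Finset.sum_add_distrib]
  map_smul' c x := by
    apply Matrix.ext
    intro i j
    simp only [Matrix.of_apply, Matrix.smul_apply, map_smul, smul_eq_mul, RingHom.id_apply,
      Finset.smul_sum, smul_monomial]
    apply Finset.sum_congr rfl
    intro k _
    congr 1
    ring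

variable {D r}

theorem Am_coeff (hD : D ^ (r + 1) = 0) (x : E) (i j : Fin N) (k : ℕ) :
    (Am R D r x i j).coeff k = (k.factorial : ℝ)⁻¹ * R.ρ ((D ^ k) x) i j := by
  show (∑ k ∈ range (r + 1), monomial k ((k.factorial : ℝ)⁻¹ * R.ρ ((D ^ k) x) i j)).coeff k = _
  rw [finsetSum_coeff]
  simp only [coeff_monomial]
  by_cases hk : k ∈ range (r + 1)
  · rw [Finset.sum_eq_single k]
    · rw [if_pos rfl]
    · intro b _ hb
      rw [if_neg hb]
    · intro h
      exact absurd hk h
  · rw [Finset.sum_eq_zero]
    · have : D ^ k = 0 := by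
        rw [mem_range, not_lt] at hk
        exact pow_eq_zero_of_le hk hD
      rw [this]
      simp
    · intro b hb
      rw [if_neg]
      rintro rfl
      exact hk hb

theorem Am_deriv (hD : D ^ (r + 1) = 0) (x : E) (i j : Fin N) :
    derivative (Am R D r x i j) = Am R D r (D x) i j := by
  ext k
  rw [coeff_derivative, Am_coeff R hD, Am_coeff R hD]
  have h1 : (D ^ (k + 1)) x = (D ^ k) (D x) := by
    rw [pow_succ, Module.End.mul_apply]
  rw [h1, Nat.factorial_succ]
  push_cast
  have h2 : ((k : ℝ) + 1) ≠ 0 := by positivity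
  have h3 : ((k.factorial : ℕ) : ℝ) ≠ 0 := by positivity
  field_simp

theorem Am_zero (hD : D ^ (r + 1) = 0) (x : E) (i j : Fin N) :
    (Am R D r x i j).coeff 0 = R.ρ x i j := by
  rw [Am_coeff R hD]
  simp

theorem Am_br (hD : D ^ (r + 1) = 0) (hder : ∀ x y, D (B x y) = B (D x) y + B x (D y)) :
    ∀ (m k l : ℕ), k + l = m → ∀ x y, (D ^ k) x = 0 → (D ^ l) y = 0 →
      Am R D r x * Am R D r y - Am R D r y * Am R D r x - Am R D r (B x y) = 0 := by
  intro m
  induction m with
  | zero =>
    intro k l hkl x y hx hy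
    have : k = 0 := by omega
    subst this
    have : x = 0 := by simpa using hx
    subst this
    simp
  | succ m ih =>
    intro k l hkl x y hx hy
    rcases k with _ | k
    · have : x = 0 := by simpa using hx
      subst this
      simp
    rcases l with _ | l
    · have : y = 0 := by simpa using hy
      subst this
      simp
    have i1 := ih k (l + 1) (by omega) (D x) y (by
      rw [pow_succ, Module.End.mul_apply] at hx; exact hx) hy
    have i2 := ih (k + 1) l (by omega) x (D y) hx (by
      rw [pow_succ, Module.End.mul_apply] at hy; exact hy)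
    ext i j : 2
    have e1 := congrFun (congrFun i1 i) j
    have e2 := congrFun (congrFun i2 i) j
    have hd : derivative ((Am R D r x * Am R D r y - Am R D r y * Am R D r x
        - Am R D r (B x y)) i j) = 0 := by
      simp only [Matrix.sub_apply, Matrix.mul_apply, map_sub, derivative_sum, derivative_mul,
        Am_deriv R hD, hder, map_add, Matrix.add_apply, Matrix.zero_apply,
        Finset.sum_add_distrib] at e1 e2 ⊢
      linear_combination e1 + e2
    have hn := Polynomial.derivative_eq_zero.mp hd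
    rw [eq_C_of_natDegree_eq_zero hn]
    have hc : ((Am R D r x * Am R D r y - Am R D r y * Am R D r x
        - Am R D r (B x y)) i j).coeff 0 = 0 := by
      simp only [Matrix.sub_apply, Matrix.mul_apply, coeff_sub, finsetSum_coeff,
        mul_coeff_zero, Am_zero R hD]
      have := congrFun (congrFun (R.br x y) i) j
      rw [Matrix.sub_apply, Matrix.mul_apply, Matrix.mul_apply] at this
      rw [this]
      ring
    rw [hc]
    simp

/-- vectors all of whose monomials have small weight -/
def Wt (N Rr T a : ℕ) : Submodule ℝ (Fin N → ℝ[X]) where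
  carrier := {v | ∀ (i : Fin N) (d : ℕ), T < a + (i : ℕ) * Rr + d → (v i).coeff d = 0}
  add_mem' := by
    intro u v hu hv i d h
    rw [Pi.add_apply, coeff_add, hu i d h, hv i d h, add_zero]
  zero_mem' := by
    intro i d _
    simp
  smul_mem' := by
    intro c v hv i d h
    rw [Pi.smul_apply, coeff_smul, hv i d h, smul_zero]

theorem Wt_anti (N Rr T : ℕ) : Antitone (Wt N Rr T) := by
  intro a b hab v hv i d h
  exact hv i d (by omega)

/-- multiplication by the matrix -/
noncomputable def opL : E →ₗ[ℝ] ((Fin N → ℝ[X]) →ₗ[ℝ] (Fin N → ℝ[X])) :=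
  LinearMap.mk₂ ℝ (fun x v => (Am R D r x).mulVec v)
    (by intro a b c; rw [map_add, Matrix.add_mulVec])
    (by intro a b c; rw [map_smul, Matrix.smul_mulVec])
    (by intro a b c; rw [Matrix.mulVec_add])
    (by intro a b c; rw [Matrix.mulVec_smul])

theorem opL_apply (x : E) (v : Fin N → ℝ[X]) (i : Fin N) :
    opL R (D := D) (r := r) x v i = ∑ j, Am R D r x i j * v j := rfl

/-- the derivative -/
noncomputable def opD (N : ℕ) : (Fin N → ℝ[X]) →ₗ[ℝ] (Fin N → ℝ[X]) :=
  LinearMap.pi fun i => (derivative : ℝ[X] →ₗ[ℝ] ℝ[X]).comp (LinearMap.proj i)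

theorem opD_apply (v : Fin N → ℝ[X]) (i : Fin N) : opD N v i = derivative (v i) := rfl

theorem opL_wt (hD : D ^ (r + 1) = 0) {T a : ℕ} (x : E) {v : Fin N → ℝ[X]}
    (hv : v ∈ Wt N (r + 1) T a) : opL R (D := D) (r := r) x v ∈ Wt N (r + 1) T (a + 1) := by
  intro i d' h
  rw [opL_apply, finsetSum_coeff]
  apply Finset.sum_eq_zero
  intro j _
  rw [coeff_mul]
  apply Finset.sum_eq_zero
  rintro ⟨e, d⟩ hed
  rw [Finset.HasAntidiagonal.mem_antidiagonal] at hed
  simp only at hed ⊢
  rw [Am_coeff R hD]
  by_cases hji : j ≤ i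
  · rw [R.sup _ i j hji]; simp
  by_cases her : e ≤ r
  · rw [hv j d, mul_zero]
    have hij : (i : ℕ) + 1 ≤ j := by
      rw [not_le, Fin.lt_def] at hji
      exact hji
    have : ((i : ℕ) + 1) * (r + 1) ≤ (j : ℕ) * (r + 1) := Nat.mul_le_mul_right _ hij
    rw [add_mul, one_mul] at this
    omega
  · have : D ^ e = 0 := pow_eq_zero_of_le (by omega) hD
    rw [this]
    simp

theorem opD_wt {Rr T a : ℕ} {v : Fin N → ℝ[X]} (hv : v ∈ Wt N Rr T a) :
    opD N v ∈ Wt N Rr T (a + 1) := by
  intro i d h
  rw [opD_apply, coeff_derivative, hv i (d + 1) (by omega), zero_mul]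

instance (N Rr T : ℕ) : Module.Finite ℝ (Wt N Rr T 0) := by
  let φ : Wt N Rr T 0 →ₗ[ℝ] (Fin N → Fin (T + 1) → ℝ) :=
    { toFun := fun v i d => (v.1 i).coeff d
      map_add' := by
        intro u v
        funext i d
        simp
      map_smul' := by
        intro c v
        funext i d
        simp }
  apply Module.Finite.of_injective φ
  intro u v huv
  apply Subtype.ext
  funext i
  ext d
  by_cases hd : d < T + 1
  · exact congrFun (congrFun huv i) ⟨d, hd⟩
  · rw [u.2 i d (by omega), v.2 i d (by omega)]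

theorem const_mem {Rr T : ℕ} (j : Fin N) (hT : N * Rr ≤ T) :
    (Pi.single j 1 : Fin N → ℝ[X]) ∈ Wt N Rr T 0 := by
  intro i d h
  by_cases hij : i = j
  · subst hij
    rw [Pi.single_eq_same, coeff_one]
    rw [if_neg]
    rintro rfl
    have : (i : ℕ) * Rr ≤ N * Rr := Nat.mul_le_mul_right _ i.2.le
    omega
  · rw [Pi.single_eq_of_ne hij, coeff_zero]

theorem X_mem {Rr T : ℕ} (j : Fin N) (hj : (j : ℕ) = 0) (hT : 1 ≤ T) :
    (Pi.single j X : Fin N → ℝ[X]) ∈ Wt N Rr T 0 := by
  intro i d h
  by_cases hij : i = j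
  · subst hij
    rw [Pi.single_eq_same, coeff_X, if_neg]
    rintro rfl
    rw [hj] at h
    omega
  · rw [Pi.single_eq_of_ne hij, coeff_zero]

include R in
/-- the main step -/
theorem extend_pos (hD : D ^ (r + 1) = 0) (hder : ∀ x y, D (B x y) = B (D x) y + B x (D y))
    (hN : 0 < N) : ∃ N' : ℕ, Nonempty (NilRepD B D N') := by
  classical
  set T : ℕ := N * (r + 1) with hT
  have hT1 : 1 ≤ T := by
    rw [hT]
    exact Nat.one_le_iff_ne_zero.mpr (by positivity)
  let V := Wt N (r + 1) T 0
  have hLV : ∀ x, ∀ v ∈ V, opL R (D := D) (r := r) x v ∈ V := fun x v hv =>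
    Wt_anti N (r + 1) T (Nat.zero_le 1) (opL_wt R hD x hv)
  have hDV : ∀ v ∈ V, opD N v ∈ V := fun v hv =>
    Wt_anti N (r + 1) T (Nat.zero_le 1) (opD_wt hv)
  let LV : E →ₗ[ℝ] Module.End ℝ V :=
    { toFun := fun x => (opL R (D := D) (r := r) x).restrict (hLV x)
      map_add' := by
        intro x y
        apply LinearMap.ext
        intro v
        apply Subtype.ext
        show opL R (D := D) (r := r) (x + y) v.1 = opL R (D := D) (r := r) x v.1
          + opL R (D := D) (r := r) y v.1
        rw [map_add, LinearMap.add_apply]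
      map_smul' := by
        intro c x
        apply LinearMap.ext
        intro v
        apply Subtype.ext
        show opL R (D := D) (r := r) (c • x) v.1 = c • opL R (D := D) (r := r) x v.1
        rw [map_smul, LinearMap.smul_apply] }
  let DV : Module.End ℝ V := (opD N).restrict hDV
  have hLVv : ∀ x (v : V), ((LV x v : V) : Fin N → ℝ[X]) = opL R (D := D) (r := r) x v.1 :=
    fun x v => rfl
  have hDVv : ∀ (v : V), ((DV v : V) : Fin N → ℝ[X]) = opD N v.1 := fun v => rfl
  -- relations
  obtain ⟨k0, hk0⟩ : ∃ k, D ^ k = 0 := ⟨_, hD⟩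
  have hbrA : ∀ x y, Am R D r (B x y) = Am R D r x * Am R D r y - Am R D r y * Am R D r x := by
    intro x y
    have h := Am_br R hD hder _ k0 k0 rfl x y (by rw [hk0]; rfl) (by rw [hk0]; rfl)
    exact (sub_eq_zero.mp h).symm
  have hLVbr : ∀ x y, LV (B x y) = LV x * LV y - LV y * LV x := by
    intro x y
    apply LinearMap.ext
    intro v
    apply Subtype.ext
    show (Am R D r (B x y)).mulVec v.1 = (Am R D r x).mulVec ((Am R D r y).mulVec v.1)
      - (Am R D r y).mulVec ((Am R D r x).mulVec v.1)
    rw [hbrA, Matrix.sub_mulVec, Matrix.mulVec_mulVec, Matrix.mulVec_mulVec]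
  have hLVder : ∀ x, LV (D x) = DV * LV x - LV x * DV := by
    intro x
    apply LinearMap.ext
    intro v
    apply Subtype.ext
    funext i
    show ∑ j, Am R D r (D x) i j * v.1 j
      = derivative (∑ j, Am R D r x i j * v.1 j) - ∑ j, Am R D r x i j * derivative (v.1 j)
    rw [derivative_sum, ← Finset.sum_sub_distrib]
    apply Finset.sum_congr rfl
    intro j _
    rw [derivative_mul, Am_deriv R hD]
    ring
  have hconst : ∀ (x : E), (∀ j : Fin N, opL R (D := D) (r := r) x (Pi.single j 1) = 0) →
      x = 0 := by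
    intro x hx
    apply R.inj
    rw [map_zero]
    ext i j
    have h1 := congrFun (hx j) i
    rw [opL_apply, Finset.sum_eq_single j] at h1
    · rw [Pi.single_eq_same, mul_one] at h1
      rw [← Am_zero R hD x i j, h1]
      simp
    · intro k _ hk
      rw [Pi.single_eq_of_ne hk, mul_zero]
    · intro h
      exact absurd (Finset.mem_univ j) h
  have hDconst : ∀ j : Fin N, opD N (Pi.single j 1 : Fin N → ℝ[X]) = 0 := by
    intro j
    funext i
    rw [opD_apply]
    by_cases hij : i = j
    · subst hij; simp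
    · rw [Pi.single_eq_of_ne hij]; simp
  -- the adapted basis
  obtain ⟨n, b, hb⟩ := exists_adapted (T + 1) V
    (fun a => (Wt N (r + 1) T a).comap V.subtype)
    (by
      rw [eq_top_iff]
      intro v _
      exact v.2)
    (by
      rw [eq_bot_iff]
      intro v hv
      rw [Submodule.mem_bot]
      apply Subtype.ext
      funext i
      ext d
      exact hv i d (by omega))
    (by
      intro i j hij
      exact Submodule.comap_mono (Wt_anti N (r + 1) T hij))
  have hsupL : ∀ x, SUp (LinearMap.toMatrix b b (LV x)) := by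
    intro x i j hij
    rw [LinearMap.toMatrix_apply]
    exact hb (LV x) (fun a v hv => opL_wt R hD x hv) i j hij
  have hsupD : SUp (LinearMap.toMatrix b b DV) := by
    intro i j hij
    rw [LinearMap.toMatrix_apply]
    exact hb DV (fun a v hv => opD_wt hv) i j hij
  let ρ' : E →ₗ[ℝ] Matrix (Fin n) (Fin n) ℝ :=
    (LinearMap.toMatrix b b).toLinearMap.comp LV
  have hρ' : ∀ x, ρ' x = LinearMap.toMatrix b b (LV x) := fun x => rfl
  refine ⟨n, ⟨{
    ρ := ρ'
    inj := ?_
    sup := fun x => hsupL x
    br := ?_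
    M := LinearMap.toMatrix b b DV
    supM := hsupD
    der := ?_
    indep := ?_ }⟩⟩
  · rw [← LinearMap.ker_eq_bot, LinearMap.ker_eq_bot']
    intro x hx
    rw [hρ', map_eq_zero_iff _ (LinearMap.toMatrix b b).injective] at hx
    apply hconst
    intro j
    have h1 := congrArg Subtype.val (LinearMap.congr_fun hx
      (⟨Pi.single j 1, const_mem j (le_refl _)⟩ : V))
    rw [hLVv] at h1
    exact h1
  · intro x y
    rw [hρ', hρ', hρ', hLVbr, ← LinearMap.toMatrix_mul, ← LinearMap.toMatrix_mul]
    exact map_sub (LinearMap.toMatrix b b) (LV x * LV y) (LV y * LV x)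
  · intro x
    show ρ' (D x) = LinearMap.toMatrix b b DV * ρ' x - ρ' x * LinearMap.toMatrix b b DV
    rw [hρ', hρ', hLVder, ← LinearMap.toMatrix_mul, ← LinearMap.toMatrix_mul]
    exact map_sub (LinearMap.toMatrix b b) (DV * LV x) (LV x * DV)
  · intro x a hxa
    have h0 : LinearMap.toMatrix b b (LV x) = LinearMap.toMatrix b b (a • DV) := by
      rw [map_smul]
      exact hxa
    have h1 : LV x = a • DV := (LinearMap.toMatrix b b).injective h0
    have hx0 : x = 0 := by
      apply hconst
      intro j
      have h2 := congrArg Subtype.val (LinearMap.congr_fun h1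
        (⟨Pi.single j 1, const_mem j (le_refl _)⟩ : V))
      rw [hLVv] at h2
      rw [h2]
      show a • opD N (Pi.single j 1 : Fin N → ℝ[X]) = 0
      rw [hDconst, smul_zero]
    rw [hx0, map_zero] at h1
    have h3 := congrArg Subtype.val (LinearMap.congr_fun h1
      (⟨Pi.single ⟨0, hN⟩ X, X_mem ⟨0, hN⟩ rfl hT1⟩ : V))
    have h4 : (0 : Fin N → ℝ[X]) = a • opD N (Pi.single ⟨0, hN⟩ X : Fin N → ℝ[X]) := h3
    have h5 := congrFun h4 ⟨0, hN⟩
    rw [Pi.smul_apply, opD_apply, Pi.single_eq_same, derivative_X, Pi.zero_apply] at h5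
    have h6 := congrArg (fun p : ℝ[X] => p.coeff 0) h5
    simpa using h6.symm

end main

end Pool.Agent.TH429.Birkhoff

namespace Pool.Agent.TH91.LG

open Topology Filter
open scoped ContDiff Manifold

theorem NilRep.extend {E : Type*} [AddCommGroup E] [Module ℝ E] [FiniteDimensional ℝ E]
    {B : E →ₗ[ℝ] E →ₗ[ℝ] E} (hB : NilLie B) {N : ℕ} (R : NilRep B N) (D : Module.End ℝ E)
    (hD : IsNilpotent D) (hder : ∀ x y, D (B x y) = B (D x) y + B x (D y)) :
    ∃ N' : ℕ, Nonempty (NilRepD B D N') := by
  obtain ⟨r, hr⟩ := hD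
  have hr' : D ^ (r + 1) = 0 := by rw [pow_succ, hr, zero_mul]
  rcases Nat.eq_zero_or_pos N with h0 | hpos
  · subst h0
    have hsub : Subsingleton E := by
      constructor
      intro a b
      apply R.inj
      ext i
      exact i.elim0
    refine ⟨2, ⟨{
      ρ := 0
      inj := fun a b _ => Subsingleton.elim a b
      sup := fun x i j _ => rfl
      br := fun x y => by simp
      M := !![0, 1; 0, 0]
      supM := ?_
      der := fun x => by simp
      indep := ?_ }⟩⟩
    · intro i j hij
      fin_cases i <;> fin_cases j <;> simp_all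
    · intro x a h
      have := congrFun (congrFun h 0) 1
      simpa using this.symm
  · exact Pool.Agent.TH429.Birkhoff.extend_pos R hr' hder hpos

end Pool.Agent.TH91.LG
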