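import Pool.Agent.TH91.LG.Defs

/-!
# LG-3b: every nilpotent Lie algebra is strictly upper triangular (induction)
-/

set_option autoImplicit false

namespace Pool.Agent.TH91.LG

open Topology Filter
open scoped ContDiff Manifold

theorem B_neg {E : Type*} [AddCommGroup E] [Module ℝ E] {B : E →ₗ[ℝ] E →ₗ[ℝ] E}
    (hB : NilLie B) (x y : E) : B x y = - B y x := by
  have h := hB.self (x + y)
  simp only [map_add, LinearMap.add_apply, hB.self, zero_add, add_zero] at h
  rw [add_comm] at h
  exact eq_neg_of_add_eq_zero_left h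

theorem derived_ne_top {E : Type*} [AddCommGroup E] [Module ℝ E] [Nontrivial E]
    {B : E →ₗ[ℝ] E →ₗ[ℝ] E} (hB : NilLie B) :
    Submodule.span ℝ {z : E | ∃ x y, z = B x y} ≠ ⊤ := by
  intro htop
  have step : ∀ k : ℕ, (∀ l : List E, l.length = k + 1 →
      (l.map fun x => (B x : Module.End ℝ E)).prod = 0) →
      ∀ l : List E, l.length = k → (l.map fun x => (B x : Module.End ℝ E)).prod = 0 := by
    intro k hk l hl
    apply LinearMap.ext_on htop
    rintro z ⟨a, b, rfl⟩
    have h1 := hk (l ++ [a]) (by simp [hl])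
    rw [List.map_append, List.prod_append] at h1
    have h2 := LinearMap.congr_fun h1 b
    simpa using h2
  obtain ⟨n, hn⟩ := hB.nil
  have down : ∀ k : ℕ, (∀ l : List E, l.length = k →
      (l.map fun x => (B x : Module.End ℝ E)).prod = 0) →
      ∀ l : List E, l.length = 0 → (l.map fun x => (B x : Module.End ℝ E)).prod = 0 := by
    intro k
    induction k with
    | zero => intro h; exact h
    | succ k ih => intro h; exact ih (step k h)
  have h0 := down n hn [] rfl
  rw [List.map_nil, List.prod_nil] at h0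
  obtain ⟨x, hx⟩ := exists_ne (0 : E)
  apply hx
  have := LinearMap.congr_fun h0 x
  simpa using this

theorem exists_nilRep_aux
    (hext : ∀ (E : Type) [AddCommGroup E] [Module ℝ E] [FiniteDimensional ℝ E]
      (B : E →ₗ[ℝ] E →ₗ[ℝ] E), NilLie B → ∀ (N : ℕ), NilRep B N → ∀ (D : Module.End ℝ E),
      IsNilpotent D → (∀ x y, D (B x y) = B (D x) y + B x (D y)) →
      ∃ N' : ℕ, Nonempty (NilRepD B D N')) :
    ∀ (n : ℕ) (E : Type) [AddCommGroup E] [Module ℝ E] [FiniteDimensional ℝ E]
    (B : E →ₗ[ℝ] E →ₗ[ℝ] E), NilLie B → Module.finrank ℝ E = n →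
      ∃ N : ℕ, Nonempty (NilRep B N) := by
  intro n
  induction n using Nat.strong_induction_on with
  | _ n ih =>
  intro E _ _ _ B hB hn
  rcases subsingleton_or_nontrivial E with hsub | hnt
  · refine ⟨0, ⟨⟨0, fun a b _ => Subsingleton.elim a b, ?_, ?_⟩⟩⟩
    · intro x i
      exact i.elim0
    · intro x y
      ext i
      exact i.elim0
  -- a hyperplane containing the derived algebra
  obtain ⟨f, hf0, hfW⟩ := Submodule.exists_le_ker_of_lt_top _
    (lt_top_iff_ne_top.mpr (derived_ne_top hB))
  obtain ⟨Z0, hZ0⟩ : ∃ z, f z ≠ 0 := by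
    by_contra hcon
    push Not at hcon
    exact hf0 (LinearMap.ext hcon)
  set Z : E := (f Z0)⁻¹ • Z0 with hZ
  have hfZ : f Z = 1 := by
    rw [hZ, map_smul, smul_eq_mul, inv_mul_cancel₀ hZ0]
  set V := LinearMap.ker f with hV
  have hVB : ∀ x y, B x y ∈ V := fun x y => hfW (Submodule.subset_span ⟨x, y, rfl⟩)
  have hfB : ∀ x y, f (B x y) = 0 := fun x y => hVB x y
  -- the restricted structure
  let B' : V →ₗ[ℝ] V →ₗ[ℝ] V := LinearMap.mk₂ ℝ (fun v w => ⟨B v w, hVB v w⟩)
    (by intro a b c; ext; simp)
    (by intro a b c; ext; simp)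
    (by intro a b c; ext; simp)
    (by intro a b c; ext; simp)
  have hB'v : ∀ v w : V, ((B' v w : V) : E) = B v w := fun v w => rfl
  let D' : Module.End ℝ V := LinearMap.restrict (B Z) (fun x _ => hVB Z x)
  have hD'v : ∀ v : V, ((D' v : V) : E) = B Z v := fun v => rfl
  have hprod : ∀ (l : List V) (v : V), (((l.map fun x => (B' x : Module.End ℝ V)).prod v : V) : E)
      = ((l.map (fun x : V => (x : E))).map fun x => (B x : Module.End ℝ E)).prod (v : E) := by
    intro l
    induction l with
    | nil => intro v; simp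
    | cons a l ihl =>
      intro v
      simp only [List.map_cons, List.prod_cons, Module.End.mul_apply]
      rw [hB'v, ihl v]
  have hB' : NilLie B' := by
    refine ⟨?_, ?_, ?_⟩
    · intro x
      apply Subtype.ext
      exact hB.self x
    · intro x y z
      apply Subtype.ext
      exact hB.jacobi x y z
    · obtain ⟨m, hm⟩ := hB.nil
      refine ⟨m, fun l hl => ?_⟩
      apply LinearMap.ext
      intro v
      apply Subtype.ext
      rw [hprod l v, hm _ (by rw [List.length_map]; exact hl)]
      rfl
  have hD' : IsNilpotent D' := by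
    obtain ⟨m, hm⟩ := hB.nil
    refine ⟨m, ?_⟩
    have hpow : ∀ (k : ℕ) (v : V), (((D' ^ k) v : V) : E) = ((B Z : Module.End ℝ E) ^ k) v := by
      intro k
      induction k with
      | zero => intro v; simp
      | succ k ihk =>
        intro v
        rw [pow_succ, pow_succ, Module.End.mul_apply, Module.End.mul_apply, ihk (D' v), hD'v]
    apply LinearMap.ext
    intro v
    apply Subtype.ext
    rw [hpow m v]
    have := hm (List.replicate m Z) (List.length_replicate)
    rw [List.map_replicate, List.prod_replicate] at this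
    rw [this]
    rfl
  have hder : ∀ x y, D' (B' x y) = B' (D' x) y + B' x (D' y) := by
    intro x y
    apply Subtype.ext
    exact hB.jacobi Z x y
  have hlt : Module.finrank ℝ V < n := by
    rw [← hn]
    apply Submodule.finrank_lt
    rw [hV]
    intro h
    rw [LinearMap.ker_eq_top] at h
    exact hf0 h
  obtain ⟨N, ⟨R⟩⟩ := ih _ hlt V B' hB' rfl
  obtain ⟨N', ⟨R'⟩⟩ := hext V B' hB' N R D' hD' hder
  -- the projection to `V`
  have hpm : ∀ x, x - f x • Z ∈ V := by
    intro x
    rw [hV, LinearMap.mem_ker, map_sub, map_smul, hfZ, smul_eq_mul, mul_one, sub_self]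
  let P : E →ₗ[ℝ] V :=
    { toFun := fun x => ⟨x - f x • Z, hpm x⟩
      map_add' := by
        intro x y
        apply Subtype.ext
        show x + y - f (x + y) • Z = (x - f x • Z) + (y - f y • Z)
        rw [map_add, add_smul]; abel
      map_smul' := by
        intro c x
        apply Subtype.ext
        show c • x - f (c • x) • Z = c • (x - f x • Z)
        rw [map_smul, smul_sub, smul_eq_mul, mul_smul] }
  have hPv : ∀ x, ((P x : V) : E) = x - f x • Z := fun x => rfl
  let ρ : E →ₗ[ℝ] Matrix (Fin N') (Fin N') ℝ := R'.ρ.comp P + f.smulRight R'.M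
  have hρ : ∀ x, ρ x = R'.ρ (P x) + f x • R'.M := fun x => rfl
  refine ⟨N', ⟨⟨ρ, ?_, ?_, ?_⟩⟩⟩
  · rw [← LinearMap.ker_eq_bot, LinearMap.ker_eq_bot']
    intro x hx
    rw [hρ] at hx
    have h1 : R'.ρ (P x) = (-(f x)) • R'.M := by
      rw [neg_smul]
      exact eq_neg_of_add_eq_zero_left hx
    have h2 : -(f x) = 0 := R'.indep _ _ h1
    have h3 : f x = 0 := by linarith
    rw [h2, zero_smul] at h1
    have h4 : P x = 0 := R'.inj (by rw [h1, map_zero])
    have h5 := hPv x
    rw [h4, h3, zero_smul, sub_zero] at h5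
    exact h5.symm
  · intro x i j hij
    rw [hρ, Matrix.add_apply, Matrix.smul_apply, R'.sup _ i j hij, R'.supM i j hij]
    simp
  · intro x y
    set v := P x with hv
    set w := P y with hw
    have hxv : x = v + f x • Z := by rw [hv, hPv]; abel
    have hyw : y = w + f y • Z := by rw [hw, hPv]; abel
    have hPB : P (B x y) = B' v w + f x • D' w - f y • D' v := by
      apply Subtype.ext
      rw [hPv, hfB, zero_smul, sub_zero]
      show B x y = B v w + f x • B Z w - f y • B Z v
      conv_lhs => rw [hxv, hyw]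
      simp only [map_add, map_smul, LinearMap.add_apply, LinearMap.smul_apply, hB.self,
        smul_zero, add_zero]
      rw [B_neg hB v Z]
      rw [smul_neg]
      abel
    rw [hρ, hρ, hρ, hfB, zero_smul, add_zero, hPB, map_sub, map_add, map_smul, map_smul, R'.br,
      R'.der, R'.der, ← hv, ← hw]
    simp only [add_mul, mul_add, smul_sub, Matrix.smul_mul, Matrix.mul_smul, smul_smul]
    rw [mul_comm (f y) (f x)]
    abel

/-- Every finite dimensional nilpotent real Lie algebra has a faithful representation by strictly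
upper triangular matrices, provided representations can be extended by derivations. -/
theorem exists_nilRep
    (hext : ∀ (E : Type) [AddCommGroup E] [Module ℝ E] [FiniteDimensional ℝ E]
      (B : E →ₗ[ℝ] E →ₗ[ℝ] E), NilLie B → ∀ (N : ℕ), NilRep B N → ∀ (D : Module.End ℝ E),
      IsNilpotent D → (∀ x y, D (B x y) = B (D x) y + B x (D y)) →
      ∃ N' : ℕ, Nonempty (NilRepD B D N'))
    (E : Type) [AddCommGroup E] [Module ℝ E] [FiniteDimensional ℝ E]
    (B : E →ₗ[ℝ] E →ₗ[ℝ] E) (hB : NilLie B) : ∃ N : ℕ, Nonempty (NilRep B N) :=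
  exists_nilRep_aux hext _ E B hB rfl

end Pool.Agent.TH91.LG
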