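import Mathlib

/-!
Job 419 (BL-JC, for MP_9b0829_an): propagation of an integrality property of relations between
exponentials from a dense subalgebra.
-/

set_option autoImplicit false

noncomputable section

namespace Pool.Agent.TH249.JC

open Set Topology selfAdjoint

variable {E : Type} [CStarAlgebra E]

/-- product of exponentials -/
def V {k : ℕ} (K : Fin k → selfAdjoint E) : unitary E :=
  ((List.finRange k).map fun i => expUnitary (K i)).prod

theorem continuous_V {k : ℕ} : Continuous (V : (Fin k → selfAdjoint E) → unitary E) :=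
  continuous_list_prod _ fun i _ => selfAdjoint.continuous_expUnitary.comp (continuous_apply i)

/-- correction term -/
def A {k : ℕ} (K : Fin k → selfAdjoint E) : selfAdjoint E := Unitary.argSelfAdjoint (V K)

/-- sum of the values of a functional -/
def S (f : E →L[ℂ] ℂ) {k : ℕ} (K : Fin k → selfAdjoint E) : ℂ :=
  ((List.finRange k).map fun i => f (K i : E)).sum

theorem continuous_S (f : E →L[ℂ] ℂ) {k : ℕ} :
    Continuous (S f : (Fin k → selfAdjoint E) → ℂ) :=
  continuous_list_sum _ fun i _ =>
    f.continuous.comp (continuous_subtype_val.comp (continuous_apply i))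

theorem mem_exp (F : StarSubalgebra ℂ E) (hF : IsClosed (F : Set E)) (h : selfAdjoint E)
    (hh : (h : E) ∈ F) : (expUnitary h : E) ∈ F := by
  rw [selfAdjoint.expUnitary_coe, ← CFC.exp_eq_normedSpace_exp (𝕜 := ℂ)]
  exact cfc_mem (𝕜 := ℂ) (𝕜' := ℂ) (hs := hF) _ (F.smul_mem hh _)

theorem mem_arg (F : StarSubalgebra ℂ E) (hF : IsClosed (F : Set E)) (u : unitary E)
    (hh : (u : E) ∈ F) : (Unitary.argSelfAdjoint u : E) ∈ F := by
  rw [Unitary.argSelfAdjoint_coe]
  exact cfc_mem (𝕜 := ℂ) (𝕜' := ℂ) (hs := hF) _ hh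

theorem mem_V (F : StarSubalgebra ℂ E) (hF : IsClosed (F : Set E)) {k : ℕ}
    (K : Fin k → selfAdjoint E) (hK : ∀ i, (K i : E) ∈ F) : (V K : E) ∈ F := by
  rw [V]
  generalize List.finRange k = l
  induction l with
  | nil => simp
  | cons a l ih =>
    rw [List.map_cons, List.prod_cons]
    exact mul_mem (mem_exp F hF _ (hK a)) ih

theorem exp_neg (x : selfAdjoint E) : expUnitary x * expUnitary (-x) = 1 := by
  have h : Commute (x : E) ((-x : selfAdjoint E) : E) := by
    rw [AddSubgroup.coe_neg]
    exact (Commute.refl (x : E)).neg_right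
  rw [← h.expUnitary_add, add_neg_cancel, selfAdjoint.expUnitary_zero]

/-- the invariant -/
def Φ (f g : E →L[ℂ] ℂ) {k : ℕ} (K : Fin k → selfAdjoint E) : ℂ × ℂ :=
  (S f K - f (A K : E), S g K - g (A K : E))

/-- the domain -/
def Dom (k : ℕ) : Set (Fin k → selfAdjoint E) := V ⁻¹' Metric.ball 1 2

theorem isOpen_dom {k : ℕ} : IsOpen (Dom (E := E) k) := Metric.isOpen_ball.preimage continuous_V

theorem continuousOn_Φ (f g : E →L[ℂ] ℂ) {k : ℕ} : ContinuousOn (Φ f g) (Dom (E := E) k) := by
  have hA : ContinuousOn (A : (Fin k → selfAdjoint E) → selfAdjoint E) (Dom k) :=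
    Unitary.continuousOn_argSelfAdjoint.comp continuous_V.continuousOn fun K hK => hK
  have hAv : ContinuousOn (fun K : Fin k → selfAdjoint E => (A K : E)) (Dom k) :=
    continuous_subtype_val.comp_continuousOn hA
  exact ((continuous_S f).continuousOn.sub (f.continuous.comp_continuousOn hAv)).prodMk
    ((continuous_S g).continuousOn.sub (g.continuous.comp_continuousOn hAv))

theorem Φ_mem (F : StarSubalgebra ℂ E) (hF : IsClosed (F : Set E)) (f g : E →L[ℂ] ℂ)
    (Γ : Set (ℂ × ℂ))
    (hstage : ∀ (l : List (selfAdjoint E)), (∀ h ∈ l, (h : E) ∈ F) →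
      (l.map selfAdjoint.expUnitary).prod = 1 →
      ((l.map (fun h : selfAdjoint E => f (h : E))).sum,
        (l.map (fun h : selfAdjoint E => g (h : E))).sum) ∈ Γ)
    {k : ℕ} {K : Fin k → selfAdjoint E} (hK : K ∈ Dom k) (hKF : ∀ i, (K i : E) ∈ F) :
    Φ f g K ∈ Γ := by
  have hAF : (A K : E) ∈ F := mem_arg F hF _ (mem_V F hF K hKF)
  have hexp : expUnitary (A K) = V K := by
    apply expUnitary_argSelfAdjoint
    have : dist (V K) 1 < 2 := hK
    rwa [Subtype.dist_eq, dist_eq_norm] at this
  have h := hstage ((List.finRange k).map K ++ [-(A K)]) (by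
    intro h hh
    rw [List.mem_append, List.mem_map] at hh
    rcases hh with ⟨i, -, rfl⟩ | hh
    · exact hKF i
    · rw [List.mem_singleton] at hh
      rw [hh, AddSubgroup.coe_neg]
      exact neg_mem hAF) (by
    rw [List.map_append, List.prod_append, List.map_map, List.map_singleton, List.prod_singleton]
    have e : ((List.finRange k).map (expUnitary ∘ K)).prod = V K := rfl
    rw [e]
    conv_lhs => rw [← hexp]
    exact exp_neg _)
  have key : ∀ f : E →L[ℂ] ℂ, ((((List.finRange k).map K ++ [-(A K)]).map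
      (fun h : selfAdjoint E => f (h : E))).sum) = S f K - f (A K : E) := by
    intro f
    rw [List.map_append, List.sum_append, List.map_map, List.map_singleton, List.sum_singleton,
      AddSubgroup.coe_neg, map_neg, ← sub_eq_add_neg]
    rfl
  rw [key f, key g] at h
  exact h

theorem aux (φ : E → ℂ) (l : List (selfAdjoint E)) :
    List.map φ (l >>= fun a => pure (a : E)) = l.map (fun a : selfAdjoint E => φ (a : E)) := by
  simp only [List.bind_eq_flatMap, List.pure_def]
  induction l with
  | nil => rfl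
  | cons a l ih =>
    rw [List.flatMap_cons, List.map_append, ih, List.map_cons]
    rfl

/-- Propagation of an integrality property of relations between exponentials from a dense
increasing union of closed star subalgebras to the whole algebra. -/
theorem int {E : Type} [CStarAlgebra E] (F : ℕ → StarSubalgebra ℂ E) (hmono : Monotone F)
    (hcl : ∀ n, IsClosed (F n : Set E))
    (hdense : ∀ (y : E) (ε : ℝ), 0 < ε → ∃ n, ∃ x ∈ F n, ‖y - x‖ < ε)
    (f g : E →L[ℂ] ℂ) (Γ : Set (ℂ × ℂ)) (hΓ : Γ.Countable)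
    (hstage : ∀ (n : ℕ) (l : List (selfAdjoint E)), (∀ h ∈ l, (h : E) ∈ F n) →
      (l.map selfAdjoint.expUnitary).prod = 1 →
      ((l.map (fun h => f (h : E))).sum, (l.map (fun h => g (h : E))).sum) ∈ Γ)
    (l : List (selfAdjoint E)) (hl : (l.map selfAdjoint.expUnitary).prod = 1) :
    ((l.map (fun h => f (h : E))).sum, (l.map (fun h => g (h : E))).sum) ∈ Γ := by
  simp only [aux] at hstage ⊢
  obtain ⟨k, H, rfl⟩ : ∃ (k : ℕ) (H : Fin k → selfAdjoint E), l = (List.finRange k).map H :=
    ⟨l.length, l.get, by rw [← List.ofFn_eq_map, List.ofFn_get]⟩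
  have hV : V H = 1 := by
    rw [List.map_map] at hl
    exact hl
  have hH : H ∈ Dom k := by
    change V H ∈ Metric.ball 1 2
    rw [hV]
    exact Metric.mem_ball_self (by norm_num)
  have hA : A H = 0 := by
    rw [A, hV, ← selfAdjoint.expUnitary_zero]
    exact argSelfAdjoint_expUnitary (by rw [norm_zero]; exact Real.pi_pos)
  have hΦH : (((((List.finRange k).map H).map (fun h : selfAdjoint E => f (h : E))).sum),
      ((((List.finRange k).map H).map (fun h : selfAdjoint E => g (h : E))).sum)) = Φ f g H := by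
    rw [Φ, hA, List.map_map, List.map_map]
    have : ((0 : selfAdjoint E) : E) = 0 := rfl
    rw [this, map_zero, map_zero, sub_zero, sub_zero]
    rfl
  rw [hΦH]
  -- a ball
  obtain ⟨δ, hδ, hball⟩ := Metric.isOpen_iff.1 isOpen_dom H hH
  set D : Set (Fin k → selfAdjoint E) :=
    {K | K ∈ Metric.ball H δ ∧ ∃ n, ∀ i, (K i : E) ∈ F n} with hD
  have hDΓ : ∀ K ∈ D, Φ f g K ∈ Γ := by
    rintro K ⟨hK, n, hn⟩
    exact Φ_mem (F n) (hcl n) f g Γ (hstage n) (hball hK) hn
  -- density
  have hdens : ∀ ε : ℝ, 0 < ε → ∃ K ∈ D, dist K H < ε := by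
    intro ε hε
    set η : ℝ := min ε δ / 2 with hη
    have hη0 : 0 < η := by rw [hη]; positivity
    have h1 : ∀ i, ∃ n, ∃ x ∈ F n, ‖(H i : E) - x‖ < η := fun i => hdense _ η hη0
    choose n x hxF hx using h1
    set N : ℕ := Finset.univ.sup n with hN
    have hxN : ∀ i, x i ∈ F N := fun i => hmono (Finset.le_sup (Finset.mem_univ i)) (hxF i)
    have hsa : ∀ i, IsSelfAdjoint ((1 / 2 : ℂ) • (x i + star (x i))) := by
      intro i
      rw [IsSelfAdjoint, star_smul, star_add, star_star, add_comm]
      congr 1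
      simp
    set K : Fin k → selfAdjoint E := fun i => ⟨(1 / 2 : ℂ) • (x i + star (x i)), hsa i⟩ with hK
    have hKF : ∀ i, (K i : E) ∈ F N := by
      intro i
      have hxs : star (x i) ∈ F N := star_mem (hxN i)
      exact (F N).smul_mem (add_mem (hxN i) hxs) _
    have hdist : dist K H ≤ η := by
      rw [dist_pi_le_iff hη0.le]
      intro i
      rw [Subtype.dist_eq, dist_eq_norm]
      change ‖(1 / 2 : ℂ) • (x i + star (x i)) - (H i : E)‖ ≤ η
      have e1 : (1 / 2 : ℂ) • (x i + star (x i)) - (H i : E) =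
          (1 / 2 : ℂ) • ((x i - (H i : E)) + star (x i - (H i : E))) := by
        rw [star_sub]
        have e2 : star (H i : E) = (H i : E) := (H i).2
        rw [e2]
        have : (H i : E) = (1 / 2 : ℂ) • ((H i : E) + (H i : E)) := by
          rw [← two_smul ℂ (H i : E), smul_smul]; norm_num
        conv_lhs => rw [this]
        rw [← smul_sub]
        congr 1
        abel
      rw [e1, norm_smul]
      have h2 : ‖(1 / 2 : ℂ)‖ = 1 / 2 := by norm_num
      rw [h2]
      have h3 : ‖(x i - (H i : E)) + star (x i - (H i : E))‖ ≤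
          ‖x i - (H i : E)‖ + ‖x i - (H i : E)‖ := by
        refine (norm_add_le _ _).trans ?_
        rw [norm_star]
      have h4 := hx i
      rw [norm_sub_rev] at h4
      linarith
    have hlt : dist K H < min ε δ := by
      have : 0 < min ε δ := by positivity
      rw [hη] at hdist
      linarith
    exact ⟨K, ⟨Metric.mem_ball.2 (hlt.trans_le (min_le_right _ _)), N, hKF⟩,
      hlt.trans_le (min_le_left _ _)⟩
  -- constancy
  have hconst : ∀ K ∈ D, ∀ K' ∈ D, Φ f g K = Φ f g K' := by
    rintro K ⟨hK, n, hn⟩ K' ⟨hK', n', hn'⟩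
    have hpath : Continuous fun t : ℝ => AffineMap.lineMap (k := ℝ) K K' t :=
      AffineMap.lineMap_continuous
    have hmem : ∀ t ∈ Icc (0 : ℝ) 1, AffineMap.lineMap (k := ℝ) K K' t ∈ D := by
      intro t ht
      refine ⟨(convex_ball H δ).lineMap_mem hK hK' ht, max n n', fun i => ?_⟩
      have h1 : (K i : E) ∈ F (max n n') := hmono (le_max_left _ _) (hn i)
      have h2 : (K' i : E) ∈ F (max n n') := hmono (le_max_right _ _) (hn' i)
      have e : ((AffineMap.lineMap (k := ℝ) K K' t : Fin k → selfAdjoint E) i : E) =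
          ((1 - t : ℝ) : ℂ) • (K i : E) + ((t : ℝ) : ℂ) • (K' i : E) := by
        rw [AffineMap.lineMap_apply_module]
        simp only [Pi.add_apply, Pi.smul_apply, AddSubgroup.coe_add, selfAdjoint.val_smul,
          Complex.coe_smul]
      rw [e]
      exact add_mem ((F _).smul_mem h1 _) ((F _).smul_mem h2 _)
    have hpre : IsPreconnected ((fun t : ℝ => Φ f g (AffineMap.lineMap (k := ℝ) K K' t)) ''
        Icc (0 : ℝ) 1) := by
      apply isPreconnected_Icc.image
      refine (continuousOn_Φ f g).comp hpath.continuousOn fun t ht => hball (hmem t ht).1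
    have hsub := hΓ.isTotallyDisconnected _ (by
      rintro _ ⟨t, ht, rfl⟩
      exact hDΓ _ (hmem t ht)) hpre
    have h0 : (0 : ℝ) ∈ Icc (0 : ℝ) 1 := left_mem_Icc.2 zero_le_one
    have h1 : (1 : ℝ) ∈ Icc (0 : ℝ) 1 := right_mem_Icc.2 zero_le_one
    have := hsub ⟨0, h0, rfl⟩ ⟨1, h1, rfl⟩
    simpa using this
  -- conclusion
  obtain ⟨K₀, hK₀, -⟩ := hdens 1 one_pos
  have hval : Φ f g H = Φ f g K₀ := by
    by_contra hne
    have hc : ContinuousAt (Φ f g) H := (continuousOn_Φ f g).continuousAt (isOpen_dom.mem_nhds hH)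
    have hev := hc.eventually_ne hne
    obtain ⟨ε, hε, h⟩ := Metric.eventually_nhds_iff.1 hev
    obtain ⟨K, hK, hd⟩ := hdens ε hε
    exact h hd (hconst K hK K₀ hK₀)
  rw [hval]
  exact hDΓ K₀ hK₀

end Pool.Agent.TH249.JC
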