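import Mathlib

/-!
Job 421 (BL-JF, for MP_9b0829_an): perturbation of projections in C*-algebras.
-/

set_option autoImplicit false

noncomputable section

namespace Pool.Agent.TH249.JF

theorem exists_r {B : Type} [CStarAlgebra B] (h : B) (hsa : IsSelfAdjoint h) (h1 : ‖h - 1‖ < 1) :
    ∃ r : B, IsSelfAdjoint r ∧ r * r * h = 1 ∧ h * (r * r) = 1 ∧
      ∀ b, Commute h b → Commute r b := by
  have hspec : ∀ x ∈ spectrum ℝ h, 0 < x := by
    intro x hx
    have e1 : cfc (fun x : ℝ => x - 1) h = h - 1 := by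
      rw [cfc_sub (fun x : ℝ => x) (fun _ => 1) h, cfc_id' ℝ h, cfc_const_one ℝ h]
    have h2 := norm_apply_le_norm_cfc (fun x : ℝ => x - 1) h hx
    rw [e1, Real.norm_eq_abs] at h2
    have h3 := (abs_le.1 h2).1
    linarith
  have hcont : ContinuousOn (fun x : ℝ => (Real.sqrt x)⁻¹) (spectrum ℝ h) := by
    intro x hx
    have hx0 := hspec x hx
    have : Real.sqrt x ≠ 0 := (Real.sqrt_pos.2 hx0).ne'
    exact (Real.continuous_sqrt.continuousAt.inv₀ this).continuousWithinAt
  set r : B := cfc (fun x : ℝ => (Real.sqrt x)⁻¹) h with hr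
  have hc : ∀ b, Commute h b → Commute r b := fun b hb => hb.cfc_real _
  have hrr : r * r * h = 1 := by
    have e1 : r * r = cfc (fun x : ℝ => (Real.sqrt x)⁻¹ * (Real.sqrt x)⁻¹) h := by
      rw [hr, ← cfc_mul _ _ h hcont hcont]
    have e2 : r * r * h = cfc (fun x : ℝ => (Real.sqrt x)⁻¹ * (Real.sqrt x)⁻¹ * x) h := by
      rw [e1]
      conv_lhs => rw [← cfc_id' ℝ h]
      rw [cfc_id' ℝ h]
      rw [cfc_mul (fun x : ℝ => (Real.sqrt x)⁻¹ * (Real.sqrt x)⁻¹) (fun x => x) h
        (hcont.mul hcont) continuousOn_id, cfc_id' ℝ h]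
    rw [e2, ← cfc_const_one ℝ h]
    apply cfc_congr
    intro x hx
    have hx0 := hspec x hx
    have h4 : Real.sqrt x ≠ 0 := (Real.sqrt_pos.2 hx0).ne'
    have h5 : Real.sqrt x * Real.sqrt x = x := Real.mul_self_sqrt hx0.le
    change (Real.sqrt x)⁻¹ * (Real.sqrt x)⁻¹ * x = 1
    nth_rewrite 3 [← h5]
    field_simp
  refine ⟨r, cfc_predicate _ _, hrr, ?_, hc⟩
  have hcr : Commute r h := hc h (Commute.refl h)
  rw [← hrr]
  have : Commute (r * r) h := hcr.mul_left hcr
  exact this.eq.symm

/-- polar decomposition in corners -/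
theorem polar {B : Type} [CStarAlgebra B] (e f y : B) (he : IsStarProjection e)
    (hf : IsStarProjection f) (hy : f * y * e = y) (h1 : ‖star y * y - e‖ < 1)
    (h2 : ‖y * star y - f‖ < 1) : ∃ v : B, star v * v = e ∧ v * star v = f := by
  have hee : e * e = e := he.isIdempotentElem
  have hff : f * f = f := hf.isIdempotentElem
  have hes : star e = e := he.isSelfAdjoint
  have hfs : star f = f := hf.isSelfAdjoint
  have hye : y * e = y := by
    conv_lhs => rw [← hy, mul_assoc, hee, hy]
  have hfy : f * y = y := by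
    conv_lhs => rw [← hy, ← mul_assoc, ← mul_assoc, hff, hy]
  have hey : e * star y = star y := by
    have := congrArg star hye
    rwa [star_mul, hes] at this
  have hyf : star y * f = star y := by
    have := congrArg star hfy
    rwa [star_mul, hfs] at this
  set h : B := star y * y + (1 - e) with hh
  have hsa : IsSelfAdjoint h := by
    rw [hh, IsSelfAdjoint, star_add, star_mul, star_star, star_sub, star_one, hes]
  have hh1 : ‖h - 1‖ < 1 := by
    have : h - 1 = star y * y - e := by rw [hh]; abel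
    rwa [this]
  obtain ⟨r, hr, hrr, hrr', hc⟩ := exists_r h hsa hh1
  have hhe : Commute h e := by
    rw [Commute, SemiconjBy, hh]
    rw [add_mul, mul_add, mul_assoc, hye, ← mul_assoc, hey, sub_mul, mul_sub, one_mul, mul_one, hee]
  have hre : Commute r e := hc e hhe
  have hh2 : h * (1 - e) = 1 - e := by
    rw [hh, add_mul, mul_assoc, mul_sub y, mul_one, hye, sub_self, mul_zero, zero_add, sub_mul,
      one_mul, mul_sub, mul_one, hee, sub_self, sub_zero]
  have hr2 : r * r * (1 - e) = 1 - e := by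
    conv_lhs => rw [← hh2, ← mul_assoc, hrr, one_mul]
  have hyy : star y * y = h - (1 - e) := by rw [hh]; abel
  refine ⟨y * r, ?_, ?_⟩
  · rw [star_mul, hr.star_eq]
    have e1 : r * star y * (y * r) = r * (star y * y) * r := by simp only [mul_assoc]
    have e2 : r * h * r = 1 := by
      have hcr : Commute r h := hc h (Commute.refl h)
      rw [mul_assoc, hcr.eq.symm, ← mul_assoc, hrr]
    have e3 : r * (1 - e) * r = 1 - e := by
      have hc1 : Commute r (1 - e) := (Commute.one_right r).sub_right hre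
      rw [mul_assoc, hc1.eq.symm, ← mul_assoc, hr2]
    rw [e1, hyy, mul_sub, sub_mul, e2, e3, sub_sub_cancel]
  · rw [star_mul, hr.star_eq]
    set w : B := y * r * (r * star y) with hw
    have hws : star w = w := by
      rw [hw, star_mul, star_mul, star_mul, star_star, hr.star_eq]
    have hfw : f * w = w := by
      rw [hw]
      calc f * (y * r * (r * star y)) = (f * y) * (r * (r * star y)) := by simp only [mul_assoc]
        _ = _ := by rw [hfy]; simp only [mul_assoc]
    have hwf : w * f = w := by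
      have := congrArg star hfw
      rwa [star_mul, hfs, hws] at this
    have hwy : w * y = y := by
      have e1 : w * y = y * (r * r * (star y * y)) := by rw [hw]; simp only [mul_assoc]
      rw [e1, hyy, mul_sub (r * r), hrr, hr2, sub_sub_cancel, hye]
    have hg : (f - w) * (y * star y) = 0 := by
      rw [← mul_assoc, sub_mul, hfy, hwy, sub_self, zero_mul]
    have hgf : (f - w) * f = f - w := by rw [sub_mul, hff, hwf]
    have hgn : f - w = (f - w) * (f - y * star y) := by
      rw [mul_sub, hg, sub_zero, hgf]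
    have h3 : ‖f - w‖ ≤ ‖f - w‖ * ‖f - y * star y‖ := by
      conv_lhs => rw [hgn]
      exact norm_mul_le _ _
    rw [norm_sub_rev f (y * star y)] at h3
    have h4 : ‖f - w‖ = 0 := by
      by_contra hne
      have : 0 < ‖f - w‖ := lt_of_le_of_ne (norm_nonneg _) (Ne.symm hne)
      nlinarith
    exact (sub_eq_zero.1 (norm_eq_zero.1 h4)).symm

theorem norm_proj_le {B : Type} [CStarAlgebra B] (e : B) (he : IsStarProjection e) : ‖e‖ ≤ 1 := by
  have hee : e * e = e := he.isIdempotentElem
  have hes : star e = e := he.isSelfAdjoint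
  have h : ‖e‖ * ‖e‖ = ‖e‖ := by
    rw [← CStarRing.norm_star_mul_self, hes, hee]
  by_contra hlt
  push Not at hlt
  nlinarith

theorem close {B : Type} [CStarAlgebra B] (e f : B) (he : IsStarProjection e)
    (hf : IsStarProjection f) (h : ‖e - f‖ < 1) : ∃ v : B, star v * v = e ∧ v * star v = f := by
  have hee : e * e = e := he.isIdempotentElem
  have hff : f * f = f := hf.isIdempotentElem
  have hes : star e = e := he.isSelfAdjoint
  have hfs : star f = f := hf.isSelfAdjoint
  have hne := norm_proj_le e he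
  have hnf := norm_proj_le f hf
  have key : ∀ a b : B, ‖a‖ ≤ 1 → ‖a * b * a‖ ≤ ‖b‖ := by
    intro a b ha
    calc ‖a * b * a‖ ≤ ‖a * b‖ * ‖a‖ := norm_mul_le _ _
      _ ≤ ‖a‖ * ‖b‖ * ‖a‖ := mul_le_mul_of_nonneg_right (norm_mul_le _ _) (norm_nonneg _)
      _ ≤ 1 * ‖b‖ * 1 := by
          apply mul_le_mul _ ha (norm_nonneg _) (by positivity)
          exact mul_le_mul_of_nonneg_right ha (norm_nonneg _)
      _ = ‖b‖ := by ring
  refine polar e f (f * e) he hf ?_ ?_ ?_
  · rw [← mul_assoc, hff, mul_assoc, hee]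
  · have : star (f * e) * (f * e) - e = e * (f - e) * e := by
      rw [star_mul, hes, hfs, mul_sub, sub_mul, hee, hee]
      congr 1
      rw [mul_assoc, ← mul_assoc f f e, hff, ← mul_assoc]
    rw [this]
    refine (key e _ hne).trans_lt ?_
    rwa [norm_sub_rev]
  · have : f * e * star (f * e) - f = f * (e - f) * f := by
      rw [star_mul, hes, hfs, mul_sub, sub_mul, hff, hff]
      congr 1
      rw [mul_assoc, ← mul_assoc e e f, hee, ← mul_assoc]
    rw [this]
    exact (key f _ hnf).trans_lt h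

/-- an element of a closed star subalgebra near a projection gives a nearby projection -/
theorem near {B : Type} [CStarAlgebra B] (F : StarSubalgebra ℂ B) (hF : IsClosed (F : Set B))
    (p : B) (hp : IsStarProjection p) (x : B) (hx : x ∈ F) (h : ‖x - p‖ < 1 / 16) :
    ∃ p' ∈ F, IsStarProjection p' ∧ ‖p' - p‖ < 1 := by
  have hpp : p * p = p := hp.isIdempotentElem
  have hps : star p = p := hp.isSelfAdjoint
  have hnp := norm_proj_le p hp
  set x₀ : B := (1 / 2 : ℂ) • (x + star x) with hx₀
  have hxs : star x ∈ F := star_mem hx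
  have hx₀F : x₀ ∈ F := F.smul_mem (add_mem hx hxs) _
  have hsa : IsSelfAdjoint x₀ := by
    rw [hx₀, IsSelfAdjoint, star_smul, star_add, star_star, add_comm]
    congr 1
    simp
  have hxp : ‖x₀ - p‖ < 1 / 16 := by
    have e1 : x₀ - p = (1 / 2 : ℂ) • ((x - p) + star (x - p)) := by
      rw [hx₀, star_sub, hps]
      have : p = (1 / 2 : ℂ) • (p + p) := by
        rw [← two_smul ℂ p, smul_smul]; norm_num
      conv_lhs => rw [this]
      rw [← smul_sub]
      congr 1
      abel
    rw [e1, norm_smul]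
    have h2 : ‖(1 / 2 : ℂ)‖ = 1 / 2 := by norm_num
    rw [h2]
    have h3 : ‖(x - p) + star (x - p)‖ ≤ ‖x - p‖ + ‖x - p‖ := by
      refine (norm_add_le _ _).trans ?_
      rw [norm_star]
    linarith
  have hnx : ‖x₀‖ ≤ 17 / 16 := by
    have : ‖x₀‖ ≤ ‖x₀ - p‖ + ‖p‖ := by
      have := norm_add_le (x₀ - p) p
      rwa [sub_add_cancel] at this
    linarith
  have hsq : ‖x₀ * x₀ - x₀‖ ≤ 49 / 256 := by
    have e1 : x₀ * x₀ - x₀ = x₀ * (x₀ - p) + (x₀ - p) * p - (x₀ - p) := by
      rw [mul_sub, sub_mul, hpp]; abel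
    rw [e1]
    have h1 : ‖x₀ * (x₀ - p)‖ ≤ 17 / 16 * (1 / 16) :=
      (norm_mul_le _ _).trans (mul_le_mul hnx hxp.le (norm_nonneg _) (by norm_num))
    have h2 : ‖(x₀ - p) * p‖ ≤ 1 / 16 * 1 :=
      (norm_mul_le _ _).trans (mul_le_mul hxp.le hnp (norm_nonneg _) (by norm_num))
    have h3 := norm_sub_le (x₀ * (x₀ - p) + (x₀ - p) * p) (x₀ - p)
    have h4 := norm_add_le (x₀ * (x₀ - p)) ((x₀ - p) * p)
    linarith
  have hspec : ∀ t ∈ spectrum ℝ x₀, |t * t - t| ≤ 49 / 256 := by
    intro t ht
    have e1 : cfc (fun t : ℝ => t * t - t) x₀ = x₀ * x₀ - x₀ := by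
      rw [cfc_sub (fun t : ℝ => t * t) (fun t => t) x₀, cfc_mul (fun t : ℝ => t) (fun t => t) x₀,
        cfc_id' ℝ x₀]
    have h2 := norm_apply_le_norm_cfc (fun t : ℝ => t * t - t) x₀ ht
    rw [e1, Real.norm_eq_abs] at h2
    exact h2.trans hsq
  set χ : ℝ → ℝ := fun t => if t < 1 / 2 then 0 else 1 with hχ
  have hfar : ∀ t ∈ spectrum ℝ x₀, t ≠ 1 / 2 := by
    rintro t ht rfl
    have := hspec _ ht
    norm_num [abs_of_neg] at this
  have hχc : ContinuousOn χ (spectrum ℝ x₀) := by
    intro t ht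
    apply ContinuousAt.continuousWithinAt
    rcases lt_or_gt_of_ne (hfar t ht) with hlt | hgt
    · refine (continuousAt_const (y := (0 : ℝ))).congr ?_
      filter_upwards [isOpen_Iio.mem_nhds hlt] with s hs
      have hs' : s < 1 / 2 := hs
      simp only [hχ, if_pos hs']
    · refine (continuousAt_const (y := (1 : ℝ))).congr ?_
      filter_upwards [isOpen_Ioi.mem_nhds hgt] with s hs
      have hs' : ¬ s < 1 / 2 := not_lt.2 (le_of_lt hs)
      simp only [hχ, if_neg hs']
  have hidem : ∀ t, χ t * χ t = χ t := by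
    intro t
    simp only [hχ]
    split_ifs <;> norm_num
  refine ⟨cfc χ x₀, ?_, ?_, ?_⟩
  · have := Fact.mk hF
    exact cfc_mem (𝕜 := ℝ) (𝕜' := ℂ) (hs := hF) χ hx₀F
  · refine ⟨?_, cfc_predicate _ _⟩
    rw [IsIdempotentElem, ← cfc_mul χ χ x₀ hχc hχc]
    exact cfc_congr fun t _ => hidem t
  · have h5 : ‖cfc χ x₀ - x₀‖ ≤ 1 / 2 := by
      have e1 : cfc (fun t : ℝ => χ t - t) x₀ = cfc χ x₀ - x₀ := by
        rw [cfc_sub χ (fun t => t) x₀ hχc, cfc_id' ℝ x₀]
      rw [← e1]
      refine norm_cfc_le (by norm_num) fun t ht => ?_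
      have h6 := abs_le.1 (hspec t ht)
      rw [Real.norm_eq_abs]
      simp only [hχ]
      split_ifs with hlt
      · rw [zero_sub, abs_neg, abs_le]
        constructor <;> nlinarith
      · push Not at hlt
        rw [abs_le]
        constructor <;> nlinarith
    have h6 : cfc χ x₀ - p = (cfc χ x₀ - x₀) + (x₀ - p) := by abel
    rw [h6]
    have := norm_add_le (cfc χ x₀ - x₀) (x₀ - p)
    linarith

end Pool.Agent.TH249.JF
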