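import Pool.Agent.TH278.Defs

/-!
Job 635 (for MP_c7bdf0_an): geometric interpolation (three lines) for a bilinear form, several
vertices.
-/

set_option autoImplicit false
set_option linter.unusedVariables false

namespace Pool.Agent.TH278

open MeasureTheory Set Complex
open scoped ENNReal RealInnerProductSpace Topology
open Pool.Agent.H438R2.RZ (e Good ft Pl Bump mA mC Arc Win sl SL Bk gA TR)
open Pool.Agent.H789R2.FR (E)

namespace J635

variable {X Y : Type} [MeasurableSpace X] [MeasurableSpace Y] (μ : Measure X)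
    (ν : Measure Y) [IsFiniteMeasure μ] [IsFiniteMeasure ν] (K : X → Y → ℂ)

/-- the form with weights in exponential form -/
noncomputable def BB (u : Y → ℂ) (v : X → ℂ) (f : Y → ℝ) (g : X → ℝ) : ℂ :=
  ∫ x, ∫ y, K x y * (u y * ((Real.exp (f y) : ℝ) : ℂ)) * (v x * ((Real.exp (g x) : ℝ) : ℂ)) ∂ν ∂μ

/-- the analytic family -/
noncomputable def Fam (u : Y → ℂ) (v : X → ℂ) (f0 f1 : Y → ℝ) (g0 g1 : X → ℝ) (w : ℂ)
    (p : X × Y) : ℂ :=
  (K p.1 p.2 * u p.2 * v p.1) *
    cexp (w * ((f1 p.2 - f0 p.2 + (g1 p.1 - g0 p.1) : ℝ) : ℂ) + ((f0 p.2 + g0 p.1 : ℝ) : ℂ))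

theorem two_vertices (hK : Measurable (Function.uncurry K)) {M : ℝ} (hKb : ∀ x y, ‖K x y‖ ≤ M)
    {u : Y → ℂ} (hu : Measurable u) (hub : ∀ y, ‖u y‖ ≤ 1)
    {v : X → ℂ} (hv : Measurable v) (hvb : ∀ x, ‖v x‖ ≤ 1)
    {f0 f1 : Y → ℝ} {g0 g1 : X → ℝ} (hf0 : Measurable f0) (hf1 : Measurable f1)
    (hg0 : Measurable g0) (hg1 : Measurable g1) {Λ : ℝ} (hΛ0 : ∀ y, |f0 y| ≤ Λ)
    (hΛ1 : ∀ y, |f1 y| ≤ Λ) (hΛ2 : ∀ x, |g0 x| ≤ Λ) (hΛ3 : ∀ x, |g1 x| ≤ Λ) {A0 A1 : ℝ}
    (h0 : ∀ (t : ℝ) (v' : X → ℂ), Measurable v' → (∀ x, ‖v' x‖ ≤ 1) →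
      ‖BB μ ν K (fun y => u y * cexp (((t * (f1 y - f0 y) : ℝ) : ℂ) * I)) v' f0 g0‖ ≤ A0)
    (h1 : ∀ (t : ℝ) (v' : X → ℂ), Measurable v' → (∀ x, ‖v' x‖ ≤ 1) →
      ‖BB μ ν K (fun y => u y * cexp (((t * (f1 y - f0 y) : ℝ) : ℂ) * I)) v' f1 g1‖ ≤ A1)
    {σ : ℝ} (hσ0 : 0 ≤ σ) (hσ1 : σ ≤ 1) :
    ‖BB μ ν K u v (fun y => (1 - σ) * f0 y + σ * f1 y) (fun x => (1 - σ) * g0 x + σ * g1 x)‖ ≤
      A0 ^ (1 - σ) * A1 ^ σ := by
  rcases isEmpty_or_nonempty X with hX | hX
  · -- trivial case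
    have hz : ∀ (u : Y → ℂ) (v : X → ℂ) (f : Y → ℝ) (g : X → ℝ), BB μ ν K u v f g = 0 := by
      intro u v f g
      unfold BB
      have : μ = 0 := Measure.eq_zero_of_isEmpty μ
      rw [this, integral_zero_measure]
    have a0 := h0 0 v hv hvb
    have a1 := h1 0 v hv hvb
    rw [hz, norm_zero] at *
    positivity
  rcases isEmpty_or_nonempty Y with hY | hY
  · have hz : ∀ (u : Y → ℂ) (v : X → ℂ) (f : Y → ℝ) (g : X → ℝ), BB μ ν K u v f g = 0 := by
      intro u v f g
      unfold BB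
      have : ν = 0 := Measure.eq_zero_of_isEmpty ν
      rw [this]
      simp
    have a0 := h0 0 v hv hvb
    have a1 := h1 0 v hv hvb
    rw [hz, norm_zero] at *
    positivity
  obtain ⟨x₀⟩ := hX
  obtain ⟨y₀⟩ := hY
  have hM : 0 ≤ M := (norm_nonneg _).trans (hKb x₀ y₀)
  have hΛ : 0 ≤ Λ := (abs_nonneg _).trans (hΛ0 y₀)
  set F := Fam K u v f0 f1 g0 g1 with hF
  set l : X × Y → ℝ := fun p => f1 p.2 - f0 p.2 + (g1 p.1 - g0 p.1) with hl
  set m : X × Y → ℝ := fun p => f0 p.2 + g0 p.1 with hm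
  set a : X × Y → ℂ := fun p => K p.1 p.2 * u p.2 * v p.1 with ha
  have hFw : ∀ w p, F w p = a p * cexp (w * ((l p : ℝ) : ℂ) + ((m p : ℝ) : ℂ)) := fun _ _ => rfl
  have hlm : Measurable l := by
    rw [hl]; fun_prop
  have hmm : Measurable m := by
    rw [hm]; fun_prop
  have ham : Measurable a := by
    have h2 : Measurable fun p : X × Y => K p.1 p.2 := hK
    rw [ha]
    exact (h2.mul (hu.comp measurable_snd)).mul (hv.comp measurable_fst)
  have hlb : ∀ p, |l p| ≤ 4 * Λ := by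
    intro p
    have h2 := abs_le.1 (hΛ0 p.2)
    have h3 := abs_le.1 (hΛ1 p.2)
    have h4 := abs_le.1 (hΛ2 p.1)
    have h5 := abs_le.1 (hΛ3 p.1)
    simp only [hl]
    rw [abs_le]
    constructor <;> linarith [h2.1, h2.2, h3.1, h3.2, h4.1, h4.2, h5.1, h5.2]
  have hmb : ∀ p, |m p| ≤ 2 * Λ := by
    intro p
    have h2 := abs_le.1 (hΛ0 p.2)
    have h4 := abs_le.1 (hΛ2 p.1)
    simp only [hm]
    rw [abs_le]
    constructor <;> linarith [h2.1, h2.2, h4.1, h4.2]
  have hab : ∀ p, ‖a p‖ ≤ M := by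
    intro p
    simp only [ha, norm_mul]
    calc ‖K p.1 p.2‖ * ‖u p.2‖ * ‖v p.1‖ ≤ M * 1 * 1 := by
          apply mul_le_mul _ (hvb _) (norm_nonneg _) (by positivity)
          exact mul_le_mul (hKb _ _) (hub _) (norm_nonneg _) hM
      _ = M := by ring
  have hexp : ∀ (w : ℂ) (R : ℝ), |w.re| ≤ R → ∀ p,
      ‖cexp (w * ((l p : ℝ) : ℂ) + ((m p : ℝ) : ℂ))‖ ≤ Real.exp (R * (4 * Λ) + 2 * Λ) := by
    intro w R hw p
    rw [Complex.norm_exp]
    apply Real.exp_le_exp.2
    have h2 : (w * ((l p : ℝ) : ℂ) + ((m p : ℝ) : ℂ)).re = w.re * l p + m p := by simp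
    rw [h2]
    have h3 : w.re * l p ≤ R * (4 * Λ) := by
      refine (le_abs_self _).trans ?_
      rw [abs_mul]
      exact mul_le_mul hw (hlb p) (abs_nonneg _) ((abs_nonneg _).trans hw)
    have h4 := (le_abs_self _).trans (hmb p)
    linarith
  have hFm : ∀ w, Measurable (F w) := by
    intro w
    have : F w = fun p => a p * cexp (w * ((l p : ℝ) : ℂ) + ((m p : ℝ) : ℂ)) := by
      funext p; exact hFw w p
    rw [this]
    refine ham.mul (Complex.measurable_exp.comp ?_)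
    exact ((Complex.measurable_ofReal.comp hlm).const_mul w).add
      (Complex.measurable_ofReal.comp hmm)
  have hFb : ∀ (w : ℂ) (R : ℝ), |w.re| ≤ R → ∀ p,
      ‖F w p‖ ≤ M * Real.exp (R * (4 * Λ) + 2 * Λ) := by
    intro w R hw p
    rw [hFw, norm_mul]
    exact mul_le_mul (hab p) (hexp w R hw p) (norm_nonneg _) hM
  have hFi : ∀ w, Integrable (F w) (μ.prod ν) := fun w =>
    Integrable.of_bound (hFm w).aestronglyMeasurable (M * Real.exp (|w.re| * (4 * Λ) + 2 * Λ))
      (Filter.Eventually.of_forall (hFb w _ le_rfl))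
  set Φ : ℂ → ℂ := fun w => ∫ p, F w p ∂(μ.prod ν) with hΦ
  -- differentiability
  have hdiff : Differentiable ℂ Φ := by
    intro w₀
    have h2 := hasDerivAt_integral_of_dominated_loc_of_deriv_le (μ := μ.prod ν) (𝕜 := ℂ)
      (F := F) (x₀ := w₀) (s := Metric.ball w₀ 1)
      (F' := fun w p => F w p * ((l p : ℝ) : ℂ))
      (bound := fun _ => M * Real.exp ((|w₀.re| + 1) * (4 * Λ) + 2 * Λ) * (4 * Λ))
      (Metric.ball_mem_nhds w₀ one_pos)
      (Filter.Eventually.of_forall fun w => (hFm w).aestronglyMeasurable) (hFi w₀)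
      ((hFm w₀).mul (Complex.measurable_ofReal.comp hlm)).aestronglyMeasurable
      (Filter.Eventually.of_forall fun p w hw => by
        rw [norm_mul, Complex.norm_real, Real.norm_eq_abs]
        have h3 : |w.re| ≤ |w₀.re| + 1 := by
          have h4 : |(w - w₀).re| ≤ ‖w - w₀‖ := Complex.abs_re_le_norm _
          have h5 : ‖w - w₀‖ < 1 := mem_ball_iff_norm.1 hw
          rw [Complex.sub_re] at h4
          have h6 := abs_sub_abs_le_abs_sub w.re w₀.re
          linarith
        exact mul_le_mul (hFb w _ h3 p) (hlb p) (abs_nonneg _) (by positivity))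
      (integrable_const _)
      (Filter.Eventually.of_forall fun p w _ => by
        have h3 : HasDerivAt (fun w : ℂ => w * ((l p : ℝ) : ℂ) + ((m p : ℝ) : ℂ))
            ((l p : ℝ) : ℂ) w := by
          simpa using ((hasDerivAt_id w).mul_const ((l p : ℝ) : ℂ)).add_const ((m p : ℝ) : ℂ)
        have h4 := (h3.cexp).const_mul (a p)
        have h5 : (fun w => F w p) = fun w => a p * cexp (w * ((l p : ℝ) : ℂ) + ((m p : ℝ) : ℂ)) := by
          funext w; exact hFw w p
        rw [h5, hFw]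
        refine h4.congr_deriv ?_
        ring)
    exact h2.2.differentiableAt
  -- relation with the form
  have hBB : ∀ (u' : Y → ℂ) (v' : X → ℂ) (f : Y → ℝ) (g : X → ℝ) (w : ℂ),
      (∀ x y, K x y * (u' y * ((Real.exp (f y) : ℝ) : ℂ)) * (v' x * ((Real.exp (g x) : ℝ) : ℂ)) =
        F w (x, y)) → BB μ ν K u' v' f g = Φ w := by
    intro u' v' f g w h
    unfold BB
    rw [hΦ]
    simp only
    rw [integral_prod _ (hFi w)]
    refine integral_congr_ae (Filter.Eventually.of_forall fun x => ?_)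
    refine integral_congr_ae (Filter.Eventually.of_forall fun y => ?_)
    exact h x y
  have hmain := Complex.HadamardThreeLines.norm_le_interp_of_mem_verticalClosedStrip₀₁' Φ
    (z := (σ : ℂ)) (a := A0) (b := A1) (by
      rw [Complex.HadamardThreeLines.verticalClosedStrip, mem_preimage, Complex.ofReal_re]
      exact ⟨hσ0, hσ1⟩) hdiff.diffContOnCl (by
      refine ⟨M * Real.exp (1 * (4 * Λ) + 2 * Λ) * (μ.prod ν).real univ, ?_⟩
      rintro _ ⟨w, hw, rfl⟩
      rw [Complex.HadamardThreeLines.verticalClosedStrip, mem_preimage] at hw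
      apply norm_integral_le_of_norm_le_const
      refine Filter.Eventually.of_forall (hFb w 1 ?_)
      rw [abs_le]
      exact ⟨by linarith [hw.1], hw.2⟩) (by
      intro z hz
      have hz0 : z.re = 0 := hz
      have hzI : z = ((z.im : ℝ) : ℂ) * I := by
        apply Complex.ext <;> simp [hz0]
      rw [← hBB (fun y => u y * cexp (((z.im * (f1 y - f0 y) : ℝ) : ℂ) * I))
        (fun x => v x * cexp (((z.im * (g1 x - g0 x) : ℝ) : ℂ) * I)) f0 g0 z (by
          intro x y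
          rw [hFw]
          simp only [ha, hl, hm]
          rw [Complex.ofReal_exp, Complex.ofReal_exp]
          have e1 : cexp (z * ((f1 y - f0 y + (g1 x - g0 x) : ℝ) : ℂ) + ((f0 y + g0 x : ℝ) : ℂ)) =
              cexp (((z.im * (f1 y - f0 y) : ℝ) : ℂ) * I) * cexp ((f0 y : ℝ) : ℂ) *
                (cexp (((z.im * (g1 x - g0 x) : ℝ) : ℂ) * I) * cexp ((g0 x : ℝ) : ℂ)) := by
            rw [← Complex.exp_add, ← Complex.exp_add, ← Complex.exp_add]
            congr 1
            conv_lhs => rw [hzI]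
            push_cast
            ring
          rw [e1]
          ring)]
      refine h0 z.im _ ?_ ?_
      · refine hv.mul (Complex.measurable_exp.comp ?_)
        exact (Complex.measurable_ofReal.comp ((hg1.sub hg0).const_mul z.im)).mul_const I
      · intro x
        rw [norm_mul, Complex.norm_exp_ofReal_mul_I, mul_one]
        exact hvb x) (by
      intro z hz
      have hz0 : z.re = 1 := hz
      have hzI : z = 1 + ((z.im : ℝ) : ℂ) * I := by
        apply Complex.ext <;> simp [hz0]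
      rw [← hBB (fun y => u y * cexp (((z.im * (f1 y - f0 y) : ℝ) : ℂ) * I))
        (fun x => v x * cexp (((z.im * (g1 x - g0 x) : ℝ) : ℂ) * I)) f1 g1 z (by
          intro x y
          rw [hFw]
          simp only [ha, hl, hm]
          rw [Complex.ofReal_exp, Complex.ofReal_exp]
          have e1 : cexp (z * ((f1 y - f0 y + (g1 x - g0 x) : ℝ) : ℂ) + ((f0 y + g0 x : ℝ) : ℂ)) =
              cexp (((z.im * (f1 y - f0 y) : ℝ) : ℂ) * I) * cexp ((f1 y : ℝ) : ℂ) *
                (cexp (((z.im * (g1 x - g0 x) : ℝ) : ℂ) * I) * cexp ((g1 x : ℝ) : ℂ)) := by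
            rw [← Complex.exp_add, ← Complex.exp_add, ← Complex.exp_add]
            congr 1
            conv_lhs => rw [hzI]
            push_cast
            ring
          rw [e1]
          ring)]
      refine h1 z.im _ ?_ ?_
      · refine hv.mul (Complex.measurable_exp.comp ?_)
        exact (Complex.measurable_ofReal.comp ((hg1.sub hg0).const_mul z.im)).mul_const I
      · intro x
        rw [norm_mul, Complex.norm_exp_ofReal_mul_I, mul_one]
        exact hvb x)
  rw [Complex.ofReal_re] at hmain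
  rw [hBB u v _ _ (σ : ℂ) (by
    intro x y
    rw [hFw]
    simp only [ha, hl, hm]
    rw [Complex.ofReal_exp, Complex.ofReal_exp]
    have e1 : cexp ((σ : ℂ) * ((f1 y - f0 y + (g1 x - g0 x) : ℝ) : ℂ) + ((f0 y + g0 x : ℝ) : ℂ)) =
        cexp (((1 - σ) * f0 y + σ * f1 y : ℝ) : ℂ) * cexp (((1 - σ) * g0 x + σ * g1 x : ℝ) : ℂ) := by
      rw [← Complex.exp_add]
      congr 1
      push_cast
      ring
    rw [e1]
    ring)]
  exact hmain

end J635

open J635

theorem geo_interp {X Y : Type} [MeasurableSpace X] [MeasurableSpace Y] (μ : Measure X)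
    (ν : Measure Y) [IsFiniteMeasure μ] [IsFiniteMeasure ν] (K : X → Y → ℂ)
    (hK : Measurable (Function.uncurry K)) (hKb : ∃ M : ℝ, ∀ x y, ‖K x y‖ ≤ M)
    {ι : Type} (S : Finset ι) (θ : ι → ℝ) (hθ : ∀ c ∈ S, 0 ≤ θ c) (hsum : ∑ c ∈ S, θ c = 1)
    (F : ι → Y → ℝ) (R : ι → X → ℝ) (hF : ∀ c ∈ S, Measurable (F c)) (hR : ∀ c ∈ S, Measurable (R c))
    (hFb : ∀ c ∈ S, ∃ m M : ℝ, 0 < m ∧ ∀ y, m ≤ F c y ∧ F c y ≤ M)
    (hRb : ∀ c ∈ S, ∃ m M : ℝ, 0 < m ∧ ∀ x, m ≤ R c x ∧ R c x ≤ M)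
    (A : ι → ℝ) (hA : ∀ c ∈ S, 0 ≤ A c) (P : (Y → ℂ) → Prop)
    (hP1 : ∀ u, P u → Measurable u ∧ ∀ y, ‖u y‖ ≤ 1)
    (hP2 : ∀ u, P u → ∀ c ∈ S, ∀ t : ℝ,
      P (fun y => u y * Complex.exp (((t * Real.log (F c y) : ℝ) : ℂ) * I)))
    (hv : ∀ c ∈ S, ∀ (u : Y → ℂ) (v : X → ℂ), P u → Measurable v → (∀ x, ‖v x‖ ≤ 1) →
      ‖∫ x, ∫ y, K x y * (u y * ((F c y : ℝ) : ℂ)) * (v x * ((R c x : ℝ) : ℂ)) ∂ν ∂μ‖ ≤ A c) :
    ∀ (u : Y → ℂ) (v : X → ℂ), P u → Measurable v → (∀ x, ‖v x‖ ≤ 1) →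
      ‖∫ x, ∫ y, K x y * (u y * ((∏ c ∈ S, F c y ^ θ c : ℝ) : ℂ)) *
        (v x * ((∏ c ∈ S, R c x ^ θ c : ℝ) : ℂ)) ∂ν ∂μ‖ ≤ ∏ c ∈ S, A c ^ θ c := by
  classical
  obtain ⟨M, hM⟩ := hKb
  set f : ι → Y → ℝ := fun c y => Real.log (F c y) with hf
  set g : ι → X → ℝ := fun c x => Real.log (R c x) with hg
  have hFpos : ∀ c ∈ S, ∀ y, 0 < F c y := by
    intro c hc y
    obtain ⟨m, M, hm, h⟩ := hFb c hc
    exact hm.trans_le (h y).1
  have hRpos : ∀ c ∈ S, ∀ x, 0 < R c x := by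
    intro c hc x
    obtain ⟨m, M, hm, h⟩ := hRb c hc
    exact hm.trans_le (h x).1
  have hfm : ∀ c ∈ S, Measurable (f c) := fun c hc => Real.measurable_log.comp (hF c hc)
  have hgm : ∀ c ∈ S, Measurable (g c) := fun c hc => Real.measurable_log.comp (hR c hc)
  have hlogb : ∀ (m M r : ℝ), 0 < m → m ≤ r → r ≤ M →
      |Real.log r| ≤ |Real.log m| + |Real.log M| := by
    intro m M r hm h1 h2
    have h3 := Real.log_le_log hm h1
    have h4 := Real.log_le_log (hm.trans_le h1) h2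
    rw [abs_le]
    constructor
    · have := neg_abs_le (Real.log m)
      have := abs_nonneg (Real.log M)
      linarith
    · have := le_abs_self (Real.log M)
      have := abs_nonneg (Real.log m)
      linarith
  have hfb : ∀ c ∈ S, ∃ Λ, ∀ y, |f c y| ≤ Λ := by
    intro c hc
    obtain ⟨m, M, hm, h⟩ := hFb c hc
    exact ⟨_, fun y => hlogb m M _ hm (h y).1 (h y).2⟩
  have hgb : ∀ c ∈ S, ∃ Λ, ∀ x, |g c x| ≤ Λ := by
    intro c hc
    obtain ⟨m, M, hm, h⟩ := hRb c hc
    exact ⟨_, fun y => hlogb m M _ hm (h y).1 (h y).2⟩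
  -- closure of `P`
  have hPcl : ∀ T ⊆ S, ∀ (a : ι → ℝ) (u : Y → ℂ), P u →
      P (fun y => u y * Complex.exp (((∑ c ∈ T, a c * f c y : ℝ) : ℂ) * I)) := by
    intro T
    induction T using Finset.induction_on with
    | empty =>
      intro _ a u hu
      simpa using hu
    | insert c T hcT ih =>
      intro hTS a u hu
      have h1 := ih ((Finset.subset_insert _ _).trans hTS) a u hu
      have h2 := hP2 _ h1 c (hTS (Finset.mem_insert_self _ _)) (a c)
      convert h2 using 1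
      funext y
      rw [Finset.sum_insert hcT, mul_assoc, ← Complex.exp_add]
      congr 2
      simp only [hf]
      push_cast
      ring
  -- finite linear combinations are bounded
  have hlinf : ∀ T ⊆ S, ∀ a : ι → ℝ, ∃ Λ, ∀ y, |∑ c ∈ T, a c * f c y| ≤ Λ := by
    intro T hT a
    choose! Λ hΛ using hfb
    refine ⟨∑ c ∈ T, |a c| * Λ c, fun y => (Finset.abs_sum_le_sum_abs _ _).trans ?_⟩
    refine Finset.sum_le_sum fun c hc => ?_
    rw [abs_mul]
    exact mul_le_mul_of_nonneg_left (hΛ c (hT hc) y) (abs_nonneg _)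
  have hling : ∀ T ⊆ S, ∀ a : ι → ℝ, ∃ Λ, ∀ x, |∑ c ∈ T, a c * g c x| ≤ Λ := by
    intro T hT a
    choose! Λ hΛ using hgb
    refine ⟨∑ c ∈ T, |a c| * Λ c, fun y => (Finset.abs_sum_le_sum_abs _ _).trans ?_⟩
    refine Finset.sum_le_sum fun c hc => ?_
    rw [abs_mul]
    exact mul_le_mul_of_nonneg_left (hΛ c (hT hc) y) (abs_nonneg _)
  have hv' : ∀ c ∈ S, ∀ (u : Y → ℂ) (v : X → ℂ), P u → Measurable v → (∀ x, ‖v x‖ ≤ 1) →
      ‖BB μ ν K u v (f c) (g c)‖ ≤ A c := by
    intro c hc u v hu hvm hvb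
    have h1 := hv c hc u v hu hvm hvb
    unfold BB
    have e1 : ∀ x y, K x y * (u y * ((Real.exp (f c y) : ℝ) : ℂ)) *
        (v x * ((Real.exp (g c x) : ℝ) : ℂ)) =
        K x y * (u y * ((F c y : ℝ) : ℂ)) * (v x * ((R c x : ℝ) : ℂ)) := by
      intro x y
      simp only [hf, hg]
      rw [Real.exp_log (hFpos c hc y), Real.exp_log (hRpos c hc x)]
    simp only [e1]
    exact h1
  -- the induction
  have claim : ∀ T ⊆ S, ∀ θ : ι → ℝ, (∀ c ∈ T, 0 ≤ θ c) → ∑ c ∈ T, θ c = 1 →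
      ∀ (u : Y → ℂ) (v : X → ℂ), P u → Measurable v → (∀ x, ‖v x‖ ≤ 1) →
      ‖BB μ ν K u v (fun y => ∑ c ∈ T, θ c * f c y) (fun x => ∑ c ∈ T, θ c * g c x)‖ ≤
        ∏ c ∈ T, A c ^ θ c := by
    intro T
    induction T using Finset.induction_on with
    | empty =>
      intro _ θ _ hs
      simp at hs
    | insert c₀ T hcT ih =>
      intro hTS θ hθ hs u v hu hvm hvb
      have hc₀S : c₀ ∈ S := hTS (Finset.mem_insert_self _ _)
      have hTS' : T ⊆ S := (Finset.subset_insert _ _).trans hTS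
      have hθT : ∀ c ∈ T, 0 ≤ θ c := fun c hc => hθ c (Finset.mem_insert_of_mem hc)
      have hθ0 : 0 ≤ θ c₀ := hθ c₀ (Finset.mem_insert_self _ _)
      rw [Finset.sum_insert hcT] at hs
      have hsT : ∑ c ∈ T, θ c = 1 - θ c₀ := by linarith
      have hsT0 : 0 ≤ ∑ c ∈ T, θ c := Finset.sum_nonneg hθT
      simp only [Finset.sum_insert hcT, Finset.prod_insert hcT]
      by_cases h1 : θ c₀ = 1
      · have hz : ∀ c ∈ T, θ c = 0 := by
          rw [h1, sub_self] at hsT
          exact (Finset.sum_eq_zero_iff_of_nonneg hθT).1 hsT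
        have e1 : (fun y => θ c₀ * f c₀ y + ∑ c ∈ T, θ c * f c y) = f c₀ := by
          funext y
          rw [h1, one_mul, Finset.sum_eq_zero, add_zero]
          intro c hc
          rw [hz c hc, zero_mul]
        have e2 : (fun x => θ c₀ * g c₀ x + ∑ c ∈ T, θ c * g c x) = g c₀ := by
          funext y
          rw [h1, one_mul, Finset.sum_eq_zero, add_zero]
          intro c hc
          rw [hz c hc, zero_mul]
        have e3 : A c₀ ^ θ c₀ * ∏ c ∈ T, A c ^ θ c = A c₀ := by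
          rw [h1, Real.rpow_one, Finset.prod_eq_one, mul_one]
          intro c hc
          rw [hz c hc, Real.rpow_zero]
        rw [e1, e2, e3]
        exact hv' c₀ hc₀S u v hu hvm hvb
      · have hlt : 0 < 1 - θ c₀ := by
          have : θ c₀ ≤ 1 := by linarith
          have : θ c₀ < 1 := lt_of_le_of_ne this h1
          linarith
        set θ' : ι → ℝ := fun c => θ c / (1 - θ c₀) with hθ'
        have hθ'0 : ∀ c ∈ T, 0 ≤ θ' c := fun c hc => div_nonneg (hθT c hc) hlt.le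
        have hθ's : ∑ c ∈ T, θ' c = 1 := by
          rw [hθ', ← Finset.sum_div, hsT, div_self hlt.ne']
        have hih := ih hTS' θ' hθ'0 hθ's
        set f' : Y → ℝ := fun y => ∑ c ∈ T, θ' c * f c y with hf'
        set g' : X → ℝ := fun x => ∑ c ∈ T, θ' c * g c x with hg'
        have hf'm : Measurable f' :=
          Finset.measurable_fun_sum T fun c hc => (hfm c (hTS' hc)).const_mul _
        have hg'm : Measurable g' :=
          Finset.measurable_fun_sum T fun c hc => (hgm c (hTS' hc)).const_mul _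
        obtain ⟨Λ1, hΛ1⟩ := hlinf T hTS' θ'
        obtain ⟨Λ2, hΛ2⟩ := hling T hTS' θ'
        obtain ⟨Λ3, hΛ3⟩ := hfb c₀ hc₀S
        obtain ⟨Λ4, hΛ4⟩ := hgb c₀ hc₀S
        set Λ := max (max Λ1 Λ2) (max Λ3 Λ4) with hΛ
        have hPt : ∀ t : ℝ, P (fun y => u y * cexp (((t * (f c₀ y - f' y) : ℝ) : ℂ) * I)) := by
          intro t
          have h2 := hP2 _ (hPcl T hTS' (fun c => -(t * θ' c)) u hu) c₀ hc₀S t
          convert h2 using 1
          funext y
          rw [mul_assoc, ← Complex.exp_add, ← add_mul, ← Complex.ofReal_add]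
          have : t * (f c₀ y - f' y) =
              ∑ c ∈ T, -(t * θ' c) * f c y + t * Real.log (F c₀ y) := by
            have h3 : ∑ c ∈ T, -(t * θ' c) * f c y = -(t * f' y) := by
              rw [hf', Finset.mul_sum, ← Finset.sum_neg_distrib]
              refine Finset.sum_congr rfl fun c _ => ?_
              ring
            rw [h3]
            simp only [hf]
            ring
          rw [this]
        have h2 := two_vertices μ ν K hK hM (hP1 u hu).1 (hP1 u hu).2 hvm hvb hf'm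
          (hfm c₀ hc₀S) hg'm (hgm c₀ hc₀S) (Λ := Λ)
          (fun y => (hΛ1 y).trans ((le_max_left _ _).trans (le_max_left _ _)))
          (fun y => (hΛ3 y).trans ((le_max_left _ _).trans (le_max_right _ _)))
          (fun x => (hΛ2 x).trans ((le_max_right _ _).trans (le_max_left _ _)))
          (fun x => (hΛ4 x).trans ((le_max_right _ _).trans (le_max_right _ _)))
          (A0 := ∏ c ∈ T, A c ^ θ' c) (A1 := A c₀)
          (fun t v' hv'm hv'b => hih _ v' (hPt t) hv'm hv'b)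
          (fun t v' hv'm hv'b => hv' c₀ hc₀S _ v' (hPt t) hv'm hv'b) hθ0
          (show θ c₀ ≤ 1 by linarith)
        have e1 : (fun y => (1 - θ c₀) * f' y + θ c₀ * f c₀ y) =
            fun y => θ c₀ * f c₀ y + ∑ c ∈ T, θ c * f c y := by
          funext y
          rw [add_comm, hf', Finset.mul_sum]
          congr 1
          refine Finset.sum_congr rfl fun c _ => ?_
          simp only [hθ']
          field_simp
        have e2 : (fun x => (1 - θ c₀) * g' x + θ c₀ * g c₀ x) =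
            fun x => θ c₀ * g c₀ x + ∑ c ∈ T, θ c * g c x := by
          funext y
          rw [add_comm, hg', Finset.mul_sum]
          congr 1
          refine Finset.sum_congr rfl fun c _ => ?_
          simp only [hθ']
          field_simp
        have e3 : (∏ c ∈ T, A c ^ θ' c) ^ (1 - θ c₀) = ∏ c ∈ T, A c ^ θ c := by
          rw [← Real.finsetProd_rpow _ _ (fun c hc => Real.rpow_nonneg (hA c (hTS' hc)) _)]
          refine Finset.prod_congr rfl fun c hc => ?_
          rw [← Real.rpow_mul (hA c (hTS' hc))]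
          congr 1
          simp only [hθ']
          field_simp
        rw [e1, e2, e3] at h2
        rw [mul_comm (A c₀ ^ θ c₀)]
        exact h2
  intro u v hu hvm hvb
  have h1 := claim S subset_rfl θ hθ hsum u v hu hvm hvb
  unfold BB at h1
  have e1 : ∀ x y, K x y * (u y * ((Real.exp (∑ c ∈ S, θ c * f c y) : ℝ) : ℂ)) *
      (v x * ((Real.exp (∑ c ∈ S, θ c * g c x) : ℝ) : ℂ)) =
      K x y * (u y * ((∏ c ∈ S, F c y ^ θ c : ℝ) : ℂ)) *
        (v x * ((∏ c ∈ S, R c x ^ θ c : ℝ) : ℂ)) := by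
    intro x y
    have h2 : Real.exp (∑ c ∈ S, θ c * f c y) = ∏ c ∈ S, F c y ^ θ c := by
      rw [Real.exp_sum]
      refine Finset.prod_congr rfl fun c hc => ?_
      rw [Real.rpow_def_of_pos (hFpos c hc y), mul_comm]
    have h3 : Real.exp (∑ c ∈ S, θ c * g c x) = ∏ c ∈ S, R c x ^ θ c := by
      rw [Real.exp_sum]
      refine Finset.prod_congr rfl fun c hc => ?_
      rw [Real.rpow_def_of_pos (hRpos c hc x), mul_comm]
    rw [h2, h3]
  simp only [e1] at h1
  exact h1

end Pool.Agent.TH278
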