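import Pool.Agent.TH278.Defs

/-!
Job 632 (for MP_c7bdf0_an): bounds for the one dimensional kernels.
-/

set_option autoImplicit false
set_option linter.unusedVariables false

namespace Pool.Agent.TH278

open MeasureTheory Set Complex
open scoped ENNReal RealInnerProductSpace FourierTransform
open Pool.Agent.H438R2.RZ (e Good ft Pl Bump mA mC Arc Win sl SL Bk gA TR)
open Pool.Agent.H789R2.FR (E)

namespace J632

/-- a function living on `p ≤ |ξ| ≤ q` -/
theorem int_le {g : ℝ → ℂ} {p q K : ℝ} (hpq : p ≤ q) (hK : 0 ≤ K)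
    (hsupp : ∀ ξ, g ξ ≠ 0 → p ≤ |ξ| ∧ |ξ| ≤ q) (hb : ∀ ξ, ‖g ξ‖ ≤ K) :
    ∫ ξ, ‖g ξ‖ ≤ 2 * (q - p) * K := by
  set S : Set ℝ := Icc p q ∪ Icc (-q) (-p) with hS
  have h1 : ∫ ξ, ‖g ξ‖ = ∫ ξ in S, ‖g ξ‖ := by
    symm
    apply setIntegral_eq_integral_of_forall_compl_eq_zero
    intro ξ hξ
    rw [norm_eq_zero]
    by_contra h
    apply hξ
    obtain ⟨h2, h3⟩ := hsupp ξ h
    rcases le_total 0 ξ with h0 | h0
    · rw [abs_of_nonneg h0] at h2 h3
      exact Or.inl ⟨h2, h3⟩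
    · rw [abs_of_nonpos h0] at h2 h3
      exact Or.inr ⟨by linarith, by linarith⟩
  have hvol : (volume S).toReal ≤ 2 * (q - p) := by
    have h2 : volume S ≤ ENNReal.ofReal (2 * (q - p)) := by
      refine (measure_union_le _ _).trans ?_
      rw [Real.volume_Icc, Real.volume_Icc, ← ENNReal.ofReal_add (by linarith) (by linarith)]
      apply ENNReal.ofReal_le_ofReal
      linarith
    exact ENNReal.toReal_le_of_le_ofReal (by linarith) h2
  have hfin : volume S < ∞ := by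
    refine (measure_union_le _ _).trans_lt ?_
    rw [Real.volume_Icc, Real.volume_Icc]
    exact ENNReal.add_lt_top.2 ⟨ENNReal.ofReal_lt_top, ENNReal.ofReal_lt_top⟩
  rw [h1]
  have h3 : ‖∫ ξ in S, ‖g ξ‖‖ ≤ K * (volume S).toReal :=
    norm_setIntegral_le_of_norm_le_const hfin fun ξ _ => by rw [norm_norm]; exact hb ξ
  have h4 : ∫ ξ in S, ‖g ξ‖ ≤ K * (volume S).toReal := (Real.le_norm_self _).trans h3
  refine h4.trans ?_
  rw [mul_comm]
  exact mul_le_mul_of_nonneg_right hvol hK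

theorem kern_eq (ψ : ℝ → ℝ) (L τ s : ℝ) :
    kern ψ L τ s = 𝓕 (fun ξ : ℝ => ((ψ (L ^ 2 * (τ - ξ ^ 2)) : ℝ) : ℂ)) (-s) := by
  rw [Real.fourier_real_eq_integral_exp_smul, kern]
  refine integral_congr_ae (Filter.Eventually.of_forall fun ξ => ?_)
  simp only [e, smul_eq_mul]
  rw [mul_comm]
  congr 2
  push_cast
  ring

theorem norm_four_le (f : ℝ → ℂ) (x : ℝ) : ‖𝓕 f x‖ ≤ ∫ v, ‖f v‖ := by
  rw [Real.fourier_real_eq_integral_exp_smul]
  refine (norm_integral_le_integral_norm _).trans (le_of_eq ?_)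
  refine integral_congr_ae (Filter.Eventually.of_forall fun v => ?_)
  simp only [norm_smul, Complex.norm_exp_ofReal_mul_I, one_mul]

theorem exists_bound {ψ : ℝ → ℝ} (hc : Continuous ψ) (hs : ∀ v, ψ v ≠ 0 → 1 / 2 ≤ v ∧ v ≤ 2) :
    ∃ M : ℝ, 0 ≤ M ∧ ∀ v, |ψ v| ≤ M := by
  have hcs : HasCompactSupport ψ :=
    HasCompactSupport.intro (isCompact_Icc (a := (1 / 2 : ℝ)) (b := 2)) fun x hx => by
      by_contra h
      exact hx (hs x h)
  obtain ⟨M, hM⟩ := hcs.exists_bound_of_continuous hc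
  exact ⟨M, (norm_nonneg _).trans (hM 0), hM⟩

theorem deriv_supp {ψ : ℝ → ℝ} (hs : ∀ v, ψ v ≠ 0 → 1 / 2 ≤ v ∧ v ≤ 2) :
    ∀ v, deriv ψ v ≠ 0 → 1 / 2 ≤ v ∧ v ≤ 2 := by
  intro v hv
  have h1 : v ∈ tsupport ψ := support_deriv_subset hv
  have h2 : tsupport ψ ⊆ Icc (1 / 2 : ℝ) 2 := closure_minimal (fun x hx => hs x hx) isClosed_Icc
  exact h2 h1

end J632

open J632

theorem ker1 (ψ : ℝ → ℝ) (hψ : Bump ψ) : ∃ C : ℝ, 0 < C ∧ ∀ L : ℝ, 1 ≤ L → ∀ τ : ℝ, τ ≤ 1 →
    ∀ s : ℝ, s ≠ 0 → ‖kern ψ L τ s‖ ≤ C * kk L s := by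
  obtain ⟨hsm, hsupp⟩ := hψ
  have hd0 : Differentiable ℝ ψ := hsm.differentiable (by simp)
  have hsm1 : ContDiff ℝ (⊤ : ℕ∞) (deriv ψ) := by
    have := (contDiff_infty_iff_deriv.1 hsm).2
    exact this
  have hd1 : Differentiable ℝ (deriv ψ) := hsm1.differentiable (by simp)
  have hsm2 : ContDiff ℝ (⊤ : ℕ∞) (deriv (deriv ψ)) := (contDiff_infty_iff_deriv.1 hsm1).2
  have hs1 := deriv_supp hsupp
  have hs2 := deriv_supp hs1
  obtain ⟨M0, hM0, hM0'⟩ := exists_bound hsm.continuous hsupp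
  obtain ⟨M1, hM1, hM1'⟩ := exists_bound hsm1.continuous hs1
  obtain ⟨M2, hM2, hM2'⟩ := exists_bound hsm2.continuous hs2
  refine ⟨4 * M0 + 6 * M1 + (8 * M1 + 12 * M2) + 1, by positivity, ?_⟩
  intro L hL τ hτ s hs
  have hL0 : 0 < L := by linarith
  have hL2 : 0 < L ^ 2 := by positivity
  -- the interval
  set q : ℝ := Real.sqrt (max 0 (τ - 1 / (2 * L ^ 2))) with hq
  set p : ℝ := Real.sqrt (max 0 (τ - 2 / L ^ 2)) with hp
  have hq0 : 0 ≤ q := Real.sqrt_nonneg _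
  have hp0 : 0 ≤ p := Real.sqrt_nonneg _
  have hq2 : q ^ 2 = max 0 (τ - 1 / (2 * L ^ 2)) := Real.sq_sqrt (le_max_left _ _)
  have hp2 : p ^ 2 = max 0 (τ - 2 / L ^ 2) := Real.sq_sqrt (le_max_left _ _)
  have e1 : 2 / L ^ 2 = 4 * (1 / (2 * L ^ 2)) := by field_simp; norm_num
  have e2 : (0 : ℝ) < 1 / (2 * L ^ 2) := by positivity
  have hpq : p ≤ q := by
    apply Real.sqrt_le_sqrt
    apply max_le_max le_rfl
    rw [e1]; linarith
  have hq1 : q ≤ 1 := by
    rw [hq, Real.sqrt_le_iff]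
    refine ⟨by norm_num, ?_⟩
    rw [one_pow]
    apply max_le (by norm_num)
    linarith
  have hdiff : q ^ 2 - p ^ 2 ≤ 3 / (2 * L ^ 2) := by
    rw [hq2, hp2]
    have e3 : 3 / (2 * L ^ 2) = 3 * (1 / (2 * L ^ 2)) := by ring
    rw [e3, e1]
    rcases max_cases 0 (τ - 1 / (2 * L ^ 2)) with ⟨h1, h2⟩ | ⟨h1, h2⟩ <;>
    rcases max_cases 0 (τ - 4 * (1 / (2 * L ^ 2))) with ⟨h3, h4⟩ | ⟨h3, h4⟩ <;>
    rw [h1, h3] <;> linarith
  have hlen : q - p ≤ 2 / L := by
    have h1 : (q - p) ^ 2 ≤ (2 / L) ^ 2 := by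
      have h2 : (q - p) ^ 2 ≤ q ^ 2 - p ^ 2 := by nlinarith
      have h3 : (2 / L) ^ 2 = 4 * (1 / L ^ 2) := by ring
      have h4 : 3 / (2 * L ^ 2) = 3 / 2 * (1 / L ^ 2) := by ring
      have h5 : 0 < 1 / L ^ 2 := by positivity
      rw [h3]
      rw [h4] at hdiff
      linarith
    have h6 : (0 : ℝ) ≤ 2 / L := by positivity
    exact (abs_le_of_sq_le_sq' h1 h6).2
  have hlenq : (q - p) * q ≤ 3 / (2 * L ^ 2) := by
    refine le_trans ?_ hdiff
    nlinarith
  have hrange : ∀ ξ : ℝ, (1 / 2 ≤ L ^ 2 * (τ - ξ ^ 2) ∧ L ^ 2 * (τ - ξ ^ 2) ≤ 2) →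
      p ≤ |ξ| ∧ |ξ| ≤ q := by
    rintro ξ ⟨h1, h2⟩
    have h3 : 1 / (2 * L ^ 2) ≤ τ - ξ ^ 2 := by
      rw [div_le_iff₀ (by positivity)]
      linarith
    have h4 : τ - ξ ^ 2 ≤ 2 / L ^ 2 := by
      rw [le_div_iff₀ hL2]
      linarith
    constructor
    · rw [hp, Real.sqrt_le_left (abs_nonneg _), sq_abs]
      apply max_le (sq_nonneg _)
      linarith
    · apply Real.le_sqrt_of_sq_le
      rw [sq_abs]
      apply le_max_of_le_right
      linarith
  -- the functions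
  set w0 : ℝ → ℂ := fun ξ => ((ψ (L ^ 2 * (τ - ξ ^ 2)) : ℝ) : ℂ) with hw0
  set w1 : ℝ → ℂ := fun ξ => ((-(2 * L ^ 2 * ξ) * deriv ψ (L ^ 2 * (τ - ξ ^ 2)) : ℝ) : ℂ) with hw1
  set w2 : ℝ → ℂ := fun ξ => ((-(2 * L ^ 2) * deriv ψ (L ^ 2 * (τ - ξ ^ 2)) +
    4 * L ^ 4 * ξ ^ 2 * deriv (deriv ψ) (L ^ 2 * (τ - ξ ^ 2)) : ℝ) : ℂ) with hw2
  have hinner : ∀ ξ : ℝ, HasDerivAt (fun ξ : ℝ => L ^ 2 * (τ - ξ ^ 2)) (-(2 * L ^ 2 * ξ)) ξ := by
    intro ξ
    have h1 := (((hasDerivAt_id ξ).pow 2).const_sub τ).const_mul (L ^ 2)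
    refine h1.congr_deriv ?_
    simp
    ring
  have hder0 : ∀ ξ, HasDerivAt w0 (w1 ξ) ξ := by
    intro ξ
    have h1 := (hd0 (L ^ 2 * (τ - ξ ^ 2))).hasDerivAt.comp ξ (hinner ξ)
    have h2 := h1.ofReal_comp
    refine h2.congr_deriv ?_
    rw [hw1]
    simp only
    rw [mul_comm]
  have hder1 : ∀ ξ, HasDerivAt w1 (w2 ξ) ξ := by
    intro ξ
    have h1 := (hd1 (L ^ 2 * (τ - ξ ^ 2))).hasDerivAt.comp ξ (hinner ξ)
    have h0 : HasDerivAt (fun ξ : ℝ => -(2 * L ^ 2 * ξ)) (-(2 * L ^ 2)) ξ := by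
      have := ((hasDerivAt_id ξ).const_mul (2 * L ^ 2)).neg
      refine this.congr_deriv ?_
      simp
    have h2 := (h0.mul h1).ofReal_comp
    refine h2.congr_deriv ?_
    rw [hw2]
    simp only [Function.comp_apply]
    congr 1
    ring
  have hdw0 : deriv w0 = w1 := funext fun ξ => (hder0 ξ).deriv
  have hdw1 : deriv w1 = w2 := funext fun ξ => (hder1 ξ).deriv
  have hcin : Continuous fun ξ : ℝ => L ^ 2 * (τ - ξ ^ 2) := by fun_prop
  have hc0 : Continuous w0 := continuous_ofReal.comp (hsm.continuous.comp hcin)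
  have hc1 : Continuous w1 := by
    refine continuous_ofReal.comp (Continuous.mul (by fun_prop) (hsm1.continuous.comp hcin))
  have hc2 : Continuous w2 := by
    refine continuous_ofReal.comp (Continuous.add (Continuous.mul (by fun_prop)
      (hsm1.continuous.comp hcin)) (Continuous.mul (by fun_prop) (hsm2.continuous.comp hcin)))
  have hn0 : ∀ ξ, w0 ξ ≠ 0 → p ≤ |ξ| ∧ |ξ| ≤ q := by
    intro ξ h
    apply hrange
    apply hsupp
    intro h1
    apply h
    simp only [hw0, h1, ofReal_zero]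
  have hn1 : ∀ ξ, w1 ξ ≠ 0 → p ≤ |ξ| ∧ |ξ| ≤ q := by
    intro ξ h
    apply hrange
    apply hs1
    intro h1
    apply h
    simp only [hw1, h1, mul_zero, ofReal_zero]
  have hn2 : ∀ ξ, w2 ξ ≠ 0 → p ≤ |ξ| ∧ |ξ| ≤ q := by
    intro ξ h
    apply hrange
    by_cases h1 : deriv ψ (L ^ 2 * (τ - ξ ^ 2)) = 0
    · apply hs2
      intro h2
      apply h
      simp only [hw2, h1, h2, mul_zero, add_zero, ofReal_zero]
    · exact hs1 _ h1
  have hint : ∀ w : ℝ → ℂ, Continuous w → (∀ ξ, w ξ ≠ 0 → p ≤ |ξ| ∧ |ξ| ≤ q) → Integrable w := by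
    intro w hw h
    refine hw.integrable_of_hasCompactSupport (HasCompactSupport.intro
      (isCompact_Icc (a := -q) (b := q)) fun x hx => ?_)
    by_contra hne
    exact hx (abs_le.1 (h x hne).2)
  -- bounds
  have hb0 : ∫ ξ, ‖w0 ξ‖ ≤ 4 * M0 * (1 / L) := by
    have h1 := int_le hpq hM0 hn0 (fun ξ => by
      rw [hw0]; simp only [Complex.norm_real]; exact hM0' _)
    refine h1.trans ?_
    have h2 : 2 * (q - p) * M0 ≤ 2 * (2 / L) * M0 :=
      mul_le_mul_of_nonneg_right (by linarith) hM0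
    refine h2.trans (le_of_eq ?_)
    ring
  have hb1 : ∫ ξ, ‖w1 ξ‖ ≤ 6 * M1 := by
    have h1 := int_le (K := 2 * L ^ 2 * q * M1) hpq (by positivity) hn1 (fun ξ => by
      by_cases h : w1 ξ = 0
      · rw [h, norm_zero]; positivity
      · have h2 := (hn1 ξ h).2
        rw [hw1]; simp only [Complex.norm_real]
        rw [norm_mul, norm_neg, norm_mul, Real.norm_eq_abs, Real.norm_eq_abs, Real.norm_eq_abs,
          abs_of_pos (by positivity : (0 : ℝ) < 2 * L ^ 2)]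
        exact mul_le_mul (mul_le_mul_of_nonneg_left h2 (by positivity)) (hM1' _) (abs_nonneg _)
          (by positivity))
    refine h1.trans ?_
    have h3 : (q - p) * q * L ^ 2 ≤ 3 / (2 * L ^ 2) * L ^ 2 :=
      mul_le_mul_of_nonneg_right hlenq hL2.le
    have h4 : 3 / (2 * L ^ 2) * L ^ 2 = 3 / 2 := by field_simp
    rw [h4] at h3
    have h5 : (q - p) * q * L ^ 2 * M1 ≤ 3 / 2 * M1 := mul_le_mul_of_nonneg_right h3 hM1
    linarith
  have hb2 : ∫ ξ, ‖w2 ξ‖ ≤ (8 * M1 + 12 * M2) * L ^ 2 := by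
    have h1 := int_le (K := 2 * L ^ 2 * M1 + 4 * L ^ 4 * q ^ 2 * M2) hpq (by positivity) hn2
      (fun ξ => by
      by_cases h : w2 ξ = 0
      · rw [h, norm_zero]; positivity
      · have h2 := (hn2 ξ h).2
        have h3 : ξ ^ 2 ≤ q ^ 2 := by
          rw [← sq_abs]
          exact pow_le_pow_left₀ (abs_nonneg _) h2 2
        rw [hw2]; simp only [Complex.norm_real]
        refine (norm_add_le _ _).trans (add_le_add ?_ ?_)
        · rw [norm_mul, norm_neg, Real.norm_eq_abs, Real.norm_eq_abs,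
            abs_of_pos (by positivity : (0 : ℝ) < 2 * L ^ 2)]
          exact mul_le_mul_of_nonneg_left (hM1' _) (by positivity)
        · rw [norm_mul, Real.norm_eq_abs, Real.norm_eq_abs,
            abs_of_nonneg (by positivity : (0 : ℝ) ≤ 4 * L ^ 4 * ξ ^ 2)]
          exact mul_le_mul (mul_le_mul_of_nonneg_left h3 (by positivity)) (hM2' _) (abs_nonneg _)
            (by positivity))
    refine h1.trans ?_
    have h3 : (q - p) * q * L ^ 2 ≤ 3 / (2 * L ^ 2) * L ^ 2 :=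
      mul_le_mul_of_nonneg_right hlenq hL2.le
    have h4 : 3 / (2 * L ^ 2) * L ^ 2 = 3 / 2 := by field_simp
    rw [h4] at h3
    have h5 : (q - p) * q ^ 2 * L ^ 2 ≤ 3 / 2 := by
      have : (q - p) * q * L ^ 2 * q ≤ 3 / 2 * 1 :=
        mul_le_mul h3 hq1 hq0 (by norm_num)
      linarith
    have h6 : (q - p) * q ^ 2 * L ^ 2 * (8 * M2 * L ^ 2) ≤ 3 / 2 * (8 * M2 * L ^ 2) :=
      mul_le_mul_of_nonneg_right h5 (by positivity)
    have h7 : (q - p) * (4 * L ^ 2 * M1) ≤ 2 / L * (4 * L ^ 2 * M1) :=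
      mul_le_mul_of_nonneg_right hlen (by positivity)
    have h8 : 2 / L * (4 * L ^ 2 * M1) = 8 * M1 * L := by field_simp; ring
    have h9 : 8 * M1 * L ≤ 8 * M1 * L ^ 2 := by
      apply mul_le_mul_of_nonneg_left _ (by positivity)
      nlinarith
    nlinarith
  -- Fourier transforms
  have hF1 := Real.fourier_deriv (hint w0 hc0 hn0) (fun ξ => (hder0 ξ).differentiableAt)
    (by rw [hdw0]; exact hint w1 hc1 hn1)
  have hF2 := Real.fourier_deriv (hint w1 hc1 hn1) (fun ξ => (hder1 ξ).differentiableAt)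
    (by rw [hdw1]; exact hint w2 hc2 hn2)
  rw [hdw0] at hF1
  rw [hdw1] at hF2
  have hF1s := congrFun hF1 (-s)
  have hF2s := congrFun hF2 (-s)
  simp only [smul_eq_mul] at hF1s hF2s
  have hs0 : 0 < |s| := abs_pos.2 hs
  have hnorm : ‖(2 * (Real.pi : ℂ) * I * ((-s : ℝ) : ℂ))‖ = 2 * Real.pi * |s| := by
    simp [abs_of_pos Real.pi_pos]
  have h2pi : (1 : ℝ) ≤ 2 * Real.pi := by linarith [Real.pi_gt_three]
  have hk0 : ‖kern ψ L τ s‖ ≤ 4 * M0 * (1 / L) := by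
    rw [kern_eq]
    exact (norm_four_le _ _).trans hb0
  have hk1' : 2 * Real.pi * |s| * ‖kern ψ L τ s‖ ≤ 6 * M1 := by
    rw [kern_eq, ← hnorm, ← norm_mul]
    change ‖2 * (Real.pi : ℂ) * I * ((-s : ℝ) : ℂ) * 𝓕 w0 (-s)‖ ≤ _
    rw [← hF1s]
    exact (norm_four_le _ _).trans hb1
  have hk2' : (2 * Real.pi * |s|) ^ 2 * ‖kern ψ L τ s‖ ≤ (8 * M1 + 12 * M2) * L ^ 2 := by
    rw [kern_eq, sq, mul_assoc, ← hnorm, ← norm_mul, ← norm_mul]
    change ‖2 * (Real.pi : ℂ) * I * ((-s : ℝ) : ℂ) *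
      (2 * (Real.pi : ℂ) * I * ((-s : ℝ) : ℂ) * 𝓕 w0 (-s))‖ ≤ _
    rw [← hF1s, ← hF2s]
    exact (norm_four_le _ _).trans hb2
  have hkn : 0 ≤ ‖kern ψ L τ s‖ := norm_nonneg _
  have hk1 : ‖kern ψ L τ s‖ ≤ 6 * M1 * (1 / |s|) := by
    rw [mul_one_div, le_div_iff₀ hs0]
    have : 1 * (|s| * ‖kern ψ L τ s‖) ≤ 2 * Real.pi * (|s| * ‖kern ψ L τ s‖) :=
      mul_le_mul_of_nonneg_right h2pi (by positivity)
    linarith
  have hk2 : ‖kern ψ L τ s‖ ≤ (8 * M1 + 12 * M2) * (L ^ 2 / s ^ 2) := by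
    have hs2 : 0 < s ^ 2 := by positivity
    rw [← mul_div_assoc, le_div_iff₀ hs2, ← sq_abs s]
    have h1 : (1 : ℝ) ≤ (2 * Real.pi) ^ 2 := one_le_pow₀ h2pi
    have : 1 * (|s| ^ 2 * ‖kern ψ L τ s‖) ≤ (2 * Real.pi) ^ 2 * (|s| ^ 2 * ‖kern ψ L τ s‖) :=
      mul_le_mul_of_nonneg_right h1 (by positivity)
    have e3 : (2 * Real.pi * |s|) ^ 2 * ‖kern ψ L τ s‖ =
      (2 * Real.pi) ^ 2 * (|s| ^ 2 * ‖kern ψ L τ s‖) := by ring
    rw [e3] at hk2'
    linarith
  have hL1 : 0 ≤ 1 / L := by positivity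
  have hs1' : 0 ≤ 1 / |s| := by positivity
  have hs2' : 0 ≤ L ^ 2 / s ^ 2 := by positivity
  have hC0 : 0 ≤ 4 * M0 + 6 * M1 + (8 * M1 + 12 * M2) + 1 := by positivity
  rw [kk, mul_min_of_nonneg _ _ hC0, mul_min_of_nonneg _ _ hC0]
  refine le_min ?_ (le_min ?_ ?_)
  · refine hk0.trans (mul_le_mul_of_nonneg_right ?_ hL1)
    linarith
  · refine hk1.trans (mul_le_mul_of_nonneg_right ?_ hs1')
    linarith
  · refine hk2.trans (mul_le_mul_of_nonneg_right ?_ hs2')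
    linarith

theorem kk_int : ∃ C : ℝ, 0 < C ∧ ∀ L : ℝ, 1 ≤ L →
    ∫⁻ s : ℝ, ENNReal.ofReal (kk L s) ≤ ENNReal.ofReal (C * (1 + Real.log L)) := by
  refine ⟨4, by norm_num, fun L hL => ?_⟩
  have hL0 : 0 < L := by linarith
  have hlog : 0 ≤ Real.log L := Real.log_nonneg hL
  have hLL : L ≤ L ^ 2 := by nlinarith
  -- the positive half line
  have hpos : ∫⁻ s in Ioi (0 : ℝ), ENNReal.ofReal (kk L s) ≤ ENNReal.ofReal (2 + Real.log L) := by
    have hcov : Ioi (0 : ℝ) = Ioc 0 L ∪ (Ioc L (L ^ 2) ∪ Ioi (L ^ 2)) := by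
      rw [Ioc_union_Ioi_eq_Ioi hLL, Ioc_union_Ioi_eq_Ioi hL0.le]
    have h1 : ∫⁻ s in Ioc (0 : ℝ) L, ENNReal.ofReal (kk L s) ≤ ENNReal.ofReal 1 := by
      calc ∫⁻ s in Ioc (0 : ℝ) L, ENNReal.ofReal (kk L s)
          ≤ ∫⁻ _s in Ioc (0 : ℝ) L, ENNReal.ofReal (1 / L) :=
            lintegral_mono fun s => ENNReal.ofReal_le_ofReal (min_le_left _ _)
        _ = ENNReal.ofReal 1 := by
            rw [lintegral_const, Measure.restrict_apply MeasurableSet.univ, univ_inter,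
              Real.volume_Ioc, ← ENNReal.ofReal_mul (by positivity)]
            congr 1
            field_simp
            ring
    have h2 : ∫⁻ s in Ioc L (L ^ 2), ENNReal.ofReal (kk L s) ≤ ENNReal.ofReal (Real.log L) := by
      have hcont : ContinuousOn (fun s : ℝ => s⁻¹) (uIcc L (L ^ 2)) := by
        apply continuousOn_inv₀.mono
        intro s hs
        rw [uIcc_of_le hLL] at hs
        have : 0 < s := lt_of_lt_of_le hL0 hs.1
        exact this.ne'
      have hii : IntervalIntegrable (fun s : ℝ => s⁻¹) volume L (L ^ 2) :=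
        hcont.intervalIntegrable
      have hint : IntegrableOn (fun s : ℝ => s⁻¹) (Ioc L (L ^ 2)) :=
        (intervalIntegrable_iff_integrableOn_Ioc_of_le hLL).1 hii
      calc ∫⁻ s in Ioc L (L ^ 2), ENNReal.ofReal (kk L s)
          ≤ ∫⁻ s in Ioc L (L ^ 2), ENNReal.ofReal (s⁻¹) := by
            refine setLIntegral_mono' measurableSet_Ioc fun s hs => ?_
            apply ENNReal.ofReal_le_ofReal
            have hs0 : 0 < s := hL0.trans hs.1
            refine (min_le_right _ _).trans ((min_le_left _ _).trans ?_)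
            rw [abs_of_pos hs0, one_div]
        _ = ENNReal.ofReal (∫ s in Ioc L (L ^ 2), s⁻¹) := by
            rw [ofReal_integral_eq_lintegral_ofReal hint]
            refine (ae_restrict_iff' measurableSet_Ioc).2 (Filter.Eventually.of_forall fun s hs => ?_)
            have hs0 : 0 < s := hL0.trans hs.1
            exact (inv_pos.2 hs0).le
        _ ≤ _ := by
            apply ENNReal.ofReal_le_ofReal
            rw [← intervalIntegral.integral_of_le hLL, integral_inv_of_pos hL0 (by positivity)]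
            have : L ^ 2 / L = L := by field_simp
            rw [this]
    have h3 : ∫⁻ s in Ioi (L ^ 2), ENNReal.ofReal (kk L s) ≤ ENNReal.ofReal 1 := by
      have hL2 : (0 : ℝ) < L ^ 2 := by positivity
      have hint : IntegrableOn (fun s : ℝ => L ^ 2 * s ^ (-2 : ℝ)) (Ioi (L ^ 2)) :=
        (integrableOn_Ioi_rpow_of_lt (by norm_num) hL2).const_mul _
      calc ∫⁻ s in Ioi (L ^ 2), ENNReal.ofReal (kk L s)
          ≤ ∫⁻ s in Ioi (L ^ 2), ENNReal.ofReal (L ^ 2 * s ^ (-2 : ℝ)) := by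
            refine setLIntegral_mono' measurableSet_Ioi fun s hs => ?_
            apply ENNReal.ofReal_le_ofReal
            have hs0 : 0 < s := hL2.trans hs
            refine (min_le_right _ _).trans ((min_le_right _ _).trans ?_)
            rw [Real.rpow_neg hs0.le]
            norm_cast
        _ = ENNReal.ofReal (∫ s in Ioi (L ^ 2), L ^ 2 * s ^ (-2 : ℝ)) := by
            rw [ofReal_integral_eq_lintegral_ofReal hint]
            refine (ae_restrict_iff' measurableSet_Ioi).2 (Filter.Eventually.of_forall fun s hs => ?_)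
            have hs0 : 0 < s := hL2.trans hs
            change 0 ≤ L ^ 2 * s ^ (-2 : ℝ)
            positivity
        _ ≤ _ := by
            apply ENNReal.ofReal_le_ofReal
            rw [integral_const_mul, integral_Ioi_rpow_of_lt (by norm_num) hL2]
            have : (-2 + 1 : ℝ) = -1 := by norm_num
            rw [this, Real.rpow_neg_one]
            field_simp
            exact le_rfl
    rw [hcov]
    refine (lintegral_union_le _ _ _).trans ?_
    refine (add_le_add h1 ((lintegral_union_le _ _ _).trans (add_le_add h2 h3))).trans ?_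
    rw [← ENNReal.ofReal_add hlog (by norm_num), ← ENNReal.ofReal_add (by norm_num) (by positivity)]
    apply ENNReal.ofReal_le_ofReal
    linarith
  have hneg : ∫⁻ s in Iio (0 : ℝ), ENNReal.ofReal (kk L s) =
      ∫⁻ s in Ioi (0 : ℝ), ENNReal.ofReal (kk L s) := by
    have h1 : ∀ s, kk L (-s) = kk L s := by
      intro s
      rw [kk, kk, abs_neg, neg_sq]
    have h2 := (Measure.measurePreserving_neg (volume : Measure ℝ)).setLIntegral_comp_preimage_emb
      (MeasurableEquiv.neg ℝ).measurableEmbedding (fun s => ENNReal.ofReal (kk L s)) (Ioi 0)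
    rw [← h2]
    have h3 : (Neg.neg ⁻¹' Ioi (0 : ℝ)) = Iio 0 := by
      ext s; simp
    rw [h3]
    simp only [h1]
  have hall : ∫⁻ s : ℝ, ENNReal.ofReal (kk L s) =
      (∫⁻ s in Iio (0 : ℝ), ENNReal.ofReal (kk L s)) +
        ∫⁻ s in Ioi (0 : ℝ), ENNReal.ofReal (kk L s) := by
    have h1 := lintegral_add_compl (μ := (volume : Measure ℝ)) (fun s => ENNReal.ofReal (kk L s))
      (measurableSet_Iio (a := (0 : ℝ)))
    rw [← h1, compl_Iio]
    congr 1
    exact setLIntegral_congr (Ioi_ae_eq_Ici (μ := (volume : Measure ℝ)) (a := (0 : ℝ))).symm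
  rw [hall]
  refine (add_le_add ((le_of_eq hneg).trans hpos) hpos).trans ?_
  rw [← ENNReal.ofReal_add (by positivity) (by positivity)]
  apply ENNReal.ofReal_le_ofReal
  linarith

end Pool.Agent.TH278
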