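import Pool.Agent.Helper775.Tight.Main
import Pool.Agent.Helper775.Tight.Compare
import Pool.Agent.Helper158.PD.Base

/-!
Job 285 (NOT-EX-TOP, for MP_c88051_gt): the top cohomology mod 2 of a closed surface does not
vanish, in Alexander-Spanier form, from the fundamental class of the duality library.
-/

set_option autoImplicit false
namespace Pool.Agent.TH619
open Set Topology Pool.Agent.Helper775.Tight SoftCx

/-- the top cohomology mod 2 of a closed surface does not vanish (Alexander-Spanier version) -/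
theorem not_ex_top {P : Type} [MetricSpace P] [CompactSpace P] [Nonempty P]
    [ChartedSpace (EuclideanSpace ℝ (Fin 2)) P] : ¬ (AS P).Ex univ 3 := by
  intro hEx
  obtain ⟨I, hI, hR⟩ := Pool.Agent.Helper158.PD.exists_fund (X := P) 1
  obtain ⟨x⟩ := (inferInstance : Nonempty P)
  obtain ⟨V, hV, -, -, hVw⟩ := hR x
  obtain ⟨w, hw⟩ := Pool.Agent.Helper158.PD.box_gen (X := P) hV
  have hIw : I.1 w = 1 := hVw w hw
  obtain ⟨-, hdw, -⟩ := Pool.Agent.Helper158.PD.box_top_ne hw
  -- the singular cochain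
  set s : SCh P := Function.update 0 2 w with hs
  have hs2 : ∀ σ : Sing P 2, s 2 σ = w σ := by
    intro σ; rw [hs, Function.update_self]
  have hsc : (Sg P).Coc univ 3 s := by
    intro z hz
    obtain ⟨U, hU, hzU, h⟩ := hdw z hz
    refine ⟨U, hU.mem_nhds hzU, fun σ hσ => ?_⟩
    change ∑ i : Fin (2 + 2), s 2 (sface 2 i σ) = 0
    have h1 := h σ hσ
    rw [Pool.Agent.Helper158.PD.dl_apply] at h1
    simp only [hs2]
    exact h1
  obtain ⟨c, hc, t₁, ht₁⟩ := theta_surj (m := 2) (P := P) isCompact_univ hsc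
  obtain ⟨b, hb⟩ := hEx c hc
  -- `s` is a coboundary
  have hfin : ∀ z : P, s - sdf (t₁ + theta b) ∈ (Sg P).N z 3 := by
    intro z
    have h1 := ht₁ z (mem_univ z)
    have h2 := Theta.mem z 3 _ (hb z (mem_univ z))
    have h3 := Theta.comm z 3 b
    simp only [map_sub, Theta_f] at h2 h3
    have h4 := sub_mem (add_mem h1 h2) h3
    have e : s - sdf (t₁ + theta b) = s - theta c - (Sg P).D t₁ + (theta c - theta ((AS P).D b)) -
        ((Sg P).D (theta b) - theta ((AS P).D b)) := by
      change s - (Sg P).D (t₁ + theta b) = _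
      rw [map_add]
      abel
    rw [e]
    exact h4
  have h0 : I.1 (w - Pool.Agent.Helper158.PD.dl 1 ((t₁ + theta b) 1)) = 0 := by
    apply I.2
    intro z _
    obtain ⟨W, hW, h⟩ := hfin z
    obtain ⟨U, hUW, hU, hzU⟩ := mem_nhds_iff.1 hW
    refine ⟨U, hU, hzU, fun σ hσ => ?_⟩
    have h1 := h σ (hσ.trans hUW)
    rw [Pi.sub_apply, Pool.Agent.Helper158.PD.dl_apply]
    rw [Pi.sub_apply, Pi.sub_apply, hs2] at h1
    exact h1
  rw [map_sub, hIw, hI, sub_zero] at h0
  exact one_ne_zero h0

end Pool.Agent.TH619
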