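import Pool.Agent.Helper775.Tight.Main

/-!
Job 184 (SURJ-ONE, for MP_c88051_gt): on a closed surface with `H² ≠ 0` mod 2 the first cohomology
of the whole surface surjects onto that of any closed set with connected nonempty complement.
-/

set_option autoImplicit false

namespace Pool.Agent.TH619

open Set Topology Pool.Agent.Helper775.Tight SoftCx

namespace J184

/-- extension of a cocycle over `Z₁ ∪ Z₂` from `Z₂`, when it is a coboundary on `Z₁ ∩ Z₂`. -/
theorem extend_glue {Y K : Type*} [TopologicalSpace Y] [AddCommGroup K] {C : SoftCx Y K} {n : ℕ}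
    {k e : K} {Z₁ Z₂ : Set Y} (h₁ : IsClosed Z₁) (h₂ : IsClosed Z₂) (hk : C.Coc Z₂ n k)
    (hI : ∀ z ∈ Z₁ ∩ Z₂, k - C.D e ∈ C.N z n) :
    ∃ k', C.Coc (Z₁ ∪ Z₂) n k' ∧ ∀ z ∈ Z₂, k - k' ∈ C.N z n := by
  obtain ⟨m, hm₁, hm₂⟩ := C.soft n (k - C.D e) Z₂ Z₁ h₂ h₁ (fun z hz => hI z ⟨hz.2, hz.1⟩)
  refine ⟨k - m, ?_, ?_⟩
  · rintro z (hz | hz)
    · have e1 : C.D (k - m) = C.D (k - C.D e - m) + C.D (C.D e) := by
        simp only [map_sub]; abel
      rw [e1]
      exact add_mem (C.D_mem z n _ (hm₂ z hz)) (C.DD_mem z _ e)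
    · rw [map_sub]
      exact sub_mem (hk z hz) (C.D_mem z n m (hm₁ z hz))
  · intro z hz
    have : k - (k - m) = m := by abel
    rw [this]
    exact hm₁ z hz

/-- cocycles extend from a closed set with connected complement to every proper closed subset of a
closed surface. -/
theorem extend_proper {P : Type*} [MetricSpace P] [CompactSpace P]
    [ChartedSpace (EuclideanSpace ℝ (Fin 2)) P] {K : Set P} (hc : IsPreconnected Kᶜ) {k : Ch P}
    (hk : (AS P).Coc K 2 k) {Z₀ : Set P} (hZ₀ : IsClosed Z₀) (hKZ₀ : K ⊆ Z₀) (hne₀ : Z₀ ≠ univ)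
    (hK : IsClosed K) :
    ∃ k₁, (AS P).Coc Z₀ 2 k₁ ∧ ∀ z ∈ K, k - k₁ ∈ (AS P).N z 2 := by
  by_contra hbad
  obtain ⟨Z, hZZ₀, hZ⟩ := zorn_superset_nonempty {W : Set P | IsClosed W ∧ K ⊆ W ∧
      ¬ ∃ k₁, (AS P).Coc W 2 k₁ ∧ ∀ z ∈ K, k - k₁ ∈ (AS P).N z 2} (by
    intro c hcs hchain hne
    have : Nonempty c := hne.to_subtype
    have hdir : Directed (· ⊇ ·) (fun s : c => (s : Set P)) := by
      intro s t
      rcases hchain.total s.2 t.2 with h1 | h1
      · exact ⟨s, subset_rfl, h1⟩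
      · exact ⟨t, h1, subset_rfl⟩
    refine ⟨⋂₀ c, ⟨isClosed_sInter fun t ht => (hcs ht).1,
      subset_sInter fun t ht => (hcs ht).2.1, ?_⟩, fun s hs => sInter_subset_of_mem hs⟩
    rintro ⟨k₁, hk₁, hk₁'⟩
    obtain ⟨U, hU, hsub, hUc⟩ := hk₁.isOpen
    obtain ⟨i, hi⟩ := exists_subset_nhds_of_isCompact' (V := fun s : c => (s : Set P)) hdir
      (fun s => (hcs s.2).1.isCompact) (fun s => (hcs s.2).1) (U := U) (by
        intro x hx
        refine hU.mem_nhds (hsub ?_)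
        rw [sInter_eq_iInter]
        exact hx)
    exact (hcs i.2).2.2 ⟨k₁, hUc.mono hi, hk₁'⟩) Z₀ ⟨hZ₀, hKZ₀, hbad⟩
  obtain ⟨hZc, hKZ, hZbad⟩ := hZ.prop
  have hmin : ∀ W : Set P, IsClosed W → K ⊆ W → W ⊆ Z → W ≠ Z →
      ∃ k₁, (AS P).Coc W 2 k₁ ∧ ∀ z ∈ K, k - k₁ ∈ (AS P).N z 2 := by
    intro W hW hKW hWZ hWne
    by_contra hn
    exact hWne (hZ.eq_of_subset ⟨hW, hKW, hn⟩ hWZ)
  have hZne : Z ≠ univ := by
    rintro rfl
    exact hne₀ (univ_subset_iff.1 hZZ₀)
  -- a point of `Z \ K` in the closure of the complement of `Z`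
  obtain ⟨q, hqZ, hqK, hqc⟩ : ∃ q ∈ Z, q ∉ K ∧ q ∈ closure Zᶜ := by
    by_contra hno
    push Not at hno
    have hZK : (Z \ K).Nonempty := by
      by_contra h
      rw [not_nonempty_iff_eq_empty, sdiff_eq_empty] at h
      exact hZbad ⟨k, hk.mono h, fun z _ => by rw [sub_self]; exact zero_mem _⟩
    have hopen : IsOpen (closure Zᶜ)ᶜ := isClosed_closure.isOpen_compl
    have h1 : Kᶜ ⊆ (closure Zᶜ)ᶜ ∪ Zᶜ := by
      intro x hx
      by_cases hxZ : x ∈ Z
      · exact Or.inl (hno x hxZ hx)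
      · exact Or.inr hxZ
    obtain ⟨a, haZ, haK⟩ := hZK
    obtain ⟨b, hb⟩ := (ne_univ_iff_exists_notMem Z).1 hZne
    obtain ⟨x, hxK, hx1, hx2⟩ := hc _ _ hopen hZc.isOpen_compl h1 ⟨a, haK, hno a haZ haK⟩
      ⟨b, fun h => hb (hKZ h), hb⟩
    exact hx1 (subset_closure hx2)
  set φ := chartAt (EuclideanSpace ℝ (Fin 2)) q with hφ
  have hqs : q ∈ φ.source := mem_chart_source _ q
  have hopen : IsOpen (φ.target ∩ φ.symm ⁻¹' Kᶜ) :=
    φ.symm.isOpen_inter_preimage hK.isOpen_compl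
  obtain ⟨r0, hr0, hball⟩ : ∃ r0 > 0, Metric.closedBall (φ q) r0 ⊆ φ.target ∩ φ.symm ⁻¹' Kᶜ :=
    Metric.nhds_basis_closedBall.mem_iff.1 (hopen.mem_nhds ⟨φ.map_source hqs, by
      rw [mem_preimage, φ.left_inv hqs]; exact hqK⟩)
  have hnh : φ.source ∩ φ ⁻¹' Metric.ball (φ q) r0 ∈ 𝓝 q :=
    (φ.isOpen_inter_preimage Metric.isOpen_ball).mem_nhds ⟨hqs, Metric.mem_ball_self hr0⟩
  obtain ⟨p, ⟨hps, hpb⟩, hpZ⟩ := mem_closure_iff_nhds.1 hqc _ hnh
  have hpb' : dist (φ p) (φ q) < r0 := hpb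
  have hpq : p ≠ q := fun h => hpZ (h ▸ hqZ)
  have hpq' : φ p ≠ φ q := fun h => hpq (φ.injOn hps hqs h)
  set ρ := dist (φ p) (φ q) with hρ
  have hρ0 : 0 < ρ := dist_pos.2 hpq'
  have hcb' : Metric.closedBall (φ q) ρ ⊆ φ.target ∩ φ.symm ⁻¹' Kᶜ :=
    (Metric.closedBall_subset_closedBall hpb'.le).trans hball
  have hcb : Metric.closedBall (φ q) ρ ⊆ φ.target := hcb'.trans inter_subset_left
  have hbt : Metric.ball (φ q) ρ ⊆ φ.target := Metric.ball_subset_closedBall.trans hcb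
  set L : Set P := φ.symm '' Metric.closedBall (φ q) ρ with hL
  set U : Set P := φ.symm '' Metric.ball (φ q) ρ with hU
  have hLc : IsCompact L :=
    (isCompact_closedBall _ _).image_of_continuousOn (φ.continuousOn_symm.mono hcb)
  have hUo : IsOpen U := φ.symm.isOpen_image_of_subset_source Metric.isOpen_ball hbt
  have hUL : U ⊆ L := image_mono Metric.ball_subset_closedBall
  have hqU : q ∈ U := ⟨φ q, Metric.mem_ball_self hρ0, φ.left_inv hqs⟩
  have hLs : L ⊆ φ.source := by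
    rintro _ ⟨y, hy, rfl⟩
    exact φ.map_target (hcb hy)
  have hUK : ∀ x ∈ K, x ∉ U := by
    rintro x hxK ⟨y, hy, rfl⟩
    exact (hcb' (Metric.ball_subset_closedBall hy)).2 hxK
  have hA : IsClosed (Z ∩ L) := hZc.inter hLc.isClosed
  have hB : IsClosed (Z \ U) := hZc.sdiff hUo
  have hun : Z = (Z ∩ L) ∪ (Z \ U) := by
    ext x
    constructor
    · intro hx
      by_cases h : x ∈ U
      · exact Or.inl ⟨hx, hUL h⟩
      · exact Or.inr ⟨hx, h⟩
    · rintro (h | h)
      · exact h.1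
      · exact h.1
  obtain ⟨k₂, hk₂, hk₂'⟩ := hmin (Z \ U) hB (fun x hx => ⟨hKZ hx, hUK x hx⟩) sdiff_subset
    (fun h => by
      have : q ∈ Z \ U := by rw [h]; exact hqZ
      exact this.2 hqU)
  -- the intersection
  have hI : (AS P).Ex ((Z ∩ L) ∩ (Z \ U)) 2 := by
    obtain ⟨σ, hσc, hσi⟩ := exists_sphere_coord le_rfl (φ q) (φ p) ρ hρ0 rfl
    have hmaps : MapsTo φ ((Z ∩ L) ∩ (Z \ U)) (Metric.sphere (φ q) ρ \ {φ p}) := by
      rintro x ⟨⟨hxZ, y, hy, rfl⟩, -, hxU⟩
      rw [φ.right_inv (hcb hy)]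
      refine ⟨?_, ?_⟩
      · rw [Metric.mem_sphere]
        refine le_antisymm hy ?_
        by_contra hlt
        exact hxU ⟨y, not_le.1 hlt, rfl⟩
      · intro h
        have h' : y = φ p := h
        apply hpZ
        rw [h', φ.left_inv hps] at hxZ
        exact hxZ
    have hsub : (Z ∩ L) ∩ (Z \ U) ⊆ φ.source := fun x hx => hLs hx.1.2
    refine ex_of_embed (m := 2 - 1) (hA.inter hB).isCompact (φ := σ ∘ φ)
      (hσc.comp (φ.continuousOn.mono hsub) hmaps) (hσi.comp (φ.injOn.mono hsub) hmaps)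
      (by omega) le_rfl
  obtain ⟨e, he⟩ := hI k₂ (hk₂.mono inter_subset_right)
  obtain ⟨k', hk', hk''⟩ := extend_glue hA hB hk₂ he
  rw [← hun] at hk'
  refine hZbad ⟨k', hk', fun z hz => ?_⟩
  have h1 := add_mem (hk₂' z hz) (hk'' z ⟨hKZ hz, hUK z hz⟩)
  convert h1 using 1
  abel

theorem rank_of_injOn {P : Type*} [MetricSpace P] {M k : ℕ} (hk : 2 ≤ k) (hkM : k ≤ M) {S : Set P}
    (hS : IsCompact S) {φ : P → EuclideanSpace ℝ (Fin M)} (hφ : ContinuousOn φ S)
    (hinj : InjOn φ S) (himg : φ '' S = Sp M k) (c c' : Ch P)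
    (hc : (AS P).Coc S k c) (hc' : (AS P).Coc S k c') :
    (AS P).Cob S k c ∨ (AS P).Cob S k c' ∨ (AS P).Cob S k (c - c') := by
  rcases S.eq_empty_or_nonempty with rfl | hne
  · exact Or.inl (Cob.of_mem (by simp))
  obtain ⟨g, g', h1, h2, h3, h4⟩ := exists_ext hS hne hφ hinj
  have hF : MapsTo g S (φ '' S) := by
    intro x hx; rw [h3 x hx]; exact mem_image_of_mem _ hx
  have hF' : MapsTo g' (φ '' S) S := by
    rintro _ ⟨x, hx, rfl⟩; rw [h4 x hx]; exact hx
  have hgg : ∀ x ∈ S, g' (g x) = x := by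
    intro x hx; rw [h3 x hx, h4 x hx]
  have r1 := cob_retract h1 h2 hF hF' hgg hc
  have r2 := cob_retract h1 h2 hF hF' hgg hc'
  have k1 := coc_pb h2 hF' hc
  have k2 := coc_pb h2 hF' hc'
  have key := sp_rank (M := M) (k := k) hk hkM (pb g' c) (pb g' c')
    (by rw [himg] at k1; exact k1) (by rw [himg] at k2; exact k2)
  rw [← himg] at key
  rcases key with h | h | h
  · left
    have := r1.add (cob_pb h1 hF h)
    simpa using this
  · right; left
    have := r2.add (cob_pb h1 hF h)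
    simpa using this
  · right; right
    have h5 := (r1.sub r2).add (cob_pb h1 hF h)
    have e1 : c - pb g (pb g' c) - (c' - pb g (pb g' c')) + pb g (pb g' c - pb g' c') = c - c' := by
      have e2 : pb g (pb g' c - pb g' c') = pb g (pb g' c) - pb g (pb g' c') := rfl
      rw [e2]
      abel
    rwa [e1] at h5

end J184

open J184

/-- on a closed surface with nonzero second cohomology mod 2, the first cohomology of the whole
surface surjects onto that of any closed set with connected complement -/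
theorem surj_one {P : Type} [MetricSpace P] [CompactSpace P] [ConnectedSpace P]
    [ChartedSpace (EuclideanSpace ℝ (Fin 2)) P] (hH2 : ¬ (AS P).Ex univ 3) {K : Set P}
    (hK : IsClosed K) (hc : IsPreconnected Kᶜ) (hne : Kᶜ.Nonempty) :
    ∀ k, (AS P).Coc K 2 k → ∃ k', (AS P).Coc univ 2 k' ∧ (AS P).Cob K 2 (k - k') := by
  intro k hk
  obtain ⟨q, hqK⟩ := hne
  set φ := chartAt (EuclideanSpace ℝ (Fin 2)) q with hφ
  have hqs : q ∈ φ.source := mem_chart_source _ q
  have hopen : IsOpen (φ.target ∩ φ.symm ⁻¹' Kᶜ) :=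
    φ.symm.isOpen_inter_preimage hK.isOpen_compl
  obtain ⟨ρ, hρ0, hcb'⟩ : ∃ r0 > 0, Metric.closedBall (φ q) r0 ⊆ φ.target ∩ φ.symm ⁻¹' Kᶜ :=
    Metric.nhds_basis_closedBall.mem_iff.1 (hopen.mem_nhds ⟨φ.map_source hqs, by
      rw [mem_preimage, φ.left_inv hqs]; exact hqK⟩)
  have hcb : Metric.closedBall (φ q) ρ ⊆ φ.target := hcb'.trans inter_subset_left
  have hbt : Metric.ball (φ q) ρ ⊆ φ.target := Metric.ball_subset_closedBall.trans hcb
  set L : Set P := φ.symm '' Metric.closedBall (φ q) ρ with hL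
  set U : Set P := φ.symm '' Metric.ball (φ q) ρ with hU
  have hLc : IsCompact L :=
    (isCompact_closedBall _ _).image_of_continuousOn (φ.continuousOn_symm.mono hcb)
  have hUo : IsOpen U := φ.symm.isOpen_image_of_subset_source Metric.isOpen_ball hbt
  have hUL : U ⊆ L := image_mono Metric.ball_subset_closedBall
  have hqU : q ∈ U := ⟨φ q, Metric.mem_ball_self hρ0, φ.left_inv hqs⟩
  have hLs : L ⊆ φ.source := by
    rintro _ ⟨y, hy, rfl⟩
    exact φ.map_target (hcb hy)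
  have hKU : K ⊆ Uᶜ := by
    rintro x hxK ⟨y, hy, rfl⟩
    exact (hcb' (Metric.ball_subset_closedBall hy)).2 hxK
  have hZc : IsClosed Uᶜ := hUo.isClosed_compl
  have hZne : Uᶜ ≠ univ := by
    intro h
    have : q ∈ Uᶜ := by rw [h]; exact mem_univ q
    exact this hqU
  have hun : Uᶜ ∪ L = univ := by
    rw [eq_univ_iff_forall]
    intro x
    by_cases hx : x ∈ U
    · exact Or.inr (hUL hx)
    · exact Or.inl hx
  obtain ⟨k₁, hk₁, hkk₁⟩ := extend_proper hc hk hZc hKU hZne hK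
  by_cases hS : (AS P).Cob (L ∩ Uᶜ) 2 k₁
  · obtain ⟨e, he⟩ := hS
    obtain ⟨k', hk', hk''⟩ := extend_glue hLc.isClosed hZc hk₁ he
    rw [union_comm, hun] at hk'
    refine ⟨k', hk', Cob.of_mem fun z hz => ?_⟩
    have h1 := add_mem (hkk₁ z hz) (hk'' z (hKU hz))
    convert h1 using 1
    abel
  · exfalso
    apply hH2
    intro w hw
    obtain ⟨c₁, hc₁⟩ := ex_top (P := P) le_rfl hZc hZne w (hw.mono (subset_univ _))
    have hLex : (AS P).Ex L 3 := by
      refine ex_of_embed (m := 2) hLc (φ := fun x => (φ x).ofLp) ?_ ?_ (by omega) (by omega)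
      · exact (PiLp.continuous_ofLp 2 _).comp_continuousOn (φ.continuousOn.mono hLs)
      · intro x hx y hy hxy
        apply φ.injOn (hLs hx) (hLs hy)
        ext i
        exact congrFun hxy i
    obtain ⟨c₂, hc₂⟩ := hLex w (hw.mono (subset_univ _))
    have hcoc : (AS P).Coc (L ∩ Uᶜ) 2 (c₁ - c₂) := by
      intro z hz
      have := sub_mem (hc₂ z hz.1) (hc₁ z hz.2)
      rw [map_sub]
      convert this using 1
      abel
    -- the circle
    have hLU : L ∩ Uᶜ ⊆ φ.source := inter_subset_left.trans hLs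
    have hSim : L ∩ Uᶜ = φ.symm '' Metric.sphere (φ q) ρ := by
      ext x
      constructor
      · rintro ⟨⟨y, hy, rfl⟩, hx⟩
        refine ⟨y, ?_, rfl⟩
        rw [Metric.mem_sphere]
        refine le_antisymm hy ?_
        by_contra hlt
        exact hx ⟨y, not_le.1 hlt, rfl⟩
      · rintro ⟨y, hy, rfl⟩
        have hy' : y ∈ Metric.closedBall (φ q) ρ := Metric.sphere_subset_closedBall hy
        refine ⟨⟨y, hy', rfl⟩, ?_⟩
        rintro ⟨y', hy'', h⟩
        have h1 : y' = y := by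
          rw [← φ.right_inv (hbt hy''), h, φ.right_inv (hcb hy')]
        rw [h1] at hy''
        rw [Metric.mem_ball] at hy''
        rw [Metric.mem_sphere] at hy
        exact absurd hy'' (by rw [hy]; exact lt_irrefl _)
    have himg : (fun x => ρ⁻¹ • (φ x - φ q)) '' (L ∩ Uᶜ) = Sp 2 2 := by
      rw [hSim, image_image]
      ext x
      constructor
      · rintro ⟨y, hy, rfl⟩
        have hy' : y ∈ Metric.closedBall (φ q) ρ := Metric.sphere_subset_closedBall hy
        rw [mem_sphere_iff_norm] at hy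
        refine ⟨?_, fun i hi => absurd i.2 (by omega)⟩
        simp only [φ.right_inv (hcb hy')]
        rw [norm_smul, norm_inv, Real.norm_eq_abs, abs_of_pos hρ0, hy, inv_mul_cancel₀ hρ0.ne']
      · rintro ⟨hx, _⟩
        have hy : φ q + ρ • x ∈ Metric.sphere (φ q) ρ := by
          rw [mem_sphere_iff_norm, add_sub_cancel_left, norm_smul, Real.norm_eq_abs,
            abs_of_pos hρ0, hx, mul_one]
        refine ⟨φ q + ρ • x, hy, ?_⟩
        simp only [φ.right_inv (hcb (Metric.sphere_subset_closedBall hy)), add_sub_cancel_left,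
          smul_smul, inv_mul_cancel₀ hρ0.ne', one_smul]
    have hcont : ContinuousOn (fun x => ρ⁻¹ • (φ x - φ q)) (L ∩ Uᶜ) :=
      (continuous_const_smul (ρ⁻¹ : ℝ)).comp_continuousOn
        ((φ.continuousOn.mono hLU).sub continuousOn_const)
    have hinj : InjOn (fun x => ρ⁻¹ • (φ x - φ q)) (L ∩ Uᶜ) := by
      intro x hx y hy hxy
      apply φ.injOn (hLU hx) (hLU hy)
      exact sub_left_injective (smul_right_injective _ (inv_ne_zero hρ0.ne') hxy)
    have hrank := rank_of_injOn (M := 2) (k := 2) le_rfl le_rfl (hLc.inter_right hZc) hcont hinj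
      himg (c₁ - c₂) k₁ hcoc (hk₁.mono inter_subset_right)
    rw [← hun]
    rcases hrank with h | h | h
    · refine j9105_glue (b' := 0) hZc hLc.isClosed hc₁ hc₂ (coc_zero _ _) ?_
      rw [inter_comm, sub_zero]
      exact h
    · exact absurd h hS
    · refine j9105_glue (b' := k₁) hZc hLc.isClosed hc₁ hc₂ hk₁ ?_
      rw [inter_comm]
      exact h

end Pool.Agent.TH619
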