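import Pool.Agent.Helper775.Tight.Main

/-!
Job 185 (BUNDLE-SURJ, for MP_c88051_gt): Gysin / Leray-Hirsch for compact pieces of a circle
bundle: surjectivity of restriction upstairs from surjectivity downstairs.
-/

set_option autoImplicit false

namespace Pool.Agent.TH619

open Set Topology Pool.Agent.Helper775.Tight SoftCx

namespace J185

section mor

variable {Y K K' : Type*} [TopologicalSpace Y] [AddCommGroup K] [AddCommGroup K']
  {M : SoftCx Y K} {F : SoftCx Y K'}

theorem mor_coc (φ : Mor M F) {Z : Set Y} {n : ℕ} {k : K} (h : M.Coc Z n k) :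
    F.Coc Z n (φ.f k) := by
  intro z hz
  have h1 := φ.comm z (n + 1) k
  have h2 := φ.mem z (n + 1) _ (h z hz)
  simpa using add_mem h1 h2

theorem mor_cob (φ : Mor M F) {Z : Set Y} {n : ℕ} {k : K} (h : M.Cob Z n k) :
    F.Cob Z n (φ.f k) := by
  obtain ⟨b, hb⟩ := h
  refine ⟨φ.f b, fun z hz => ?_⟩
  have h1 := φ.mem z n _ (hb z hz)
  have h2 := φ.comm z n b
  rw [map_sub] at h1
  have h3 := sub_mem h1 h2
  convert h3 using 1
  abel

theorem D0 (C : SoftCx Y K) (z : Y) (n : ℕ) : C.D 0 ∈ C.N z n := by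
  rw [map_zero]; exact zero_mem _

theorem neg_D {C : SoftCx Y K} {z : Y} {n : ℕ} {k : K} (h : (0 : K) - C.D k ∈ C.N z n) :
    C.D k ∈ C.N z n := by
  have := neg_mem h
  rwa [zero_sub, neg_neg] at this

end mor

end J185

open J185

/-- Leray-Hirsch / Gysin: `G` is a compact part of a circle bundle `p : X → Y` which is acyclic over
`A \ B` and the whole circle over `B`; the class `a` of degree one restricts to a generator on the
circles. If the cohomology of `Y` surjects onto that of `A` and `B`, then that of `X` surjects onto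
that of `G`. -/
theorem bundle_surj {X Y : Type} [MetricSpace X] [MetricSpace Y] [CompactSpace X] {p : X → Y}
    (hp : Continuous p) {a : Ch X} (ha : (AS X).Coc univ 2 a) {G : Set X} (hG : IsCompact G)
    {A B : Set Y} (hA : IsCompact A) (hB : IsCompact B) (hBA : B ⊆ A) (hGA : p '' G = A)
    (hfibA : ∀ w ∈ A \ B, (AS X).Acy one (G ∩ p ⁻¹' {w}))
    (hfibB : ∀ w ∈ B, p ⁻¹' {w} ⊆ G)
    (hfib : ∀ w : Y, (AS X).AType one 1 a (p ⁻¹' {w}))
    (hsA : ∀ n k, (AS Y).Coc A n k → ∃ k', (AS Y).Coc univ n k' ∧ (AS Y).Cob A n (k - k'))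
    (hsB : ∀ n k, (AS Y).Coc B n k → ∃ k', (AS Y).Coc univ n k' ∧ (AS Y).Cob B n (k - k')) :
    ∀ n k, (AS X).Coc G n k → ∃ k', (AS X).Coc univ n k' ∧ (AS X).Cob G n (k - k') := by
  intro n f hf
  rcases n with _ | m
  · exact ⟨0, coc_zero _ _, cob_index_zero _ _⟩
  have haG : (AS X).Coc G (1 + 1) a := ha.mono (subset_univ _)
  have hGp : G ∩ p ⁻¹' A = G := by
    ext x
    exact ⟨fun hx => hx.1, fun hx => ⟨hx, by rw [mem_preimage, ← hGA]; exact mem_image_of_mem p hx⟩⟩
  set F := PF p hp G hG with hF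
  set φ := phi p hp G hG with hφ
  set l := lam p hp G hG 1 a haG with hl
  have hfF : F.Coc A (m + 1) f := by
    rw [hF, push_coc, hGp]; exact hf
  -- step 1
  have hL : (cone (φ.sum l)).Ex B (m + 2) := by
    refine coneL_ex hp hG le_rfl haG hB (fun w hw => ?_) (m + 2)
    have : G ∩ p ⁻¹' {w} = p ⁻¹' {w} := inter_eq_right.2 (hfibB w hw)
    rw [this]
    exact hfib w
  obtain ⟨e', b', f', h1, h2, h3⟩ := coneL_cob φ l (hL ((0, 0), f)
    (coneL_coc φ l (fun z _ => D0 _ z _) (fun z _ => D0 _ z _)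
      (by
        intro z hz
        have := neg_mem (hfF z (hBA hz))
        rw [map_zero, map_zero, add_zero, zero_sub]
        exact this)))
  have e1 : m + 2 - 1 = m + 1 := by omega
  rw [e1] at h2 h3
  have he' : (AS Y).Coc B (m + 1) e' := by
    intro z hz
    exact neg_D (h1 z hz)
  have hb' : (AS Y).Coc B m b' := by
    intro z hz
    exact neg_D (h2 z hz)
  -- step 2
  obtain ⟨e'', he'', hce⟩ := hsB _ e' he'
  obtain ⟨b'', hb'', hcb⟩ := hsB _ b' hb'
  have hcb2 : ((AS Y).shift 1).Cob B (m + 1) (b' - b'') := by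
    obtain ⟨c, hc⟩ := hcb
    exact ⟨c, fun z hz => hc z hz⟩
  have hb2 : ∀ Z : Set Y, ((AS Y).shift 1).Coc Z (m + 1) b'' := by
    intro Z z _
    exact hb'' z (mem_univ z)
  have hfφ : F.Cob B (m + 1) (f - (φ.f e' + l.f b')) := by
    refine ⟨-f', fun z hz => ?_⟩
    have := h3 z hz
    rw [map_neg]
    convert this using 1
    abel
  set f₁ := f - φ.f e'' - l.f b'' with hf₁
  have hf₁B : F.Cob B (m + 1) f₁ := by
    have h4 := (hfφ.add (mor_cob φ hce)).add (mor_cob l hcb2)
    rw [map_sub, map_sub] at h4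
    convert h4 using 1
    rw [hf₁]
    abel
  have hf₁A : F.Coc A (m + 1) f₁ :=
    (hfF.sub (mor_coc φ (he''.mono (subset_univ _)))).sub (mor_coc l (hb2 A))
  -- step 3
  have hC : ∀ w ∈ A \ B, ∀ n, (cone φ).Ex {w} n := by
    intro w hw n
    refine cone_ex_of_acy φ one w (one_D_mem w) (acy_singleton w) ?_ n
    rw [push_acy]
    exact hfibA w hw
  have h5 : (cone φ).Cob A (m + 2) (0, f₁) := by
    refine cob_of_cob_near hA hB hC ?_ ?_
    · intro z hz
      rw [cone_D, cone_N]
      refine ⟨D0 _ z _, ?_⟩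
      change φ.f 0 - F.D f₁ ∈ F.N z (m + 2)
      rw [map_zero, zero_sub]
      exact neg_mem (hf₁A z hz)
    · obtain ⟨g, hg⟩ := hf₁B
      refine ⟨(0, -g), fun z hz => ?_⟩
      rw [cone_D, cone_N]
      refine ⟨?_, ?_⟩
      · change (0 : Ch Y) - (AS Y).D 0 ∈ (AS Y).N z (m + 2)
        rw [map_zero, sub_zero]
        exact zero_mem _
      have := hg z hz
      change f₁ - (φ.f 0 - F.D (-g)) ∈ F.N z (m + 1)
      rw [map_zero, map_neg, sub_neg_eq_add, zero_add]
      exact this
  obtain ⟨⟨c₁, g₁⟩, h6⟩ := h5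
  have hc₁ : (AS Y).Coc A (m + 1) c₁ := by
    intro z hz
    have := (h6 z hz).1
    exact neg_D this
  have h7 : F.Cob A (m + 1) (f₁ - φ.f c₁) := by
    refine ⟨-g₁, fun z hz => ?_⟩
    have := (h6 z hz).2
    change f₁ - (φ.f c₁ - F.D g₁) ∈ F.N z (m + 1) at this
    rw [map_neg]
    convert this using 1
    abel
  obtain ⟨c₂, hc₂, hcc⟩ := hsA _ c₁ hc₁
  have h8 : F.Cob A (m + 1) (f₁ - φ.f c₂) := by
    have := h7.add (mor_cob φ hcc)
    rw [map_sub] at this
    convert this using 1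
    abel
  refine ⟨pb p e'' + cup 1 a (pb p b'') + pb p c₂, ?_, ?_⟩
  · -- cocycle everywhere
    have hu : (univ : Set X) ∩ p ⁻¹' univ = univ := by simp
    have h9 : (PF p hp univ isCompact_univ).Coc univ (m + 1)
        ((phi p hp univ isCompact_univ).f e'' +
          (lam p hp univ isCompact_univ 1 a ha).f b'' +
          (phi p hp univ isCompact_univ).f c₂) :=
      ((mor_coc _ he'').add (mor_coc _ (hb2 univ))).add (mor_coc _ hc₂)
    rw [push_coc, hu] at h9
    exact h9
  · rw [hF, push_cob, hGp] at h8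
    convert h8 using 1
    rw [hf₁, hφ, hl, phi_f, phi_f, lam_f]
    abel

end Pool.Agent.TH619
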