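import Pool.Agent.TH369.J169
import Pool.Agent.TH429.J184
import Pool.Agent.TH429.J185
import Pool.Agent.TH480.J186
import Pool.Agent.Helper775.Tight.Main

/-!
Job 317 (TUBE-TIGHT, for MP_c88051_gt): assembly of the tightness mod 2 of the tube.
-/

set_option autoImplicit false
namespace Pool.Agent.TH619
open Set Topology Filter Pool.Agent.Helper775.Tight SoftCx
open scoped InnerProductSpace Manifold ContDiff

namespace J317

/-- a proper nonempty spherical cap is acyclic -/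
theorem cap_acy {V : Type} [NormedAddCommGroup V] [InnerProductSpace ℝ V] {W : Submodule ℝ V}
    {m : V} (hm : m ∈ W) {s : ℝ} {F : Set V} (hF : IsCompact F)
    (hFe : F = {ν | ν ∈ W ∧ ‖ν‖ = 1 ∧ s ≤ ⟪m, ν⟫_ℝ}) (hne : F.Nonempty)
    (hout : ∃ ν ∈ W, ‖ν‖ = 1 ∧ ⟪m, ν⟫_ℝ < s) : (AS V).Acy one F := by
  obtain ⟨ν₁, hν₁W, hν₁, hν₁s⟩ := hout
  obtain ⟨ν₀, hν₀⟩ := hne
  have hν₀' : ν₀ ∈ W ∧ ‖ν₀‖ = 1 ∧ s ≤ ⟪m, ν₀⟫_ℝ := by rw [hFe] at hν₀; exact hν₀
  have hm0 : m ≠ 0 := by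
    rintro rfl
    rw [inner_zero_left] at hν₁s
    have := hν₀'.2.2
    rw [inner_zero_left] at this
    linarith
  have hmp : 0 < ‖m‖ := norm_pos_iff.2 hm0
  set n : V := ‖m‖⁻¹ • m with hn
  have hnn : ‖n‖ = 1 := by
    rw [hn, norm_smul, norm_inv, norm_norm, inv_mul_cancel₀ hmp.ne']
  have hmn : m = ‖m‖ • n := by
    rw [hn, smul_smul, mul_inv_cancel₀ hmp.ne', one_smul]
  have hnW : n ∈ W := W.smul_mem _ hm
  clear_value n
  have hmi : ∀ x, ⟪m, x⟫_ℝ = ‖m‖ * ⟪n, x⟫_ℝ := by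
    intro x
    conv_lhs => rw [hmn]
    rw [real_inner_smul_left]
  have hle : ∀ x : V, ‖x‖ = 1 → |⟪n, x⟫_ℝ| ≤ 1 := by
    intro x hx
    have := abs_real_inner_le_norm n x
    rwa [hnn, hx, one_mul] at this
  have hnF : n ∈ F := by
    rw [hFe]
    refine ⟨hnW, hnn, ?_⟩
    have h1 := hν₀'.2.2
    have h2 := (abs_le.1 (hle ν₀ hν₀'.2.1)).2
    rw [hmi] at h1 ⊢
    have h3 : ⟪n, n⟫_ℝ = 1 := by rw [real_inner_self_eq_norm_sq, hnn]; norm_num
    rw [h3]
    nlinarith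
  have hnn' : -n ∉ F := by
    rw [hFe]
    rintro ⟨-, -, h1⟩
    rw [hmi] at h1
    have h2 := (abs_le.1 (hle ν₁ hν₁)).1
    have h3 : ⟪n, n⟫_ℝ = 1 := by rw [real_inner_self_eq_norm_sq, hnn]; norm_num
    rw [inner_neg_right, h3] at h1
    rw [hmi] at hν₁s
    nlinarith
  have hF' : ∀ ν ∈ F, ν ∈ W ∧ ‖ν‖ = 1 ∧ s ≤ ⟪m, ν⟫_ℝ := by
    intro ν hν
    rw [hFe] at hν
    exact hν
  have hden : ∀ t ∈ Icc (0 : ℝ) 1, ∀ ν ∈ F, (1 - t) • ν + t • n ≠ 0 := by
    intro t ht ν hν h0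
    have h1 : (1 - t) • ν = -(t • n) := eq_neg_of_add_eq_zero_left h0
    have h2 : ‖(1 - t) • ν‖ = ‖t • n‖ := by rw [h1, norm_neg]
    rw [norm_smul, norm_smul, (hF' ν hν).2.1, hnn, mul_one, mul_one, Real.norm_eq_abs,
      Real.norm_eq_abs, abs_of_nonneg (by linarith [ht.2]), abs_of_nonneg ht.1] at h2
    have ht2 : t = 1 / 2 := by linarith
    rw [ht2] at h1
    apply hnn'
    have h3 : ν = -n := by
      have h4 : (1 - 1 / 2 : ℝ) = 1 / 2 := by norm_num
      rw [h4, ← smul_neg] at h1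
      exact smul_right_injective V (show (1 / 2 : ℝ) ≠ 0 by norm_num) h1
    rwa [← h3]
  refine acy_of_contract hF (fun t ν => ‖(1 - t) • ν + t • n‖⁻¹ • ((1 - t) • ν + t • n)) n
    ?_ ?_ ?_ ?_ hnF
  · intro t ht ν hν
    have hc : Continuous (fun p : ℝ × V => (1 - p.1) • p.2 + p.1 • n) := by fun_prop
    refine ContinuousAt.smul (ContinuousAt.inv₀ ?_ ?_) hc.continuousAt
    · exact hc.norm.continuousAt
    · exact (norm_pos_iff.2 (hden t ht ν hν)).ne'
  · intro t ht ν hν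
    obtain ⟨hνW, hν1, hνs⟩ := hF' ν hν
    set u := (1 - t) • ν + t • n with hu
    have hu0 : 0 < ‖u‖ := norm_pos_iff.2 (hden t ht ν hν)
    rw [hFe]
    refine ⟨W.smul_mem _ (W.add_mem (W.smul_mem _ hνW) (W.smul_mem _ hnW)), ?_, ?_⟩
    · rw [norm_smul, norm_inv, norm_norm, inv_mul_cancel₀ hu0.ne']
    · set x := ⟪n, ν⟫_ℝ with hx
      have hx1 := abs_le.1 (hle ν hν1)
      have h3 : ⟪n, n⟫_ℝ = 1 := by rw [real_inner_self_eq_norm_sq, hnn]; norm_num
      have hν2 : ⟪ν, ν⟫_ℝ = 1 := by rw [real_inner_self_eq_norm_sq, hν1]; norm_num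
      have hnu : ⟪n, u⟫_ℝ = (1 - t) * x + t := by
        rw [hu, inner_add_right, real_inner_smul_right, real_inner_smul_right, h3, ← hx, mul_one]
      have hD2 : ‖u‖ ^ 2 = (1 - t) ^ 2 + t ^ 2 + 2 * t * (1 - t) * x := by
        have hc : ⟪ν, n⟫_ℝ = x := by rw [hx, real_inner_comm]
        rw [← real_inner_self_eq_norm_sq, hu, inner_add_left, inner_add_right, inner_add_right,
          real_inner_smul_left, real_inner_smul_left, real_inner_smul_left, real_inner_smul_left,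
          real_inner_smul_right, real_inner_smul_right, real_inner_smul_right,
          real_inner_smul_right, h3, hν2, hc, ← hx]
        ring
      have hD1 : ‖u‖ ≤ 1 := by
        have : ‖u‖ ^ 2 ≤ 1 := by
          rw [hD2]
          nlinarith [ht.1, ht.2, mul_nonneg ht.1 (sub_nonneg.2 ht.2)]
        nlinarith [hu0]
      have key : x ≤ ‖u‖⁻¹ * ((1 - t) * x + t) := by
        rw [inv_mul_eq_div, le_div_iff₀ hu0]
        by_cases hg : 0 ≤ (1 - t) * x + t
        · by_cases hx0 : 0 ≤ x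
          · nlinarith [ht.1, ht.2]
          · push Not at hx0
            nlinarith
        · push Not at hg
          -- both negative: compare squares
          have hx0 : x < 0 := by
            by_contra h
            push Not at h
            nlinarith [ht.1, ht.2, mul_nonneg (sub_nonneg.2 ht.2) h]
          have hsq : ((1 - t) * x + t) ^ 2 ≤ (x * ‖u‖) ^ 2 := by
            rw [mul_pow, hD2]
            have e : x ^ 2 * ((1 - t) ^ 2 + t ^ 2 + 2 * t * (1 - t) * x) - ((1 - t) * x + t) ^ 2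
                = t * (x ^ 2 - 1) * (t + 2 * (1 - t) * x) := by ring
            have h4 : t + 2 * (1 - t) * x ≤ 0 := by nlinarith [ht.1, ht.2]
            have h5 : t * (x ^ 2 - 1) ≤ 0 := by
              apply mul_nonpos_of_nonneg_of_nonpos ht.1
              nlinarith [hx1.1, hx1.2]
            have := mul_nonneg_of_nonpos_of_nonpos h5 h4
            linarith
          have hxu : x * ‖u‖ ≤ 0 := mul_nonpos_of_nonpos_of_nonneg hx0.le hu0.le
          by_contra hlt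
          push Not at hlt
          nlinarith
      rw [real_inner_smul_right, hmi, hnu]
      rw [hmi, ← hx] at hνs
      calc s ≤ ‖m‖ * x := hνs
        _ ≤ ‖m‖ * (‖u‖⁻¹ * ((1 - t) * x + t)) := mul_le_mul_of_nonneg_left key hmp.le
        _ = _ := by ring
  · intro ν hν
    simp only [sub_zero, one_smul, zero_smul, add_zero]
    rw [(hF' ν hν).2.1, inv_one, one_smul]
  · intro ν hν
    simp only [sub_self, zero_smul, one_smul, zero_add]
    rw [hnn, inv_one, one_smul]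

/-- cocycles of degree zero near a preconnected set are constant -/
theorem coc_one_preconn {Ω : Type*} [MetricSpace Ω] {Z : Set Ω} (hpc : IsPreconnected Z) (c : Ch Ω)
    (hc : (AS Ω).Coc Z 1 c) :
    (∀ z ∈ Z, c ∈ (AS Ω).N z 1) ∨ ∀ z ∈ Z, c - one ∈ (AS Ω).N z 1 := by
  rcases Z.eq_empty_or_nonempty with rfl | ⟨z₀, hz₀⟩
  · left; simp
  have hloc : ∀ z ∈ Z, ∃ W : Set Ω, IsOpen W ∧ z ∈ W ∧ ∀ x ∈ W, c [x] = c [z] := by
    intro z hz
    obtain ⟨W, hW, hzW, h⟩ := exists_of_mem_Nz (by omega) (hc z hz)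
    refine ⟨W, hW, hzW, fun x hx => ?_⟩
    have h2 := h [x, z] rfl (by
        intro y hy
        simp only [List.mem_cons, List.not_mem_nil, or_false] at hy
        rcases hy with rfl | rfl
        · exact hx
        · exact hzW)
    rw [AS_D, dd_apply (by simp)] at h2
    simp only [d_cons, d_nil] at h2
    have h3 := add_self2 (c [z])
    linear_combination h2 - h3
  let _ : TopologicalSpace (ZMod 2) := ⊥
  have : DiscreteTopology (ZMod 2) := ⟨rfl⟩
  have hcont : ContinuousOn (fun x => c [x]) Z := by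
    intro z hz
    obtain ⟨W, hW, hzW, h⟩ := hloc z hz
    apply ContinuousAt.continuousWithinAt
    refine (continuousAt_const (y := c [z])).congr ?_
    filter_upwards [hW.mem_nhds hzW] with x hx
    exact (h x hx).symm
  have hc0 : ∀ x ∈ Z, c [x] = c [z₀] := fun x hx => hpc.constant hcont hx hz₀
  have hz2 : c [z₀] = 0 ∨ c [z₀] = 1 := by
    generalize c [z₀] = t
    revert t; decide
  rcases hz2 with h0 | h0
  · left
    intro w hw
    obtain ⟨W, hW, hwW, h⟩ := hloc w hw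
    refine mem_Nz_of (hW.mem_nhds hwW) fun l hl hx => ?_
    match l, hl with
    | [x], _ => rw [h x (hx x (by simp)), hc0 w hw, h0]
  · right
    intro w hw
    obtain ⟨W, hW, hwW, h⟩ := hloc w hw
    refine mem_Nz_of (hW.mem_nhds hwW) fun l hl hx => ?_
    match l, hl with
    | [x], _ => rw [Pi.sub_apply, h x (hx x (by simp)), hc0 w hw, h0]; simp [one]

theorem surj_all {M : Type} [MetricSpace M] [CompactSpace M] [ConnectedSpace M]
    [ChartedSpace (EuclideanSpace ℝ (Fin 2)) M] (hH2 : ¬ (AS M).Ex univ 3) {Z : Set M}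
    (hZ : IsClosed Z) (hpc : IsPreconnected Z) (hpc' : IsPreconnected Zᶜ) :
    ∀ n k, (AS M).Coc Z n k → ∃ k', (AS M).Coc univ n k' ∧ (AS M).Cob Z n (k - k') := by
  intro n k hk
  by_cases hZu : Z = univ
  · subst hZu
    exact ⟨k, hk, Cob.of_mem fun z _ => by rw [sub_self]; exact zero_mem _⟩
  rcases Nat.lt_or_ge n 1 with hn | hn
  · obtain rfl : n = 0 := by omega
    exact ⟨0, coc_zero _ _, cob_index_zero _ _⟩
  rcases Nat.lt_or_ge n 2 with hn | hn
  · obtain rfl : n = 1 := by omega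
    rcases coc_one_preconn hpc k hk with h | h
    · exact ⟨0, coc_zero _ _, cob_one.2 (by simpa using h)⟩
    · exact ⟨one, fun z _ => one_D_mem z, cob_one.2 h⟩
  rcases Nat.lt_or_ge n 3 with hn | hn
  · obtain rfl : n = 2 := by omega
    exact surj_one hH2 hZ hpc' (nonempty_compl.2 hZu) k hk
  rcases Nat.lt_or_ge n 4 with hn | hn
  · obtain rfl : n = 3 := by omega
    refine ⟨0, coc_zero _ _, ?_⟩
    rw [sub_zero]
    exact ex_top (P := M) (m := 2) le_rfl hZ hZu k hk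
  · refine ⟨0, coc_zero _ _, ?_⟩
    rw [sub_zero]
    exact ex_of_locally_embed (m := 2) exists_local_embed hZ.isCompact (by omega) (by omega) k hk

end J317

open J317 Pool.Agent.TH369

/-- the tube is tight, if its circle bundle has a class which generates the cohomology of the
fibres mod 2 -/
theorem tube_tight {M : Type} [MetricSpace M] [CompactSpace M] [ConnectedSpace M]
    [ChartedSpace (E 2) M] {f : M → E 4} (hf : Continuous f) (hI : Imm f) {ε : ℝ} (hε : 0 < ε)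
    (hG : ∃ G : Set (E 4), Dense G ∧ ∀ z ∈ G, ∀ c : ℝ,
        IsPreconnected (AA f ε z c) ∧ IsPreconnected (BB f ε z c) ∧
        IsPreconnected (AA f ε z c)ᶜ ∧ IsPreconnected (BB f ε z c)ᶜ)
    (hH2 : ¬ (AS M).Ex univ 3) [CompactSpace (NB f)] [ChartedSpace (E 3) (NB f)]
    {a : Ch (NB f)} (ha : (AS (NB f)).Coc univ 2 a)
    (hfib : ∀ x : M, (AS (NB f)).AType one 1 a {q : NB f | q.1.1 = x}) :
    ∀ (z : E 4) (c : ℝ), HomologyInjective {q : NB f | c < ⟪z, tube f ε q.1⟫_ℝ} := by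
  intro z c
  have htc : Continuous fun q : NB f => tube f ε q.1 := by
    unfold tube
    exact (hf.comp (continuous_fst.comp continuous_subtype_val)).add
      ((continuous_snd.comp continuous_subtype_val).const_smul ε)
  have hhc : ∀ z : E 4, Continuous fun q : NB f => ⟪z, tube f ε q.1⟫_ℝ := fun z =>
    continuous_const.inner htc
  have hp : Continuous fun q : NB f => q.1.1 := continuous_fst.comp continuous_subtype_val
  refine Pool.Agent.TH480.J186.sing_of_cech (m := 3) (isOpen_lt continuous_const (hhc z)) ?_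
  intro K hK hKU
  rcases K.eq_empty_or_nonempty with rfl | hKne
  · exact ⟨∅, isCompact_empty, subset_rfl, empty_subset _, fun n k _ =>
      ⟨0, coc_zero _ _, Cob.of_mem (by simp)⟩⟩
  obtain ⟨q₀, hq₀, hmin⟩ := hK.exists_isMinOn hKne (hhc z).continuousOn
  set δ : ℝ := ⟪z, tube f ε q₀.1⟫_ℝ - c with hδ
  have hδ0 : 0 < δ := by
    have : c < ⟪z, tube f ε q₀.1⟫_ℝ := hKU hq₀
    rw [hδ]; linarith
  have hKδ : ∀ q ∈ K, c + δ ≤ ⟪z, tube f ε q.1⟫_ℝ := by
    intro q hq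
    have : ⟪z, tube f ε q₀.1⟫_ℝ ≤ ⟪z, tube f ε q.1⟫_ℝ := hmin hq
    rw [hδ]; linarith
  obtain ⟨R, hR⟩ := (isCompact_range htc).isBounded.exists_norm_le
  have hR' : ∀ q : NB f, ‖tube f ε q.1‖ ≤ |R| := fun q => (hR _ ⟨q, rfl⟩).trans (le_abs_self R)
  obtain ⟨G, hGd, hGG⟩ := hG
  -- the direction
  obtain ⟨z', hz'G, hz'b, hz'0⟩ : ∃ z' ∈ G, ‖z' - z‖ < δ / (3 * (|R| + 1)) ∧ z' ≠ 0 := by
    have hr : 0 < δ / (3 * (|R| + 1)) := by positivity
    have hopen : IsOpen (Metric.ball z (δ / (3 * (|R| + 1))) \ {0}) :=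
      Metric.isOpen_ball.sdiff isClosed_singleton
    have hne : (Metric.ball z (δ / (3 * (|R| + 1))) \ {0}).Nonempty := by
      by_cases hz : z = 0
      · obtain ⟨v, hv⟩ := exists_norm_eq (E 4) (half_pos hr).le
        refine ⟨v, ?_, ?_⟩
        · rw [mem_ball_iff_norm, hz, sub_zero, hv]; linarith
        · intro h
          rw [mem_singleton_iff.1 h, norm_zero] at hv
          linarith
      · exact ⟨z, Metric.mem_ball_self hr, hz⟩
    obtain ⟨z', hz', hz'G⟩ := hGd.inter_open_nonempty _ hopen hne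
    exact ⟨z', hz'G, mem_ball_iff_norm.1 hz'.1, hz'.2⟩
  have hclose : ∀ q : NB f, |⟪z', tube f ε q.1⟫_ℝ - ⟪z, tube f ε q.1⟫_ℝ| ≤ δ / 3 := by
    intro q
    rw [← inner_sub_left]
    refine (abs_real_inner_le_norm _ _).trans ?_
    have h1 : ‖z' - z‖ * ‖tube f ε q.1‖ ≤ δ / (3 * (|R| + 1)) * (|R| + 1) := by
      apply mul_le_mul hz'b.le ((hR' q).trans (by linarith)) (norm_nonneg _)
      positivity
    refine h1.trans (le_of_eq ?_)
    have : |R| + 1 ≠ 0 := by positivity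
    field_simp
  set c' : ℝ := c + δ / 2 with hc'
  set Gs : Set (NB f) := {q | c' ≤ ⟪z', tube f ε q.1⟫_ℝ} with hGs
  have hGsc : IsClosed Gs := isClosed_le continuous_const (hhc z')
  have hGsk : IsCompact Gs := hGsc.isCompact
  have hKG : K ⊆ Gs := by
    intro q hq
    change c' ≤ ⟪z', tube f ε q.1⟫_ℝ
    have h1 := hKδ q hq
    have h2 := (abs_le.1 (hclose q)).1
    rw [hc']; linarith
  have hGU : Gs ⊆ {q : NB f | c < ⟪z, tube f ε q.1⟫_ℝ} := by
    intro q hq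
    change c' ≤ ⟪z', tube f ε q.1⟫_ℝ at hq
    change c < ⟪z, tube f ε q.1⟫_ℝ
    have h2 := (abs_le.1 (hclose q)).2
    rw [hc'] at hq; linarith
  refine ⟨Gs, hGsk, hKG, hGU, ?_⟩
  -- base
  have hGA : (fun q : NB f => q.1.1) '' Gs = AA f ε z' c' := by
    ext x
    constructor
    · rintro ⟨q, hq, rfl⟩
      exact ⟨q.1.2, q.2, hq⟩
    · rintro ⟨ν, hν, h⟩
      exact ⟨⟨(x, ν), hν⟩, h, rfl⟩
  have hBA : BB f ε z' c' ⊆ AA f ε z' c' := by
    intro x hx
    obtain ⟨ν, hν, -⟩ := J169.exists_normal hI x z'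
    exact ⟨ν, hν, hx ν hν⟩
  have hAc : IsCompact (AA f ε z' c') := by
    rw [← hGA]; exact hGsk.image hp
  have hBc : IsClosed (BB f ε z' c') := by
    have hz'p : 0 < ‖z'‖ := norm_pos_iff.2 hz'0
    have e : BB f ε z' c' = BB f ε (‖z'‖⁻¹ • z') (‖z'‖⁻¹ * c') := by
      ext x
      refine forall_congr' fun ν => forall_congr' fun _ => ?_
      rw [real_inner_smul_left]
      exact (mul_le_mul_iff_right₀ (inv_pos.2 hz'p)).symm
    rw [e, J169.BB_eq hI hε]
    have hn1 : ‖‖z'‖⁻¹ • z'‖ = 1 := by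
      rw [norm_smul, norm_inv, norm_norm, inv_mul_cancel₀ hz'p.ne']
    exact isClosed_le continuous_const ((J169.continuous_height hf _).sub
      (continuous_const.mul (J169.nt_continuous hI hn1)))
  obtain ⟨hpA, hpB, hpA', hpB'⟩ := hGG z' hz'G c'
  refine bundle_surj hp ha hGsk hAc hBc.isCompact hBA hGA ?_ ?_ ?_
    (surj_all hH2 hAc.isClosed hpA hpA') (surj_all hH2 hBc hpB hpB')
  · -- the arcs
    rintro w ⟨hwA, hwB⟩
    obtain ⟨v, hv, hn⟩ := J168.dec_exists (fderiv ℝ (rd f w) (chartAt (E 2) w w)) z'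
    set m : E 4 := z' - fderiv ℝ (rd f w) (chartAt (E 2) w w) v with hm
    have hmW : m ∈ (TP f w)ᗮ := by
      rw [Submodule.mem_orthogonal']
      rintro _ ⟨u, rfl⟩
      exact hv u
    have hmi : ∀ ν : E 4, (w, ν) ∈ NB f → ⟪z', ν⟫_ℝ = ⟪m, ν⟫_ℝ := by
      intro ν hν
      have h1 : ⟪fderiv ℝ (rd f w) (chartAt (E 2) w w) v, ν⟫_ℝ = 0 := hν.2 _ ⟨v, rfl⟩
      rw [hm, inner_sub_left, h1, sub_zero]
    have hNB : ∀ ν : E 4, (w, ν) ∈ NB f ↔ ν ∈ (TP f w)ᗮ ∧ ‖ν‖ = 1 := by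
      intro ν
      rw [Submodule.mem_orthogonal]
      exact ⟨fun h => ⟨h.2, h.1⟩, fun h => ⟨h.2, h.1⟩⟩
    have hiff : ∀ ν : E 4, (w, ν) ∈ NB f →
        (c' ≤ ⟪z', tube f ε (w, ν)⟫_ℝ ↔ (c' - ⟪z', f w⟫_ℝ) / ε ≤ ⟪m, ν⟫_ℝ) := by
      intro ν hν
      rw [J169.inner_tube, hmi ν hν, div_le_iff₀ hε]
      constructor <;> intro h <;> linarith
    set F : Set (NB f) := Gs ∩ (fun q : NB f => q.1.1) ⁻¹' {w} with hF
    have hFk : IsCompact F := (hGsc.inter (isClosed_singleton.preimage hp)).isCompact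
    have hφc : Continuous fun q : NB f => q.1.2 := continuous_snd.comp continuous_subtype_val
    have hFne : F.Nonempty := by
      obtain ⟨ν, hν, h⟩ := hwA
      exact ⟨⟨(w, ν), hν⟩, h, rfl⟩
    have hinj : InjOn (fun q : NB f => q.1.2) F := by
      intro q hq q' hq' h
      have h1 : q.1.1 = w := hq.2
      have h2 : q'.1.1 = w := hq'.2
      exact Subtype.ext (Prod.ext (h1.trans h2.symm) h)
    have himg : (fun q : NB f => q.1.2) '' F =
        {ν | ν ∈ (TP f w)ᗮ ∧ ‖ν‖ = 1 ∧ (c' - ⟪z', f w⟫_ℝ) / ε ≤ ⟪m, ν⟫_ℝ} := by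
      ext ν
      constructor
      · rintro ⟨⟨⟨x, ν'⟩, hq⟩, ⟨hqG, hqw⟩, rfl⟩
        obtain rfl : x = w := hqw
        obtain ⟨h1, h2⟩ := (hNB ν').1 hq
        exact ⟨h1, h2, (hiff ν' hq).1 hqG⟩
      · rintro ⟨h1, h2, h3⟩
        have h4 : (w, ν) ∈ NB f := (hNB ν).2 ⟨h1, h2⟩
        exact ⟨⟨(w, ν), h4⟩, ⟨(hiff ν h4).2 h3, rfl⟩, rfl⟩
    have hacy : (AS (E 4)).Acy one ((fun q : NB f => q.1.2) '' F) := by
      refine cap_acy hmW (hFk.image hφc) himg (hFne.image _) ?_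
      have : ∃ ν, (w, ν) ∈ NB f ∧ ¬ c' ≤ ⟪z', tube f ε (w, ν)⟫_ℝ := by
        by_contra hno
        push Not at hno
        exact hwB hno
      obtain ⟨ν, hν, h⟩ := this
      rw [hiff ν hν, not_le] at h
      exact ⟨ν, ((hNB ν).1 hν).1, ((hNB ν).1 hν).2, h⟩
    obtain ⟨g, g', h1, h2, h3, h4⟩ := exists_ext hFk hFne hφc.continuousOn hinj
    refine acy_retract h1 h2 ?_ ?_ ?_ hFne hacy
    · intro x hx; rw [h3 x hx]; exact mem_image_of_mem _ hx
    · rintro _ ⟨x, hx, rfl⟩; rw [h4 x hx]; exact hx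
    · intro x hx; rw [h3 x hx, h4 x hx]
  · -- whole circles
    intro w hw q hq
    have hqw : q.1.1 = w := hq
    subst hqw
    exact hw q.1.2 q.2
  · intro w
    exact hfib w

end Pool.Agent.TH619
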