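import Pool.Agent.TH619.Loc1

/-! Job 286 (LOC1-INTEGRAL for MP_c88051_gt): integration of local 1-cocycles. -/

set_option autoImplicit false

namespace Pool.Agent.TH619

open Set Topology
open Pool.Agent.Helper775.Tight (Sing sface)

namespace J286

variable {X G : Type} [TopologicalSpace X] [AddCommGroup G]

/-- the point at parameter `θ` on the segment from `x₀` to `s` -/
noncomputable def gam {n : ℕ} (x₀ : stdSimplex ℝ (Fin (n + 1))) (θ : ℝ)
    (s : stdSimplex ℝ (Fin (n + 1))) : stdSimplex ℝ (Fin (n + 1)) :=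
  ⟨(1 - max 0 (min 1 θ)) • x₀.1 + (max 0 (min 1 θ)) • s.1,
    (convex_stdSimplex ℝ (Fin (n + 1))) x₀.2 s.2
      (by linarith [max_le (zero_le_one' ℝ) (min_le_left 1 θ)]) (le_max_left _ _) (by ring)⟩

theorem gam_of_mem {n : ℕ} (x₀ : stdSimplex ℝ (Fin (n + 1))) {θ : ℝ} (h0 : 0 ≤ θ) (h1 : θ ≤ 1)
    (s : stdSimplex ℝ (Fin (n + 1))) : (gam x₀ θ s).1 =
      (1 - θ) • x₀.1 + θ • s.1 := by
  unfold gam
  simp only [min_eq_right h1, max_eq_right h0]

theorem gam_zero {n : ℕ} (x₀ s : stdSimplex ℝ (Fin (n + 1))) : gam x₀ 0 s = x₀ := by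
  apply Subtype.ext
  rw [gam_of_mem x₀ le_rfl zero_le_one]
  simp

theorem gam_one {n : ℕ} (x₀ s : stdSimplex ℝ (Fin (n + 1))) : gam x₀ 1 s = s := by
  apply Subtype.ext
  rw [gam_of_mem x₀ zero_le_one le_rfl]
  simp

theorem dist_gam {n : ℕ} (x₀ : stdSimplex ℝ (Fin (n + 1))) {θ : ℝ} (h0 : 0 ≤ θ) (h1 : θ ≤ 1)
    (s s' : stdSimplex ℝ (Fin (n + 1))) : dist (gam x₀ θ s) (gam x₀ θ s') ≤ dist s s' := by
  rw [Subtype.dist_eq, Subtype.dist_eq, dist_eq_norm, dist_eq_norm, gam_of_mem x₀ h0 h1,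
    gam_of_mem x₀ h0 h1, add_sub_add_left_eq_sub, ← smul_sub, norm_smul, Real.norm_eq_abs,
    abs_of_nonneg h0]
  exact mul_le_of_le_one_left (norm_nonneg _) h1

theorem dist_gam' {n : ℕ} (x₀ : stdSimplex ℝ (Fin (n + 1))) {θ θ' : ℝ} (h0 : 0 ≤ θ) (h1 : θ ≤ 1)
    (h0' : 0 ≤ θ') (h1' : θ' ≤ 1) (s : stdSimplex ℝ (Fin (n + 1))) :
    dist (gam x₀ θ s) (gam x₀ θ' s) = |θ - θ'| * dist x₀ s := by
  rw [Subtype.dist_eq, Subtype.dist_eq, dist_eq_norm, dist_eq_norm, gam_of_mem x₀ h0 h1,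
    gam_of_mem x₀ h0' h1', norm_sub_rev x₀.1, ← Real.norm_eq_abs, ← norm_smul]
  congr 1
  module

theorem exists_pot {t : X → X → G} (ht : LC t) {n : ℕ} (σ : Sing X n) :
    ∃ g : stdSimplex ℝ (Fin (n + 1)) → G, Pot t σ g := by
  choose W hW hWt using ht
  obtain ⟨δ, hδ, hleb⟩ := lebesgue_number_lemma_of_metric (s := (univ : Set (stdSimplex ℝ (Fin (n + 1)))))
    (c := fun s : stdSimplex ℝ (Fin (n + 1)) => σ ⁻¹' interior (W (σ s))) isCompact_univ
    (fun s => isOpen_interior.preimage σ.continuous)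
    (fun s _ => mem_iUnion.2 ⟨s, mem_interior_iff_mem_nhds.2 (hW (σ s))⟩)
  have hT : ∀ s a b c : stdSimplex ℝ (Fin (n + 1)), dist a s < δ → dist b s < δ → dist c s < δ →
      t (σ a) (σ b) + t (σ b) (σ c) = t (σ a) (σ c) := by
    intro s a b c ha hb hc
    obtain ⟨i, hi⟩ := hleb s (mem_univ s)
    exact hWt (σ i) _ (interior_subset (hi ha)) _ (interior_subset (hi hb)) _
      (interior_subset (hi hc))
  set x₀ : stdSimplex ℝ (Fin (n + 1)) := stdSimplex.vertex 0 with hx₀
  obtain ⟨D, hD⟩ : ∃ D : ℝ, ∀ s : stdSimplex ℝ (Fin (n + 1)), dist x₀ s ≤ D := by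
    obtain ⟨D, hD⟩ := (isCompact_univ (X := stdSimplex ℝ (Fin (n + 1)))).isBounded.subset_closedBall x₀
    exact ⟨D, fun s => by rw [dist_comm]; exact hD (mem_univ s)⟩
  obtain ⟨N, hN⟩ := exists_nat_gt (max D 1 / (δ / 3))
  have hN0 : 0 < (N : ℝ) := lt_of_le_of_lt (by positivity) hN
  have hN0' : N ≠ 0 := by
    rintro rfl
    simp at hN0
  have hDN : D / N < δ / 3 := by
    rw [div_lt_iff₀ (by positivity)] at hN
    rw [div_lt_iff₀ hN0, mul_comm]
    exact lt_of_le_of_lt (le_max_left _ _) hN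
  have hk : ∀ k ≤ N, 0 ≤ (k : ℝ) / N ∧ (k : ℝ) / N ≤ 1 := by
    intro k hk
    refine ⟨by positivity, ?_⟩
    rw [div_le_one hN0]
    exact_mod_cast hk
  set T : stdSimplex ℝ (Fin (n + 1)) → stdSimplex ℝ (Fin (n + 1)) → G :=
    fun a b => t (σ a) (σ b) with hTdef
  have key : ∀ s s' : stdSimplex ℝ (Fin (n + 1)), dist s s' < δ / 3 → ∀ m ≤ N,
      (∑ k ∈ Finset.range m, T (gam x₀ ((k : ℝ) / N) s) (gam x₀ (((k + 1 : ℕ) : ℝ) / N) s)) +
        T (gam x₀ ((m : ℝ) / N) s) (gam x₀ ((m : ℝ) / N) s') =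
      ∑ k ∈ Finset.range m, T (gam x₀ ((k : ℝ) / N) s') (gam x₀ (((k + 1 : ℕ) : ℝ) / N) s') := by
    intro s s' hss m
    induction m with
    | zero =>
      intro _
      simp only [Finset.range_zero, Finset.sum_empty, zero_add, Nat.cast_zero, zero_div, gam_zero]
      have := hT x₀ x₀ x₀ x₀ (by simpa using hδ) (by simpa using hδ) (by simpa using hδ)
      simpa using this
    | succ m ih =>
      intro hm
      have hm' : m ≤ N := by omega
      have ih' := ih hm'
      rw [Finset.sum_range_succ, Finset.sum_range_succ, ← ih']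
      obtain ⟨a0, a1⟩ := hk m hm'
      obtain ⟨b0, b1⟩ := hk (m + 1) hm
      have d1 : ∀ r : stdSimplex ℝ (Fin (n + 1)), dist (gam x₀ ((m : ℝ) / N) r)
          (gam x₀ (((m + 1 : ℕ) : ℝ) / N) r) < δ / 3 := by
        intro r
        rw [dist_gam' x₀ a0 a1 b0 b1]
        have e : |(m : ℝ) / N - ((m + 1 : ℕ) : ℝ) / N| = 1 / N := by
          rw [← sub_div]
          push_cast
          rw [sub_add_cancel_left, abs_div, abs_neg, abs_one, abs_of_pos hN0]
        rw [e]
        refine lt_of_le_of_lt ?_ hDN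
        rw [one_div, inv_mul_eq_div]
        exact div_le_div_of_nonneg_right (hD r) hN0.le
      have d2 := dist_gam x₀ a0 a1 s s'
      have d3 := dist_gam x₀ b0 b1 s s'
      set A := gam x₀ ((m : ℝ) / N) s with hA
      set A' := gam x₀ ((m : ℝ) / N) s' with hA'
      set B := gam x₀ (((m + 1 : ℕ) : ℝ) / N) s with hB
      set B' := gam x₀ (((m + 1 : ℕ) : ℝ) / N) s' with hB'
      have p1 : dist A A < δ := by rw [dist_self]; exact hδ
      have p2 : dist A' A < δ := by rw [dist_comm]; linarith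
      have p3 : dist B A < δ := by rw [dist_comm]; linarith [d1 s]
      have p4 : dist B' A < δ := by
        have := dist_triangle B' B A
        have h1 := d1 s
        rw [dist_comm B' B, dist_comm B A] at this
        linarith
      have q1 := hT A A B B' p1 p3 p4
      have q2 := hT A A A' B' p1 p2 p4
      have q1' : T A B + T B B' = T A B' := q1
      have q2' : T A A' + T A' B' = T A B' := q2
      rw [add_assoc, q1', ← q2', add_assoc]
  refine ⟨fun s => ∑ k ∈ Finset.range N, T (gam x₀ ((k : ℝ) / N) s)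
    (gam x₀ (((k + 1 : ℕ) : ℝ) / N) s), fun s => ⟨Metric.ball s (δ / 6),
    Metric.ball_mem_nhds s (by positivity), fun a ha b hb => ?_⟩⟩
  have hab : dist a b < δ / 3 := by
    have := dist_triangle_right a b s
    have h1 : dist a s < δ / 6 := ha
    have h2 : dist b s < δ / 6 := hb
    linarith
  have := key a b hab N le_rfl
  rw [div_self hN0.ne', gam_one, gam_one] at this
  simp only
  rw [← this]
  simp [hTdef]

theorem pot_unique {t : X → X → G} {n : ℕ} {σ : Sing X n} {g g' : stdSimplex ℝ (Fin (n + 1)) → G}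
    (h : Pot t σ g) (h' : Pot t σ g') (s s' : stdSimplex ℝ (Fin (n + 1))) :
    g s' - g s = g' s' - g' s := by
  haveI : PreconnectedSpace (stdSimplex ℝ (Fin (n + 1))) :=
    Subtype.preconnectedSpace (convex_stdSimplex ℝ (Fin (n + 1))).isPreconnected
  have hlc : IsLocallyConstant (fun s => g s - g' s) := by
    rw [IsLocallyConstant.iff_eventually_eq]
    intro x
    obtain ⟨W, hW, h1⟩ := h x
    obtain ⟨W', hW', h2⟩ := h' x
    filter_upwards [hW, hW'] with y hy hy'
    have e1 := h1 x (mem_of_mem_nhds hW) y hy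
    have e2 := h2 x (mem_of_mem_nhds hW') y hy'
    have e3 : g y - g x = g' y - g' x := by rw [← e1, e2]
    have : g y = g' y - g' x + g x := by rw [← e3]; abel
    rw [this]; abel
  have h3 : g s' - g' s' = g s - g' s := hlc.apply_eq_of_preconnectedSpace s' s
  have : g s' = g s - g' s + g' s' := by rw [← h3]; abel
  rw [this]; abel

theorem pot_face {t : X → X → G} {n : ℕ} {σ : Sing X (n + 1)}
    {g : stdSimplex ℝ (Fin (n + 2)) → G} (h : Pot t σ g) (i : Fin (n + 2)) :
    Pot t (sface n i σ) (fun s => g (stdSimplex.map i.succAbove s)) := by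
  intro s
  obtain ⟨W, hW, h1⟩ := h (stdSimplex.map i.succAbove s)
  exact ⟨_, (stdSimplex.continuous_map i.succAbove).continuousAt.preimage_mem_nhds hW,
    fun a ha b hb => h1 _ ha _ hb⟩

end J286

open J286

/-- integration of local 1-cocycles over singular 1-simplices -/
theorem exists_integral {X G : Type} [TopologicalSpace X] [AddCommGroup G] {t : X → X → G}
    (ht : LC t) : ∃ I : Sing X 1 → G,
      (∀ σ : Sing X 2, I (sface 1 0 σ) - I (sface 1 1 σ) + I (sface 1 2 σ) = 0) ∧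
      (∀ (σ : Sing X 1) (g : stdSimplex ℝ (Fin 2) → G), Pot t σ g →
        I σ = g (stdSimplex.vertex 1) - g (stdSimplex.vertex 0)) := by
  choose g hg using fun σ : Sing X 1 => exists_pot ht σ
  have hI : ∀ (σ : Sing X 1) (g' : stdSimplex ℝ (Fin 2) → G), Pot t σ g' →
      g σ (stdSimplex.vertex 1) - g σ (stdSimplex.vertex 0) =
        g' (stdSimplex.vertex 1) - g' (stdSimplex.vertex 0) :=
    fun σ g' h' => pot_unique (hg σ) h' _ _
  refine ⟨fun σ => g σ (stdSimplex.vertex 1) - g σ (stdSimplex.vertex 0), fun σ => ?_, hI⟩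
  obtain ⟨G', hG'⟩ := exists_pot ht σ
  have h0 := hI _ _ (pot_face hG' 0)
  have h1 := hI _ _ (pot_face hG' 1)
  have h2 := hI _ _ (pot_face hG' 2)
  simp only [stdSimplex.map_vertex] at h0 h1 h2
  show g (sface 1 0 σ) (stdSimplex.vertex 1) - g (sface 1 0 σ) (stdSimplex.vertex 0) -
    (g (sface 1 1 σ) (stdSimplex.vertex 1) - g (sface 1 1 σ) (stdSimplex.vertex 0)) +
    (g (sface 1 2 σ) (stdSimplex.vertex 1) - g (sface 1 2 σ) (stdSimplex.vertex 0)) = 0
  rw [h0, h1, h2]
  have e00 : (0 : Fin 3).succAbove (0 : Fin 2) = 1 := rfl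
  have e01 : (0 : Fin 3).succAbove (1 : Fin 2) = 2 := rfl
  have e10 : (1 : Fin 3).succAbove (0 : Fin 2) = 0 := rfl
  have e11 : (1 : Fin 3).succAbove (1 : Fin 2) = 2 := rfl
  have e20 : (2 : Fin 3).succAbove (0 : Fin 2) = 0 := rfl
  have e21 : (2 : Fin 3).succAbove (1 : Fin 2) = 1 := rfl
  rw [e00, e01, e10, e11, e20, e21]
  abel

namespace J286

theorem arg_exp_int (z : ℂ) : ∃ n : ℤ, Complex.arg (Complex.exp z) = z.im + n * (2 * Real.pi) := by
  have h1 : Complex.exp (Complex.log (Complex.exp z)) = Complex.exp z :=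
    Complex.exp_log (Complex.exp_ne_zero z)
  obtain ⟨n, hn⟩ := Complex.exp_eq_exp_iff_exists_int.1 h1
  refine ⟨n, ?_⟩
  have h2 := congrArg Complex.im hn
  rw [Complex.log_im] at h2
  rw [h2]
  simp

end J286

/-- potential of the cocycle of a function with a logarithm along the simplex -/
theorem pot_of_log {X : Type} [TopologicalSpace X] {t : X → X → ZMod 6} {O : Set X}
    {u : X → ℂ} {α : X → ZMod 6} (h : CohOn O t (tt u) α) (σ : Sing X 1) (hσ : range σ ⊆ O)
    (F : stdSimplex ℝ (Fin 2) → ℂ) (hF : Continuous F) (hu : ∀ s, u (σ s) = Complex.exp (F s)) :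
    Pot t σ (fun s => α (σ s) +
      ((round ((Complex.arg (u (σ s)) - (F s).im) / (2 * Real.pi)) : ℤ) : ZMod 6)) := by
  intro s
  obtain ⟨W, hW, hWt⟩ := h (σ s) (hσ ⟨s, rfl⟩)
  have hpi := Real.pi_pos
  have him : Continuous fun s => (F s).im := Complex.continuous_im.comp hF
  have hnb : {a | |(F a).im - (F s).im| < Real.pi / 2} ∈ 𝓝 s := by
    refine (isOpen_lt ((him.sub continuous_const).abs) continuous_const).mem_nhds ?_
    show |(F s).im - (F s).im| < Real.pi / 2
    rw [sub_self, abs_zero]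
    positivity
  refine ⟨σ ⁻¹' W ∩ {a | |(F a).im - (F s).im| < Real.pi / 2},
    Filter.inter_mem (σ.continuous.continuousAt.preimage_mem_nhds hW) hnb, ?_⟩
  rintro a ⟨ha, ha'⟩ b ⟨hb, hb'⟩
  rw [hWt _ ha _ hb]
  have ha'' : |(F a).im - (F s).im| < Real.pi / 2 := ha'
  have hb'' : |(F b).im - (F s).im| < Real.pi / 2 := hb'
  rw [abs_lt] at ha'' hb''
  obtain ⟨n, hn⟩ := J286.arg_exp_int (F a)
  obtain ⟨m, hm⟩ := J286.arg_exp_int (F b)
  rw [← hu] at hn hm
  have hr1 : round ((Complex.arg (u (σ a)) - (F a).im) / (2 * Real.pi)) = n := by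
    rw [hn, add_sub_cancel_left, mul_div_assoc, div_self (by positivity), mul_one, round_intCast]
  have hr2 : round ((Complex.arg (u (σ b)) - (F b).im) / (2 * Real.pi)) = m := by
    rw [hm, add_sub_cancel_left, mul_div_assoc, div_self (by positivity), mul_one, round_intCast]
  have hwn : wn (u (σ a)) (u (σ b)) = m - n := by
    unfold wn
    have e1 : Complex.arg (u (σ b) / u (σ a)) = (F b).im - (F a).im := by
      rw [hu, hu, ← Complex.exp_sub, ← Complex.log_im, Complex.log_exp]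
      · simp
      · simp only [Complex.sub_im]; linarith
      · simp only [Complex.sub_im]; linarith
    rw [e1, hn, hm]
    have e2 : ((F b).im + m * (2 * Real.pi) - ((F a).im + n * (2 * Real.pi)) -
        ((F b).im - (F a).im)) / (2 * Real.pi) = ((m - n : ℤ) : ℝ) := by
      push_cast
      field_simp
      ring
    rw [e2, round_intCast]
  simp only
  rw [hr1, hr2]
  unfold tt
  rw [hwn]
  push_cast
  ring

end Pool.Agent.TH619
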