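import Pool.Agent.TH619.Loc1

/-! Job 287 (LOC1-GLUE for MP_c88051_gt): gluing the cocycles of two functions whose quotient is a
sixth power times a null-homotopic function. -/

set_option autoImplicit false

namespace Pool.Agent.TH619

open Set Topology

namespace J287

theorem log_int {z w : ℂ} (h : Complex.exp z = Complex.exp w) :
    ∃ k : ℤ, z.im = w.im + k * (2 * Real.pi) := by
  obtain ⟨k, hk⟩ := Complex.exp_eq_exp_iff_exists_int.1 h
  refine ⟨k, ?_⟩
  have h2 := congrArg Complex.im hk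
  rw [h2]
  simp

/-- the defining property of `wn` -/
theorem wn_spec {z w : ℂ} (hz : z ≠ 0) (hw : w ≠ 0) :
    Complex.arg w = Complex.arg z + Complex.arg (w / z) + wn z w * (2 * Real.pi) := by
  have hpi := Real.pi_pos
  have h : Complex.exp (Complex.log w) = Complex.exp (Complex.log z + Complex.log (w / z)) := by
    rw [Complex.exp_add, Complex.exp_log hw, Complex.exp_log hz, Complex.exp_log (div_ne_zero hw hz)]
    field_simp
  obtain ⟨k, hk⟩ := log_int h
  rw [Complex.add_im, Complex.log_im, Complex.log_im, Complex.log_im] at hk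
  have : wn z w = k := by
    unfold wn
    have e : (Complex.arg w - Complex.arg z - Complex.arg (w / z)) / (2 * Real.pi) = (k : ℝ) := by
      rw [hk]
      field_simp
      ring
    rw [e, round_intCast]
  rw [this, hk]

theorem int_zero_of_small {k : ℤ} (h : |(k : ℝ) * (2 * Real.pi)| < 2 * Real.pi) : k = 0 := by
  have hpi := Real.pi_pos
  rw [abs_mul, abs_of_pos (show 0 < 2 * Real.pi by positivity)] at h
  have h1 : |(k : ℝ)| < 1 := by
    by_contra hn
    push Not at hn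
    nlinarith
  have h2 : |k| < 1 := by exact_mod_cast h1
  rw [abs_lt] at h2
  omega

theorem near_const (z₀ : ℂ) (hz₀ : z₀ ≠ 0) {δ : ℝ} (hδ : 0 < δ) :
    ∃ V ∈ 𝓝 z₀, ∀ z ∈ V, ∀ w ∈ V, |Complex.arg (w / z)| < δ := by
  have hc : ContinuousAt (fun p : ℂ × ℂ => |Complex.arg (p.2 / p.1)|) (z₀, z₀) := by
    refine ContinuousAt.abs ?_
    refine ContinuousAt.comp (f := fun p : ℂ × ℂ => p.2 / p.1) (g := Complex.arg) ?_ ?_
    · simp only
      rw [div_self hz₀]
      exact Complex.continuousAt_arg Complex.one_mem_slitPlane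
    · exact continuousAt_snd.div continuousAt_fst hz₀
  have h0 : |Complex.arg ((z₀, z₀).2 / (z₀, z₀).1)| < δ := by
    simp only
    rw [div_self hz₀, Complex.arg_one, abs_zero]
    exact hδ
  have hS : {p : ℂ × ℂ | |Complex.arg (p.2 / p.1)| < δ} ∈ 𝓝 (z₀, z₀) :=
    hc.eventually_lt continuousAt_const h0
  rw [nhds_prod_eq, Filter.mem_prod_same_iff] at hS
  obtain ⟨V, hV, hVS⟩ := hS
  exact ⟨V, hV, fun z hz w hw => hVS (show (z, w) ∈ V ×ˢ V from ⟨hz, hw⟩)⟩

theorem near {X : Type} [TopologicalSpace X] {O : Set X} (hO : IsOpen O) {u : X → ℂ}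
    (hu : ContinuousOn u O) (hz : ∀ x ∈ O, u x ≠ 0) {x : X} (hx : x ∈ O) {δ : ℝ} (hδ : 0 < δ) :
    ∃ W ∈ 𝓝 x, W ⊆ O ∧ ∀ a ∈ W, ∀ b ∈ W, |Complex.arg (u b / u a)| < δ := by
  obtain ⟨V, hV, h⟩ := near_const (u x) (hz x hx) hδ
  have hc : ContinuousAt u x := hu.continuousAt (hO.mem_nhds hx)
  refine ⟨O ∩ u ⁻¹' V, Filter.inter_mem (hO.mem_nhds hx) (hc.preimage_mem_nhds hV),
    inter_subset_left, fun a ha b hb => h _ ha.2 _ hb.2⟩

/-- the cocycle of a function is a local cocycle -/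
theorem tt_add {X : Type} [TopologicalSpace X] {O : Set X} (hO : IsOpen O) {u : X → ℂ}
    (hu : ContinuousOn u O) (hz : ∀ x ∈ O, u x ≠ 0) {x : X} (hx : x ∈ O) :
    ∃ W ∈ 𝓝 x, ∀ a ∈ W, ∀ b ∈ W, ∀ c ∈ W, tt u a b + tt u b c = tt u a c := by
  have hpi := Real.pi_pos
  obtain ⟨W, hW, hWO, h⟩ := near hO hu hz hx (δ := Real.pi / 2) (by positivity)
  refine ⟨W, hW, fun a ha b hb c hc => ?_⟩
  have ea := hz a (hWO ha)
  have eb := hz b (hWO hb)
  have ec := hz c (hWO hc)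
  have s1 := wn_spec ea eb
  have s2 := wn_spec eb ec
  have s3 := wn_spec ea ec
  have h1 := h a ha b hb
  have h2 := h b hb c hc
  have h3 := h a ha c hc
  rw [abs_lt] at h1 h2 h3
  have key : ((wn (u a) (u b) + wn (u b) (u c) - wn (u a) (u c) : ℤ) : ℝ) * (2 * Real.pi) =
      Complex.arg (u c / u a) - Complex.arg (u b / u a) - Complex.arg (u c / u b) := by
    push_cast
    linarith
  have h0 : wn (u a) (u b) + wn (u b) (u c) - wn (u a) (u c) = 0 := by
    apply int_zero_of_small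
    rw [key, abs_lt]
    constructor <;> linarith [h1.1, h1.2, h2.1, h2.2, h3.1, h3.2]
  have h0' : wn (u a) (u b) + wn (u b) (u c) = wn (u a) (u c) := by omega
  unfold tt
  rw [← h0']
  push_cast
  ring

end J287

open J287

/-- gluing of the cocycles of two functions whose quotient is a sixth power up to a null-homotopic
function -/
theorem exists_glue {X : Type} [MetricSpace X] {O₁ O₂ : Set X} (h₁ : IsOpen O₁) (h₂ : IsOpen O₂)
    (hO : O₁ ∪ O₂ = univ) {u₁ u₂ g h : X → ℂ} (hu₁ : ContinuousOn u₁ O₁)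
    (hu₂ : ContinuousOn u₂ O₂) (hz₁ : ∀ x ∈ O₁, u₁ x ≠ 0) (hz₂ : ∀ x ∈ O₂, u₂ x ≠ 0)
    (hg : ContinuousOn g (O₁ ∩ O₂)) (hh : ContinuousOn h (O₁ ∩ O₂))
    (hgz : ∀ x ∈ O₁ ∩ O₂, g x ≠ 0)
    (e : ∀ x ∈ O₁ ∩ O₂, u₁ x = u₂ x * g x ^ 6 * Complex.exp (h x)) :
    ∃ (t : X → X → ZMod 6) (α₁ α₂ : X → ZMod 6), LC t ∧ CohOn O₁ t (tt u₁) α₁ ∧
      CohOn O₂ t (tt u₂) α₂ := by
  classical
  have hpi := Real.pi_pos
  have h12 : IsOpen (O₁ ∩ O₂) := h₁.inter h₂
  -- the transition integer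
  have hn : ∀ x : X, ∃ n : ℤ, x ∈ O₁ ∩ O₂ → Complex.arg (u₁ x) =
      Complex.arg (u₂ x) + 6 * Complex.arg (g x) + (h x).im + n * (2 * Real.pi) := by
    intro x
    by_cases hx : x ∈ O₁ ∩ O₂
    · have h0 : Complex.exp (Complex.log (u₁ x)) =
          Complex.exp (Complex.log (u₂ x) + 6 * Complex.log (g x) + h x) := by
        rw [Complex.exp_log (hz₁ x hx.1), Complex.exp_add, Complex.exp_add,
          Complex.exp_log (hz₂ x hx.2), e x hx]
        congr 2
        have : (6 : ℂ) * Complex.log (g x) = ((6 : ℕ) : ℂ) * Complex.log (g x) := by norm_num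
        rw [this, Complex.exp_nat_mul, Complex.exp_log (hgz x hx)]
      obtain ⟨k, hk⟩ := log_int h0
      refine ⟨k, fun _ => ?_⟩
      simp only [Complex.add_im, Complex.log_im, Complex.mul_im] at hk
      rw [hk]
      simp
    · exact ⟨0, fun h => absurd h hx⟩
  choose n hn using hn
  -- the comparison on the intersection
  have hcmp : ∀ x ∈ O₁ ∩ O₂, ∃ W ∈ 𝓝 x, ∀ a ∈ W, ∀ b ∈ W,
      tt u₁ a b = tt u₂ a b + (n b : ZMod 6) - (n a : ZMod 6) := by
    intro x hx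
    obtain ⟨W1, hW1, hWO1, k1⟩ := near h₁ hu₁ hz₁ hx.1 (δ := Real.pi / 16) (by positivity)
    obtain ⟨W2, hW2, hWO2, k2⟩ := near h₂ hu₂ hz₂ hx.2 (δ := Real.pi / 16) (by positivity)
    obtain ⟨W3, hW3, hWO3, k3⟩ := near h12 hg hgz hx (δ := Real.pi / 16) (by positivity)
    have hhc : ContinuousAt (fun y => (h y).im) x :=
      Complex.continuous_im.continuousAt.comp (hh.continuousAt (h12.mem_nhds hx))
    have hW4 : {y | |(h y).im - (h x).im| < Real.pi / 16} ∈ 𝓝 x := by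
      have : ContinuousAt (fun y => |(h y).im - (h x).im|) x := (hhc.sub continuousAt_const).abs
      refine this.eventually_lt continuousAt_const ?_
      rw [sub_self, abs_zero]
      positivity
    refine ⟨W1 ∩ (W2 ∩ (W3 ∩ {y | |(h y).im - (h x).im| < Real.pi / 16})),
      Filter.inter_mem hW1 (Filter.inter_mem hW2 (Filter.inter_mem hW3 hW4)), ?_⟩
    rintro a ⟨ha1, ha2, ha3, ha4⟩ b ⟨hb1, hb2, hb3, hb4⟩
    have ha : a ∈ O₁ ∩ O₂ := hWO3 ha3
    have hb : b ∈ O₁ ∩ O₂ := hWO3 hb3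
    have s1 := wn_spec (hz₁ a ha.1) (hz₁ b hb.1)
    have s2 := wn_spec (hz₂ a ha.2) (hz₂ b hb.2)
    have s3 := wn_spec (hgz a ha) (hgz b hb)
    have na := hn a ha
    have nb := hn b hb
    have t1 := k1 a ha1 b hb1
    have t2 := k2 a ha2 b hb2
    have t3 := k3 a ha3 b hb3
    have t4 : |(h a).im - (h x).im| < Real.pi / 16 := ha4
    have t5 : |(h b).im - (h x).im| < Real.pi / 16 := hb4
    rw [abs_lt] at t1 t2 t3 t4 t5
    have key : ((wn (u₁ a) (u₁ b) - wn (u₂ a) (u₂ b) - 6 * wn (g a) (g b) - (n b - n a) : ℤ) : ℝ) *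
        (2 * Real.pi) = Complex.arg (u₂ b / u₂ a) + 6 * Complex.arg (g b / g a) +
          ((h b).im - (h a).im) - Complex.arg (u₁ b / u₁ a) := by
      push_cast
      linarith
    have h0 : wn (u₁ a) (u₁ b) - wn (u₂ a) (u₂ b) - 6 * wn (g a) (g b) - (n b - n a) = 0 := by
      apply int_zero_of_small
      rw [key, abs_lt]
      constructor <;> linarith [t1.1, t1.2, t2.1, t2.2, t3.1, t3.2, t4.1, t4.2, t5.1, t5.2]
    have h0' : wn (u₁ a) (u₁ b) = wn (u₂ a) (u₂ b) + 6 * wn (g a) (g b) + (n b - n a) := by omega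
    unfold tt
    rw [h0']
    push_cast
    have h6 : (6 : ZMod 6) = 0 := by decide
    rw [h6]
    ring
  -- the closed set
  obtain ⟨V, hV, hV1, hV2⟩ := normal_exists_closure_subset h₂.isClosed_compl h₁ (by
    intro x hx
    have : x ∈ O₁ ∪ O₂ := by rw [hO]; exact mem_univ x
    rcases this with h | h
    · exact h
    · exact absurd h hx)
  set C := closure V with hC
  set α₁ : X → ZMod 6 := fun x => if x ∈ C then 0 else -(n x : ZMod 6) with hα₁
  set α₂ : X → ZMod 6 := fun x => if x ∈ C then (n x : ZMod 6) else 0 with hα₂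
  have hα : ∀ x, α₂ x = α₁ x + (n x : ZMod 6) := by
    intro x
    simp only [hα₁, hα₂]
    split_ifs <;> ring
  set t : X → X → ZMod 6 := fun a b => if a ∈ C then tt u₁ a b + α₁ b - α₁ a
    else tt u₂ a b + α₂ b - α₂ a with ht
  have hc1 : CohOn O₁ t (tt u₁) α₁ := by
    intro x hx
    by_cases hx2 : x ∈ O₂
    · obtain ⟨W, hW, h⟩ := hcmp x ⟨hx, hx2⟩
      refine ⟨W, hW, fun a ha b hb => ?_⟩
      simp only [ht]
      split_ifs with hC
      · rfl
      · rw [h a ha b hb, hα, hα]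
        ring
    · refine ⟨V, hV.mem_nhds (hV1 hx2), fun a ha b _ => ?_⟩
      simp only [ht]
      rw [if_pos (subset_closure ha)]
  have hc2 : CohOn O₂ t (tt u₂) α₂ := by
    intro x hx
    by_cases hx1 : x ∈ O₁
    · obtain ⟨W, hW, h⟩ := hcmp x ⟨hx1, hx⟩
      refine ⟨W, hW, fun a ha b hb => ?_⟩
      simp only [ht]
      split_ifs with hC
      · rw [h a ha b hb, hα, hα]
        ring
      · rfl
    · have hxC : x ∈ Cᶜ := fun h => hx1 (hV2 h)
      refine ⟨Cᶜ, isClosed_closure.isOpen_compl.mem_nhds hxC, fun a ha b _ => ?_⟩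
      simp only [ht]
      rw [if_neg ha]
  refine ⟨t, α₁, α₂, ?_, hc1, hc2⟩
  intro x
  have : x ∈ O₁ ∪ O₂ := by rw [hO]; exact mem_univ x
  rcases this with hx | hx
  · obtain ⟨W, hW, h⟩ := hc1 x hx
    obtain ⟨W', hW', h'⟩ := tt_add h₁ hu₁ hz₁ hx
    refine ⟨W ∩ W', Filter.inter_mem hW hW', fun a ha b hb c hc => ?_⟩
    rw [h a ha.1 b hb.1, h b hb.1 c hc.1, h a ha.1 c hc.1, ← h' a ha.2 b hb.2 c hc.2]
    ring
  · obtain ⟨W, hW, h⟩ := hc2 x hx
    obtain ⟨W', hW', h'⟩ := tt_add h₂ hu₂ hz₂ hx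
    refine ⟨W ∩ W', Filter.inter_mem hW hW', fun a ha b hb c hc => ?_⟩
    rw [h a ha.1 b hb.1, h b hb.1 c hc.1, h a ha.1 c hc.1, ← h' a ha.2 b hb.2 c hc.2]
    ring

end Pool.Agent.TH619
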