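import Pool.Agent.TH950.FC.Defs

set_option autoImplicit false

namespace Pool.Agent.TH429.J864

open Pool.Agent.TH950.FC
open scoped symmDiff

section walk

variable {V C : Type}

theorem nb_cons {G : SimpleGraph V} {u v : V} {t : List V} (h : NBWalk G (u :: t))
    (hvu : G.Adj v u) (hb : ∀ u2 t', t = u2 :: t' → v ≠ u2) : NBWalk G (v :: u :: t) := by
  refine ⟨by simp, ?_, ?_⟩
  · intro i hi
    cases i with
    | zero => exact hvu
    | succ i =>
      simp only [List.getElem_cons_succ]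
      exact h.2.1 i (by simpa using hi)
  · intro i hi
    cases i with
    | zero =>
      cases t with
      | nil => simp at hi
      | cons u2 t' => exact hb u2 t' rfl
    | succ i =>
      simp only [List.getElem_cons_succ]
      exact h.2.2 i (by simpa using hi)

theorem nb_single (G : SimpleGraph V) (v : V) : NBWalk G [v] := by
  refine ⟨by simp, ?_, ?_⟩
  · intro i hi; simp at hi
  · intro i hi; simp at hi

theorem word_cons (c : Sym2 V → C) (u v : V) (t : List V) :
    word c (v :: u :: t) = c s(v, u) :: word c (u :: t) := by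
  simp [word]

end walk

/-- all vertices -/
abbrev QQ (m : ℕ) (n : ℕ → ℕ) : Type := (Σ i, Fin (n i)) ⊕ (Fin m × Bool)

section build

variable {m : ℕ} {n : ℕ → ℕ} (G : ∀ i, SimpleGraph (Fin (n i)))
  (hh : ∀ i, Fin (n i) → Fin (n i) → ℤ) (c : ∀ i, Sym2 (Fin (n i)) → Fin m)

/-- the edges -/
inductive EE : Fin m → QQ m n → QQ m n → Prop
  | a {i : ℕ} {v w : Fin (n i)} : (G i).Adj v w → EE (c i s(v, w)) (Sum.inl ⟨i, v⟩) (Sum.inl ⟨i, w⟩)
  | b (s : Fin m) (b : Bool) : EE s (Sum.inr (s, b)) (Sum.inr (s, !b))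

theorem EE_inl {s : Fin m} {i : ℕ} {v : Fin (n i)} {z : QQ m n} (h : EE G c s (Sum.inl ⟨i, v⟩) z) :
    ∃ w : Fin (n i), z = Sum.inl ⟨i, w⟩ ∧ (G i).Adj v w ∧ c i s(v, w) = s := by
  cases h with
  | a h => exact ⟨_, rfl, h, rfl⟩

theorem EE_inr {s t : Fin m} {b : Bool} {z : QQ m n} (h : EE G c s (Sum.inr (t, b)) z) :
    z = Sum.inr (t, !b) ∧ s = t := by
  cases h with
  | b => exact ⟨rfl, rfl⟩

/-- the labelled graph -/
def LGG (hc : ∀ i (u v w : Fin (n i)), (G i).Adj u v → (G i).Adj u w → v ≠ w →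
    c i s(u, v) ≠ c i s(u, w)) : LG (Fin m) (QQ m n) where
  E := EE G c
  symm := by
    intro s x y h
    cases h with
    | a h =>
      rename_i i v w
      have h2 := EE.a (G := G) (c := c) h.symm
      rwa [Sym2.eq_swap] at h2
    | b s b =>
      have h2 := EE.b (G := G) (c := c) s (!b)
      rwa [Bool.not_not] at h2
  func := by
    intro s x y z h1 h2
    cases h1 with
    | a h =>
      rename_i i v w
      obtain ⟨w', rfl, h3, h4⟩ := EE_inl G c h2
      by_contra hne
      refine hc i v w w' h h3 ?_ h4.symm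
      rintro rfl
      exact hne rfl
    | b s b =>
      exact (EE_inr G c h2).1.symm

/-- the girth function -/
def gg (g : ℕ → ℕ) : QQ m n → ℕ
  | Sum.inl ⟨i, _⟩ => g i
  | Sum.inr _ => 100

/-- the weight of a pair -/
def wt : QQ m n → QQ m n → ℤ
  | Sum.inl ⟨i, v⟩, Sum.inl ⟨j, w⟩ => if h : j = i then hh i v (h ▸ w) else 0
  | _, _ => 0

theorem wt_same (i : ℕ) (v w : Fin (n i)) :
    wt (m := m) hh (Sum.inl ⟨i, v⟩) (Sum.inl ⟨i, w⟩) = hh i v w := by
  simp [wt]

/-- the factor -/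
def fac : QQ m n → ℤ
  | Sum.inl ⟨i, _⟩ => i
  | Sum.inr _ => 0

open Classical in
/-- the cochain without the factor -/
noncomputable def hp (s : Fin m) (q : QQ m n) : ℤ :=
  if H : ∃ r, EE G c s q r then wt hh q H.choose else 0

theorem hp_eq (hc : ∀ i (u v w : Fin (n i)), (G i).Adj u v → (G i).Adj u w → v ≠ w →
    c i s(u, v) ≠ c i s(u, w)) {s : Fin m} {q r : QQ m n} (h : EE G c s q r) :
    hp G hh c s q = wt hh q r := by
  have H : ∃ r, EE G c s q r := ⟨r, h⟩
  unfold hp
  rw [dif_pos H]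
  have := (LGG G c hc).func H.choose_spec h
  rw [this]

theorem wt_le (hle : ∀ i u v, |hh i u v| ≤ 1) (q r : QQ m n) : |wt hh q r| ≤ 1 := by
  rcases q with ⟨i, v⟩ | q
  · rcases r with ⟨j, w⟩ | r
    · simp only [wt]
      split_ifs
      · exact hle _ _ _
      · simp
    · simp [wt]
  · simp [wt]

theorem hp_le (hle : ∀ i u v, |hh i u v| ≤ 1) (s : Fin m) (q : QQ m n) :
    |hp G hh c s q| ≤ 1 := by
  unfold hp
  split_ifs
  · exact wt_le hh hle _ _
  · simp

variable (hc : ∀ i (u v w : Fin (n i)), (G i).Adj u v → (G i).Adj u w → v ≠ w →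
    c i s(u, v) ≠ c i s(u, w))

theorem path_inl {i : ℕ} (w : List (Fin m)) : ∀ {v : Fin (n i)} {r : QQ m n}, Red w →
    (LGG G c hc).Path (Sum.inl ⟨i, v⟩) w r →
    ∃ (t : List (Fin (n i))) (u : Fin (n i)), NBWalk (G i) (v :: t) ∧
      (v :: t).getLast? = some u ∧ r = Sum.inl ⟨i, u⟩ ∧ t.length = w.length ∧
      word (c i) (v :: t) = w := by
  induction w with
  | nil =>
    intro v r _ h
    exact ⟨[], v, nb_single _ _, rfl, Eq.symm h, rfl, by simp [word]⟩
  | cons s w ih =>
    rintro v r hred ⟨z, hz, hw⟩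
    obtain ⟨v', rfl, hadj, hs⟩ := EE_inl G c hz
    obtain ⟨t, u, hnb, hl, hr, hlen, hword⟩ := ih hred.of_cons hw
    refine ⟨v' :: t, u, ?_, ?_, hr, by simp [hlen], ?_⟩
    · refine nb_cons hnb hadj ?_
      rintro u2 t' rfl hv
      rw [word_cons] at hword
      have h1 : Red (s :: w) := hred
      rw [← hword] at h1
      have h2 : s ≠ c i s(v', u2) := by
        have h3 : List.IsChain (· ≠ ·) (s :: c i s(v', u2) :: word (c i) (u2 :: t')) := h1
        rw [List.isChain_cons_cons] at h3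
        exact h3.1
      apply h2
      rw [← hs, ← hv, Sym2.eq_swap]
    · rw [List.getLast?_cons_cons]
      exact hl
    · rw [word_cons, hword, hs]

theorem path_inr (w : List (Fin m)) {s : Fin m} {b : Bool} {r : QQ m n} (hred : Red w)
    (hp : (LGG G c hc).Path (Sum.inr (s, b)) w r) :
    (w = [] ∧ r = Sum.inr (s, b)) ∨ (w = [s] ∧ r = Sum.inr (s, !b)) := by
  cases w with
  | nil => exact Or.inl ⟨rfl, Eq.symm hp⟩
  | cons t w =>
    right
    obtain ⟨z, hz, hw⟩ := hp
    obtain ⟨rfl, rfl⟩ := EE_inr G c hz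
    cases w with
    | nil => exact ⟨rfl, Eq.symm hw⟩
    | cons t' w =>
      obtain ⟨z', hz', hw'⟩ := hw
      obtain ⟨rfl, rfl⟩ := EE_inr G c hz'
      have h3 : List.IsChain (· ≠ ·) (t' :: t' :: w) := hred
      rw [List.isChain_cons_cons] at h3
      exact absurd rfl h3.1

theorem exists_long {i : ℕ} (hdeg : ∀ v, 2 ≤ ((G i).neighborSet v).ncard) (L : ℕ) :
    ∀ (v : Fin (n i)) (t : Fin m), ∃ w : List (Fin m), w.length = L ∧ Red (t :: w) ∧
      (LGG G c hc).Readable (Sum.inl ⟨i, v⟩) w := by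
  induction L with
  | zero =>
    intro v t
    exact ⟨[], rfl, by simp [Red], _, rfl⟩
  | succ L ih =>
    intro v t
    have h2 := hdeg v
    obtain ⟨a, b, ha, hb, hab⟩ := (Set.one_lt_ncard_iff (Set.toFinite _)).1
      (show 1 < ((G i).neighborSet v).ncard by omega)
    rw [SimpleGraph.mem_neighborSet] at ha hb
    have hne := hc i v a b ha hb hab
    obtain ⟨u, hu, hut⟩ : ∃ u, (G i).Adj v u ∧ t ≠ c i s(v, u) := by
      by_cases h : t = c i s(v, a)
      · exact ⟨b, hb, by rw [h]; exact hne⟩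
      · exact ⟨a, ha, h⟩
    obtain ⟨w, hw1, hw2, z, hw3⟩ := ih u (c i s(v, u))
    refine ⟨c i s(v, u) :: w, by simp [hw1], ?_, z, Sum.inl ⟨i, u⟩, EE.a hu, hw3⟩
    show List.IsChain (· ≠ ·) (t :: c i s(v, u) :: w)
    rw [List.isChain_cons_cons]
    exact ⟨hut, hw2⟩

/-- the family -/
noncomputable def TT (g : ℕ → ℕ) (hg0 : ∀ i, 10000 ≤ g i) (hgi : ∀ i, i ≤ g i)
    (hanti : ∀ i u v, hh i v u = - hh i u v)
    (hdeg : ∀ i v, 2 ≤ ((G i).neighborSet v).ncard)
    (hun : ∀ i (p q : List (Fin (n i))), NBWalk (G i) p → NBWalk (G i) q → p.head? = q.head? →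
        p.getLast? = q.getLast? → (p.length - 1) + (q.length - 1) < g i → p = q)
    (hl2 : ∀ i (p q : List (Fin (n i))), NBWalk (G i) p → NBWalk (G i) q →
          word (c i) p = word (c i) q → p.head? ≠ q.head? → 100 * (p.length - 1) ≤ g i)
    (hl3 : ∀ i j, i ≠ j → ∀ (p : List (Fin (n i))) (q : List (Fin (n j))), NBWalk (G i) p →
          NBWalk (G j) q → word (c i) p = word (c j) q → 100 * (p.length - 1) ≤ g i) :
    Theta (Fin m) (QQ m n) where
  toLG := LGG G c hc
  g := gg g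
  h := fun s q => fac q * hp G hh c s q
  g_edge := by
    intro s q r h
    cases h with
    | a h => rfl
    | b => rfl
  h_anti := by
    intro s q r h
    have h1 : hp G hh c s q = wt hh q r := hp_eq G hh c hc h
    have h2 : hp G hh c s r = wt hh r q := hp_eq G hh c hc ((LGG G c hc).symm h)
    rw [h1, h2]
    cases h with
    | a h =>
      rename_i i v w
      rw [wt_same, wt_same, hanti i v w]
      simp [fac]
    | b => simp [fac]
  hundred_le := by
    rintro (⟨i, v⟩ | q)
    · have := hg0 i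
      show 100 ≤ g i
      omega
    · exact le_refl _
  girth := by
    intro q r w w' hw hw' hp1 hp2 hlen
    rcases q with ⟨i, v⟩ | ⟨s, b⟩
    · obtain ⟨t, u, hnb, hl, hr, hlen1, hword⟩ := path_inl G c hc w hw hp1
      obtain ⟨t', u', hnb', hl', hr', hlen1', hword'⟩ := path_inl G c hc w' hw' hp2
      have huu : u = u' := by
        rw [hr] at hr'
        have := Sum.inl_injective hr'
        exact eq_of_heq (Sigma.mk.inj this).2
      subst huu
      have hl3 : w.length + w'.length < g i := hlen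
      have := hun i (v :: t) (v :: t') hnb hnb' rfl (by rw [hl, hl']) (by
        simp only [List.length_cons]; omega)
      rw [← hword, ← hword', this]
    · rcases path_inr G c hc w hw hp1 with ⟨h1, h2⟩ | ⟨h1, h2⟩ <;>
        rcases path_inr G c hc w' hw' hp2 with ⟨h3, h4⟩ | ⟨h3, h4⟩
      · rw [h1, h3]
      · rw [h2] at h4
        have := Sum.inr_injective h4
        simp at this
      · rw [h2] at h4
        have := Sum.inr_injective h4
        simp at this
      · rw [h1, h3]
  piece := by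
    rintro q q' w hne hw ⟨r, h1⟩ ⟨r', h2⟩
    rcases q with ⟨i, v⟩ | ⟨s, b⟩
    · obtain ⟨t, u, hnb, hl, hr, hlen1, hword⟩ := path_inl G c hc w hw h1
      show 100 * w.length ≤ g i
      rcases q' with ⟨j, v'⟩ | ⟨s, b⟩
      · obtain ⟨t', u', hnb', hl', hr', hlen1', hword'⟩ := path_inl G c hc w hw h2
        by_cases hij : i = j
        · subst hij
          have := hl2 i (v :: t) (v' :: t') hnb hnb' (by rw [hword, hword']) (by
            intro h
            apply hne
            simp only [List.head?_cons, Option.some.injEq] at h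
            rw [h])
          simpa [hlen1] using this
        · have := hl3 i j hij (v :: t) (v' :: t') hnb hnb' (by rw [hword, hword'])
          simpa [hlen1] using this
      · have := hg0 i
        rcases path_inr G c hc w hw h2 with ⟨h3, -⟩ | ⟨h3, -⟩
        · rw [h3]; simp
        · rw [h3]; simp; omega
    · show 100 * w.length ≤ 100
      rcases path_inr G c hc w hw h1 with ⟨h3, -⟩ | ⟨h3, -⟩ <;> rw [h3] <;> simp
  fin := by
    intro N
    have h1 : {q : QQ m n | gg g q ≤ N} ⊆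
        (Sum.inl '' (⋃ i ∈ Finset.range (N + 1), Set.range (fun v : Fin (n i) =>
          (⟨i, v⟩ : Σ i, Fin (n i))))) ∪ Set.range Sum.inr := by
      rintro (⟨i, v⟩ | q) hq
      · left
        have h2 : g i ≤ N := hq
        have h3 := hgi i
        refine ⟨⟨i, v⟩, ?_, rfl⟩
        simp only [Set.mem_iUnion, Set.mem_range]
        exact ⟨i, Finset.mem_range.2 (by omega), v, rfl⟩
      · right; exact ⟨q, rfl⟩
    refine Set.Finite.subset ?_ h1
    refine Set.Finite.union ?_ (Set.finite_range _)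
    apply Set.Finite.image
    exact Set.Finite.biUnion (Finset.finite_toSet _) (fun i _ => Set.finite_range _)
  edgeType := by
    intro s
    refine ⟨Sum.inr (s, true), rfl, ⟨_, Sum.inr (s, !true), EE.b s true, rfl⟩, ?_⟩
    rintro w hw ⟨r, hr⟩
    rcases path_inr G c hc w hw hr with ⟨h3, -⟩ | ⟨h3, -⟩
    · exact Or.inl h3
    · exact Or.inr h3
  long := by
    rintro (⟨i, v⟩ | q) hq
    · have h2 := hdeg i v
      obtain ⟨a, b, ha, hb, hab⟩ := (Set.one_lt_ncard_iff (Set.toFinite _)).1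
        (show 1 < ((G i).neighborSet v).ncard by omega)
      obtain ⟨w, hw1, hw2, hw3⟩ := exists_long G c hc (hdeg i) (g i) v (c i s(v, a))
      refine ⟨w, List.IsChain.of_cons hw2, hw3, ?_⟩
      have := hg0 i
      show 2 * g i < 100 * w.length
      rw [hw1]; omega
    · exact absurd hq (lt_irrefl _)

section expand

open Classical

variable {T : Theta (Fin m) (QQ m n)} (hT : T.toLG = LGG G c hc)

/-- embedding of the vertices of the cover of the `i`-th graph -/
noncomputable def emb (i : ℕ) (x : Fin (n i) × Finset (Sym2 (Fin (n i)))) :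
    QQ m n × Finset (Sym2 (QQ m n)) :=
  (Sum.inl ⟨i, x.1⟩, x.2.image (Sym2.map (fun v => (Sum.inl ⟨i, v⟩ : QQ m n))))

theorem inj0 (i : ℕ) : Function.Injective (fun v : Fin (n i) => (Sum.inl ⟨i, v⟩ : QQ m n)) := by
  intro a b h
  have := Sum.inl_injective h
  exact eq_of_heq (Sigma.mk.inj this).2

theorem inj1 (i : ℕ) : Function.Injective
    (Sym2.map (fun v : Fin (n i) => (Sum.inl ⟨i, v⟩ : QQ m n))) :=
  Sym2.map.injective (inj0 i)

theorem emb_inj (i : ℕ) : Function.Injective (emb (m := m) (n := n) i) := by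
  rintro ⟨a, A⟩ ⟨b, B⟩ h
  unfold emb at h
  rw [Prod.mk.injEq] at h
  have h1 : a = b := inj0 (m := m) (n := n) i h.1
  have h2 : A = B := Finset.image_injective (inj1 (m := m) (n := n) i) h.2
  rw [h1, h2]

theorem emb_flip (i : ℕ) (v w : Fin (n i)) (A : Finset (Sym2 (Fin (n i)))) :
    (emb (m := m) (n := n) i (v, A ∆ {s(v, w)})).2 =
      (emb (m := m) (n := n) i (v, A)).2 ∆ {s((Sum.inl ⟨i, v⟩ : QQ m n), Sum.inl ⟨i, w⟩)} := by
  show (A ∆ {s(v, w)}).image _ = A.image _ ∆ _
  rw [Finset.image_symmDiff _ _ (inj1 i), Finset.image_singleton]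
  rfl

include hT in
theorem E_iff (s : Fin m) (q r : QQ m n) : T.E s q r ↔ EE G c s q r := by
  have : T.E = (LGG G c hc).E := by rw [← hT]
  rw [this]
  rfl

include hT in
theorem cov_adj {i : ℕ} {u v : Fin (n i)} (h : (G i).Adj u v) (A : Finset (Sym2 (Fin (n i)))) :
    T.cov.E (c i s(u, v)) (emb i (u, A)) (emb i (v, A ∆ {s(u, v)})) := by
  refine ⟨(E_iff G c hc hT _ _ _).2 (EE.a h), ?_⟩
  exact emb_flip i u v A

include hT in
theorem cov_inv {i : ℕ} {u : Fin (n i)} {A : Finset (Sym2 (Fin (n i)))} {s : Fin m}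
    {z : QQ m n × Finset (Sym2 (QQ m n))} (h : T.cov.E s (emb i (u, A)) z) :
    ∃ v, (G i).Adj u v ∧ c i s(u, v) = s ∧ z = emb i (v, A ∆ {s(u, v)}) := by
  obtain ⟨h1, h2⟩ := h
  obtain ⟨w, h3, h4, h5⟩ := EE_inl G c ((E_iff G c hc hT _ _ _).1 h1)
  refine ⟨w, h4, h5, ?_⟩
  refine Prod.ext h3 ?_
  rw [h2, h3]
  exact (emb_flip i u w A).symm

theorem path_snoc {U : Type} (X : LG (Fin m) U) (w : List (Fin m)) : ∀ {x y z : U} {s : Fin m},
    X.Path x w y → X.E s y z → X.Path x (w ++ [s]) z := by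
  induction w with
  | nil => intro x y z s h1 h2; cases h1; exact ⟨z, h2, rfl⟩
  | cons t w ih =>
    rintro x y z s ⟨u, hu, hw⟩ h2
    exact ⟨u, hu, ih hw h2⟩

theorem reach_step {U : Type} (X : LG (Fin m) U) {x y z : U} {s : Fin m} (h : X.Reach x y)
    (h2 : X.E s y z) : X.Reach x z := by
  obtain ⟨w, hw⟩ := h
  exact ⟨_, path_snoc X w hw h2⟩

include hT in
theorem reach_emb {i : ℕ} (w : List (Fin m)) : ∀ (x : Fin (n i) × Finset (Sym2 (Fin (n i))))
    (z : QQ m n × Finset (Sym2 (QQ m n))), T.cov.Path (emb i x) w z → ∃ y, z = emb i y := by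
  induction w with
  | nil => intro x z h; exact ⟨x, Eq.symm h⟩
  | cons s w ih =>
    rintro ⟨u, A⟩ z ⟨y, hy, hw⟩
    obtain ⟨v, -, -, rfl⟩ := cov_inv G c hc hT hy
    exact ih _ _ hw

include hT in
theorem reach_base {i : ℕ} (w : List (Fin m)) : ∀ (u : Fin (n i)) (r : QQ m n),
    T.Path (Sum.inl ⟨i, u⟩) w r → ∃ v : Fin (n i), r = Sum.inl ⟨i, v⟩ := by
  induction w with
  | nil => intro u r h; exact ⟨u, Eq.symm h⟩
  | cons s w ih =>
    rintro u r ⟨y, hy, hw⟩
    obtain ⟨v, rfl, -, -⟩ := EE_inl G c ((E_iff G c hc hT _ _ _).1 hy)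
    exact ih _ _ hw

include hT in
theorem expand (i : ℕ) (v0 : Fin (n i)) (hle : ∀ i u v, |hh i u v| ≤ 1) (c₀ : ℝ)
    (hTh : ∀ s q, T.h s q = fac q * hp G hh c s q)
    (hG : ∀ (N : ℕ) [NeZero N] (F : Fin (n i) → Finset (Sym2 (Fin (n i))) → ZMod N → ℝ),
        c₀ * ((∑ v, ∑ A, ∑ j, (F v A (j + 2) - F v A j) ^ 2) - ∑ v, ∑ A, ∑ j, (F v A j) ^ 2) ≤
          ∑ u, ∑ A, ∑ j, ∑ v, if (G i).Adj u v then
            (F u A j - F v (A ∆ {s(u, v)}) (j + (hh i u v : ZMod N))) ^ 2 else 0) :
    Expand T c₀ (Sum.inl ⟨i, v0⟩) (i : ℤ) := by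
  set q0 : QQ m n × Finset (Sym2 (QQ m n)) := (Sum.inl ⟨i, v0⟩, ∅) with hq0
  have hq0' : q0 = emb i (v0, ∅) := by
    rw [hq0]; unfold emb; simp
  set B0 : Finset (Fin (n i) × Finset (Sym2 (Fin (n i)))) :=
    Finset.univ.filter (fun x => T.cov.Reach q0 (emb i x)) with hB0
  have hmem0 : ∀ x, x ∈ B0 ↔ T.cov.Reach q0 (emb i x) := by
    intro x; rw [hB0]; simp
  refine ⟨B0.map ⟨emb i, emb_inj i⟩, hp G hh c, ?_, ?_, hp_le G hh c hle, ?_⟩
  · intro z
    rw [Finset.mem_map]
    constructor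
    · rintro ⟨x, hx, rfl⟩
      exact (hmem0 x).1 hx
    · rintro ⟨w, hw⟩
      have hw' := hw
      rw [← hq0, hq0'] at hw'
      obtain ⟨y, rfl⟩ := reach_emb G c hc hT w _ _ hw'
      exact ⟨y, (hmem0 y).2 ⟨w, hw⟩, rfl⟩
  · rintro s r ⟨w, hw⟩
    obtain ⟨v, rfl⟩ := reach_base G c hc hT w _ _ hw
    rw [hTh]
    rfl
  · intro N _ F
    have hG1 := hG N (fun v A j => if T.cov.Reach q0 (emb i (v, A)) then F (emb i (v, A)) j else 0)
    refine le_trans (le_of_eq ?_) (le_trans hG1 ?_)
    · congr 1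
      congr 1
      · rw [Finset.sum_map, ← Fintype.sum_prod_type', hB0, Finset.sum_filter]
        refine Finset.sum_congr rfl ?_
        rintro ⟨v, A⟩ _
        by_cases hr : T.cov.Reach q0 (emb i (v, A))
        · simp only [hr, if_true, Function.Embedding.coeFn_mk]
        · simp only [hr, if_false, sub_self]
          simp
      · rw [Finset.sum_map, ← Fintype.sum_prod_type', hB0, Finset.sum_filter]
        refine Finset.sum_congr rfl ?_
        rintro ⟨v, A⟩ _
        by_cases hr : T.cov.Reach q0 (emb i (v, A))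
        · simp only [hr, if_true, Function.Embedding.coeFn_mk]
        · simp only [hr, if_false]
          simp
    · rw [Finset.sum_map, ← Fintype.sum_prod_type', hB0, Finset.sum_filter]
      refine Finset.sum_le_sum ?_
      rintro ⟨u, A⟩ _
      by_cases hr : T.cov.Reach q0 (emb i (u, A))
      · rw [if_pos hr]
        refine Finset.sum_le_sum ?_
        intro j _
        simp only [Function.Embedding.coeFn_mk]
        rw [Finset.sum_comm' (s := Finset.univ) (t := fun _ => B0.map ⟨emb i, emb_inj i⟩)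
          (t' := B0.map ⟨emb i, emb_inj i⟩) (s' := fun _ => Finset.univ) (by simp)]
        rw [Finset.sum_map]
        have hnon : ∀ (x : Fin (n i) × Finset (Sym2 (Fin (n i)))) (s : Fin m),
            (0 : ℝ) ≤ if T.cov.E s (emb i (u, A)) (emb i x) then
              (F (emb i (u, A)) j - F (emb i x) (j + (hp G hh c s (emb i (u, A)).1 : ZMod N))) ^ 2
              else 0 := by
          intro x s
          split_ifs
          · positivity
          · exact le_refl _
        rw [← Finset.sum_filter]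
        have hinj : Set.InjOn (fun v : Fin (n i) => (v, A ∆ {s(u, v)}))
            (Finset.univ.filter (fun v => (G i).Adj u v)) := by
          intro a _ b _ hab
          exact (Prod.mk.inj hab).1
        have hsub : (Finset.univ.filter (fun v => (G i).Adj u v)).image
            (fun v : Fin (n i) => (v, A ∆ {s(u, v)})) ⊆ B0 := by
          intro x hx
          rw [Finset.mem_image] at hx
          obtain ⟨v, hv, rfl⟩ := hx
          rw [Finset.mem_filter] at hv
          rw [hmem0]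
          exact reach_step _ hr (cov_adj G c hc hT hv.2 A)
        refine le_trans ?_ (Finset.sum_le_sum_of_subset_of_nonneg hsub
          (fun x _ _ => Finset.sum_nonneg fun s _ => hnon x s))
        rw [Finset.sum_image hinj]
        refine Finset.sum_le_sum ?_
        intro v hv
        rw [Finset.mem_filter] at hv
        refine le_trans (le_of_eq ?_) (Finset.single_le_sum
          (fun s _ => hnon (v, A ∆ {s(u, v)}) s) (Finset.mem_univ (c i s(u, v))))
        have hadj := cov_adj G c hc hT hv.2 A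
        have hr2 : T.cov.Reach q0 (emb i (v, A ∆ {s(u, v)})) := reach_step _ hr hadj
        have hhp : hp G hh c (c i s(u, v)) (emb i (u, A)).1 = hh i u v := by
          have h1 : hp G hh c (c i s(u, v)) (Sum.inl ⟨i, u⟩) = wt hh (Sum.inl ⟨i, u⟩)
            (Sum.inl ⟨i, v⟩) := hp_eq G hh c hc (EE.a hv.2)
          rw [wt_same] at h1
          exact h1
        rw [if_pos hadj, hhp]
        simp only [hr, hr2, if_true]
      · rw [if_neg hr]
        apply le_of_eq
        refine Finset.sum_eq_zero ?_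
        intro j _
        refine Finset.sum_eq_zero ?_
        intro v _
        by_cases hv : (G i).Adj u v
        · have hadj := cov_adj G c hc hT hv A
          have hr2 : ¬ T.cov.Reach q0 (emb i (v, A ∆ {s(u, v)})) := fun h =>
            hr (reach_step _ h (T.cov.symm hadj))
          simp only [hr, hr2, hv, if_true, if_false]
          simp
        · simp only [hv, if_false]

end expand

end build

open Classical in
/-- Assembly of the family `Theta` from a supply of graphs with good connections and from the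
labelling theorem. -/
theorem exists_theta (c₀ : ℝ)
    (huniq : ∀ (k : ℕ) (G : SimpleGraph (Fin k)) (g : ℕ),
      (∀ (v : Fin k) (c : G.Walk v v), c.IsCycle → g ≤ c.length) →
      ∀ p q : List (Fin k), NBWalk G p → NBWalk G q → p.head? = q.head? →
        p.getLast? = q.getLast? → (p.length - 1) + (q.length - 1) < g → p = q)
    (hgraph : ∀ g : ℕ, 20 ≤ g → ∃ (n : ℕ) (G : SimpleGraph (Fin n)) (h : Fin n → Fin n → ℤ),
      0 < n ∧ n ≤ 4 * 400 ^ g ∧ (∀ v, (G.neighborSet v).ncard ≤ 400) ∧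
      (∀ v, 2 ≤ (G.neighborSet v).ncard) ∧
      (∀ (v : Fin n) (c : G.Walk v v), c.IsCycle → g ≤ c.length) ∧
      (∀ u v, h v u = - h u v) ∧ (∀ u v, |h u v| ≤ 1) ∧
      ∀ (N : ℕ) [NeZero N] (F : Fin n → Finset (Sym2 (Fin n)) → ZMod N → ℝ),
        c₀ * ((∑ v, ∑ A, ∑ j, (F v A (j + 2) - F v A j) ^ 2) - ∑ v, ∑ A, ∑ j, (F v A j) ^ 2) ≤
          ∑ u, ∑ A, ∑ j, ∑ v, if G.Adj u v then
            (F u A j - F v (A ∆ {s(u, v)}) (j + (h u v : ZMod N))) ^ 2 else 0)
    (hlab : ∃ m : ℕ, ∀ (g : ℕ → ℕ) (n : ℕ → ℕ) (G : ∀ i, SimpleGraph (Fin (n i))),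
      (∀ i, 10000 ≤ g i) → (∀ i, g i + 10000 ≤ g (i + 1)) → (∀ i, n i ≤ 4 * 400 ^ g i) →
      (∀ i v, ((G i).neighborSet v).ncard ≤ 400) →
      (∀ i (v : Fin (n i)) (c : (G i).Walk v v), c.IsCycle → g i ≤ c.length) →
      ∃ c : ∀ i, Sym2 (Fin (n i)) → Fin m,
        (∀ i (u v w : Fin (n i)), (G i).Adj u v → (G i).Adj u w → v ≠ w →
          c i s(u, v) ≠ c i s(u, w)) ∧
        (∀ i (p q : List (Fin (n i))), NBWalk (G i) p → NBWalk (G i) q →
          word (c i) p = word (c i) q → p.head? ≠ q.head? → 100 * (p.length - 1) ≤ g i) ∧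
        (∀ i j, i ≠ j → ∀ (p : List (Fin (n i))) (q : List (Fin (n j))), NBWalk (G i) p →
          NBWalk (G j) q → word (c i) p = word (c j) q → 100 * (p.length - 1) ≤ g i)) :
    ∃ (m : ℕ) (Q : Type) (_ : DecidableEq Q) (_ : Countable Q) (_ : Nonempty Q)
      (T : Theta (Fin m) Q), ∀ n : ℤ, ∃ q k, n ≤ k ∧ Expand T c₀ q k := by
  obtain ⟨m, hlab⟩ := hlab
  have hgr := fun i : ℕ => hgraph (10000 * (i + 1)) (by omega)
  choose n G hh hn0 hn hdeg1 hdeg2 hcyc hanti hle hG using hgr
  obtain ⟨c, hc1, hc2, hc3⟩ := hlab (fun i => 10000 * (i + 1)) n G (fun i => by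
    show 10000 ≤ 10000 * (i + 1)
    omega) (fun i => by
    show 10000 * (i + 1) + 10000 ≤ 10000 * (i + 1 + 1)
    omega) hn hdeg1 hcyc
  let T : Theta (Fin m) (QQ m n) := TT G hh c hc1 (fun i => 10000 * (i + 1))
    (fun i => by
      show 10000 ≤ 10000 * (i + 1)
      omega)
    (fun i => by
      show i ≤ 10000 * (i + 1)
      omega) hanti hdeg2
    (fun i => huniq (n i) (G i) (10000 * (i + 1)) (hcyc i)) hc2 hc3
  refine ⟨m, QQ m n, inferInstance, inferInstance, ⟨Sum.inl ⟨0, ⟨0, hn0 0⟩⟩⟩, T, ?_⟩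
  intro N
  refine ⟨Sum.inl ⟨N.toNat, ⟨0, hn0 _⟩⟩, (N.toNat : ℤ), Int.self_le_toNat N, ?_⟩
  exact expand G hh c hc1 (T := T) rfl N.toNat ⟨0, hn0 _⟩ hle c₀ (fun s q => rfl)
    (fun N' _ F => hG N.toNat N' F)

end Pool.Agent.TH429.J864
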