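import Pool.Agent.TH950.FC.Defs

set_option autoImplicit false

namespace Pool.Agent.TH429.J866

open Pool.Agent.TH950.FC
open scoped symmDiff

variable {S Q V W : Type}

/-- the endpoint of the edge with letter `s` at `x` -/
noncomputable def stp (X : LG S V) (ht : ∀ s x, ∃ y, X.E s x y) (s : S) (x : V) : V :=
  Classical.choose (ht s x)

theorem stp_spec (X : LG S V) (ht : ∀ s x, ∃ y, X.E s x y) (s : S) (x : V) :
    X.E s x (stp X ht s x) := Classical.choose_spec (ht s x)

/-- the action of a letter -/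
noncomputable def sh (X : LG S V) (ω : S → V → ℤ) (ht : ∀ s x, ∃ y, X.E s x y)
    (ha : ∀ {s x y}, X.E s x y → ω s y = - ω s x) (s : S) : Equiv.Perm (V × ℤ) where
  toFun c := (stp X ht s c.1, c.2 + ω s c.1)
  invFun c := (stp X ht s c.1, c.2 + ω s c.1)
  left_inv := by
    rintro ⟨x, j⟩
    have h1 := stp_spec X ht s x
    have h2 := stp_spec X ht s (stp X ht s x)
    have h3 : stp X ht s (stp X ht s x) = x := X.func h2 (X.symm h1)
    have h4 := ha h1
    refine Prod.ext h3 ?_
    simp only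
    rw [h4]; ring
  right_inv := by
    rintro ⟨x, j⟩
    have h1 := stp_spec X ht s x
    have h2 := stp_spec X ht s (stp X ht s x)
    have h3 : stp X ht s (stp X ht s x) = x := X.func h2 (X.symm h1)
    have h4 := ha h1
    refine Prod.ext h3 ?_
    simp only
    rw [h4]; ring

/-- the vertical translation -/
def tau (V : Type) (m : ℤ) : Equiv.Perm (V × ℤ) where
  toFun c := (c.1, c.2 + m)
  invFun c := (c.1, c.2 - m)
  left_inv := by rintro ⟨x, j⟩; simp
  right_inv := by rintro ⟨x, j⟩; simp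

section
variable (X : LG S V) (ω : S → V → ℤ) (ht : ∀ s x, ∃ y, X.E s x y)
    (ha : ∀ {s x y}, X.E s x y → ω s y = - ω s x)

/-- the action of the free group -/
noncomputable def Phi : FreeGroup S →* Equiv.Perm (V × ℤ) := FreeGroup.lift (sh X ω ht ha)

theorem Phi_of (s : S) : Phi X ω ht ha (FreeGroup.of s) = sh X ω ht ha s := by
  unfold Phi
  rw [FreeGroup.lift_apply_of]

theorem Phi_comm (g : FreeGroup S) (m : ℤ) :
    Commute (Phi X ω ht ha g) (tau V m) := by
  induction g using FreeGroup.induction_on with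
  | C1 => rw [map_one]; exact Commute.one_left _
  | of s =>
    show Commute (Phi X ω ht ha (FreeGroup.of s)) (tau V m)
    rw [Phi_of]
    apply Equiv.ext
    rintro ⟨x, j⟩
    simp only [Equiv.Perm.mul_apply]
    show (stp X ht s x, j + m + ω s x) = (stp X ht s x, j + ω s x + m)
    rw [Prod.mk.injEq]
    exact ⟨rfl, by ring⟩
  | inv_of s ih =>
    rw [map_inv]
    exact ih.inv_left
  | mul x y hx hy =>
    rw [map_mul]
    exact hx.mul_left hy

theorem wpath_iff (w : List S) : ∀ (x y : V) (m j : ℤ), X.WPath ω x w y m ↔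
    (Phi X ω ht ha (w.map FreeGroup.of).prod)⁻¹ (x, j) = (y, j + m) := by
  induction w with
  | nil =>
    intro x y m j
    simp only [List.map_nil, List.prod_nil, map_one, inv_one, Equiv.Perm.one_apply, LG.WPath,
      Prod.mk.injEq]
    constructor
    · rintro ⟨h1, h2⟩; exact ⟨h1, by omega⟩
    · rintro ⟨h1, h2⟩; exact ⟨h1, by omega⟩
  | cons s w ih =>
    intro x y m j
    rw [List.map_cons, List.prod_cons, map_mul, mul_inv_rev, Equiv.Perm.mul_apply, Phi_of]
    have e : (sh X ω ht ha s)⁻¹ (x, j) = (stp X ht s x, j + ω s x) := rfl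
    rw [e]
    have h2 := ih (stp X ht s x) y (m - ω s x) (j + ω s x)
    have e2 : j + ω s x + (m - ω s x) = j + m := by ring
    rw [e2] at h2
    rw [← h2]
    constructor
    · rintro ⟨z, hz, hw⟩
      have : z = stp X ht s x := X.func hz (stp_spec X ht s x)
      rw [← this]; exact hw
    · intro hw
      exact ⟨_, stp_spec X ht s x, hw⟩

/-- elements acting by a constant translation -/
noncomputable def NN : Subgroup (FreeGroup S) where
  carrier := {g | ∃ m : ℤ, Phi X ω ht ha g = tau V m}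
  one_mem' := ⟨0, by
    rw [map_one]
    apply Equiv.ext
    rintro ⟨x, j⟩
    show (x, j) = (x, j + 0)
    rw [add_zero]⟩
  mul_mem' := by
    rintro a b ⟨m, hm⟩ ⟨n, hn⟩
    refine ⟨n + m, ?_⟩
    rw [map_mul, hm, hn]
    apply Equiv.ext
    rintro ⟨x, j⟩
    show (x, j + n + m) = (x, j + (n + m))
    rw [add_assoc]
  inv_mem' := by
    rintro a ⟨m, hm⟩
    refine ⟨-m, ?_⟩
    rw [map_inv, hm, inv_eq_iff_mul_eq_one]
    apply Equiv.ext
    rintro ⟨x, j⟩
    show (x, j + -m + m) = (x, j)
    rw [neg_add_cancel_right]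

theorem NN_normal : (NN X ω ht ha).Normal := by
  constructor
  rintro g ⟨m, hm⟩ h
  refine ⟨m, ?_⟩
  rw [map_mul, map_mul, hm, map_inv]
  have := Phi_comm X ω ht ha h m
  rw [this.eq, mul_assoc, mul_inv_cancel, mul_one]

end

section
variable [DecidableEq Q] [DecidableEq W] (T : Theta S Q)

theorem path_to_wpath (X : LG S V) (ω : S → V → ℤ) (w : List S) : ∀ x y, X.Path x w y →
    ∃ m, X.WPath ω x w y m := by
  induction w with
  | nil => intro x y h; exact ⟨0, h, rfl⟩
  | cons s w ih =>
    rintro x y ⟨z, hz, hw⟩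
    obtain ⟨m, hm⟩ := ih z y hw
    exact ⟨m + ω s x, z, hz, by simpa using hm⟩

theorem path_snoc {U : Type} (X : LG S U) (w : List S) : ∀ {x y z : U} {s : S}, X.Path x w y →
    X.E s y z → X.Path x (w ++ [s]) z := by
  induction w with
  | nil => intro x y z s h1 h2; cases h1; exact ⟨z, h2, rfl⟩
  | cons t w ih =>
    rintro x y z s ⟨u, hu, hw⟩ h2
    exact ⟨u, hu, ih hw h2⟩

theorem chart_wpath (X : LG S V) (ω : S → V → ℤ) {q : Q}
    (ι : Q × Finset (Sym2 Q) → V) (ψ : Q × Finset (Sym2 Q) → ℤ)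
    (h : ∀ c, T.cov.Reach (q, ∅) c → ∀ s c', T.cov.E s c c' → X.E s (ι c) (ι c') ∧
      ω s (ι c) = T.h s c.1 + ψ c' - ψ c) (w : List S) :
    ∀ (c c' : Q × Finset (Sym2 Q)) (m : ℤ), T.cov.Reach (q, ∅) c →
      T.cov.WPath (fun s c => T.h s c.1) c w c' m →
      X.WPath ω (ι c) w (ι c') (m + ψ c' - ψ c) := by
  induction w with
  | nil =>
    rintro c c' m hr ⟨h1, h2⟩
    subst h1 h2
    exact ⟨rfl, by ring⟩
  | cons s w ih =>
    rintro c c' m hr ⟨z, hz, hw⟩
    obtain ⟨h1, h2⟩ := h c hr s z hz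
    refine ⟨ι z, h1, ?_⟩
    have hr' : T.cov.Reach (q, ∅) z := by
      obtain ⟨u, hu⟩ := hr
      exact ⟨u ++ [s], path_snoc T.cov u hu hz⟩
    have h3 := ih z c' (m - T.h s c.1) hr' hw
    rw [h2]
    have e : m + ψ c' - ψ c - (T.h s c.1 + ψ z - ψ c) = m - T.h s c.1 + ψ c' - ψ z := by ring
    rw [e]
    exact h3

/-- Closed words are closed everywhere, with the same total weight. -/
theorem homog_of_limit {S Q V W : Type} [DecidableEq Q] [DecidableEq W] (T : Theta S Q)
    (X : LG S V) (β : V → Finset W) (ω : S → V → ℤ) (p : V → PresentedGroup (rels T)) (base : V)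
    (hL : Limit T (fun s => PresentedGroup.of s) X β ω p base) (w : List S) (x : V) (m : ℤ)
    (hw : X.WPath ω x w x m) (y : V) : X.WPath ω y w y m := by
  have ha : ∀ {s x y}, X.E s x y → ω s y = - ω s x := fun {s x y} h => hL.anti h
  have ht := hL.total
  -- the relators act as translations
  have hrel : rels T ⊆ (NN X ω ht ha : Set (FreeGroup S)) := by
    rintro r (⟨s, rfl⟩ | ⟨q, u, hu, rfl⟩)
    · refine ⟨0, ?_⟩
      rw [map_mul, Phi_of]
      apply Equiv.ext
      intro c
      have h1 := (sh X ω ht ha s).left_inv c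
      rw [Equiv.Perm.mul_apply]
      show (sh X ω ht ha s).toFun ((sh X ω ht ha s).toFun c) = (c.1, c.2 + 0)
      rw [add_zero]
      exact h1
    · obtain ⟨H, hH⟩ := path_to_wpath T.cov (fun s c => T.h s c.1) u _ _ hu
      refine ⟨-H, ?_⟩
      have key : ∀ z j, (Phi X ω ht ha (u.map FreeGroup.of).prod)⁻¹ (z, j) = (z, j + H) := by
        intro z j
        rw [← wpath_iff]
        obtain ⟨ι, jj, ψ, hj, hι, hc⟩ := hL.charted z q
        have h5 := chart_wpath T X ω ι ψ (fun c hr => (hc c hr).2) u (q, ∅) (q, ∅) H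
          ⟨[], rfl⟩ hH
        rw [hι] at h5
        have e : H + ψ (q, ∅) - ψ (q, ∅) = H := by ring
        rw [e] at h5
        exact h5
      apply Equiv.ext
      rintro ⟨z, j⟩
      have h6 := key z (j + -H)
      rw [neg_add_cancel_right] at h6
      have h7 : (Phi X ω ht ha (u.map FreeGroup.of).prod) (z, j) = (z, j + -H) := by
        rw [← h6]
        exact Equiv.apply_symm_apply _ _
      exact h7
  have hN : Subgroup.normalClosure (rels T) ≤ NN X ω ht ha := by
    have := NN_normal X ω ht ha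
    exact Subgroup.normalClosure_le_normal hrel
  -- the word is trivial in the group
  have hpot : ∀ (u : List S) (a b : V) (n : ℤ), X.WPath ω a u b n →
      p b = p a * (u.map (fun s => (PresentedGroup.of s : PresentedGroup (rels T)))).prod := by
    intro u
    induction u with
    | nil => rintro a b n ⟨h1, -⟩; simp [h1]
    | cons s u ih =>
      rintro a b n ⟨z, hz, hu⟩
      rw [ih z b _ hu, hL.pot hz, List.map_cons, List.prod_cons, mul_assoc]
  have h1 := hpot w x x m hw
  have h2 : (w.map (fun s => (PresentedGroup.of s : PresentedGroup (rels T)))).prod = 1 := by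
    exact mul_eq_left.mp h1.symm
  have h3 : (PresentedGroup.mk (rels T)) (w.map FreeGroup.of).prod = 1 := by
    rw [map_list_prod, List.map_map]
    exact h2
  have h4 : (w.map FreeGroup.of).prod ∈ Subgroup.normalClosure (rels T) := by
    exact (QuotientGroup.eq_one_iff _).mp h3
  obtain ⟨n, hn⟩ := hN h4
  have h5 := (wpath_iff X ω ht ha w x x m 0).mp hw
  rw [wpath_iff X ω ht ha w y y m 0]
  rw [hn] at h5 ⊢
  have e1 : ∀ z : V, ((tau V n)⁻¹) (z, (0:ℤ)) = (z, 0 - n) := fun z => rfl
  rw [e1] at h5 ⊢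
  have h6 : (0:ℤ) - n = 0 + m := (Prod.mk.inj h5).2
  rw [h6]

end

end Pool.Agent.TH429.J866
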