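import Pool.Agent.TH331.RZ.Defs
import Pool.Agent.Helper88.SE.P_zlaw

/-! Job 231 (RZ-A for MP_d18e52_an): the zonal law on `S^d` and the Riesz energy of the uniform
measure. -/

set_option autoImplicit false

open MeasureTheory Set Filter Topology
open scoped ENNReal Real FourierTransform

namespace Pool.Agent.TH331.RZ

open Pool.Agent.Helper88.SE

namespace J231

/-- radial factor -/
noncomputable def rC (d : ℕ) (φ : ℝ → ℝ≥0∞) : ℝ≥0∞ :=
  ∫⁻ r in Ioi (0 : ℝ), ENNReal.ofReal (r ^ d) * φ r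

theorem sphere_polar {d : ℕ} (p : S d) (h : ℝ → ℝ≥0∞) (hh : Measurable h) (φ : ℝ → ℝ≥0∞)
    (hφ : Measurable φ) :
    ∫⁻ v : E d, φ ‖v‖ * h (inner ℝ (p : E d) v / ‖v‖) =
      (∫⁻ x : S d, h (inner ℝ (p : E d) (x : E d)) ∂((volume : Measure (E d)).toSphere)) *
        rC d φ := by
  have hfin : Module.finrank ℝ (E d) = d + 1 := by simp
  have hmp := (volume : Measure (E d)).measurePreserving_homeomorphUnitSphereProd
  rw [hfin] at hmp
  have h0 : ∫⁻ v : E d, φ ‖v‖ * h (inner ℝ (p : E d) v / ‖v‖)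
      = ∫⁻ v in ({0}ᶜ : Set (E d)), φ ‖v‖ * h (inner ℝ (p : E d) v / ‖v‖) := by
    rw [restrict_compl_singleton]
  rw [h0, ← lintegral_subtype_comap (measurableSet_singleton (0 : E d)).compl
    (fun v => φ ‖v‖ * h (inner ℝ (p : E d) v / ‖v‖))]
  have hk : Measurable (fun x : S d => h (inner ℝ (p : E d) (x : E d))) := by
    apply hh.comp
    apply Continuous.measurable
    fun_prop
  have hG : Measurable (fun q : S d × Ioi (0 : ℝ) => h (inner ℝ (p : E d) (q.1 : E d)) * φ q.2) :=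
    (hk.comp measurable_fst).mul (hφ.comp (measurable_subtype_coe.comp measurable_snd))
  have h1 := hmp.lintegral_comp hG
  have h2 : (fun v : ({0}ᶜ : Set (E d)) => φ ‖(v : E d)‖ * h (inner ℝ (p : E d) (v : E d) / ‖(v : E d)‖))
      = fun v => h (inner ℝ (p : E d) ((homeomorphUnitSphereProd (E d) v).1 : E d))
        * φ (homeomorphUnitSphereProd (E d) v).2 := by
    funext v
    rw [homeomorphUnitSphereProd_apply_fst_coe, homeomorphUnitSphereProd_apply_snd_coe,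
      inner_smul_right, mul_comm]
    congr 2
    rw [div_eq_inv_mul]
  rw [h2, h1]
  rw [lintegral_prod_mul (f := fun x : S d => h (inner ℝ (p : E d) (x : E d)))
    (g := fun r : Ioi (0 : ℝ) => φ r) hk.aemeasurable
    (hφ.comp measurable_subtype_coe).aemeasurable]
  congr 1
  unfold rC Measure.volumeIoiPow
  have hφs : Measurable (fun y : Ioi (0 : ℝ) => φ y) := hφ.comp measurable_subtype_coe
  rw [lintegral_withDensity_eq_lintegral_mul _ (by fun_prop) hφs]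
  rw [← lintegral_subtype_comap measurableSet_Ioi (fun r => ENNReal.ofReal (r ^ d) * φ r)]
  rfl

theorem rot_coord {d : ℕ} (p : S d) (h : ℝ → ℝ≥0∞) (hh : Measurable h) (φ : ℝ → ℝ≥0∞)
    (hφ : Measurable φ) :
    ∫⁻ v : E d, φ ‖v‖ * h (inner ℝ (p : E d) v / ‖v‖) =
      ∫⁻ v : E d, φ ‖v‖ * h (v 0 / ‖v‖) := by
  have hp : ‖(p : E d)‖ = 1 := by simp
  obtain ⟨b, hb⟩ : ∃ b : OrthonormalBasis (Fin (d + 1)) ℝ (E d), b 0 = p := by
    have hv : Orthonormal ℝ (({0} : Set (Fin (d + 1))).domRestrict (fun _ => (p : E d))) := by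
      constructor
      · intro i
        exact hp
      · intro i j hij
        exact absurd (Subsingleton.elim i j) hij
    obtain ⟨b, hb⟩ := hv.exists_orthonormalBasis_extension_of_card_eq (by simp)
    exact ⟨b, hb 0 rfl⟩
  have hm : Measurable (fun v : E d => φ ‖v‖ * h (v 0 / ‖v‖)) := by
    apply Measurable.mul
    · exact hφ.comp measurable_norm
    · apply hh.comp
      apply Measurable.div
      · apply Continuous.measurable
        fun_prop
      · exact measurable_norm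
  rw [← b.measurePreserving_repr.lintegral_comp hm]
  apply lintegral_congr
  intro v
  rw [b.repr.norm_map, b.repr_apply_apply, hb]

/-- coordinates -/
theorem coord_split {d : ℕ} (G : ℝ × E d → ℝ≥0∞) (hG : Measurable G) :
    ∫⁻ v : E (d + 1), G (v 0, WithLp.toLp 2 (fun i : Fin (d + 1) => v i.succ)) =
      ∫⁻ t : ℝ, ∫⁻ w : E d, G (t, w) := by
  have e1 := EuclideanSpace.volume_preserving_symm_measurableEquiv_toLp (Fin (d + 1 + 1))
  have e2 := volume_preserving_piFinSuccAbove (fun _ : Fin (d + 1 + 1) => ℝ) 0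
  have e3 := (MeasurePreserving.id (volume : Measure ℝ)).prod
    (EuclideanSpace.volume_preserving_symm_measurableEquiv_toLp (Fin (d + 1))).symm
  have e4 := (e3.comp e2).comp e1
  have h1 := e4.lintegral_comp hG
  rw [lintegral_prod _ hG.aemeasurable] at h1
  rw [← h1]
  rfl

theorem key (d : ℕ) (h : ℝ → ℝ≥0∞) (hh : Measurable h) (φ : ℝ → ℝ≥0∞) (hφ : Measurable φ) :
    ∃ p : S (d + 1), True ∧ ∫⁻ v : E (d + 2), φ ‖v‖ * h (v 0 / ‖v‖) =
      (volume : Measure (E (d + 1))).toSphere univ * (rC (d + 2) φ *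
        ∫⁻ z in Icc (-1 : ℝ) 1, ENNReal.ofReal (Real.sqrt (1 - z ^ 2) ^ d) * h z) := by
  refine ⟨nrm 0, trivial, ?_⟩
  set p : S (d + 1) := nrm 0 with hp
  -- polar coordinates in the tail
  have hpol : ∀ G : ℝ → ℝ≥0∞, Measurable G → ∫⁻ w : E (d + 1), G ‖w‖ =
      (volume : Measure (E (d + 1))).toSphere univ * rC (d + 1) G := by
    intro G hG
    have := sphere_polar p (fun _ => 1) measurable_const G hG
    simpa using this
  have hm1 : Measurable (fun q : ℝ × ℝ => Real.sqrt (q.1 ^ 2 + q.2 ^ 2)) := by fun_prop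
  set G : ℝ × ℝ → ℝ≥0∞ := fun q =>
    φ (Real.sqrt (q.1 ^ 2 + q.2 ^ 2)) * h (q.1 / Real.sqrt (q.1 ^ 2 + q.2 ^ 2)) with hGdef
  have hG : Measurable G := (hφ.comp hm1).mul (hh.comp (measurable_fst.div hm1))
  have hG' : Measurable (fun q : ℝ × E (d + 1) => G (q.1, ‖q.2‖)) :=
    hG.comp (measurable_fst.prodMk (measurable_norm.comp measurable_snd))
  have h1 : ∫⁻ v : E (d + 2), φ ‖v‖ * h (v 0 / ‖v‖) =
      ∫⁻ v : E (d + 2), (fun q : ℝ × E (d + 1) => G (q.1, ‖q.2‖))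
        (v 0, WithLp.toLp 2 (fun i : Fin (d + 2) => v i.succ)) := by
    apply lintegral_congr
    intro v
    have h3 : ‖v‖ = Real.sqrt ((v 0) ^ 2 +
        ‖(WithLp.toLp 2 (fun i : Fin (d + 2) => v i.succ) : E (d + 1))‖ ^ 2) := by
      rw [EuclideanSpace.norm_eq, EuclideanSpace.norm_sq_eq, Fin.sum_univ_succ]
      simp only [Real.norm_eq_abs, sq_abs]
    simp only [hGdef]
    rw [← h3]
  rw [h1, coord_split _ hG']
  have h2 : ∀ t : ℝ, ∫⁻ w : E (d + 1), G (t, ‖w‖) =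
      (volume : Measure (E (d + 1))).toSphere univ *
        ∫⁻ s : ℝ, ENNReal.ofReal s * (ENNReal.ofReal (s ^ d) * G (t, s)) := by
    intro t
    have hGt : Measurable (fun s : ℝ => G (t, s)) := hG.comp (measurable_const.prodMk measurable_id)
    rw [hpol _ hGt]
    congr 1
    unfold rC
    rw [← lintegral_indicator measurableSet_Ioi]
    apply lintegral_congr
    intro s
    by_cases hs : s ∈ Ioi (0 : ℝ)
    · have hs' : (0:ℝ) < s := hs
      rw [indicator_of_mem hs]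
      show ENNReal.ofReal (s ^ (d + 1)) * G (t, s) = _
      rw [pow_succ', ENNReal.ofReal_mul hs'.le, mul_assoc]
    · rw [indicator_of_notMem hs, ENNReal.ofReal_of_nonpos (not_lt.mp hs), zero_mul]
  simp only [h2]
  have hm2 : Measurable (fun q : ℝ × ℝ => ENNReal.ofReal q.2 * (ENNReal.ofReal (q.2 ^ d) * G q)) := by
    fun_prop
  have h4 : Measurable (fun t : ℝ => ∫⁻ s : ℝ, ENNReal.ofReal s *
      (ENNReal.ofReal (s ^ d) * G (t, s))) :=
    Measurable.lintegral_prod_right' (f := fun q : ℝ × ℝ =>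
      ENNReal.ofReal q.2 * (ENNReal.ofReal (q.2 ^ d) * G q)) hm2
  rw [lintegral_const_mul _ h4]
  congr 1
  -- reduce to the known planar formula
  set φ' : ℝ → ℝ≥0∞ := fun r => ENNReal.ofReal (r ^ d) * φ r with hφ'
  set h' : ℝ → ℝ≥0∞ := fun z => ENNReal.ofReal (Real.sqrt (1 - z ^ 2) ^ d) * h z with hh'
  have hφ'm : Measurable φ' := by fun_prop
  have hh'm : Measurable h' := by fun_prop
  have h5 := zl_polar2 h' hh'm φ' hφ'm
  have h6 : zlC φ' = rC (d + 2) φ := by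
    unfold zlC rC
    refine setLIntegral_congr_fun measurableSet_Ioi fun r hr => ?_
    have hr' : (0:ℝ) < r := hr
    simp only [hφ']
    rw [← mul_assoc, ← ENNReal.ofReal_mul (by positivity)]
    congr 2
    ring
  rw [← h6, ← h5]
  apply lintegral_congr
  intro t
  apply lintegral_congr
  intro s
  rcases le_or_gt s 0 with hs | hs
  · rw [ENNReal.ofReal_of_nonpos hs, zero_mul, zero_mul]
  · congr 1
    simp only [hφ', hh', hGdef]
    have hr : 0 < t ^ 2 + s ^ 2 := by positivity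
    have hr2 : 0 < Real.sqrt (t ^ 2 + s ^ 2) := Real.sqrt_pos.2 hr
    have e1 : Real.sqrt (1 - (t / Real.sqrt (t ^ 2 + s ^ 2)) ^ 2) =
        s / Real.sqrt (t ^ 2 + s ^ 2) := by
      rw [div_pow, Real.sq_sqrt hr.le]
      have : 1 - t ^ 2 / (t ^ 2 + s ^ 2) = s ^ 2 / (t ^ 2 + s ^ 2) := by
        field_simp
        ring
      rw [this, Real.sqrt_div (by positivity), Real.sqrt_sq hs.le]
    rw [e1]
    have e2 : s ^ d = Real.sqrt (t ^ 2 + s ^ 2) ^ d * (s / Real.sqrt (t ^ 2 + s ^ 2)) ^ d := by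
      rw [← mul_pow, mul_div_cancel₀ _ hr2.ne']
    rw [e2, ENNReal.ofReal_mul (by positivity)]
    ring

end J231

open J231

/-- the zonal law up to the constant, for the unnormalised measure -/
theorem zonal_main (d : ℕ) (p : S (d + 2)) (h : ℝ → ℝ≥0∞) (hh : Measurable h) :
    ∫⁻ x : S (d + 2), h (inner ℝ (p : E (d + 2)) (x : E (d + 2)))
        ∂((volume : Measure (E (d + 2))).toSphere) =
      (volume : Measure (E (d + 1))).toSphere univ *
        ∫⁻ z in Icc (-1 : ℝ) 1, ENNReal.ofReal (Real.sqrt (1 - z ^ 2) ^ d) * h z := by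
  obtain ⟨φ, hφd⟩ : ∃ φ : ℝ → ℝ≥0∞, φ = (Ioo (1 : ℝ) 2).indicator (fun _ => 1) := ⟨_, rfl⟩
  have hφ : Measurable φ := by
    rw [hφd]
    exact measurable_const.indicator measurableSet_Ioo
  have h1 := sphere_polar p h hh φ hφ
  rw [rot_coord p h hh φ hφ] at h1
  obtain ⟨-, -, h2⟩ := key d h hh φ hφ
  rw [h2] at h1
  have hC : rC (d + 2) φ = ∫⁻ r in Ioo (1 : ℝ) 2, ENNReal.ofReal (r ^ (d + 2)) := by
    unfold rC
    rw [← lintegral_indicator measurableSet_Ioi, ← lintegral_indicator measurableSet_Ioo]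
    apply lintegral_congr
    intro r
    rw [hφd]
    by_cases hr : r ∈ Ioo (1 : ℝ) 2
    · have hr' : r ∈ Ioi (0 : ℝ) := by
        have := hr.1
        exact (by linarith : (0 : ℝ) < r)
      simp only [indicator_of_mem hr, indicator_of_mem hr', mul_one]
    · rw [indicator_of_notMem hr]
      by_cases hr' : r ∈ Ioi (0 : ℝ)
      · rw [indicator_of_mem hr', indicator_of_notMem hr, mul_zero]
      · rw [indicator_of_notMem hr']
  have hC0 : rC (d + 2) φ ≠ 0 := by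
    have h6 : ∫⁻ r in Ioo (1 : ℝ) 2, (1 : ℝ≥0∞) ≤
        ∫⁻ r in Ioo (1 : ℝ) 2, ENNReal.ofReal (r ^ (d + 2)) := by
      apply setLIntegral_mono' measurableSet_Ioo
      intro r hr
      rw [← ENNReal.ofReal_one]
      apply ENNReal.ofReal_le_ofReal
      exact one_le_pow₀ hr.1.le
    rw [← hC, lintegral_one, Measure.restrict_apply_univ, Real.volume_Ioo] at h6
    intro h7
    rw [h7] at h6
    norm_num at h6
  have hCt : rC (d + 2) φ ≠ ∞ := by
    have h6 : ∫⁻ r in Ioo (1 : ℝ) 2, ENNReal.ofReal (r ^ (d + 2)) ≤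
        ∫⁻ r in Ioo (1 : ℝ) 2, ENNReal.ofReal (2 ^ (d + 2)) := by
      apply setLIntegral_mono' measurableSet_Ioo
      intro r hr
      apply ENNReal.ofReal_le_ofReal
      exact pow_le_pow_left₀ (by linarith [hr.1]) hr.2.le _
    rw [← hC, setLIntegral_const, Real.volume_Ioo] at h6
    exact ne_top_of_le_ne_top (ENNReal.mul_ne_top ENNReal.ofReal_ne_top ENNReal.ofReal_ne_top) h6
  have h6 : (∫⁻ x : S (d + 2), h (inner ℝ (p : E (d + 2)) (x : E (d + 2)))
        ∂((volume : Measure (E (d + 2))).toSphere)) * rC (d + 2) φ =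
      ((volume : Measure (E (d + 1))).toSphere univ *
        ∫⁻ z in Icc (-1 : ℝ) 1, ENNReal.ofReal (Real.sqrt (1 - z ^ 2) ^ d) * h z) *
        rC (d + 2) φ := by
    rw [← h1]
    ring
  exact (ENNReal.mul_left_inj hC0 hCt).mp h6

namespace J231

theorem beta_lintegral {α β : ℝ} (hα : 0 < α) (hβ : 0 < β) :
    ∫⁻ z in Icc (-1 : ℝ) 1, ENNReal.ofReal ((1 - z) ^ (α - 1) * (1 + z) ^ (β - 1)) =
      ENNReal.ofReal ((2:ℝ) ^ (α + β - 1) * ProbabilityTheory.beta α β) := by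
  have hb := ProbabilityTheory.beta_pos hα hβ
  rw [← setLIntegral_congr (Ioo_ae_eq_Icc (a := (-1:ℝ)) (b := 1))]
  have himg : (fun t : ℝ => 1 - 2 * t) '' Ioo 0 1 = Ioo (-1 : ℝ) 1 := by
    ext z
    constructor
    · rintro ⟨t, ⟨h1, h2⟩, rfl⟩
      show -1 < 1 - 2 * t ∧ 1 - 2 * t < 1
      constructor <;> linarith
    · rintro ⟨h1, h2⟩
      exact ⟨(1 - z) / 2, ⟨by linarith, by linarith⟩, by ring⟩
  rw [← himg, lintegral_image_eq_lintegral_abs_deriv_mul measurableSet_Ioo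
    (f' := fun _ => -2) (fun x _ => by
      have := ((hasDerivAt_id x).const_mul (2:ℝ)).const_sub 1
      simpa using this.hasDerivWithinAt)
    (fun x _ y _ h => by
      have h' : 1 - 2 * x = 1 - 2 * y := h
      linarith)]
  have h1 := ProbabilityTheory.lintegral_betaPDF_eq_one hα hβ
  rw [ProbabilityTheory.lintegral_betaPDF] at h1
  have h2 : ∀ t ∈ Ioo (0:ℝ) 1, ENNReal.ofReal |(-2:ℝ)| *
      ENNReal.ofReal ((1 - (1 - 2 * t)) ^ (α - 1) * (1 + (1 - 2 * t)) ^ (β - 1)) =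
      ENNReal.ofReal ((2:ℝ) ^ (α + β - 1) * ProbabilityTheory.beta α β) *
        ENNReal.ofReal (1 / ProbabilityTheory.beta α β * t ^ (α - 1) * (1 - t) ^ (β - 1)) := by
    intro t ht
    have ht1 : 0 < 1 - t := by linarith [ht.2]
    rw [← ENNReal.ofReal_mul (abs_nonneg _), ← ENNReal.ofReal_mul (by positivity)]
    congr 1
    have e1 : 1 - (1 - 2 * t) = 2 * t := by ring
    have e2 : 1 + (1 - 2 * t) = 2 * (1 - t) := by ring
    rw [e1, e2, Real.mul_rpow (by norm_num) ht.1.le, Real.mul_rpow (by norm_num) ht1.le]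
    have e3 : |(-2:ℝ)| = 2 := by norm_num
    have e4 : (2:ℝ) ^ (α + β - 1) = 2 * (2:ℝ) ^ (α - 1) * (2:ℝ) ^ (β - 1) := by
      nth_rw 2 [← Real.rpow_one 2]
      rw [← Real.rpow_add (by norm_num), ← Real.rpow_add (by norm_num)]
      congr 1
      ring
    rw [e3, e4]
    field_simp
  rw [setLIntegral_congr_fun measurableSet_Ioo h2, lintegral_const_mul _ (by fun_prop), h1, mul_one]

theorem sqrt_pow_eq {z : ℝ} (hz : z ∈ Ioo (-1:ℝ) 1) (d : ℕ) :
    Real.sqrt (1 - z ^ 2) ^ d = (1 - z) ^ ((d:ℝ) / 2) * (1 + z) ^ ((d:ℝ) / 2) := by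
  have h1 : 0 < 1 - z := by linarith [hz.2]
  have h2 : 0 < 1 + z := by linarith [hz.1]
  have e : 1 - z ^ 2 = (1 - z) * (1 + z) := by ring
  rw [e, ← Real.mul_rpow h1.le h2.le, Real.sqrt_eq_rpow, ← Real.rpow_natCast,
    ← Real.rpow_mul (by positivity)]
  congr 1
  ring

theorem weight_lintegral (d : ℕ) {s : ℝ} (hs : s < (d:ℝ) + 2) :
    ∫⁻ z in Icc (-1 : ℝ) 1, ENNReal.ofReal (Real.sqrt (1 - z ^ 2) ^ d) *
        ENNReal.ofReal (Real.sqrt (2 - 2 * z) ^ (-s)) =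
      ENNReal.ofReal ((2:ℝ) ^ ((d:ℝ) + 1 - s) *
        ProbabilityTheory.beta (((d:ℝ) + 2 - s) / 2) (((d:ℝ) + 2) / 2)) := by
  have hα : 0 < ((d:ℝ) + 2 - s) / 2 := by linarith
  have hβ : 0 < ((d:ℝ) + 2) / 2 := by positivity
  have h1 := beta_lintegral hα hβ
  rw [← setLIntegral_congr (Ioo_ae_eq_Icc (a := (-1:ℝ)) (b := 1))] at h1 ⊢
  have h2 : ∀ z ∈ Ioo (-1:ℝ) 1, ENNReal.ofReal (Real.sqrt (1 - z ^ 2) ^ d) *
        ENNReal.ofReal (Real.sqrt (2 - 2 * z) ^ (-s)) =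
      ENNReal.ofReal ((2:ℝ) ^ (-s / 2)) * ENNReal.ofReal
        ((1 - z) ^ (((d:ℝ) + 2 - s) / 2 - 1) * (1 + z) ^ (((d:ℝ) + 2) / 2 - 1)) := by
    intro z hz
    have hz1 : 0 < 1 - z := by linarith [hz.2]
    have hz2 : 0 < 1 + z := by linarith [hz.1]
    rw [← ENNReal.ofReal_mul (by positivity), ← ENNReal.ofReal_mul (by positivity)]
    congr 1
    have e1 : 2 - 2 * z = 2 * (1 - z) := by ring
    rw [sqrt_pow_eq hz, e1, Real.sqrt_eq_rpow, ← Real.rpow_mul (by positivity),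
      Real.mul_rpow (by norm_num) hz1.le]
    have e2 : ((d:ℝ) + 2 - s) / 2 - 1 = (d:ℝ) / 2 + 1 / 2 * -s := by ring
    have e3 : ((d:ℝ) + 2) / 2 - 1 = (d:ℝ) / 2 := by ring
    have e4 : -s / 2 = 1 / 2 * -s := by ring
    rw [e2, e3, e4, Real.rpow_add hz1]
    ring
  rw [setLIntegral_congr_fun measurableSet_Ioo h2, lintegral_const_mul _ (by fun_prop), h1,
    ← ENNReal.ofReal_mul (by positivity)]
  congr 1
  rw [← mul_assoc, ← Real.rpow_add (by norm_num)]
  congr 2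
  ring

end J231

/-- the zonal law -/
theorem zonal (d : ℕ) (p : S (d + 2)) (h : ℝ → ℝ≥0∞) (hh : Measurable h) :
    ∫⁻ x : S (d + 2), h (inner ℝ (p : E (d + 2)) (x : E (d + 2))) ∂(sg (d + 2)) =
      (ENNReal.ofReal ((2:ℝ) ^ ((d:ℝ) + 1) *
        ProbabilityTheory.beta (((d:ℝ) + 2) / 2) (((d:ℝ) + 2) / 2)))⁻¹ *
        ∫⁻ z in Icc (-1 : ℝ) 1, ENNReal.ofReal (Real.sqrt (1 - z ^ 2) ^ d) * h z := by
  have h0 := zonal_main d p (fun _ => 1) measurable_const
  have h1 := weight_lintegral d (s := 0) (by positivity)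
  simp only [neg_zero, Real.rpow_zero, ENNReal.ofReal_one, mul_one, sub_zero] at h1
  simp only [lintegral_one, mul_one, h1] at h0
  have hb : 0 < (2:ℝ) ^ ((d:ℝ) + 1) * ProbabilityTheory.beta (((d:ℝ) + 2) / 2) (((d:ℝ) + 2) / 2) :=
    mul_pos (by positivity) (ProbabilityTheory.beta_pos (by positivity) (by positivity))
  set c := ENNReal.ofReal ((2:ℝ) ^ ((d:ℝ) + 1) *
    ProbabilityTheory.beta (((d:ℝ) + 2) / 2) (((d:ℝ) + 2) / 2)) with hc
  have hc0 : c ≠ 0 := (ENNReal.ofReal_pos.2 hb).ne'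
  have hct : c ≠ ∞ := ENNReal.ofReal_ne_top
  set A := (volume : Measure (E (d + 1))).toSphere univ with hA
  have hprob : (sg (d + 2)) univ = 1 := (sg_prob (d + 2)).measure_univ
  have hA0 : A ≠ 0 := by
    intro h
    rw [h, zero_mul] at h0
    have : sg (d + 2) univ = 0 ∨ sg (d + 2) univ = 0 := by
      left
      unfold sg
      rw [Measure.smul_apply, h0, smul_eq_mul, mul_zero]
    rw [hprob] at this
    simp at this
  have hAt : A ≠ ∞ := by
    intro h
    have : (volume : Measure (E (d + 2))).toSphere univ = ∞ := by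
      rw [h0, h, ENNReal.top_mul hc0]
    exact (measure_ne_top _ _) this
  unfold sg
  rw [lintegral_smul_measure, zonal_main d p h hh, h0, smul_eq_mul, ← mul_assoc]
  congr 1
  rw [ENNReal.mul_inv (Or.inl hA0) (Or.inl hAt), mul_comm A⁻¹ c⁻¹, mul_assoc,
    ENNReal.inv_mul_cancel hA0 hAt, mul_one]

theorem Ic_formula (d : ℕ) (hd : 2 ≤ d) (s : ℝ) (hsd : s < d) :
    Ic d s = (2:ℝ) ^ ((d:ℝ) - s - 1) * Real.Gamma (((d:ℝ) + 1) / 2)
              * Real.Gamma (((d:ℝ) - s) / 2)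
              / (Real.sqrt Real.pi * Real.Gamma ((d:ℝ) - s / 2)) := by
  obtain ⟨d, rfl⟩ : ∃ d', d = d' + 2 := ⟨d - 2, by omega⟩
  have hs : s < (d:ℝ) + 2 := by push_cast at hsd; exact hsd
  haveI := sg_prob (d + 2)
  have hb : 0 < (2:ℝ) ^ ((d:ℝ) + 1) * ProbabilityTheory.beta (((d:ℝ) + 2) / 2) (((d:ℝ) + 2) / 2) :=
    mul_pos (by positivity) (ProbabilityTheory.beta_pos (by positivity) (by positivity))
  have hb2 : 0 < ProbabilityTheory.beta (((d:ℝ) + 2 - s) / 2) (((d:ℝ) + 2) / 2) :=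
    ProbabilityTheory.beta_pos (by linarith) (by positivity)
  have hin : ∀ x : S (d + 2), ∫ y : S (d + 2), K s x y ∂(sg (d + 2)) =
      ((2:ℝ) ^ ((d:ℝ) + 1) * ProbabilityTheory.beta (((d:ℝ) + 2) / 2) (((d:ℝ) + 2) / 2))⁻¹ *
      ((2:ℝ) ^ ((d:ℝ) + 1 - s) *
        ProbabilityTheory.beta (((d:ℝ) + 2 - s) / 2) (((d:ℝ) + 2) / 2)) := by
    intro x
    have hK : ∀ y : S (d + 2), K s x y =
        Real.sqrt (2 - 2 * inner ℝ (x : E (d + 2)) (y : E (d + 2))) ^ (-s) := by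
      intro y
      unfold K
      congr 1
      rw [Subtype.dist_eq, dist_eq_norm, ← Real.sqrt_sq (norm_nonneg _), norm_sub_sq_real]
      congr 1
      have hx : ‖(x : E (d + 2))‖ = 1 := by simp
      have hy : ‖(y : E (d + 2))‖ = 1 := by simp
      rw [hx, hy]
      ring
    have hm : Measurable (fun y : S (d + 2) => K s x y) := by
      simp only [hK]
      have : Continuous fun y : S (d + 2) => inner ℝ (x : E (d + 2)) (y : E (d + 2)) := by
        fun_prop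
      have := this.measurable
      fun_prop
    rw [integral_eq_lintegral_of_nonneg_ae (ae_of_all _ fun y => by
      simp only [hK]; exact Real.rpow_nonneg (Real.sqrt_nonneg _) _) hm.aestronglyMeasurable]
    have h1 := zonal d x (fun z => ENNReal.ofReal (Real.sqrt (2 - 2 * z) ^ (-s))) (by fun_prop)
    simp only [hK]
    rw [h1, weight_lintegral d hs, ← ENNReal.ofReal_inv_of_pos hb,
      ← ENNReal.ofReal_mul (by positivity), ENNReal.toReal_ofReal (by positivity)]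
  unfold Ic
  simp only [hin]
  rw [integral_const]
  simp only [probReal_univ, one_smul, smul_eq_mul, one_mul]
  push_cast
  unfold ProbabilityTheory.beta
  have hΓ := Real.Gamma_mul_Gamma_add_half (((d:ℝ) + 2) / 2)
  have g1 : 0 < Real.Gamma (((d:ℝ) + 2) / 2) := Real.Gamma_pos_of_pos (by positivity)
  have g2 : 0 < Real.Gamma (((d:ℝ) + 2 + 1) / 2) := Real.Gamma_pos_of_pos (by positivity)
  have g3 : 0 < Real.Gamma ((d:ℝ) + 2) := Real.Gamma_pos_of_pos (by positivity)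
  have g4 : 0 < Real.Gamma ((d:ℝ) + 2 - s / 2) := Real.Gamma_pos_of_pos (by linarith)
  have e1 : ((d:ℝ) + 2) / 2 + 1 / 2 = ((d:ℝ) + 2 + 1) / 2 := by ring
  have e2 : 2 * (((d:ℝ) + 2) / 2) = (d:ℝ) + 2 := by ring
  have e3 : ((d:ℝ) + 2) / 2 + ((d:ℝ) + 2) / 2 = (d:ℝ) + 2 := by ring
  have e4 : ((d:ℝ) + 2 - s) / 2 + ((d:ℝ) + 2) / 2 = (d:ℝ) + 2 - s / 2 := by ring
  rw [e1, e2] at hΓ
  rw [e3, e4]
  have p1 : (2:ℝ) ^ (1 - ((d:ℝ) + 2)) * (2:ℝ) ^ ((d:ℝ) + 1) = 1 := by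
    rw [← Real.rpow_add (by norm_num)]
    have : 1 - ((d:ℝ) + 2) + ((d:ℝ) + 1) = 0 := by ring
    rw [this, Real.rpow_zero]
  have p2 : (2:ℝ) ^ ((d:ℝ) + 1 - s) = (2:ℝ) ^ ((d:ℝ) + 2 - s - 1) := by
    congr 1; ring
  rw [p2]
  have hpi : 0 < Real.sqrt π := Real.sqrt_pos.2 Real.pi_pos
  have q1 : 0 < (2:ℝ) ^ ((d:ℝ) + 1) := by positivity
  have q2 : 0 < (2:ℝ) ^ (1 - ((d:ℝ) + 2)) := by positivity
  rw [eq_div_iff (mul_pos hpi g4).ne']
  have h3 : Real.Gamma ((d:ℝ) + 2) * Real.sqrt π = Real.Gamma (((d:ℝ) + 2) / 2) *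
      Real.Gamma (((d:ℝ) + 2 + 1) / 2) * (2:ℝ) ^ ((d:ℝ) + 1) := by
    rw [hΓ]
    calc Real.Gamma ((d:ℝ) + 2) * Real.sqrt π
        = Real.Gamma ((d:ℝ) + 2) * Real.sqrt π *
          ((2:ℝ) ^ (1 - ((d:ℝ) + 2)) * (2:ℝ) ^ ((d:ℝ) + 1)) := by rw [p1, mul_one]
      _ = _ := by ring
  generalize Real.Gamma ((d:ℝ) + 2 - s / 2) = G4 at *
  generalize Real.Gamma ((d:ℝ) + 2) = G3 at *
  generalize Real.Gamma (((d:ℝ) + 2 + 1) / 2) = G2 at *
  generalize Real.Gamma (((d:ℝ) + 2) / 2) = G1 at *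
  generalize Real.Gamma (((d:ℝ) + 2 - s) / 2) = G0 at *
  generalize (2:ℝ) ^ ((d:ℝ) + 1) = Q1 at *
  generalize (2:ℝ) ^ ((d:ℝ) + 2 - s - 1) = Q2 at *
  generalize Real.sqrt π = R at *
  field_simp
  linear_combination (Q2 * G0) * h3
end Pool.Agent.TH331.RZ
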