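import Pool.Agent.TH719.ED.Defs
set_option autoImplicit false
namespace Pool.Agent.TH719.ED
open scoped Pointwise

namespace H429

theorem norm_list (l : List (ℝ × ℝ)) : ∀ lo : ℝ, (∀ a ∈ l, lo ≤ a.1 ∧ a.1 ≤ a.2 ∧ a.2 ≤ 1) →
    l.Pairwise (fun a b => a.2 ≤ b.1) →
    ∃ l' : List (ℝ × ℝ), l'.length ≤ l.length ∧ (∀ a ∈ l', lo ≤ a.1 ∧ a.1 < a.2 ∧ a.2 ≤ 1) ∧
      l'.Pairwise (fun a b => a.2 < b.1) ∧
      (∀ y : ℝ, (∃ a ∈ l', a.1 ≤ y ∧ y < a.2) ↔ ∃ a ∈ l, a.1 ≤ y ∧ y < a.2) ∧
      ∀ φ : ℝ → ℝ, (l'.map (fun a => φ a.2 - φ a.1)).sum = (l.map (fun a => φ a.2 - φ a.1)).sum := by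
  induction l with
  | nil =>
    intro lo _ _
    exact ⟨[], le_refl _, by simp, List.Pairwise.nil, by simp, by simp⟩
  | cons a l ih =>
    intro lo h1 h2
    obtain ⟨p, q⟩ := a
    have hpq := h1 (p, q) (by simp)
    simp only at hpq
    rw [List.pairwise_cons] at h2
    obtain ⟨l', hlen, hb, hpw, hset, hsum⟩ := ih q (fun a ha => by
      have h3 := h1 a (List.mem_cons_of_mem _ ha)
      exact ⟨h2.1 a ha, h3.2⟩) h2.2
    by_cases hpq2 : p = q
    · subst hpq2
      refine ⟨l', by simp only [List.length_cons]; omega, ?_, hpw, ?_, ?_⟩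
      · intro a ha
        have := hb a ha
        exact ⟨hpq.1.trans this.1, this.2⟩
      · intro y
        rw [hset y]
        constructor
        · rintro ⟨a, ha, h⟩; exact ⟨a, List.mem_cons_of_mem _ ha, h⟩
        · rintro ⟨a, ha, h⟩
          rw [List.mem_cons] at ha
          rcases ha with rfl | ha
          · simp only at h; linarith
          · exact ⟨a, ha, h⟩
      · intro φ
        rw [hsum φ, List.map_cons, List.sum_cons]
        simp
    · have hlt : p < q := lt_of_le_of_ne hpq.2.1 hpq2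
      cases l' with
      | nil =>
        refine ⟨[(p, q)], by simp, ?_, by simp, ?_, ?_⟩
        · intro a ha
          rw [List.mem_singleton] at ha
          subst ha
          exact ⟨hpq.1, hlt, hpq.2.2⟩
        · intro y
          have := hset y
          constructor
          · rintro ⟨a, ha, h⟩
            rw [List.mem_singleton] at ha
            subst ha
            exact ⟨_, List.mem_cons_self, h⟩
          · rintro ⟨a, ha, h⟩
            rw [List.mem_cons] at ha
            rcases ha with rfl | ha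
            · exact ⟨_, List.mem_singleton.2 rfl, h⟩
            · obtain ⟨b, hb', _⟩ := this.2 ⟨a, ha, h⟩
              simp at hb'
        · intro φ
          have := hsum φ
          simp only [List.map_nil, List.sum_nil] at this
          rw [List.map_cons, List.map_cons, List.sum_cons, List.sum_cons, ← this]
          simp
      | cons b l'' =>
        obtain ⟨p', q'⟩ := b
        have hb' := hb (p', q') (by simp)
        simp only at hb'
        rw [List.pairwise_cons] at hpw
        by_cases hqp : q = p'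
        · subst hqp
          refine ⟨(p, q') :: l'', ?_, ?_, ?_, ?_, ?_⟩
          · simp only [List.length_cons] at hlen ⊢; omega
          · intro a ha
            rw [List.mem_cons] at ha
            rcases ha with rfl | ha
            · exact ⟨hpq.1, hlt.trans hb'.2.1, hb'.2.2⟩
            · have := hb a (List.mem_cons_of_mem _ ha)
              exact ⟨hpq.1.trans (hlt.le.trans this.1), this.2⟩
          · rw [List.pairwise_cons]
            exact ⟨fun c hc => hpw.1 c hc, hpw.2⟩
          · intro y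
            have := hset y
            constructor
            · rintro ⟨a, ha, h⟩
              rw [List.mem_cons] at ha
              rcases ha with rfl | ha
              · simp only at h
                by_cases hy : y < q
                · exact ⟨(p, q), List.mem_cons_self, h.1, hy⟩
                · obtain ⟨c, hc, h4⟩ := this.1 ⟨(q, q'), List.mem_cons_self, not_lt.1 hy, h.2⟩
                  exact ⟨c, List.mem_cons_of_mem _ hc, h4⟩
              · obtain ⟨c, hc, h4⟩ := this.1 ⟨a, List.mem_cons_of_mem _ ha, h⟩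
                exact ⟨c, List.mem_cons_of_mem _ hc, h4⟩
            · rintro ⟨a, ha, h⟩
              rw [List.mem_cons] at ha
              rcases ha with rfl | ha
              · simp only at h
                exact ⟨(p, q'), List.mem_cons_self, h.1, h.2.trans hb'.2.1⟩
              · obtain ⟨c, hc, h4⟩ := this.2 ⟨a, ha, h⟩
                rw [List.mem_cons] at hc
                rcases hc with rfl | hc
                · simp only at h4
                  exact ⟨(p, q'), List.mem_cons_self, hlt.le.trans h4.1, h4.2⟩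
                · exact ⟨c, List.mem_cons_of_mem _ hc, h4⟩
          · intro φ
            have := hsum φ
            rw [List.map_cons, List.sum_cons] at this
            rw [List.map_cons, List.map_cons, List.sum_cons, List.sum_cons, ← this]
            ring
        · have hlt2 : q < p' := lt_of_le_of_ne hb'.1 hqp
          refine ⟨(p, q) :: (p', q') :: l'', ?_, ?_, ?_, ?_, ?_⟩
          · simp only [List.length_cons] at hlen ⊢; omega
          · intro a ha
            rw [List.mem_cons] at ha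
            rcases ha with rfl | ha
            · exact ⟨hpq.1, hlt, hpq.2.2⟩
            · have := hb a ha
              exact ⟨hpq.1.trans (hlt.le.trans this.1), this.2⟩
          · rw [List.pairwise_cons, List.pairwise_cons]
            refine ⟨?_, hpw⟩
            intro c hc
            rw [List.mem_cons] at hc
            rcases hc with rfl | hc
            · exact hlt2
            · have := hpw.1 c hc
              simp only at this ⊢
              linarith [hb'.2.1]
          · intro y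
            have := hset y
            constructor
            · rintro ⟨a, ha, h⟩
              rw [List.mem_cons] at ha
              rcases ha with rfl | ha
              · exact ⟨_, List.mem_cons_self, h⟩
              · obtain ⟨c, hc, h4⟩ := this.1 ⟨a, ha, h⟩
                exact ⟨c, List.mem_cons_of_mem _ hc, h4⟩
            · rintro ⟨a, ha, h⟩
              rw [List.mem_cons] at ha
              rcases ha with rfl | ha
              · exact ⟨_, List.mem_cons_self, h⟩
              · obtain ⟨c, hc, h4⟩ := this.2 ⟨a, ha, h⟩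
                exact ⟨c, List.mem_cons_of_mem _ hc, h4⟩
          · intro φ
            have := hsum φ
            rw [List.map_cons, List.sum_cons, this, List.map_cons, List.sum_cons]

/-- canonical representation -/
structure Can (f : ℝ → ℝ) (s : ℝ) (F : Set ℝ) (C : Finset (ℝ × ℝ)) : Prop where
  bd : ∀ a ∈ C, 0 ≤ a.1 ∧ a.1 < a.2 ∧ a.2 ≤ 1
  gap : ∀ a ∈ C, ∀ b ∈ C, a ≠ b → a.2 < b.1 ∨ b.2 < a.1
  mem : ∀ y, y ∈ F ↔ ∃ a ∈ C, a.1 ≤ y ∧ y < a.2
  len : ∑ a ∈ C, (a.2 - a.1) = 1 - s
  val : ∑ a ∈ C, (f a.2 - f a.1) = 0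

theorem exists_can (r : ℕ) (f : ℝ → ℝ) (s : ℝ) (x : Fin r → ℝ × ℝ)
    (h1 : ∀ j, 0 ≤ (x j).1 ∧ (x j).1 ≤ (x j).2 ∧ (x j).2 ≤ 1)
    (h2 : ∀ i j, i < j → (x i).2 ≤ (x j).1)
    (h3 : ∑ j, ((x j).2 - (x j).1) = 1 - s)
    (h4 : ∑ j, (f (x j).2 - f (x j).1) = 0) :
    ∃ C : Finset (ℝ × ℝ), C.card ≤ r ∧ Can f s (IcoU x) C := by
  classical
  obtain ⟨l, hlen, hb, hpw, hset, hsum⟩ := norm_list (List.ofFn x) 0 (by
    intro a ha
    rw [List.mem_ofFn] at ha
    obtain ⟨j, rfl⟩ := ha
    exact h1 j) (by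
    rw [List.pairwise_ofFn]
    intro i j hij
    exact h2 i j hij)
  have hnd : l.Nodup := by
    rw [List.Nodup]
    refine List.Pairwise.imp_of_mem ?_ hpw
    intro a b ha hb' hab heq
    have := hb b hb'
    rw [heq] at hab
    linarith [this.2.1]
  refine ⟨l.toFinset, ?_, ?_, ?_, ?_, ?_, ?_⟩
  · refine (List.toFinset_card_le l).trans (hlen.trans ?_)
    simp
  · intro a ha
    exact hb a (List.mem_toFinset.1 ha)
  · have key : ∀ l : List (ℝ × ℝ), l.Pairwise (fun a b => a.2 < b.1) → ∀ a ∈ l, ∀ b ∈ l,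
        a ≠ b → a.2 < b.1 ∨ b.2 < a.1 := by
      intro l hl
      induction l with
      | nil => intro a ha; simp at ha
      | cons c l ih =>
        rw [List.pairwise_cons] at hl
        intro a ha b hb hab
        rw [List.mem_cons] at ha hb
        rcases ha with rfl | ha
        · rcases hb with rfl | hb
          · exact absurd rfl hab
          · exact Or.inl (hl.1 b hb)
        · rcases hb with rfl | hb
          · exact Or.inr (hl.1 a ha)
          · exact ih hl.2 a ha b hb hab
    intro a ha b hb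
    exact key l hpw a (List.mem_toFinset.1 ha) b (List.mem_toFinset.1 hb)
  · intro y
    have := hset y
    constructor
    · intro hy
      unfold IcoU at hy
      rw [Set.mem_iUnion] at hy
      obtain ⟨j, hj⟩ := hy
      obtain ⟨a, ha, h⟩ := this.2 ⟨x j, (List.mem_ofFn).2 ⟨j, rfl⟩, hj.1, hj.2⟩
      exact ⟨a, List.mem_toFinset.2 ha, h⟩
    · rintro ⟨a, ha, h⟩
      obtain ⟨b, hb2, h5⟩ := this.1 ⟨a, List.mem_toFinset.1 ha, h⟩
      rw [List.mem_ofFn] at hb2
      obtain ⟨j, rfl⟩ := hb2
      unfold IcoU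
      rw [Set.mem_iUnion]
      exact ⟨j, h5⟩
  · rw [List.sum_toFinset _ hnd, ← h3]
    have := hsum (fun t => t)
    rw [List.map_ofFn, List.sum_ofFn] at this
    exact this
  · rw [List.sum_toFinset _ hnd, ← h4]
    have := hsum f
    rw [List.map_ofFn, List.sum_ofFn] at this
    exact this

open MeasureTheory in
theorem Can.vol {f : ℝ → ℝ} {s : ℝ} {F : Set ℝ} {C : Finset (ℝ × ℝ)} (h : Can f s F C) :
    volume F = ENNReal.ofReal (1 - s) := by
  have h1 : F = ⋃ a ∈ C, Set.Ico a.1 a.2 := by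
    ext y
    rw [h.mem y]
    simp only [Set.mem_iUnion, Set.mem_Ico, exists_prop]
  rw [h1, measure_biUnion_finset]
  · simp only [Real.volume_Ico]
    rw [← h.len, ENNReal.ofReal_sum_of_nonneg]
    intro a ha
    linarith [(h.bd a ha).2.1]
  · intro a ha b hb hab
    show Disjoint (Set.Ico a.1 a.2) (Set.Ico b.1 b.2)
    rw [Set.disjoint_left]
    intro y hy hy'
    rcases h.gap a ha b hb hab with h2 | h2
    · exact absurd (hy'.1.trans_lt hy.2) (not_lt.2 h2.le)
    · exact absurd (hy.1.trans_lt hy'.2) (not_lt.2 h2.le)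
  · intro a _
    exact measurableSet_Ico

theorem sub_one {f : ℝ → ℝ} {s t : ℝ} {F F' : Set ℝ} {C C' : Finset (ℝ × ℝ)} (h : Can f s F C)
    (h' : Can f t F' C') (hsub : F' ⊆ F) (a : ℝ × ℝ) (ha : a ∈ C') :
    ∃ i ∈ C, i.1 ≤ a.1 ∧ a.2 ≤ i.2 := by
  have hab := h'.bd a ha
  have h1 : a.1 ∈ F' := (h'.mem _).2 ⟨a, ha, le_refl _, hab.2.1⟩
  obtain ⟨i, hi, h2, h3⟩ := (h.mem _).1 (hsub h1)
  refine ⟨i, hi, h2, ?_⟩
  by_contra hcon
  push Not at hcon
  have h4 : i.2 ∈ F' := (h'.mem _).2 ⟨a, ha, h3.le, hcon⟩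
  obtain ⟨j, hj, h5, h6⟩ := (h.mem _).1 (hsub h4)
  have hij : i ≠ j := by
    rintro rfl
    exact lt_irrefl _ h6
  have hib := h.bd i hi
  rcases h.gap i hi j hj hij with h7 | h7
  · linarith
  · linarith [hib.2.1]

end H429

open H429 MeasureTheory in
theorem heads_of_family (r : ℕ) (f : ℝ → ℝ) (hf : ContinuousOn f (Set.Icc 0 1))
    (x : ℝ → Fin r → ℝ × ℝ)
    (h1 : ∀ s ∈ Set.Icc (0 : ℝ) 1, ∀ j, 0 ≤ (x s j).1 ∧ (x s j).1 ≤ (x s j).2 ∧ (x s j).2 ≤ 1)
    (h2 : ∀ s ∈ Set.Icc (0 : ℝ) 1, ∀ i j, i < j → (x s i).2 ≤ (x s j).1)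
    (h3 : ∀ s ∈ Set.Icc (0 : ℝ) 1, ∑ j, ((x s j).2 - (x s j).1) = 1 - s)
    (h4 : ∀ s ∈ Set.Icc (0 : ℝ) 1, ∑ j, (f (x s j).2 - f (x s j).1) = 0)
    (h5 : ∀ s ∈ Set.Icc (0 : ℝ) 1, ∀ t ∈ Set.Icc (0 : ℝ) 1, s ≤ t → IcoU (x t) ⊆ IcoU (x s)) :
    ∃ n ≤ 2 * r, ∃ (ε w : Fin n → ℝ) (z : Fin n → ℝ → ℝ) (a b : ℝ), a < b ∧
      (∀ i, ε i = 1 ∨ ε i = -1) ∧
      (∀ i, ∀ s ∈ Set.Icc a b, z i s ∈ Set.Icc (0 : ℝ) 1) ∧
      (∀ i, ∀ s ∈ Set.Icc a b, ∀ t ∈ Set.Icc a b, |z i s - z i t| ≤ |s - t|) ∧
      (∀ i j, i ≠ j → ∀ s ∈ Set.Icc a b, z i s ≠ z j s) ∧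
      (∀ s ∈ Set.Icc a b, ∑ i, w i * z i s = s - 1) ∧
      (∀ s ∈ Set.Icc a b, ∑ i, ε i * f (z i s) = 0) := by
  classical
  have hex : ∀ s : ℝ, ∃ C : Finset (ℝ × ℝ), s ∈ Set.Icc (0 : ℝ) 1 →
      C.card ≤ r ∧ Can f s (IcoU (x s)) C := by
    intro s
    by_cases hs : s ∈ Set.Icc (0 : ℝ) 1
    · obtain ⟨C, hC⟩ := exists_can r f s (x s) (h1 s hs) (h2 s hs) (h3 s hs) (h4 s hs)
      exact ⟨C, fun _ => hC⟩
    · exact ⟨∅, fun h => absurd h hs⟩
  choose C hC using hex
  -- the maximal number of intervals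
  obtain ⟨s0, hs0, hmax⟩ : ∃ s0 ∈ Set.Ico (0 : ℝ) 1, ∀ s ∈ Set.Ico (0 : ℝ) 1,
      (C s).card ≤ (C s0).card := by
    have hfin : ((fun s => (C s).card) '' Set.Ico (0 : ℝ) 1).Finite := by
      refine (Set.finite_Iic r).subset ?_
      rintro k ⟨s, hs, rfl⟩
      exact (hC s ⟨hs.1, hs.2.le⟩).1
    have hne : ((fun s => (C s).card) '' Set.Ico (0 : ℝ) 1).Nonempty :=
      ⟨_, 0, ⟨le_refl _, by norm_num⟩, rfl⟩
    obtain ⟨k, ⟨s0, hs0, rfl⟩, hk⟩ := Set.exists_max_image _ id hfin hne
    exact ⟨s0, hs0, fun s hs => hk _ ⟨s, hs, rfl⟩⟩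
  set C0 := C s0 with hC0
  have hs0' : s0 ∈ Set.Icc (0 : ℝ) 1 := ⟨hs0.1, hs0.2.le⟩
  have hcan0 : Can f s0 (IcoU (x s0)) C0 := (hC s0 hs0').2
  obtain ⟨η, hη0, hη1, hη2⟩ : ∃ η : ℝ, 0 < η ∧ η ≤ 1 - s0 ∧ ∀ a ∈ C0, η ≤ a.2 - a.1 := by
    have hgen : ∀ D : Finset (ℝ × ℝ), (∀ a ∈ D, a.1 < a.2) →
        ∃ η : ℝ, 0 < η ∧ η ≤ 1 - s0 ∧ ∀ a ∈ D, η ≤ a.2 - a.1 := by
      intro D
      induction D using Finset.induction_on with
      | empty => intro _; exact ⟨1 - s0, by linarith [hs0.2], le_refl _, by simp⟩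
      | insert a D _ ih =>
        intro hD
        obtain ⟨η, h6, h7, h8⟩ := ih (fun b hb => hD b (Finset.mem_insert_of_mem hb))
        have h9 := hD a (Finset.mem_insert_self _ _)
        refine ⟨min η (a.2 - a.1), lt_min h6 (by linarith), (min_le_left _ _).trans h7, ?_⟩
        intro b hb
        rw [Finset.mem_insert] at hb
        rcases hb with rfl | hb
        · exact min_le_right _ _
        · exact (min_le_left _ _).trans (h8 b hb)
    exact hgen C0 (fun a ha => (hcan0.bd a ha).2.1)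
  -- for every later time the intervals correspond
  have hcor : ∀ s ∈ Set.Ico s0 (s0 + η), ∃ A : ℝ × ℝ → ℝ × ℝ,
      Set.BijOn A C0 (C s) ∧ ∀ i ∈ C0, i.1 ≤ (A i).1 ∧ (A i).2 ≤ i.2 := by
    intro s hs
    have hsI : s ∈ Set.Ico (0 : ℝ) 1 := ⟨hs0.1.trans hs.1, by linarith [hs.2]⟩
    have hsI' : s ∈ Set.Icc (0 : ℝ) 1 := ⟨hsI.1, hsI.2.le⟩
    have hcan : Can f s (IcoU (x s)) (C s) := (hC s hsI').2
    have hsub := h5 s0 hs0' s hsI' hs.1
    have hone := sub_one hcan0 hcan hsub
    -- every old interval contains a new one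
    have hmeet : ∀ i ∈ C0, ∃ a ∈ C s, i.1 ≤ a.1 ∧ a.2 ≤ i.2 := by
      intro i hi
      by_contra hcon
      push Not at hcon
      have hdisj : Disjoint (Set.Ico i.1 i.2) (IcoU (x s)) := by
        rw [Set.disjoint_left]
        intro y hy hy'
        obtain ⟨a, ha, ha1, ha2⟩ := (hcan.mem y).1 hy'
        obtain ⟨j, hj, hj1, hj2⟩ := hone a ha
        by_cases hij : i = j
        · subst hij
          exact absurd hj2 (not_le.2 (hcon a ha hj1))
        · rcases hcan0.gap i hi j hj hij with h6 | h6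
          · linarith [hy.2]
          · linarith [hy.1]
      have hle : volume (Set.Ico i.1 i.2 ∪ IcoU (x s)) ≤ volume (IcoU (x s0)) := by
        apply measure_mono
        apply Set.union_subset _ hsub
        intro y hy
        exact (hcan0.mem y).2 ⟨i, hi, hy.1, hy.2⟩
      have hmeas : MeasurableSet (IcoU (x s)) := by
        unfold IcoU
        exact MeasurableSet.iUnion fun j => measurableSet_Ico
      rw [measure_union hdisj hmeas, hcan.vol, hcan0.vol, Real.volume_Ico,
        ← ENNReal.ofReal_add (by linarith [(hcan0.bd i hi).2.1]) (by linarith [hsI.2])] at hle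
      rw [ENNReal.ofReal_le_ofReal_iff (by linarith [hs0.2])] at hle
      have := hη2 i hi
      linarith [hs.2]
    have hA : ∀ i : ℝ × ℝ, ∃ a : ℝ × ℝ, i ∈ C0 → a ∈ C s ∧ i.1 ≤ a.1 ∧ a.2 ≤ i.2 := by
      intro i
      by_cases hi : i ∈ C0
      · obtain ⟨a, ha⟩ := hmeet i hi
        exact ⟨a, fun _ => ha⟩
      · exact ⟨i, fun h => absurd h hi⟩
    choose A hA using hA
    have hmaps : Set.MapsTo A C0 (C s) := fun i hi => (hA i hi).1
    have hinj : Set.InjOn A C0 := by
      intro i hi j hj hij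
      by_contra hne
      have hai := hA i hi
      have haj := hA j hj
      rw [← hij] at haj
      have hb := hcan.bd (A i) hai.1
      rcases hcan0.gap i hi j hj hne with h6 | h6
      · linarith [hb.2.1, hai.2.1, hai.2.2, haj.2.1, haj.2.2]
      · linarith [hb.2.1, hai.2.1, hai.2.2, haj.2.1, haj.2.2]
    refine ⟨A, ⟨hmaps, hinj, ?_⟩, fun i hi => (hA i hi).2⟩
    have himg : C0.image A = C s := by
      apply Finset.eq_of_subset_of_card_le
      · intro a ha
        rw [Finset.mem_image] at ha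
        obtain ⟨i, hi, rfl⟩ := ha
        exact hmaps hi
      · rw [Finset.card_image_of_injOn hinj]
        exact hmax s hsI
    intro a ha
    have ha' : a ∈ C0.image A := by rw [himg]; exact ha
    rw [Finset.mem_image] at ha'
    obtain ⟨i, hi, rfl⟩ := ha'
    exact ⟨i, hi, rfl⟩
  have hcor' : ∀ s : ℝ, ∃ A : ℝ × ℝ → ℝ × ℝ, s ∈ Set.Ico s0 (s0 + η) →
      Set.BijOn A C0 (C s) ∧ ∀ i ∈ C0, i.1 ≤ (A i).1 ∧ (A i).2 ≤ i.2 := by
    intro s
    by_cases hs : s ∈ Set.Ico s0 (s0 + η)
    · obtain ⟨A, hA⟩ := hcor s hs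
      exact ⟨A, fun _ => hA⟩
    · exact ⟨id, fun h => absurd h hs⟩
  choose A hA using hcor'
  have hI : ∀ s ∈ Set.Ico s0 (s0 + η), s ∈ Set.Icc (0 : ℝ) 1 := fun s hs =>
    ⟨hs0.1.trans hs.1, by linarith [hs.2]⟩
  -- monotonicity
  have hmono : ∀ s ∈ Set.Ico s0 (s0 + η), ∀ t ∈ Set.Ico s0 (s0 + η), s ≤ t → ∀ i ∈ C0,
      (A s i).1 ≤ (A t i).1 ∧ (A t i).2 ≤ (A s i).2 := by
    intro s hs t ht hst i hi
    have hcs := (hC s (hI s hs)).2
    have hct := (hC t (hI t ht)).2
    have hAt := (hA t ht).1.mapsTo hi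
    obtain ⟨a, ha, ha1, ha2⟩ := sub_one hcs hct (h5 s (hI s hs) t (hI t ht) hst) (A t i) hAt
    obtain ⟨j, hj, rfl⟩ := (hA s hs).1.surjOn ha
    have hbt := hct.bd (A t i) hAt
    have hi2 := (hA t ht).2 i hi
    have hj2 := (hA s hs).2 j hj
    by_cases hij : i = j
    · subst hij
      exact ⟨ha1, ha2⟩
    · exfalso
      rcases hcan0.gap i hi j hj hij with h6 | h6
      · linarith [hbt.2.1]
      · linarith [hbt.2.1]
  have hsumg : ∀ s ∈ Set.Ico s0 (s0 + η), ∀ φ : ℝ → ℝ,
      ∑ i ∈ C0, (φ (A s i).2 - φ (A s i).1) = ∑ a ∈ C s, (φ a.2 - φ a.1) := by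
    intro s hs φ
    have hb := (hA s hs).1
    have himg : C0.image (A s) = C s := by
      ext a
      rw [Finset.mem_image]
      constructor
      · rintro ⟨i, hi, rfl⟩; exact hb.mapsTo hi
      · intro ha
        obtain ⟨i, hi, h⟩ := hb.surjOn ha
        exact ⟨i, hi, h⟩
    rw [← himg, Finset.sum_image hb.injOn]
  have hlip : ∀ s ∈ Set.Ico s0 (s0 + η), ∀ t ∈ Set.Ico s0 (s0 + η), s ≤ t → ∀ i ∈ C0,
      |(A s i).1 - (A t i).1| ≤ t - s ∧ |(A s i).2 - (A t i).2| ≤ t - s := by
    intro s hs t ht hst i hi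
    have e1 := hsumg s hs (fun y => y)
    have e2 := hsumg t ht (fun y => y)
    have e3 := (hC s (hI s hs)).2.len
    have e4 := (hC t (hI t ht)).2.len
    have e5 : ∑ j ∈ C0, (((A t j).1 - (A s j).1) + ((A s j).2 - (A t j).2)) = t - s := by
      have : ∑ j ∈ C0, (((A t j).1 - (A s j).1) + ((A s j).2 - (A t j).2)) =
          ∑ j ∈ C0, ((A s j).2 - (A s j).1) - ∑ j ∈ C0, ((A t j).2 - (A t j).1) := by
        rw [← Finset.sum_sub_distrib]
        apply Finset.sum_congr rfl
        intro j _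
        ring
      rw [this]
      rw [e1, e2, e3, e4]
      ring
    have e6 : ((A t i).1 - (A s i).1) + ((A s i).2 - (A t i).2) ≤ t - s := by
      rw [← e5]
      apply Finset.single_le_sum (f := fun j => ((A t j).1 - (A s j).1) + ((A s j).2 - (A t j).2))
        _ hi
      intro j hj
      have := hmono s hs t ht hst j hj
      linarith [this.1, this.2]
    have := hmono s hs t ht hst i hi
    constructor
    · rw [abs_le]; constructor <;> linarith [this.1, this.2]
    · rw [abs_le]; constructor <;> linarith [this.1, this.2]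
  -- the index set
  let e : Fin (Fintype.card (C0 × Bool)) ≃ C0 × Bool := (Fintype.equivFin _).symm
  have hIcc : ∀ s ∈ Set.Icc s0 (s0 + η / 2), s ∈ Set.Ico s0 (s0 + η) := fun s hs =>
    ⟨hs.1, by linarith [hs.2]⟩
  refine ⟨Fintype.card (C0 × Bool), ?_, fun k => if (e k).2 then 1 else -1,
    fun k => if (e k).2 then -1 else 1,
    fun k s => if (e k).2 then (A s (e k).1).2 else (A s (e k).1).1, s0, s0 + η / 2,
    by linarith, ?_, ?_, ?_, ?_, ?_, ?_⟩
  · rw [Fintype.card_prod, Fintype.card_bool, Fintype.card_coe, mul_comm]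
    exact Nat.mul_le_mul_left 2 (hC s0 hs0').1
  · intro k
    by_cases h : (e k).2
    · left; simp [h]
    · right; simp [h]
  · intro k s hs
    have hs' := hIcc s hs
    have hb := (hC s (hI s hs')).2.bd _ ((hA s hs').1.mapsTo (e k).1.2)
    by_cases h : (e k).2
    · simp only [h, if_true]
      exact ⟨by linarith [hb.1, hb.2.1], hb.2.2⟩
    · simp only [h]
      exact ⟨hb.1, by simp only [Bool.false_eq_true, if_false]; linarith [hb.2.1, hb.2.2]⟩
  · intro k s hs t ht
    have hs' := hIcc s hs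
    have ht' := hIcc t ht
    have hgoal : ∀ s ∈ Set.Ico s0 (s0 + η), ∀ t ∈ Set.Ico s0 (s0 + η), s ≤ t →
        |(if (e k).2 then (A s (e k).1).2 else (A s (e k).1).1) -
          (if (e k).2 then (A t (e k).1).2 else (A t (e k).1).1)| ≤ |s - t| := by
      intro s hs t ht hst
      have := hlip s hs t ht hst _ (e k).1.2
      have habs : |s - t| = t - s := by rw [abs_sub_comm, abs_of_nonneg (by linarith)]
      rw [habs]
      by_cases h : (e k).2
      · simp only [h, if_true]; exact this.2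
      · simp only [h, Bool.false_eq_true, if_false]; exact this.1
    rcases le_total s t with hst | hst
    · exact hgoal s hs' t ht' hst
    · rw [abs_sub_comm, abs_sub_comm s t]
      exact hgoal t ht' s hs' hst
  · intro k l hkl s hs
    have hs' := hIcc s hs
    have hcs := (hC s (hI s hs')).2
    have hbk := hcs.bd _ ((hA s hs').1.mapsTo (e k).1.2)
    have hbl := hcs.bd _ ((hA s hs').1.mapsTo (e l).1.2)
    by_cases h1 : (e k).1 = (e l).1
    · have h2 : (e k).2 ≠ (e l).2 := by
        intro h2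
        exact hkl (e.injective (Prod.ext h1 h2))
      simp only
      rw [h1] at hbk ⊢
      cases hk : (e k).2 <;> cases hl : (e l).2
      · rw [hk, hl] at h2; exact absurd rfl h2
      · simp only [Bool.false_eq_true, if_false, if_true]; exact hbl.2.1.ne
      · simp only [Bool.false_eq_true, if_false, if_true]; exact hbl.2.1.ne'
      · rw [hk, hl] at h2; exact absurd rfl h2
    · have h2 : A s (e k).1 ≠ A s (e l).1 := by
        intro h2
        exact h1 (Subtype.ext ((hA s hs').1.injOn (e k).1.2 (e l).1.2 h2))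
      have hg := hcs.gap _ ((hA s hs').1.mapsTo (e k).1.2) _ ((hA s hs').1.mapsTo (e l).1.2) h2
      simp only
      intro heq
      cases hk : (e k).2 <;> cases hl : (e l).2 <;>
        simp only [hk, hl, Bool.false_eq_true, if_false, if_true] at heq <;>
        rcases hg with hg | hg <;> linarith [hbk.2.1, hbl.2.1]
  · intro s hs
    have hs' := hIcc s hs
    rw [← Equiv.sum_comp e.symm]
    simp only [Equiv.apply_symm_apply]
    rw [Fintype.sum_prod_type]
    have h6 : ∀ i : C0, ∑ b : Bool, (if b then (-1 : ℝ) else 1) *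
        (if b then (A s i).2 else (A s i).1) = -((A s i).2 - (A s i).1) := by
      intro i
      rw [Fintype.sum_bool]
      simp only [Bool.false_eq_true, if_false, if_true]
      ring
    rw [Finset.sum_congr rfl (fun i _ => h6 i), Finset.sum_neg_distrib,
      Finset.sum_coe_sort C0 (fun i => (A s i).2 - (A s i).1)]
    have := hsumg s hs' (fun y => y)
    rw [this, (hC s (hI s hs')).2.len]
    ring
  · intro s hs
    have hs' := hIcc s hs
    rw [← Equiv.sum_comp e.symm]
    simp only [Equiv.apply_symm_apply]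
    rw [Fintype.sum_prod_type]
    have h6 : ∀ i : C0, ∑ b : Bool, (if b then (1 : ℝ) else -1) *
        f (if b then (A s i).2 else (A s i).1) = f (A s i).2 - f (A s i).1 := by
      intro i
      rw [Fintype.sum_bool]
      simp only [Bool.false_eq_true, if_false, if_true]
      ring
    rw [Finset.sum_congr rfl (fun i _ => h6 i),
      Finset.sum_coe_sort C0 (fun i => f (A s i).2 - f (A s i).1)]
    rw [hsumg s hs' f, (hC s (hI s hs')).2.val]

end Pool.Agent.TH719.ED
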