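import Mathlib
import Pool.Agent.H704R3.BMain
import Pool.Agent.H704R3.BMoment
import Pool.Agent.H704R3.BNewton
import Pool.Agent.H704R3.BSplit
import Pool.Agent.H704R3.BWindow
import Pool.Agent.H704R3.BExch
import Pool.Agent.H704R3.BSection
import Pool.Agent.H704R3.BOne
import Pool.Agent.H704R3.BLO
import Pool.Agent.H704R3.BLLN
import Pool.Agent.H704R3.BFinal
set_option autoImplicit false
namespace Pool.Agent.TH429.J705
open Finset Filter Topology MeasureTheory ProbabilityTheory Pool.Agent.H704R3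

theorem fixed_k (Ω : Type) [MeasurableSpace Ω] (P : Measure Ω) [IsProbabilityMeasure P]
    (Y : ℕ → Ω → ℂ) (hm : ∀ i, Measurable (Y i)) (hind : iIndepFun Y P)
    (hid : ∀ i, IdentDistrib (Y i) (Y 0) P P)
    (hnd : ¬ ∃ c : ℂ, ∀ᵐ ω ∂P, Y 0 ω = c) (k : ℕ) (ε : ℝ) (hε : 0 < ε) :
    Tendsto (fun n : ℕ => P {ω | ‖es (range n) k (fun i => Y i ω)‖ ≤ Real.exp (-(ε * (n:ℝ)))})
      atTop (𝓝 0) := by
  have hTLO : B.TLO := B.tlostep B.tsplit B.texch B.tsection B.tpigeon B.tone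
  rw [ENNReal.tendsto_atTop_zero]
  intro η hη
  obtain ⟨N0, hN0⟩ := hTLO Ω P Y hm hind hid hnd k η hη
  obtain ⟨δ, hδ, hLO⟩ := hN0 N0 le_rfl
  have hlim : Tendsto (fun n : ℕ => Real.exp (-(ε * (n:ℝ)))) atTop (𝓝 0) := by
    refine Real.tendsto_exp_neg_atTop_nhds_zero.comp ?_
    exact Tendsto.const_mul_atTop hε tendsto_natCast_atTop_atTop
  have hexp : ∀ᶠ n : ℕ in atTop, Real.exp (-(ε * (n:ℝ))) ≤ δ := by
    filter_upwards [hlim.eventually (gt_mem_nhds hδ)] with n hn using hn.le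
  obtain ⟨n1, hn1⟩ := eventually_atTop.mp hexp
  refine ⟨max N0 n1, fun n hn => ?_⟩
  obtain ⟨m, rfl⟩ := Nat.exists_eq_add_of_le (le_trans (le_max_left _ _) hn)
  have hn1' := hn1 (N0 + m) (le_trans (le_max_right _ _) hn)
  set S : Set ((ℕ → ℂ) × (ℕ → ℂ)) :=
    {q | 1 ≤ ‖q.1 k‖ ∧ ‖∑ j ∈ range (k+1), q.1 j * q.2 j‖ ≤ δ} with hS
  have m1 : ∀ j : ℕ, Measurable (fun q : (ℕ → ℂ) × (ℕ → ℂ) => q.1 j) :=
    fun j => (measurable_pi_apply j).comp measurable_fst
  have m2 : ∀ j : ℕ, Measurable (fun q : (ℕ → ℂ) × (ℕ → ℂ) => q.2 j) :=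
    fun j => (measurable_pi_apply j).comp measurable_snd
  have hSm : MeasurableSet S := by
    have a2 : MeasurableSet {q : (ℕ → ℂ) × (ℕ → ℂ) | 1 ≤ ‖q.1 k‖} :=
      measurableSet_le measurable_const (m1 k).norm
    have a3 : MeasurableSet {q : (ℕ → ℂ) × (ℕ → ℂ) | ‖∑ j ∈ range (k+1), q.1 j * q.2 j‖ ≤ δ} :=
      measurableSet_le (Finset.measurable_sum _ (fun j _ => (m1 j).mul (m2 j))).norm
        measurable_const
    exact a2.inter a3
  have hdisj : Disjoint (Finset.Ico N0 (N0+m)) (range N0) := by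
    rw [Finset.disjoint_left]
    intro i hi hi'
    rw [Finset.mem_Ico] at hi
    rw [Finset.mem_range] at hi'
    omega
  have key : P {ω | (B.ff N0 m k (fun i => Y i ω), B.gg N0 (fun i => Y i ω)) ∈ S} ≤ η := by
    refine B.tsection Ω P Y hm hind (Finset.Ico N0 (N0+m)) (range N0) hdisj (B.ff N0 m k) (B.gg N0)
      (B.ff_meas N0 m k) (B.gg_meas N0) ?_ ?_ S hSm η ?_
    · intro v w h
      funext j
      unfold B.ff
      split_ifs
      · apply B.es_congrR
        intro i hi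
        exact h (N0+i) (Finset.mem_Ico.mpr (by omega))
      · rfl
    · intro v w h
      funext j
      unfold B.gg
      apply B.es_congrR
      intro i hi
      exact h i (mem_range.mpr hi)
    · intro x
      by_cases hx : 1 ≤ ‖x k‖
      · refine le_trans (measure_mono ?_) (hLO x hx)
        intro ω hω
        exact hω.2
      · have : {ω | (x, B.gg N0 (fun i => Y i ω)) ∈ S} = ∅ := by
          rw [Set.eq_empty_iff_forall_notMem]
          intro ω hω
          exact hx hω.1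
        rw [this]
        simp
  refine le_trans (measure_mono ?_) key
  intro ω hω
  refine ⟨?_, ?_⟩
  · show 1 ≤ ‖B.ff N0 m k (fun i => Y i ω) k‖
    unfold B.ff
    simp [es]
  · show ‖∑ j ∈ range (k+1), B.ff N0 m k (fun i => Y i ω) j * B.gg N0 (fun i => Y i ω) j‖ ≤ δ
    have e1 : ∑ j ∈ range (k+1), B.ff N0 m k (fun i => Y i ω) j * B.gg N0 (fun i => Y i ω) j
        = es (range (N0+m)) k (fun i => Y i ω) := by
      rw [B.tsplit N0 m k (fun i => Y i ω)]
      apply sum_congr rfl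
      intro j hj
      rw [mem_range] at hj
      unfold B.ff B.gg
      rw [if_pos (by omega), mul_comm]
    rw [e1]
    exact le_trans hω hn1'

end Pool.Agent.TH429.J705
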