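import Mathlib
import Pool.Agent.TH182.J447
set_option autoImplicit false
namespace Pool.Agent.TH429.J710
open MeasureTheory Filter Topology
open scoped ENNReal

open Classical in
theorem count_tendsto (μ : Measure ℂ) [IsProbabilityMeasure μ] (D : Set ℂ) (hD : MeasurableSet D)
    (hpos : 0 < μ D) (X : ℕ → ℕ) (hX : Tendsto (fun n : ℕ => (X n : ℝ) / (n:ℝ)) atTop (𝓝 0)) :
    Tendsto (fun n : ℕ => Measure.pi (fun _ : Fin n => μ)
      {y : Fin n → ℂ | (Finset.univ.filter (fun i => y i ∈ D)).card < X n}) atTop (𝓝 0) := by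
  set p : ℝ := (μ D).toReal with hp
  have hp0 : 0 < p := ENNReal.toReal_pos hpos.ne' (measure_ne_top μ D)
  have hsum : ∀ n : ℕ, ∑ _i : Fin n, (μ D).toReal = n * p := by
    intro n; simp [hp]
  have hev : ∀ᶠ n : ℕ in atTop, (X n : ℝ) / (n:ℝ) < p / 2 :=
    (hX.eventually (gt_mem_nhds (by positivity : (0:ℝ) < p / 2)))
  have hlim : Tendsto (fun n : ℕ => ENNReal.ofReal (4 / ((n:ℝ) * p))) atTop (𝓝 0) := by
    have h1 : Tendsto (fun n : ℕ => 4 / ((n:ℝ) * p)) atTop (𝓝 0) := by
      apply Tendsto.div_atTop tendsto_const_nhds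
      exact Tendsto.atTop_mul_const hp0 tendsto_natCast_atTop_atTop
    have h2 := (ENNReal.continuous_ofReal.tendsto 0).comp h1
    simpa [Function.comp_def] using h2
  refine tendsto_of_tendsto_of_tendsto_of_le_of_le' tendsto_const_nhds hlim
    (Eventually.of_forall fun n => zero_le) ?_
  filter_upwards [hev, eventually_gt_atTop 0] with n hn hn0
  have hn0' : (0:ℝ) < n := by exact_mod_cast hn0
  have hc := Pool.Agent.TH182.J447.count_lower (fun _ : Fin n => μ) D hD (by rw [hsum]; positivity)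
  rw [hsum] at hc
  refine (measure_mono ?_).trans hc
  intro y hy
  simp only [Set.mem_ofPred_eq] at hy ⊢
  have h3 : (X n : ℝ) < n * p / 2 := by
    rw [div_lt_iff₀ hn0'] at hn; linarith
  have h4 : ((Finset.univ.filter (fun i => y i ∈ D)).card : ℝ) < X n := by exact_mod_cast hy
  exact h4.trans h3

end Pool.Agent.TH429.J710
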