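import Mathlib
set_option autoImplicit false
namespace Pool.Agent.TH429.J708

theorem hnum_of (n k g gm : ℕ) (hg : g ≤ gm) (a A0 q : ℝ) (ha0 : 0 < a) (ha1 : a ≤ 1)
    (hA0 : q⁻¹ ≤ A0)
    (hq : 64 * ((n:ℝ)+1)^2 * ((k:ℝ)+gm+1) * (256/a)^(k+gm+2) ≤ q) :
    (g:ℝ) * 4 ^ g * (5 * (n:ℝ) * (q⁻¹)^20 + (n:ℝ) * (q⁻¹)^68 / (q⁻¹)^40) / (q⁻¹)^2
      + 2 ^ g * ((n:ℝ) * ((q⁻¹)^68 + 2 * (q⁻¹)^40 * (q⁻¹)^20))
        * (32 * ((k:ℝ) + g + 1) * ((n:ℝ) + 1) / a)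
      < A0 * (1/4) ^ (k + g) * (a/64) ^ (k + g) := by
  have hn : (0:ℝ) ≤ n := Nat.cast_nonneg n
  have hk : (0:ℝ) ≤ k := Nat.cast_nonneg k
  have hgm0 : (0:ℝ) ≤ gm := Nat.cast_nonneg gm
  have hg0 : (0:ℝ) ≤ g := Nat.cast_nonneg g
  have hgle : (g:ℝ) ≤ gm := by exact_mod_cast hg
  set R : ℝ := 256 / a with hR
  have hR256 : 256 ≤ R := by
    rw [hR, le_div_iff₀ ha0]; nlinarith
  have hR1 : 1 ≤ R := by linarith
  have hRinv : 1 / a ≤ R := by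
    rw [hR]; gcongr; norm_num
  have hbase : (1:ℝ) ≤ ((n:ℝ)+1)^2 * ((k:ℝ)+gm+1) := by
    have h1 : (1:ℝ) ≤ ((n:ℝ)+1)^2 := by nlinarith
    have h2 : (1:ℝ) ≤ (k:ℝ)+gm+1 := by linarith
    nlinarith
  have hRp : (1:ℝ) ≤ R^(k+gm+2) := one_le_pow₀ hR1
  have hq64 : 64 * R^(k+gm+2) ≤ q := by
    refine le_trans ?_ hq
    have : 0 < R^(k+gm+2) := by positivity
    nlinarith
  have hq1 : 64 ≤ q := by nlinarith
  have hq0 : 0 < q := by linarith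
  set p : ℝ := q⁻¹ with hp
  have hp0 : 0 < p := by positivity
  have hpq : p * q = 1 := inv_mul_cancel₀ hq0.ne'
  have hp64 : p ≤ 1/64 := by
    rw [hp, inv_le_comm₀ hq0 (by norm_num)]; norm_num; linarith
  have hp1 : p ≤ 1 := by linarith
  -- first term
  have hg2 : (g:ℝ) ≤ 2 ^ g := by
    have := Nat.lt_two_pow_self (n := g)
    exact_mod_cast this.le
  have h8 : (g:ℝ) * 4 ^ g ≤ R ^ gm := by
    calc (g:ℝ) * 4 ^ g ≤ 2 ^ g * 4 ^ g := by gcongr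
      _ = 8 ^ g := by rw [← mul_pow]; norm_num
      _ ≤ R ^ g := by gcongr; linarith
      _ ≤ R ^ gm := pow_le_pow_right₀ hR1 hg
  have hRgm : R ^ gm ≤ R ^ (k+gm+2) := pow_le_pow_right₀ hR1 (by omega)
  have hA : (g:ℝ) * 4 ^ g * (6 * n) ≤ q := by
    refine le_trans ?_ hq
    have e1 : (g:ℝ) * 4 ^ g * (6 * n) ≤ R ^ (k+gm+2) * (6 * n) := by
      gcongr; exact h8.trans hRgm
    have e2 : (6:ℝ) * n ≤ 64 * ((n:ℝ)+1)^2 * ((k:ℝ)+gm+1) := by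
      have h1 : (6:ℝ) * n ≤ 64 * ((n:ℝ)+1)^2 := by nlinarith
      have h2 : (1:ℝ) ≤ (k:ℝ)+gm+1 := by linarith
      have h3 : (0:ℝ) ≤ 64 * ((n:ℝ)+1)^2 := by positivity
      nlinarith
    calc _ ≤ R ^ (k+gm+2) * (6 * n) := e1
      _ ≤ R ^ (k+gm+2) * (64 * ((n:ℝ)+1)^2 * ((k:ℝ)+gm+1)) := by gcongr
      _ = _ := by ring
  have hB : 2 ^ g * (3 * (n:ℝ)) * (32 * ((k:ℝ) + g + 1) * ((n:ℝ) + 1) / a) ≤ q := by
    refine le_trans ?_ hq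
    have e1 : (2:ℝ) ^ g ≤ R ^ gm := by
      calc (2:ℝ) ^ g ≤ R ^ g := by gcongr; linarith
        _ ≤ R ^ gm := pow_le_pow_right₀ hR1 hg
    have e0 : (1:ℝ) ≤ R ^ k := one_le_pow₀ hR1
    have e2 : R ^ gm * (2 * (1 / a)) ≤ R ^ (k + gm + 2) := by
      have : R ^ (k + gm + 2) = R ^ gm * (R ^ k * R * R) := by ring
      rw [this]
      have hia : (0:ℝ) < 1 / a := by positivity
      gcongr
      nlinarith [mul_le_mul e0 hR1 (by norm_num) (by positivity)]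
    have e3 : (3:ℝ) * n * (32 * ((k:ℝ) + g + 1) * ((n:ℝ) + 1)) ≤
        2 * (64 * ((n:ℝ)+1)^2 * ((k:ℝ)+gm+1)) := by
      have h1 : (3:ℝ) * n * (32 * ((n:ℝ)+1)) ≤ 2 * (64 * ((n:ℝ)+1)^2) := by nlinarith
      have h2 : (k:ℝ) + g + 1 ≤ (k:ℝ) + gm + 1 := by linarith
      have h3 : (0:ℝ) ≤ (k:ℝ) + g + 1 := by linarith
      calc (3:ℝ) * n * (32 * ((k:ℝ) + g + 1) * ((n:ℝ) + 1))
          = ((3:ℝ) * n * (32 * ((n:ℝ)+1))) * ((k:ℝ) + g + 1) := by ring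
        _ ≤ (2 * (64 * ((n:ℝ)+1)^2)) * ((k:ℝ) + gm + 1) := by gcongr
        _ = _ := by ring
    have e4 : (0:ℝ) ≤ 1 / a := by positivity
    calc 2 ^ g * (3 * (n:ℝ)) * (32 * ((k:ℝ) + g + 1) * ((n:ℝ) + 1) / a)
        = 2 ^ g * (1 / a) * ((3:ℝ) * n * (32 * ((k:ℝ) + g + 1) * ((n:ℝ) + 1))) := by
          field_simp
      _ ≤ R ^ gm * (1 / a) * (2 * (64 * ((n:ℝ)+1)^2 * ((k:ℝ)+gm+1))) := by
          gcongr
      _ = (64 * ((n:ℝ)+1)^2 * ((k:ℝ)+gm+1)) * (R ^ gm * (2 * (1 / a))) := by ring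
      _ ≤ (64 * ((n:ℝ)+1)^2 * ((k:ℝ)+gm+1)) * R ^ (k + gm + 2) := by gcongr
  have T1 : (g:ℝ) * 4 ^ g * (5 * (n:ℝ) * p^20 + (n:ℝ) * p^68 / p^40) / p^2 ≤ p ^ 17 := by
    have e1 : (g:ℝ) * 4 ^ g * (5 * (n:ℝ) * p^20 + (n:ℝ) * p^68 / p^40) / p^2
        = (g:ℝ) * 4 ^ g * (5 * (n:ℝ) * p^18 + (n:ℝ) * p^26) := by
      field_simp
    rw [e1]
    have e2 : p ^ 26 ≤ p ^ 18 := pow_le_pow_of_le_one hp0.le hp1 (by norm_num)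
    calc (g:ℝ) * 4 ^ g * (5 * (n:ℝ) * p^18 + (n:ℝ) * p^26)
        ≤ (g:ℝ) * 4 ^ g * (5 * (n:ℝ) * p^18 + (n:ℝ) * p^18) := by gcongr
      _ = ((g:ℝ) * 4 ^ g * (6 * n)) * p ^ 18 := by ring
      _ ≤ q * p ^ 18 := by gcongr
      _ = (p * q) * p ^ 17 := by ring
      _ = p ^ 17 := by rw [hpq, one_mul]
  have T2 : 2 ^ g * ((n:ℝ) * (p^68 + 2 * p^40 * p^20))
        * (32 * ((k:ℝ) + g + 1) * ((n:ℝ) + 1) / a) ≤ p ^ 59 := by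
    have e2 : p ^ 68 ≤ p ^ 60 := pow_le_pow_of_le_one hp0.le hp1 (by norm_num)
    have e3 : (n:ℝ) * (p^68 + 2 * p^40 * p^20) ≤ 3 * n * p ^ 60 := by
      have : 2 * p^40 * p^20 = 2 * p ^ 60 := by ring
      rw [this]
      nlinarith
    have e4 : 0 ≤ 32 * ((k:ℝ) + g + 1) * ((n:ℝ) + 1) / a := by positivity
    calc 2 ^ g * ((n:ℝ) * (p^68 + 2 * p^40 * p^20)) * (32 * ((k:ℝ) + g + 1) * ((n:ℝ) + 1) / a)
        ≤ 2 ^ g * (3 * n * p ^ 60) * (32 * ((k:ℝ) + g + 1) * ((n:ℝ) + 1) / a) := by gcongr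
      _ = (2 ^ g * (3 * (n:ℝ)) * (32 * ((k:ℝ) + g + 1) * ((n:ℝ) + 1) / a)) * p ^ 60 := by ring
      _ ≤ q * p ^ 60 := by gcongr
      _ = (p * q) * p ^ 59 := by ring
      _ = p ^ 59 := by rw [hpq, one_mul]
  have T3 : p ^ 2 ≤ A0 * (1/4) ^ (k + g) * (a/64) ^ (k + g) := by
    have e1 : (1/4:ℝ) ^ (k + g) * (a/64) ^ (k + g) = (R ^ (k + g))⁻¹ := by
      rw [← mul_pow, ← inv_pow]
      congr 1
      rw [hR]; field_simp; norm_num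
    have e2 : R ^ (k + g) ≤ q := by
      calc R ^ (k + g) ≤ R ^ (k + gm + 2) := pow_le_pow_right₀ hR1 (by omega)
        _ ≤ q := by nlinarith
    have e3 : p ≤ (R ^ (k + g))⁻¹ := by
      rw [hp]
      exact inv_anti₀ (by positivity) e2
    have hA00 : 0 ≤ A0 := hp0.le.trans hA0
    calc p ^ 2 = p * p := by ring
      _ ≤ A0 * (R ^ (k + g))⁻¹ := by gcongr
      _ = _ := by rw [mul_assoc, e1]
  have T4 : p ^ 17 + p ^ 59 < p ^ 2 := by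
    have e1 : p ^ 17 ≤ p ^ 3 := pow_le_pow_of_le_one hp0.le hp1 (by norm_num)
    have e2 : p ^ 59 ≤ p ^ 3 := pow_le_pow_of_le_one hp0.le hp1 (by norm_num)
    have e3 : p ^ 3 ≤ p ^ 2 * (1/64) := by
      have : p ^ 3 = p ^ 2 * p := by ring
      rw [this]; gcongr
    have e4 : 0 < p ^ 2 := by positivity
    linarith
  linarith

end Pool.Agent.TH429.J708
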