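import Pool.Agent.TH331.RZ.Defs

/-! Job 232 (RZ-L1, RZ-F for MP_d18e52_an): the Fourier formula for `|w|^a`, and the feature map. -/

set_option autoImplicit false

open MeasureTheory Set Filter Topology
open scoped ENNReal Real FourierTransform

namespace Pool.Agent.TH331.RZ

open Pool.Agent.Helper88.SE

namespace J232

/-- a radial majorant -/
noncomputable def hh (d : ℕ) (a C : ℝ) (r : ℝ) : ℝ :=
  if r < 1 then C * r ^ (2 - ((d:ℝ) + 1) - a) else 2 * r ^ (-((d:ℝ) + 1) - a)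

theorem radial_integrable (d : ℕ) (a : ℝ) (ha : 0 < a) (ha2 : a < 2) (C : ℝ) :
    Integrable (fun ξ : E d => hh d a C ‖ξ‖) := by
  rw [integrable_fun_norm_addHaar volume (f := hh d a C)]
  have hfr : Module.finrank ℝ (E d) - 1 = d := by simp
  rw [hfr]
  have h1 : IntegrableOn (fun y : ℝ => C * y ^ (1 - a)) (Ioo 0 1) := by
    have h := (intervalIntegral.intervalIntegrable_rpow' (a := 0) (b := 1)
      (show (-1:ℝ) < 1 - a by linarith)).const_mul C
    rw [intervalIntegrable_iff_integrableOn_Ioo_of_le zero_le_one] at h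
    exact h
  have h2 : IntegrableOn (fun y : ℝ => 2 * y ^ (-1 - a)) (Ici 1) := by
    rw [integrableOn_Ici_iff_integrableOn_Ioi]
    exact (integrableOn_Ioi_rpow_of_lt (by linarith) zero_lt_one).const_mul 2
  have h3 : Ioi (0:ℝ) = Ioo 0 1 ∪ Ici 1 := (Ioo_union_Ici_eq_Ioi zero_lt_one).symm
  rw [h3, integrableOn_union]
  constructor
  · refine h1.congr_fun (fun y hy => ?_) measurableSet_Ioo
    simp only [hh, if_pos hy.2, smul_eq_mul]
    rw [← Real.rpow_natCast, mul_left_comm, ← Real.rpow_add hy.1]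
    congr 2
    ring
  · refine h2.congr_fun (fun y hy => ?_) measurableSet_Ici
    have hy' : (1:ℝ) ≤ y := hy
    simp only [hh, if_neg (not_lt.2 hy'), smul_eq_mul]
    rw [← Real.rpow_natCast, mul_left_comm, ← Real.rpow_add (by linarith)]
    congr 2
    ring

/-- the integrand -/
noncomputable def ff (d : ℕ) (a : ℝ) (w ξ : E d) : ℝ :=
  (1 - Real.cos (2 * π * inner ℝ ξ w)) * ‖ξ‖ ^ (-((d:ℝ) + 1) - a)

theorem ff_nonneg (d : ℕ) (a : ℝ) (w ξ : E d) : 0 ≤ ff d a w ξ :=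
  mul_nonneg (by linarith [Real.cos_le_one (2 * π * inner ℝ ξ w)])
    (Real.rpow_nonneg (norm_nonneg _) _)

theorem ff_meas (d : ℕ) (a : ℝ) (w : E d) : Measurable (ff d a w) := by
  unfold ff
  fun_prop

theorem ff_integrable (d : ℕ) (a : ℝ) (ha : 0 < a) (ha2 : a < 2) (w : E d) :
    Integrable (ff d a w) := by
  refine (radial_integrable d a ha ha2 (2 * π ^ 2 * ‖w‖ ^ 2)).mono'
    (ff_meas d a w).aestronglyMeasurable (ae_of_all _ fun ξ => ?_)
  rw [Real.norm_of_nonneg (ff_nonneg d a w ξ)]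
  unfold ff hh
  have hc := Real.one_sub_sq_div_two_le_cos (x := 2 * π * inner ℝ ξ w)
  have hc2 := Real.neg_one_le_cos (2 * π * inner ℝ ξ w)
  have hin : (inner ℝ ξ w : ℝ) ^ 2 ≤ ‖ξ‖ ^ 2 * ‖w‖ ^ 2 := by
    have := abs_real_inner_le_norm ξ w
    rw [← mul_pow, ← sq_abs]
    exact pow_le_pow_left₀ (abs_nonneg _) this 2
  split_ifs with h
  · rcases eq_or_ne ξ 0 with rfl | hξ
    · simp only [inner_zero_left, mul_zero, Real.cos_zero, sub_self, zero_mul]
      positivity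
    · have hpos : 0 < ‖ξ‖ := norm_pos_iff.2 hξ
      have e1 : 2 * π ^ 2 * ‖w‖ ^ 2 * ‖ξ‖ ^ (2 - ((d:ℝ) + 1) - a) =
          (2 * π ^ 2 * ‖w‖ ^ 2 * ‖ξ‖ ^ 2) * ‖ξ‖ ^ (-((d:ℝ) + 1) - a) := by
        rw [mul_assoc (2 * π ^ 2 * ‖w‖ ^ 2), ← Real.rpow_natCast ‖ξ‖ 2, ← Real.rpow_add hpos]
        congr 2
        push_cast
        ring
      rw [e1]
      refine mul_le_mul_of_nonneg_right ?_ (Real.rpow_nonneg (norm_nonneg _) _)
      have hpi := sq_nonneg π
      nlinarith [mul_le_mul_of_nonneg_left hin hpi]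
  · refine mul_le_mul_of_nonneg_right ?_ (Real.rpow_nonneg (norm_nonneg _) _)
    linarith

noncomputable def II (d : ℕ) (a : ℝ) (w : E d) : ℝ := ∫ ξ : E d, ff d a w ξ

theorem II_iso (d : ℕ) (a : ℝ) {w w' : E d} (h : ‖w‖ = ‖w'‖) : II d a w = II d a w' := by
  set R := Submodule.reflection (ℝ ∙ (w - w'))ᗮ with hR
  have hRw : R w = w' := Submodule.reflection_sub h
  unfold II
  have h1 : ∫ ξ : E d, ff d a w' (R ξ) = ∫ ξ : E d, ff d a w' ξ :=
    (R.measurePreserving).integral_comp R.toHomeomorph.measurableEmbedding _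
  rw [← h1]
  congr 1
  funext ξ
  unfold ff
  rw [R.norm_map, ← hRw, R.inner_map_map]

theorem II_smul (d : ℕ) (a : ℝ) {t : ℝ} (ht : 0 < t) (w : E d) :
    II d a (t • w) = t ^ a * II d a w := by
  unfold II
  have h1 : ∀ ξ : E d, ff d a (t • w) ξ = t ^ ((d:ℝ) + 1 + a) * ff d a w (t • ξ) := by
    intro ξ
    unfold ff
    rw [real_inner_smul_left, real_inner_smul_right, norm_smul, Real.norm_eq_abs, abs_of_pos ht,
      Real.mul_rpow ht.le (norm_nonneg _)]
    have : t ^ ((d:ℝ) + 1 + a) * t ^ (-((d:ℝ) + 1) - a) = 1 := by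
      rw [← Real.rpow_add ht]
      have : (d:ℝ) + 1 + a + (-((d:ℝ) + 1) - a) = 0 := by ring
      rw [this, Real.rpow_zero]
    calc (1 - Real.cos (2 * π * (t * inner ℝ ξ w))) * ‖ξ‖ ^ (-((d:ℝ) + 1) - a)
        = (t ^ ((d:ℝ) + 1 + a) * t ^ (-((d:ℝ) + 1) - a)) *
          ((1 - Real.cos (2 * π * (t * inner ℝ ξ w))) * ‖ξ‖ ^ (-((d:ℝ) + 1) - a)) := by
          rw [this, one_mul]
      _ = _ := by ring
  simp_rw [h1]
  rw [integral_const_mul, Measure.integral_comp_smul_of_nonneg volume (ff d a w) t (hR := ht.le),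
    smul_eq_mul, ← mul_assoc]
  congr 1
  have hfr : Module.finrank ℝ (E d) = d + 1 := by simp
  rw [hfr, ← Real.rpow_natCast, ← Real.rpow_neg ht.le, ← Real.rpow_add ht]
  congr 1
  push_cast
  ring

theorem II_pos (d : ℕ) (a : ℝ) (ha : 0 < a) (ha2 : a < 2) {w : E d} (hw : w ≠ 0) :
    0 < II d a w := by
  unfold II
  rw [integral_pos_iff_support_of_nonneg (fun ξ => ff_nonneg d a w ξ) (ff_integrable d a ha ha2 w)]
  have hopen : IsOpen {ξ : E d | Real.cos (2 * π * inner ℝ ξ w) < 1} :=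
    isOpen_lt (by fun_prop) continuous_const
  have hsub : {ξ : E d | Real.cos (2 * π * inner ℝ ξ w) < 1} ⊆ Function.support (ff d a w) := by
    intro ξ hξ
    have hξ' : Real.cos (2 * π * inner ℝ ξ w) < 1 := hξ
    have hξ0 : ξ ≠ 0 := by
      rintro rfl
      simp at hξ'
    rw [Function.mem_support]
    refine (mul_pos (by linarith) (Real.rpow_pos_of_pos (norm_pos_iff.2 hξ0) _)).ne'
  have hne : {ξ : E d | Real.cos (2 * π * inner ℝ ξ w) < 1}.Nonempty := by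
    refine ⟨(1 / (2 * ‖w‖ ^ 2)) • w, ?_⟩
    have hpos : 0 < ‖w‖ := norm_pos_iff.2 hw
    have e : 2 * π * inner ℝ ((1 / (2 * ‖w‖ ^ 2)) • w) w = π := by
      rw [real_inner_smul_left, real_inner_self_eq_norm_sq]
      field_simp
    show Real.cos (2 * π * inner ℝ ((1 / (2 * ‖w‖ ^ 2)) • w) w) < 1
    rw [e, Real.cos_pi]
    norm_num
  exact (hopen.measure_pos volume hne).trans_le (measure_mono hsub)

theorem const (d : ℕ) (a : ℝ) (ha : 0 < a) (ha2 : a < 2) :
    ∃ c : ℝ, 0 < c ∧ ∀ w : E d, c * II d a w = ‖w‖ ^ a := by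
  set e : E d := EuclideanSpace.single 0 1 with he
  have hen : ‖e‖ = 1 := by simp [he]
  have he0 : e ≠ 0 := by
    rintro h
    rw [h, norm_zero] at hen
    exact zero_ne_one hen
  have hp := II_pos d a ha ha2 he0
  refine ⟨(II d a e)⁻¹, inv_pos.2 hp, fun w => ?_⟩
  rcases eq_or_ne w 0 with rfl | hw
  · have : II d a (0 : E d) = 0 := by
      unfold II ff
      simp
    rw [this, mul_zero, norm_zero, Real.zero_rpow ha.ne']
  · have hpos : 0 < ‖w‖ := norm_pos_iff.2 hw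
    have h1 : II d a w = II d a (‖w‖ • e) := by
      apply II_iso
      rw [norm_smul, hen, mul_one, norm_norm]
    rw [h1, II_smul d a hpos, mul_left_comm, inv_mul_cancel₀ hp.ne', mul_one]

end J232

open J232

theorem riesz_const (d : ℕ) (a : ℝ) (ha : 0 < a) (ha2 : a < 2) :
    ∃ c : ℝ, 0 < c ∧ ∀ w : E d,
      Integrable (fun ξ : E d =>
        (1 - Real.cos (2 * π * inner ℝ ξ w)) * ‖ξ‖ ^ (-((d:ℝ) + 1) - a)) ∧
      c * ∫ ξ : E d, (1 - Real.cos (2 * π * inner ℝ ξ w)) * ‖ξ‖ ^ (-((d:ℝ) + 1) - a) = ‖w‖ ^ a := by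
  obtain ⟨c, hc, h⟩ := J232.const d a ha ha2
  exact ⟨c, hc, fun w => ⟨ff_integrable d a ha ha2 w, h w⟩⟩

theorem exists_feat (d : ℕ) (a : ℝ) (ha : 0 < a) (ha2 : a < 2) :
    ∃ (H : Type) (_ : NormedAddCommGroup H) (_ : InnerProductSpace ℝ H) (_ : CompleteSpace H)
      (Φ : E d → H), ∀ u v, ‖Φ u - Φ v‖ ^ 2 = ‖u - v‖ ^ a := by
  obtain ⟨c, hc, h⟩ := riesz_const d a ha ha2
  -- the feature functions
  set g : E d → E d → ℂ := fun u ξ =>
    (ex ξ u - 1) * ((Real.sqrt (c / 2 * ‖ξ‖ ^ (-((d:ℝ) + 1) - a)) : ℝ) : ℂ) with hg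
  have hex : ∀ ξ u v : E d, ‖ex ξ u - ex ξ v‖ ^ 2 = 2 * (1 - Real.cos (2 * π * inner ℝ ξ (u - v))) := by
    intro ξ u v
    unfold ex
    rw [← Complex.normSq_eq_norm_sq, Complex.normSq_apply]
    simp only [Complex.sub_re, Complex.sub_im, Complex.exp_ofReal_mul_I_re,
      Complex.exp_ofReal_mul_I_im]
    have e : 2 * π * inner ℝ ξ (u - v) = 2 * π * inner ℝ ξ u - 2 * π * inner ℝ ξ v := by
      rw [inner_sub_right]; ring
    rw [e, Real.cos_sub]
    have h1 := Real.sin_sq_add_cos_sq (2 * π * inner ℝ ξ u)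
    have h2 := Real.sin_sq_add_cos_sq (2 * π * inner ℝ ξ v)
    nlinarith
  have hkey : ∀ u v ξ : E d, ‖g u ξ - g v ξ‖ ^ 2 =
      c * ((1 - Real.cos (2 * π * inner ℝ ξ (u - v))) * ‖ξ‖ ^ (-((d:ℝ) + 1) - a)) := by
    intro u v ξ
    have e1 : g u ξ - g v ξ = (ex ξ u - ex ξ v) *
        ((Real.sqrt (c / 2 * ‖ξ‖ ^ (-((d:ℝ) + 1) - a)) : ℝ) : ℂ) := by
      simp only [hg]
      ring
    rw [e1, norm_mul, mul_pow, hex, Complex.norm_real, Real.norm_eq_abs, sq_abs,
      Real.sq_sqrt (mul_nonneg (by positivity) (Real.rpow_nonneg (norm_nonneg _) _))]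
    ring
  have hg0 : ∀ ξ : E d, g 0 ξ = 0 := by
    intro ξ
    simp [hg, ex]
  have hgm : ∀ u : E d, AEStronglyMeasurable (g u) volume := by
    intro u
    have : Measurable (g u) := by
      simp only [hg, ex]
      fun_prop
    exact this.aestronglyMeasurable
  have hL : ∀ u : E d, MemLp (g u) 2 volume := by
    intro u
    rw [memLp_two_iff_integrable_sq_norm (hgm u)]
    have h1 : (fun ξ => ‖g u ξ‖ ^ 2) = fun ξ : E d =>
        c * ((1 - Real.cos (2 * π * inner ℝ ξ u)) * ‖ξ‖ ^ (-((d:ℝ) + 1) - a)) := by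
      funext ξ
      have := hkey u 0 ξ
      rwa [hg0, sub_zero, sub_zero] at this
    rw [h1]
    exact (h u).1.const_mul c
  refine ⟨Lp ℂ 2 (volume : Measure (E d)), inferInstance, inferInstance, inferInstance,
    fun u => (hL u).toLp, fun u v => ?_⟩
  rw [← MemLp.toLp_sub, Lp.norm_toLp,
    ((hL u).sub (hL v)).eLpNorm_eq_integral_rpow_norm (by norm_num) (by norm_num)]
  have hint : ∫ ξ, ‖(g u - g v) ξ‖ ^ (ENNReal.toReal 2) = ‖u - v‖ ^ a := by
    rw [← (h (u - v)).2, ← integral_const_mul]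
    congr 1
    funext ξ
    rw [← hkey u v ξ, Pi.sub_apply]
    simp
  rw [hint, ENNReal.toReal_ofReal (by positivity)]
  rw [← Real.rpow_natCast, ← Real.rpow_mul (by positivity)]
  simp

end Pool.Agent.TH331.RZ
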