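import Pool.Agent.TH331.RZ.Defs

/-! Job 235 (RZ-L4 for MP_d18e52_an): the feature map of `|u-v|^a` as a Fourier integral. -/

set_option autoImplicit false

open MeasureTheory Set Filter Topology
open scoped ENNReal Real FourierTransform

namespace Pool.Agent.TH331.RZ

open Pool.Agent.Helper88.SE

namespace J235

theorem inner_int {X H : Type*} [MeasurableSpace X] [NormedAddCommGroup H] [InnerProductSpace ℝ H]
    [CompleteSpace H] {α β : Measure X} [IsFiniteMeasure α] [IsFiniteMeasure β] {F G : X → H}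
    (hF : Integrable F α) (hG : Integrable G β) :
    inner ℝ (∫ u, F u ∂α) (∫ v, G v ∂β) = ∫ q : X × X, inner ℝ (F q.1) (G q.2) ∂(α.prod β) := by
  have hint : Integrable (fun q : X × X => (inner ℝ (F q.1) (G q.2) : ℝ)) (α.prod β) := by
    refine (hF.norm.mul_prod hG.norm).mono' ?_ (ae_of_all _ fun q => ?_)
    · exact (hF.aestronglyMeasurable.comp_fst).inner (hG.aestronglyMeasurable.comp_snd)
    · exact norm_inner_le_norm _ _
  rw [integral_prod _ hint]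
  have h1 : ∀ u, ∫ v, (inner ℝ (F u) (G v) : ℝ) ∂β = inner ℝ (F u) (∫ v, G v ∂β) := by
    intro u
    exact integral_inner hG (F u)
  simp only [h1]
  have h2 : ∀ u, (inner ℝ (F u) (∫ v, G v ∂β) : ℝ) = inner ℝ (∫ v, G v ∂β) (F u) :=
    fun u => real_inner_comm _ _
  simp only [h2]
  rw [integral_inner hF, real_inner_comm]

theorem int_add3 {X : Type*} [MeasurableSpace X] {μ : Measure X} {f g h : X → ℝ}
    (hf : Integrable f μ) (hg : Integrable g μ) (hh : Integrable h μ) :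
    ∫ x, (f x + g x + h x) ∂μ = (∫ x, f x ∂μ) + (∫ x, g x ∂μ) + ∫ x, h x ∂μ := by
  have h1 : Integrable (fun x => f x + g x) μ := hf.add hg
  rw [integral_add h1 hh, integral_add hf hg]

theorem int_sub3 {X : Type*} [MeasurableSpace X] {μ : Measure X} {f g h : X → ℝ}
    (hf : Integrable f μ) (hg : Integrable g μ) (hh : Integrable h μ) :
    ∫ x, (f x + g x - h x) ∂μ = (∫ x, f x ∂μ) + (∫ x, g x ∂μ) - ∫ x, h x ∂μ := by
  have h1 : Integrable (fun x => f x + g x) μ := hf.add hg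
  rw [integral_sub h1 hh, integral_add hf hg]

theorem int_quad {X : Type*} [MeasurableSpace X] {μ : Measure X} {f g h : X → ℝ}
    (hf : Integrable f μ) (hg : Integrable g μ) (hh : Integrable h μ) :
    Integrable (fun x => f x - 2 * g x + h x) μ ∧
    ∫ x, (f x - 2 * g x + h x) ∂μ = (∫ x, f x ∂μ) - 2 * (∫ x, g x ∂μ) + ∫ x, h x ∂μ := by
  have h0 : Integrable (fun x => 2 * g x) μ := hg.const_mul 2
  have h1 : Integrable (fun x => f x - 2 * g x) μ := hf.sub h0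
  refine ⟨h1.add hh, ?_⟩
  rw [integral_add h1 hh, integral_sub hf h0, integral_const_mul]

theorem inner_of_norm {H : Type*} [NormedAddCommGroup H] [InnerProductSpace ℝ H] (x y : H) :
    2 * inner ℝ x y = ‖x‖ ^ 2 + ‖y‖ ^ 2 - ‖x - y‖ ^ 2 := by
  rw [norm_sub_sq_real]
  ring

theorem ex_sub_norm {d : ℕ} (ξ u v : E d) :
    ‖ex ξ u - ex ξ v‖ ^ 2 = 2 * (1 - Real.cos (2 * π * inner ℝ ξ (u - v))) := by
  unfold ex
  rw [← Complex.normSq_eq_norm_sq, Complex.normSq_apply]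
  simp only [Complex.sub_re, Complex.sub_im, Complex.exp_ofReal_mul_I_re,
    Complex.exp_ofReal_mul_I_im]
  have e : 2 * π * inner ℝ ξ (u - v) = 2 * π * inner ℝ ξ u - 2 * π * inner ℝ ξ v := by
    rw [inner_sub_right]; ring
  rw [e, Real.cos_sub]
  have h1 := Real.sin_sq_add_cos_sq (2 * π * inner ℝ ξ u)
  have h2 := Real.sin_sq_add_cos_sq (2 * π * inner ℝ ξ v)
  nlinarith

theorem ex_norm {d : ℕ} (ξ u : E d) : ‖ex ξ u‖ = 1 := by
  unfold ex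
  exact Complex.norm_exp_ofReal_mul_I _

/-- `1 - cos 2π⟨ξ, w⟩` -/
noncomputable def cc {d : ℕ} (ξ w : E d) : ℝ := 1 - Real.cos (2 * π * inner ℝ ξ w)

theorem cc_nonneg {d : ℕ} (ξ w : E d) : 0 ≤ cc ξ w := by
  unfold cc
  linarith [Real.cos_le_one (2 * π * inner ℝ ξ w)]

section core

variable {d : ℕ} {a : ℝ} (ha : 0 < a)
    {c : ℝ} (hc : 0 < c) (hc2 : ∀ w : E d,
      Integrable (fun ξ : E d => cc ξ w * ‖ξ‖ ^ (-((d:ℝ) + 1) - a)) ∧
      c * ∫ ξ : E d, cc ξ w * ‖ξ‖ ^ (-((d:ℝ) + 1) - a) = ‖w‖ ^ a)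
    {α β : Measure (E d)} [IsFiniteMeasure α] [IsFiniteMeasure β] {B : ℝ}
    (hα : ∀ᵐ u ∂α, ‖u‖ ≤ B) (hβ : ∀ᵐ u ∂β, ‖u‖ ≤ B)
    {ψ : E d → ℝ} (hψ : Measurable ψ) {M : ℝ} (hM : ∀ u, |ψ u| ≤ M) (p : E d)

include ha hc hc2 hα hβ hψ hM

/-- the function on the product space -/
noncomputable def GG (a c : ℝ) (ψ : E d → ℝ) (p : E d) (z : E d × (E d × E d)) : ℝ :=
  c * ‖z.1‖ ^ (-((d:ℝ) + 1) - a) * (ψ z.2.1 * ψ z.2.2 *
    (cc z.1 (z.2.1 - p) + cc z.1 (z.2.2 - p) - cc z.1 (z.2.1 - z.2.2)))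

omit ha hc hc2 [IsFiniteMeasure α] [IsFiniteMeasure β] hα hβ hM in
theorem GG_meas : Measurable (GG a c ψ p) := by
  unfold GG cc
  fun_prop

theorem GG_int : Integrable (GG a c ψ p) ((volume : Measure (E d)).prod (α.prod β)) := by
  rw [integrable_prod_iff' (GG_meas hψ p).aestronglyMeasurable]
  have hM0 : 0 ≤ M := (abs_nonneg _).trans (hM 0)
  set κ : E d × E d → E d → ℝ := fun q ξ => cc ξ (q.1 - p) * ‖ξ‖ ^ (-((d:ℝ) + 1) - a) +
      cc ξ (q.2 - p) * ‖ξ‖ ^ (-((d:ℝ) + 1) - a) + cc ξ (q.1 - q.2) * ‖ξ‖ ^ (-((d:ℝ) + 1) - a) with hκ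
  have hκi : ∀ q, Integrable (κ q) := fun q =>
    ((hc2 _).1.add (hc2 _).1).add (hc2 _).1
  have hκI : ∀ q, c * ∫ ξ, κ q ξ = ‖q.1 - p‖ ^ a + ‖q.2 - p‖ ^ a + ‖q.1 - q.2‖ ^ a := by
    intro q
    simp only [hκ]
    rw [int_add3 (hc2 _).1 (hc2 _).1 (hc2 _).1,
      mul_add, mul_add, (hc2 _).2, (hc2 _).2, (hc2 _).2]
  have hbound : ∀ q ξ, ‖GG a c ψ p (ξ, q)‖ ≤ c * M ^ 2 * κ q ξ := by
    intro q ξ
    have hr : 0 ≤ ‖ξ‖ ^ (-((d:ℝ) + 1) - a) := Real.rpow_nonneg (norm_nonneg _) _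
    have h1 := cc_nonneg ξ (q.1 - p)
    have h2 := cc_nonneg ξ (q.2 - p)
    have h3 := cc_nonneg ξ (q.1 - q.2)
    have h4 : |ψ q.1 * ψ q.2| ≤ M ^ 2 := by
      rw [abs_mul, sq]
      exact mul_le_mul (hM _) (hM _) (abs_nonneg _) hM0
    have h5 : |cc ξ (q.1 - p) + cc ξ (q.2 - p) - cc ξ (q.1 - q.2)| ≤
        cc ξ (q.1 - p) + cc ξ (q.2 - p) + cc ξ (q.1 - q.2) := by
      rw [abs_le]
      constructor <;> linarith
    simp only [GG, hκ]
    rw [Real.norm_eq_abs, abs_mul, abs_of_nonneg (mul_nonneg hc.le hr), abs_mul]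
    calc c * ‖ξ‖ ^ (-((d:ℝ) + 1) - a) * (|ψ q.1 * ψ q.2| *
          |cc ξ (q.1 - p) + cc ξ (q.2 - p) - cc ξ (q.1 - q.2)|)
        ≤ c * ‖ξ‖ ^ (-((d:ℝ) + 1) - a) * (M ^ 2 *
          (cc ξ (q.1 - p) + cc ξ (q.2 - p) + cc ξ (q.1 - q.2))) := by
          apply mul_le_mul_of_nonneg_left _ (mul_nonneg hc.le hr)
          exact mul_le_mul h4 h5 (abs_nonneg _) (sq_nonneg _)
      _ = _ := by ring
  have hsec : ∀ q : E d × E d, Integrable (fun ξ => GG a c ψ p (ξ, q)) := by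
    intro q
    refine ((hκi q).const_mul (c * M ^ 2)).mono' ?_ (ae_of_all _ (hbound q))
    exact ((GG_meas hψ p).comp (measurable_id.prodMk measurable_const)).aestronglyMeasurable
  refine ⟨ae_of_all _ hsec, ?_⟩
  have h1 : ∀ᵐ q ∂(α.prod β), ‖q.1‖ ≤ B := Measure.quasiMeasurePreserving_fst.ae hα
  have h2 : ∀ᵐ q ∂(α.prod β), ‖q.2‖ ≤ B := Measure.quasiMeasurePreserving_snd.ae hβ
  refine Integrable.of_bound ?_ (M ^ 2 * ((B + ‖p‖) ^ a + (B + ‖p‖) ^ a + (B + B) ^ a)) ?_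
  · exact ((GG_meas hψ p).norm.comp measurable_swap).stronglyMeasurable.integral_prod_right'
      |>.aestronglyMeasurable
  · filter_upwards [h1, h2] with q hq1 hq2
    have h3 : ∫ ξ, ‖GG a c ψ p (ξ, q)‖ ≤ ∫ ξ, c * M ^ 2 * κ q ξ :=
      integral_mono (hsec q).norm ((hκi q).const_mul _) (hbound q)
    rw [integral_const_mul, mul_comm c, mul_assoc, hκI q] at h3
    rw [Real.norm_of_nonneg (integral_nonneg fun ξ => norm_nonneg _)]
    refine h3.trans (mul_le_mul_of_nonneg_left ?_ (sq_nonneg _))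
    have e1 : ‖q.1 - p‖ ≤ B + ‖p‖ := (norm_sub_le _ _).trans (by linarith)
    have e2 : ‖q.2 - p‖ ≤ B + ‖p‖ := (norm_sub_le _ _).trans (by linarith)
    have e3 : ‖q.1 - q.2‖ ≤ B + B := (norm_sub_le _ _).trans (by linarith)
    have f1 := Real.rpow_le_rpow (norm_nonneg _) e1 ha.le
    have f2 := Real.rpow_le_rpow (norm_nonneg _) e2 ha.le
    have f3 := Real.rpow_le_rpow (norm_nonneg _) e3 ha.le
    linarith

/-- the Fourier side function -/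
noncomputable def ft (ψ : E d → ℝ) (p ξ u : E d) : ℂ := ((ψ u : ℝ) : ℂ) * (ex ξ u - ex ξ p)

omit ha hc hc2 [IsFiniteMeasure β] hα hβ in
theorem ft_int (ξ : E d) : Integrable (ft ψ p ξ) α := by
  have hM0 : 0 ≤ M := (abs_nonneg _).trans (hM 0)
  refine Integrable.of_bound (C := M * 2) ?_ (ae_of_all _ fun u => ?_)
  · have : Measurable (ft ψ p ξ) := by
      unfold ft ex
      fun_prop
    exact this.aestronglyMeasurable
  · unfold ft
    rw [norm_mul, Complex.norm_real, Real.norm_eq_abs]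
    refine mul_le_mul (hM u) ?_ (norm_nonneg _) hM0
    refine (norm_sub_le _ _).trans ?_
    rw [ex_norm, ex_norm]
    norm_num

omit ha hc hc2 [IsFiniteMeasure α] [IsFiniteMeasure β] hα hβ hψ hM in
theorem ft_inner (ξ u v : E d) : (inner ℝ (ft ψ p ξ u) (ft ψ p ξ v) : ℝ) =
    ψ u * ψ v * (cc ξ (u - p) + cc ξ (v - p) - cc ξ (u - v)) := by
  have h := inner_of_norm (ex ξ u - ex ξ p) (ex ξ v - ex ξ p)
  rw [ex_sub_norm, ex_sub_norm, sub_sub_sub_cancel_right, ex_sub_norm] at h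
  have e : ∀ (t : ℝ) (z : ℂ), ((t : ℝ) : ℂ) * z = t • z := fun t z => (Complex.real_smul).symm
  unfold ft
  rw [e, e, real_inner_smul_left, real_inner_smul_right]
  unfold cc
  linear_combination (ψ u * ψ v / 2) * h

theorem core {H : Type} [NormedAddCommGroup H] [InnerProductSpace ℝ H] [CompleteSpace H]
    {Φ : E d → H} (hΦ : ∀ u v, ‖Φ u - Φ v‖ ^ 2 = ‖u - v‖ ^ a)
    (hFα : Integrable (fun u => ψ u • (Φ u - Φ p)) α)
    (hFβ : Integrable (fun u => ψ u • (Φ u - Φ p)) β) :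
    Integrable (fun ξ : E d => c * ‖ξ‖ ^ (-((d:ℝ) + 1) - a) *
      inner ℝ (∫ u, ft ψ p ξ u ∂α) (∫ v, ft ψ p ξ v ∂β)) ∧
    ∫ ξ : E d, c * ‖ξ‖ ^ (-((d:ℝ) + 1) - a) *
      inner ℝ (∫ u, ft ψ p ξ u ∂α) (∫ v, ft ψ p ξ v ∂β) =
    2 * inner ℝ (∫ u, ψ u • (Φ u - Φ p) ∂α) (∫ v, ψ v • (Φ v - Φ p) ∂β) := by
  have hG := GG_int ha hc hc2 hα hβ hψ hM p
  have h1 : ∀ ξ : E d, ∫ q, GG a c ψ p (ξ, q) ∂(α.prod β) = c * ‖ξ‖ ^ (-((d:ℝ) + 1) - a) *
      inner ℝ (∫ u, ft ψ p ξ u ∂α) (∫ v, ft ψ p ξ v ∂β) := by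
    intro ξ
    rw [inner_int (ft_int (α := α) hψ hM p ξ) (ft_int (α := β) hψ hM p ξ)]
    simp only [ft_inner]
    rw [← integral_const_mul]
    rfl
  have h2 : ∀ q : E d × E d, ∫ ξ, GG a c ψ p (ξ, q) =
      2 * inner ℝ (ψ q.1 • (Φ q.1 - Φ p)) (ψ q.2 • (Φ q.2 - Φ p)) := by
    intro q
    have e1 : (fun ξ => GG a c ψ p (ξ, q)) = fun ξ => (ψ q.1 * ψ q.2) * (c *
        (cc ξ (q.1 - p) * ‖ξ‖ ^ (-((d:ℝ) + 1) - a) + cc ξ (q.2 - p) * ‖ξ‖ ^ (-((d:ℝ) + 1) - a) -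
          cc ξ (q.1 - q.2) * ‖ξ‖ ^ (-((d:ℝ) + 1) - a))) := by
      funext ξ
      unfold GG
      ring
    rw [e1, integral_const_mul, integral_const_mul, int_sub3 (hc2 _).1 (hc2 _).1 (hc2 _).1,
      mul_sub, mul_add, (hc2 _).2, (hc2 _).2, (hc2 _).2]
    have h := inner_of_norm (Φ q.1 - Φ p) (Φ q.2 - Φ p)
    rw [hΦ, hΦ, sub_sub_sub_cancel_right, hΦ] at h
    rw [real_inner_smul_left, real_inner_smul_right]
    linear_combination (-(ψ q.1 * ψ q.2)) * h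
  constructor
  · have := hG.integral_prod_left
    simp only [h1] at this
    exact this
  · have h3 := integral_prod _ hG
    have h4 := integral_prod_symm _ hG
    simp only [h1] at h3
    simp only [h2] at h4
    rw [← h3, h4, integral_const_mul, inner_int hFα hFβ]

end core

end J235

open J235

theorem feat_fourier (d : ℕ) (a : ℝ) (ha : 0 < a) (ha2 : a < 2)
    {H : Type} [NormedAddCommGroup H] [InnerProductSpace ℝ H] [CompleteSpace H]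
    (Φ : E d → H) (hΦ : ∀ u v, ‖Φ u - Φ v‖ ^ 2 = ‖u - v‖ ^ a)
    (c : ℝ) (hc : 0 < c) (hc2 : ∀ w : E d,
      Integrable (fun ξ : E d =>
        (1 - Real.cos (2 * π * inner ℝ ξ w)) * ‖ξ‖ ^ (-((d:ℝ) + 1) - a)) ∧
      c * ∫ ξ : E d, (1 - Real.cos (2 * π * inner ℝ ξ w)) * ‖ξ‖ ^ (-((d:ℝ) + 1) - a) = ‖w‖ ^ a)
    (μ ν : Measure (E d)) [IsFiniteMeasure μ] [IsFiniteMeasure ν] (B : ℝ)
    (hμ : μ (Metric.closedBall 0 B)ᶜ = 0) (hν : ν (Metric.closedBall 0 B)ᶜ = 0)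
    (ψ : E d → ℝ) (hψ : Measurable ψ) (M : ℝ) (hM : ∀ u, |ψ u| ≤ M) (p : E d) :
    ENNReal.ofReal (2 * ‖dI μ ν (fun u => ψ u • (Φ u - Φ p))‖ ^ 2) =
      ∫⁻ ξ : E d, ENNReal.ofReal (c * ‖ξ‖ ^ (-((d:ℝ) + 1) - a) *
        ‖dI μ ν (fun u => ((ψ u : ℝ) : ℂ) * (ex ξ u - ex ξ p))‖ ^ 2) := by
  have hμ' : ∀ᵐ u ∂μ, ‖u‖ ≤ B := by
    have : ∀ᵐ u ∂μ, u ∈ Metric.closedBall (0 : E d) B := by
      rw [ae_iff]; exact hμ
    filter_upwards [this] with u hu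
    simpa using hu
  have hν' : ∀ᵐ u ∂ν, ‖u‖ ≤ B := by
    have : ∀ᵐ u ∂ν, u ∈ Metric.closedBall (0 : E d) B := by
      rw [ae_iff]; exact hν
    filter_upwards [this] with u hu
    simpa using hu
  have hM0 : 0 ≤ M := (abs_nonneg _).trans (hM 0)
  have hnorm : ∀ u v, ‖Φ u - Φ v‖ = ‖u - v‖ ^ (a / 2) := by
    intro u v
    have h1 := hΦ u v
    have h2 : (‖u - v‖ ^ (a / 2)) ^ 2 = ‖u - v‖ ^ a := by
      rw [← Real.rpow_natCast, ← Real.rpow_mul (norm_nonneg _)]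
      congr 1
      push_cast
      ring
    rw [← h2] at h1
    exact (sq_eq_sq₀ (norm_nonneg _) (Real.rpow_nonneg (norm_nonneg _) _)).1 h1
  have hcont : Continuous Φ := by
    rw [continuous_iff_continuousAt]
    intro v
    rw [ContinuousAt, tendsto_iff_norm_sub_tendsto_zero]
    simp only [hnorm]
    have h1 : Tendsto (fun u : E d => ‖u - v‖ ^ (a / 2)) (𝓝 v) (𝓝 (‖v - v‖ ^ (a / 2))) := by
      refine Tendsto.rpow_const ?_ (Or.inr (by positivity))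
      exact (continuous_id.sub continuous_const).norm.tendsto v
    rwa [sub_self, norm_zero, Real.zero_rpow (by positivity)] at h1
  have hF : ∀ (α : Measure (E d)) [IsFiniteMeasure α], (∀ᵐ u ∂α, ‖u‖ ≤ B) →
      Integrable (fun u => ψ u • (Φ u - Φ p)) α := by
    intro α _ hα
    refine Integrable.of_bound (C := M * (B + ‖p‖) ^ (a / 2)) ?_ ?_
    · exact hψ.stronglyMeasurable.aestronglyMeasurable.smul
        (hcont.sub continuous_const).stronglyMeasurable.aestronglyMeasurable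
    · filter_upwards [hα] with u hu
      rw [norm_smul, hnorm, Real.norm_eq_abs]
      refine mul_le_mul (hM u) ?_ (Real.rpow_nonneg (norm_nonneg _) _) hM0
      exact Real.rpow_le_rpow (norm_nonneg _) ((norm_sub_le _ _).trans (by linarith))
        (by positivity)
  have c1 := core ha hc hc2 hμ' hμ' hψ hM p hΦ (hF μ hμ') (hF μ hμ')
  have c2 := core ha hc hc2 hμ' hν' hψ hM p hΦ (hF μ hμ') (hF ν hν')
  have c3 := core ha hc hc2 hν' hν' hψ hM p hΦ (hF ν hν') (hF ν hν')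
  have hex : ∀ {H' : Type} [NormedAddCommGroup H'] [InnerProductSpace ℝ H'] (x y : H'),
      ‖x - y‖ ^ 2 = inner ℝ x x - 2 * inner ℝ x y + inner ℝ y y := by
    intro H' _ _ x y
    rw [norm_sub_sq_real, real_inner_self_eq_norm_sq, real_inner_self_eq_norm_sq]
  have hfun : ∀ ξ : E d, c * ‖ξ‖ ^ (-((d:ℝ) + 1) - a) *
        ‖dI μ ν (fun u => ((ψ u : ℝ) : ℂ) * (ex ξ u - ex ξ p))‖ ^ 2 =
      c * ‖ξ‖ ^ (-((d:ℝ) + 1) - a) * inner ℝ (∫ u, ft ψ p ξ u ∂μ) (∫ v, ft ψ p ξ v ∂μ) -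
      2 * (c * ‖ξ‖ ^ (-((d:ℝ) + 1) - a) * inner ℝ (∫ u, ft ψ p ξ u ∂μ) (∫ v, ft ψ p ξ v ∂ν)) +
      c * ‖ξ‖ ^ (-((d:ℝ) + 1) - a) * inner ℝ (∫ u, ft ψ p ξ u ∂ν) (∫ v, ft ψ p ξ v ∂ν) := by
    intro ξ
    have h1 : dI μ ν (fun u => ((ψ u : ℝ) : ℂ) * (ex ξ u - ex ξ p)) =
        (∫ u, ft ψ p ξ u ∂μ) - ∫ v, ft ψ p ξ v ∂ν := rfl
    rw [h1, hex]
    ring
  have hq := int_quad c1.1 c2.1 c3.1
  rw [lintegral_congr (fun ξ => congrArg ENNReal.ofReal (hfun ξ)),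
    ← ofReal_integral_eq_lintegral_ofReal hq.1]
  · congr 1
    rw [hq.2, c1.2, c2.2, c3.2]
    unfold dI
    rw [hex]
    ring
  · refine ae_of_all _ fun ξ => ?_
    simp only [Pi.zero_apply]
    rw [← hfun ξ]
    exact mul_nonneg (mul_nonneg hc.le (Real.rpow_nonneg (norm_nonneg _) _)) (sq_nonneg _)

end Pool.Agent.TH331.RZ
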