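import Pool.Agent.TH981.LO.Bas

/-!
Job 456 (LO-DERLB, for MP_f0ab88_pr): lower bound for a term of the derivative.
-/

set_option autoImplicit false
set_option linter.unusedSectionVars false

open Pool.Agent.TH981.LO
open scoped BigOperators symmDiff MeasureTheory

namespace Pool.Agent.TH429.J456

variable {V E : Type} [DecidableEq V] [DecidableEq E] (G : MG V E)

theorem fe_add {ω : Finset E} {A B : V → ZMod 2} (hA : G.fe ω A) (hB : G.fe ω B) :
    G.fe ω (A + B) := by
  obtain ⟨η, hη, h1⟩ := hA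
  obtain ⟨ξ, hξ, h2⟩ := hB
  refine ⟨η ∆ ξ, ?_, by rw [G.bd_symmDiff, h1, h2]⟩
  intro e he
  rw [Finset.mem_symmDiff] at he
  rcases he with he | he
  · exact hη he.1
  · exact hξ he.1

theorem PS_ins (w : E → ℝ) (F' : Finset E) (e : E) (he : e ∉ F') (P : Finset E → Prop)
    [DecidablePred P] (hP : ∀ ω ⊆ insert e F', P ω → e ∉ ω) :
    G.PS w (insert e F') 0 (fun ω _ => if P ω then 1 else 0) =
      (1 - w e) * G.PS w F' 0 (fun ω _ => if P ω then 1 else 0) := by
  classical
  unfold MG.PS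
  rw [Finset.sum_powerset_insert he]
  have h0 : ∑ ω ∈ F'.powerset, bw w (insert e F') (insert e ω) *
      ∑ η ∈ (insert e ω).powerset with G.bd η = 0, (if P (insert e ω) then (1 : ℝ) else 0) = 0 := by
    refine Finset.sum_eq_zero fun ω hω => ?_
    rw [Finset.mem_powerset] at hω
    have : ¬ P (insert e ω) := fun h =>
      hP _ (Finset.insert_subset_insert e hω) h (Finset.mem_insert_self _ _)
    simp only [if_neg this, Finset.sum_const_zero, mul_zero]
  rw [h0, add_zero, Finset.mul_sum]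
  refine Finset.sum_congr rfl fun ω hω => ?_
  rw [Finset.mem_powerset] at hω
  rw [← mul_assoc]
  congr 1
  have heω : e ∉ ω := fun h => he (hω h)
  have h1 : insert e F' \ ω = insert e (F' \ ω) := Finset.insert_sdiff_of_notMem _ heω
  have h2 : e ∉ F' \ ω := fun h => he (Finset.mem_sdiff.1 h).1
  rw [bw, bw, h1, Finset.prod_insert h2]
  ring

theorem derlb (h : S_FKG) : S_DERLB := by
  intro V E _ _ G w F e a g he hw0 hw1
  classical
  set F' := F.erase e with hF'
  have heF' : e ∉ F' := Finset.notMem_erase e F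
  have hins : insert e F' = F := Finset.insert_erase he
  have hw0' : ∀ e' ∈ F', 0 ≤ w e' := fun e' h => hw0 e' (Finset.mem_of_mem_erase h)
  have hw1' : ∀ e' ∈ F', w e' ≤ 1 := fun e' h => hw1 e' (Finset.mem_of_mem_erase h)
  set y := G.s e with hy
  set z := G.t e with hz
  have hinc : G.inc e = two y z := rfl
  have hZ' : 1 ≤ G.Z w F' 0 := G.one_le_Z_zero hw0'
  have hZ : 1 ≤ G.Z w F 0 := G.one_le_Z_zero hw0
  -- the events
  set E1 : Finset E → Prop := fun ω => G.Cn ω a y ∧ G.Cn ω z g ∧ ¬ G.Cn ω a g with hE1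
  set E2 : Finset E → Prop := fun ω => G.Cn ω a z ∧ G.Cn ω y g ∧ ¬ G.Cn ω a g with hE2
  -- step 1
  have hstep1 : G.fkp w F' (fun ω => G.Cn ω a g ∧ G.Cn ω y z) + (G.fkp w F' E1 + G.fkp w F' E2) ≤
      G.corr w F' (two a g + G.inc e) := by
    rw [G.corr_eq_fkp]
    unfold MG.fkp
    rw [← add_div, ← add_div]
    refine div_le_div_of_nonneg_right ?_ (by linarith)
    rw [← G.PS_add, ← G.PS_add]
    refine G.PS_mono 0 hw0' hw1' fun ω hω η _ _ => ?_
    have hfe : ∀ A : V → ZMod 2, A = two a g + G.inc e → G.fe ω A →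
        (if G.fe ω (two a g + G.inc e) then (1 : ℝ) else 0) = 1 := by
      rintro A rfl hA
      rw [if_pos hA]
    have hpos : (0 : ℝ) ≤ if G.fe ω (two a g + G.inc e) then (1 : ℝ) else 0 := by
      split_ifs <;> norm_num
    by_cases hag : G.Cn ω a g
    · have n1 : ¬ E1 ω := fun h => h.2.2 hag
      have n2 : ¬ E2 ω := fun h => h.2.2 hag
      rw [if_neg n1, if_neg n2, add_zero, add_zero]
      by_cases hyz : G.Cn ω y z
      · rw [if_pos ⟨hag, hyz⟩, hfe _ rfl (fe_add G (G.fe_two_iff.2 hag) (G.fe_two_iff.2 hyz))]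
      · rw [if_neg (fun h => hyz h.2)]
        exact hpos
    · rw [if_neg (fun h => hag h.1), zero_add]
      by_cases h1 : E1 ω
      · have n2 : ¬ E2 ω := fun h => hag (G.Cn_trans h.1 h1.2.1)
        rw [if_pos h1, if_neg n2, add_zero]
        have e1 : two a y + two z g = two a g + G.inc e := by
          rw [hinc]; unfold two; abel
        rw [hfe _ e1 (fe_add G (G.fe_two_iff.2 h1.1) (G.fe_two_iff.2 h1.2.1))]
      · rw [if_neg h1, zero_add]
        by_cases h2 : E2 ω
        · rw [if_pos h2]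
          have e1 : two a z + two y g = two a g + G.inc e := by
            rw [hinc]; unfold two; abel
          rw [hfe _ e1 (fe_add G (G.fe_two_iff.2 h2.1) (G.fe_two_iff.2 h2.2.1))]
        · rw [if_neg h2]
          exact hpos
  -- step 2 : FKG
  have hstep2 : G.corr w F' (two a g) * G.corr w F' (G.inc e) ≤
      G.fkp w F' (fun ω => G.Cn ω a g ∧ G.Cn ω y z) := by
    rw [G.corr_eq_fkp, G.corr_eq_fkp, hinc]
    have e1 : (fun ω => G.fe ω (two a g)) = fun ω => G.Cn ω a g := by
      funext ω; exact propext G.fe_two_iff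
    have e2 : (fun ω => G.fe ω (two y z)) = fun ω => G.Cn ω y z := by
      funext ω; exact propext G.fe_two_iff
    rw [e1, e2]
    exact h G w F' _ _ hw0' hw1' (fun ω ω' hωω' _ hω => G.Cn_mono hωω' hω)
      (fun ω ω' hωω' _ hω => G.Cn_mono hωω' hω)
  -- step 3 : the ratio
  set ρ := G.Z w F' 0 / G.Z w F 0 with hρ
  have hρ2 : 1 / 2 ≤ ρ := by
    have h1 : G.Z w F 0 = G.Z w F' 0 + w e * G.Z w F' (G.inc e) := by
      conv_lhs => rw [← hins]
      rw [G.Z_insert _ heF', zero_add]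
    have h2 : G.Z w F' (G.inc e) ≤ G.Z w F' 0 := by
      have := G.corr_le_one (G.inc e) hw0' hw1'
      unfold MG.corr at this
      rwa [div_le_one (by linarith)] at this
    have h3 : 0 ≤ G.Z w F' (G.inc e) := G.Z_nonneg _ hw0'
    rw [hρ, le_div_iff₀ (by linarith)]
    have h4 := hw0 e he
    have h5 := hw1 e he
    nlinarith
  -- step 4
  have hstep4 : ∀ P : Finset E → Prop, (∀ ω, P ω → e ∉ ω) →
      G.fkp w F P ≤ ρ * G.fkp w F' P := by
    intro P hP
    unfold MG.fkp
    have h1 := PS_ins G w F' e heF' P (fun ω _ => hP ω)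
    rw [hins] at h1
    have h2 : 0 ≤ G.PS w F' 0 (fun ω _ => if P ω then (1 : ℝ) else 0) := by
      have := G.fkp_nonneg P hw0' hw1'
      unfold MG.fkp at this
      by_contra hneg
      push Not at hneg
      have := div_neg_of_neg_of_pos hneg (show 0 < G.Z w F' 0 by linarith)
      linarith
    have h3 : ρ * (G.PS w F' 0 (fun ω _ => if P ω then (1 : ℝ) else 0) / G.Z w F' 0) =
        G.PS w F' 0 (fun ω _ => if P ω then (1 : ℝ) else 0) / G.Z w F 0 := by
      rw [hρ]
      have : G.Z w F' 0 ≠ 0 := by positivity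
      have : G.Z w F 0 ≠ 0 := by positivity
      field_simp
    rw [h3, h1]
    apply div_le_div_of_nonneg_right _ (by linarith)
    have := hw0 e he
    nlinarith
  have hyz : ∀ ω : Finset E, e ∈ ω → G.Cn ω y z := fun ω hω =>
    Relation.ReflTransGen.single ⟨e, hω, Or.inl ⟨rfl, rfl⟩⟩
  have h5 := hstep4 E1 (fun ω h1 heω =>
    h1.2.2 (G.Cn_trans h1.1 (G.Cn_trans (hyz ω heω) h1.2.1)))
  have h6 := hstep4 E2 (fun ω h1 heω =>
    h1.2.2 (G.Cn_trans h1.1 (G.Cn_trans (G.Cn_symm (hyz ω heω)) h1.2.1)))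
  have h7 := G.fkp_nonneg E1 hw0' hw1'
  have h8 := G.fkp_nonneg E2 hw0' hw1'
  have h9 : G.fkp w F' E1 + G.fkp w F' E2 ≤ G.corr w F' (two a g + G.inc e) -
      G.corr w F' (two a g) * G.corr w F' (G.inc e) := by linarith
  have h10 : ρ ^ 2 * (G.fkp w F' E1 + G.fkp w F' E2) ≤ ρ ^ 2 * (G.corr w F' (two a g + G.inc e) -
      G.corr w F' (two a g) * G.corr w F' (G.inc e)) :=
    mul_le_mul_of_nonneg_left h9 (sq_nonneg _)
  have h11 : 1 / 4 * (ρ * (G.fkp w F' E1 + G.fkp w F' E2)) ≤
      ρ ^ 2 * (G.fkp w F' E1 + G.fkp w F' E2) := by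
    have h12 : 0 ≤ G.fkp w F' E1 + G.fkp w F' E2 := by linarith
    have h13 : 0 ≤ (ρ - 1 / 4) * ρ * (G.fkp w F' E1 + G.fkp w F' E2) := by
      apply mul_nonneg _ h12
      apply mul_nonneg <;> linarith
    nlinarith
  refine le_trans ?_ h10
  refine le_trans ?_ h11
  linarith

end Pool.Agent.TH429.J456
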