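import Pool.Agent.TH981.LO.Bas

/-!
Job 461 (LO-UD, for MP_f0ab88_pr): uniform exponential decay from the Simon-Lieb inequality.
-/

set_option autoImplicit false
set_option linter.unusedSectionVars false

open Pool.Agent.TH981.LO
open scoped BigOperators symmDiff MeasureTheory

namespace Pool.Agent.TH429.J461

/-- translate of a finite set of sites -/
def tr {d : ℕ} (a : Vt d) (S : Finset (Vt d)) : Finset (Vt d) := S.image fun y => y + a

theorem mem_tr {d : ℕ} {a v : Vt d} {S : Finset (Vt d)} : v ∈ tr a S ↔ v - a ∈ S := by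
  rw [tr, Finset.mem_image]
  constructor
  · rintro ⟨y, hy, rfl⟩
    rwa [add_sub_cancel_right]
  · intro h
    exact ⟨v - a, h, sub_add_cancel _ _⟩

theorem TE_tr {d : ℕ} (a : Vt d) (S : Finset (Vt d)) : TE (tr a S) = shF a (TE S) := by
  ext e
  rw [mem_shF, mem_TE, mem_TE, mem_tr, mem_tr]
  have : e.1 + ev e.2 - a = e.1 - a + ev e.2 := by abel
  rw [this]

theorem cut_tr {d : ℕ} (a : Vt d) (S : Finset (Vt d)) :
    (lat d).cut (TE (tr a S)) (tr a S) = shF a ((lat d).cut (TE S) S) := by
  ext e
  rw [mem_shF, MG.cut, MG.cut, Finset.mem_filter, Finset.mem_filter, TE_tr, mem_shF]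
  simp only [lat_s, lat_t, mem_tr]
  have : e.1 + ev e.2 - a = e.1 - a + ev e.2 := by abel
  rw [this]

theorem ins_tr {d : ℕ} (a : Vt d) (S : Finset (Vt d)) :
    (lat d).ins (TE (tr a S)) (tr a S) = shF a ((lat d).ins (TE S) S) := by
  ext e
  rw [mem_shF, MG.ins, MG.ins, Finset.mem_filter, Finset.mem_filter, TE_tr, mem_shF]
  simp only [lat_s, lat_t, mem_tr]
  have : e.1 + ev e.2 - a = e.1 - a + ev e.2 := by abel
  rw [this]

theorem inn_tr {d : ℕ} (a : Vt d) (S : Finset (Vt d)) (e : Ed d) :
    (lat d).inn (tr a S) (shE a e) = (lat d).inn S e + a := by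
  unfold MG.inn
  have h1 : (lat d).s (shE a e) = (lat d).s e + a := rfl
  have h2 : (lat d).t (shE a e) = (lat d).t e + a := by
    change e.1 + a + ev e.2 = e.1 + ev e.2 + a
    abel
  rw [h1, h2]
  by_cases h : (lat d).s e ∈ S
  · rw [if_pos h, if_pos (by rw [mem_tr, add_sub_cancel_right]; exact h)]
  · rw [if_neg h, if_neg (by rw [mem_tr, add_sub_cancel_right]; exact h)]

theorem two_tr {d : ℕ} (a b : Vt d) :
    (two a (b + a) : Vt d → ZMod 2) = fun v => (two 0 b : Vt d → ZMod 2) (v - a) := by
  funext v
  unfold two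
  rw [Pi.add_apply, Pi.add_apply]
  have h := single_shift_340 (0 : Vt d) a v
  rw [zero_add] at h
  rw [h, single_shift_340]

theorem phi_tr {d : ℕ} (x : ℝ) (a : Vt d) (S : Finset (Vt d)) :
    ∑ e ∈ (lat d).cut (TE (tr a S)) (tr a S),
      x * CC d x ((lat d).ins (TE (tr a S)) (tr a S)) (two a ((lat d).inn (tr a S) e)) =
    phi d x S := by
  rw [cut_tr, shF, Finset.sum_map, phi]
  refine Finset.sum_congr rfl fun e _ => ?_
  change x * CC d x _ (two a ((lat d).inn (tr a S) (shE a e))) = _
  rw [inn_tr, two_tr, ins_tr, CC_shF]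

theorem ud (h1 : S_SL) (h2 : S_CMONO) (d : ℕ) (x : ℝ) (hx0 : 0 < x) (hx1 : x < 1)
    (h : HS d x) : S_UD d x := by
  obtain ⟨S, hS0, hphi⟩ := h
  set r : ℕ := S.sup nm with hr
  have hSr : ∀ y ∈ S, nm y ≤ r := fun y hy => Finset.le_sup hy
  set φ : ℝ := max (phi d x S) (1 / 2) with hφ
  have hφ1 : φ < 1 := max_lt hphi (by norm_num)
  have hφ0 : 0 < φ := lt_of_lt_of_le (by norm_num) (le_max_right _ _)
  -- the main induction
  have claim : ∀ (k : ℕ) (F : Finset (Ed d)) (w : Ed d → ℝ) (v u : Vt d) (n : ℕ),
      (∀ e ∈ F, 0 ≤ w e) → (∀ e ∈ F, w e ≤ 1) →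
      (∀ e ∈ F, (nm (e.1 - v) ≤ n ∨ nm (e.1 + ev e.2 - v) ≤ n) → w e ≤ x) →
      n < nm (u - v) → ∀ a : Vt d, nm (a - v) + (r + 1) * k ≤ n →
      (lat d).corr w F (two a u) ≤ φ ^ k := by
    intro k
    induction k with
    | zero =>
      intro F w v u n hw0 hw1 _ _ a _
      rw [pow_zero]
      exact (lat d).corr_le_one _ hw0 hw1
    | succ k ih =>
      intro F w v u n hw0 hw1 hwx hun a ha
      have ha' : nm (a - v) + r + 1 + (r + 1) * k ≤ n := by
        have : (r + 1) * (k + 1) = (r + 1) * k + (r + 1) := by ring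
        omega
      have hnear : ∀ y ∈ tr a S, nm (y - v) ≤ nm (a - v) + r := by
        intro y hy
        have h3 := hSr _ (mem_tr.1 hy)
        have h4 := nm_add_le (y - a) (a - v)
        rw [sub_add_sub_cancel] at h4
        omega
      have haS : a ∈ tr a S := by rw [mem_tr, sub_self]; exact hS0
      have huS : u ∉ tr a S := by
        intro hu
        have := hnear u hu
        omega
      refine (h1 (lat d) w F (tr a S) a u hw0 hw1 haS huS).trans ?_
      -- bound each term
      have hterm : ∀ e ∈ (lat d).cut F (tr a S),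
          (lat d).corr w ((lat d).ins F (tr a S)) (two a ((lat d).inn (tr a S) e)) * w e *
            (lat d).corr w F (two ((lat d).out (tr a S) e) u) ≤
          x * CC d x ((lat d).ins (TE (tr a S)) (tr a S)) (two a ((lat d).inn (tr a S) e)) *
            φ ^ k := by
        intro e he
        rw [MG.cut, Finset.mem_filter] at he
        obtain ⟨heF, hcut⟩ := he
        have hwe : w e ≤ x := by
          apply hwx e heF
          rcases hcut with ⟨hs, -⟩ | ⟨-, ht⟩
          · left
            have := hnear _ hs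
            rw [lat_s] at this
            omega
          · right
            have := hnear _ ht
            rw [lat_t] at this
            omega
        have hc1 : (lat d).corr w ((lat d).ins F (tr a S)) (two a ((lat d).inn (tr a S) e)) ≤
            CC d x ((lat d).ins (TE (tr a S)) (tr a S)) (two a ((lat d).inn (tr a S) e)) := by
          refine h2 (lat d) w (fun _ => x) _ _ _ ?_ ?_ ?_ (fun _ _ => hx0.le) (fun _ _ => hx1.le)
          · intro e' he'
            rw [MG.ins, Finset.mem_filter] at he' ⊢
            refine ⟨?_, he'.2⟩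
            rw [mem_TE]
            exact Or.inl he'.2.1
          · intro e' he'
            rw [MG.ins, Finset.mem_filter] at he'
            exact hw0 e' he'.1
          · intro e' he'
            rw [MG.ins, Finset.mem_filter] at he'
            apply hwx e' he'.1
            left
            have := hnear _ he'.2.1
            rw [lat_s] at this
            omega
        have hc2 : (lat d).corr w F (two ((lat d).out (tr a S) e) u) ≤ φ ^ k := by
          apply ih F w v u n hw0 hw1 hwx hun
          have hev : nm ((ev e.2 : Vt d)) = 1 := nm_ev e.2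
          have : nm ((lat d).out (tr a S) e - v) ≤ nm (a - v) + r + 1 := by
            unfold MG.out
            rcases hcut with ⟨hs, ht⟩ | ⟨hs, ht⟩
            · rw [if_pos hs]
              have h5 := hnear _ hs
              rw [lat_s] at h5
              rw [lat_t]
              have h6 := nm_add_le (e.1 - v) (ev e.2)
              have h7 : e.1 - v + ev e.2 = e.1 + ev e.2 - v := by abel
              rw [h7] at h6
              omega
            · rw [if_neg hs]
              have h5 := hnear _ ht
              rw [lat_t] at h5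
              rw [lat_s]
              have h6 := nm_sub_le (e.1 + ev e.2 - v) (ev e.2)
              have h7 : e.1 + ev e.2 - v - ev e.2 = e.1 - v := by abel
              rw [h7] at h6
              omega
          omega
        have hn1 : 0 ≤ (lat d).corr w ((lat d).ins F (tr a S))
            (two a ((lat d).inn (tr a S) e)) := by
          refine (lat d).corr_nonneg _ fun e' he' => ?_
          rw [MG.ins, Finset.mem_filter] at he'
          exact hw0 e' he'.1
        have hn2 : 0 ≤ (lat d).corr w F (two ((lat d).out (tr a S) e) u) :=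
          (lat d).corr_nonneg _ hw0
        have hwe0 := hw0 e heF
        rw [mul_comm x]
        exact mul_le_mul (mul_le_mul hc1 hwe hwe0 (hn1.trans hc1)) hc2 hn2
          (mul_nonneg (hn1.trans hc1) hx0.le)
      refine (Finset.sum_le_sum hterm).trans ?_
      rw [← Finset.sum_mul]
      have hsub : (lat d).cut F (tr a S) ⊆ (lat d).cut (TE (tr a S)) (tr a S) := by
        intro e he
        rw [MG.cut, Finset.mem_filter] at he ⊢
        refine ⟨?_, he.2⟩
        rw [mem_TE]
        rcases he.2 with ⟨hs, -⟩ | ⟨-, ht⟩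
        · exact Or.inl hs
        · exact Or.inr ht
      have hsum : ∑ e ∈ (lat d).cut F (tr a S),
          x * CC d x ((lat d).ins (TE (tr a S)) (tr a S)) (two a ((lat d).inn (tr a S) e)) ≤
          phi d x S := by
        rw [← phi_tr x a S]
        refine Finset.sum_le_sum_of_subset_of_nonneg hsub fun e _ _ => ?_
        exact mul_nonneg hx0.le ((lat d).corr_nonneg _ fun _ _ => hx0.le)
      rw [pow_succ']
      exact mul_le_mul_of_nonneg_right (hsum.trans (le_max_left _ _)) (by positivity)
  -- conclusion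
  have hlog : Real.log φ < 0 := Real.log_neg hφ0 hφ1
  have hr1 : (0 : ℝ) < (r : ℝ) + 1 := by positivity
  refine ⟨-Real.log φ / (r + 1), by apply div_pos (by linarith) hr1, φ⁻¹, by positivity, ?_⟩
  intro F w v u n hw0 hw1 hwx hun
  have h3 := claim (n / (r + 1)) F w v u n hw0 hw1 hwx hun v (by
    rw [sub_self, nm_zero, zero_add]
    exact Nat.mul_div_le n (r + 1))
  refine h3.trans ?_
  have h4 : φ ^ (n / (r + 1)) = Real.exp (Real.log φ * ((n / (r + 1) : ℕ) : ℝ)) := by
    rw [mul_comm, Real.exp_nat_mul, Real.exp_log hφ0]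
  have h5 : φ⁻¹ = Real.exp (-Real.log φ) := by rw [Real.exp_neg, Real.exp_log hφ0]
  rw [h4, h5, ← Real.exp_add, Real.exp_le_exp]
  have h6 : (n : ℝ) / (r + 1) - 1 ≤ ((n / (r + 1) : ℕ) : ℝ) := by
    have h7 : n < (r + 1) * (n / (r + 1) + 1) := Nat.lt_mul_div_succ n (by omega)
    have h8 : (n : ℝ) < (r + 1) * (((n / (r + 1) : ℕ) : ℝ) + 1) := by exact_mod_cast h7
    have h9 : (n : ℝ) / (r + 1) < ((n / (r + 1) : ℕ) : ℝ) + 1 := by
      rw [div_lt_iff₀ hr1]
      linarith
    linarith
  have h10 : -(-Real.log φ / ((r : ℝ) + 1)) * n = Real.log φ * ((n : ℝ) / (r + 1)) := by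
    field_simp
  rw [h10]
  nlinarith

theorem dec (d : ℕ) (x : ℝ) (hx0 : 0 < x) (hx1 : x < 1) (h : S_UD d x) : S_DEC d x := by
  obtain ⟨c, hc, C, hC, hCC⟩ := h
  refine ⟨c, hc, C * Real.exp c + 1, by positivity, fun D a b => ?_⟩
  by_cases hab : nm (a - b) = 0
  · have h1 : CC d x D (two a b) ≤ 1 :=
      (lat d).corr_le_one _ (fun _ _ => hx0.le) (fun _ _ => hx1.le)
    rw [hab]
    have h2 : 0 ≤ C * Real.exp c := by positivity
    simp only [Nat.cast_zero, mul_zero, Real.exp_zero, mul_one]
    linarith
  · obtain ⟨n, hn⟩ : ∃ n, nm (a - b) = n + 1 := ⟨nm (a - b) - 1, by omega⟩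
    have h1 := hCC D (fun _ => x) a b n (fun _ _ => hx0.le) (fun _ _ => hx1.le)
      (fun _ _ _ => le_rfl) (by rw [nm_sub_comm]; omega)
    refine h1.trans ?_
    rw [hn]
    have h2 : C * Real.exp (-c * n) = C * Real.exp c * Real.exp (-c * ((n + 1 : ℕ) : ℝ)) := by
      rw [mul_assoc, ← Real.exp_add]
      congr 2
      push_cast
      ring
    rw [h2]
    apply mul_le_mul_of_nonneg_right _ (Real.exp_pos _).le
    linarith

end Pool.Agent.TH429.J461
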