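import Pool.Agent.TH981.LO.Bas

/-!
Job 467 (LO-BLK, for MP_f0ab88_pr): cluster and blocks (deterministic).
-/

set_option autoImplicit false
set_option linter.unusedSectionVars false

open Pool.Agent.TH981.LO
open scoped BigOperators symmDiff MeasureTheory

namespace Pool.Agent.TH429.J467

theorem div_close {k : ℕ} (hk : 1 ≤ k) {a b : ℤ} (h : (a - b).natAbs ≤ k) :
    (a / (k : ℤ) - b / (k : ℤ)).natAbs ≤ 1 := by
  have hk0 : (0 : ℤ) < k := by exact_mod_cast hk
  have h1 : a / (k : ℤ) ≤ b / (k : ℤ) + 1 := by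
    have : a ≤ b + 1 * k := by omega
    have h2 := Int.ediv_le_ediv hk0 this
    rwa [Int.add_mul_ediv_right _ _ hk0.ne'] at h2
  have h3 : b / (k : ℤ) ≤ a / (k : ℤ) + 1 := by
    have : b ≤ a + 1 * k := by omega
    have h2 := Int.ediv_le_ediv hk0 this
    rwa [Int.add_mul_ediv_right _ _ hk0.ne'] at h2
  omega

theorem blk_close {d k : ℕ} (hk : 1 ≤ k) {u v : Vt d} (h : nm (u - v) ≤ k) :
    nm (blk k u - blk k v) ≤ 1 := by
  rw [nm_le_iff] at h ⊢
  intro i
  exact div_close hk (h i)

theorem fibre_card {d k : ℕ} (hk : 1 ≤ k) (κ : Finset (Vt d)) (j : Vt d) :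
    (κ.filter fun v => blk k v = j).card ≤ k ^ d := by
  classical
  have hk0 : (0 : ℤ) < k := by exact_mod_cast hk
  have hsub : (κ.filter fun v => blk k v = j) ⊆
      Fintype.piFinset fun i => Finset.Ico ((k : ℤ) * j i) ((k : ℤ) * j i + k) := by
    intro v hv
    rw [Finset.mem_filter] at hv
    rw [Fintype.mem_piFinset]
    intro i
    rw [Finset.mem_Ico]
    have h1 : v i / (k : ℤ) = j i := congrFun hv.2 i
    have h2 := Int.emod_add_mul_ediv (v i) k
    have h3 := Int.emod_nonneg (v i) hk0.ne'
    have h4 := Int.emod_lt_of_pos (v i) hk0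
    rw [h1] at h2
    constructor <;> omega
  refine (Finset.card_le_card hsub).trans ?_
  rw [Fintype.card_piFinset]
  simp

theorem blkLem (d : ℕ) : S_BLK d := by
  intro k ω U hk
  classical
  set κ := (lat d).clF ω U with hκ
  refine ⟨Finset.card_le_mul_card_image _ _ fun j _ => fibre_card hk κ j, ?_, ?_⟩
  · have hsub : ((κ.image (blk k)).filter fun j => ¬ Bad k j ω) ⊆
        (U.image (blk k)).biUnion fun j => (box d 1).image fun v => v + j := by
      intro j hj
      rw [Finset.mem_filter, Finset.mem_image] at hj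
      obtain ⟨⟨v, hv, rfl⟩, hbad⟩ := hj
      obtain ⟨u, hu, huv⟩ := (lat d).mem_clF.1 hv
      have hlt : nm (u - v) < k := by
        by_contra hge
        push Not at hge
        obtain ⟨u', hu', hc⟩ := exists_on_sphere (v := v) ((lat d).Cn_symm huv)
          (by rw [sub_self, nm_zero]; exact Nat.zero_le _) hge
        exact hbad ⟨v, rfl, u', hu', hc⟩
      rw [Finset.mem_biUnion]
      refine ⟨blk k u, Finset.mem_image_of_mem _ hu, ?_⟩
      rw [Finset.mem_image]
      refine ⟨blk k v - blk k u, ?_, sub_add_cancel _ _⟩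
      rw [mem_box, nm_sub_comm]
      exact blk_close hk hlt.le
    refine (Finset.card_le_card hsub).trans ?_
    refine (Finset.card_biUnion_le_card_mul _ _ (3 ^ d) fun j _ => ?_).trans ?_
    · refine Finset.card_image_le.trans ?_
      rw [card_box]
    · rw [mul_comm]
      exact Nat.mul_le_mul_left _ Finset.card_image_le
  · intro j hj
    rw [Finset.mem_image] at hj
    obtain ⟨v, hv, rfl⟩ := hj
    obtain ⟨u, hu, huv⟩ := (lat d).mem_clF.1 hv
    refine ⟨blk k u, Finset.mem_image_of_mem _ hu, ?_⟩
    clear hv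
    unfold MG.Cn at huv
    induction huv with
    | refl => exact Relation.ReflTransGen.refl
    | tail hab hbc ih =>
      rename_i b c
      refine ih.tail ⟨?_, ?_⟩
      · apply Finset.mem_image_of_mem
        exact (lat d).mem_clF.2 ⟨u, hu, hab.tail hbc⟩
      · apply blk_close hk
        have h1 := Aux347.adj_nm (v := b) hbc
        rw [sub_self, nm_zero] at h1
        rw [nm_sub_comm]
        omega

end Pool.Agent.TH429.J467
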