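import Pool.Agent.TH981.LO.Bas

/-!
Job 468 (LO-COMB, for MP_f0ab88_pr): counting animals, separated subsets, parity.
-/

set_option autoImplicit false
set_option linter.unusedSectionVars false

open Pool.Agent.TH981.LO
open scoped BigOperators symmDiff MeasureTheory

namespace Pool.Agent.TH429.J468

/-- neighbourhood of a finite set of sites -/
noncomputable def Nb {d : ℕ} (B : Finset (Vt d)) : Finset (Vt d) :=
  B.biUnion fun j => (box d 1).image fun v => v + j

theorem mem_Nb {d : ℕ} {B : Finset (Vt d)} {b : Vt d} : b ∈ Nb B ↔ ∃ j ∈ B, nm (b - j) ≤ 1 := by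
  rw [Nb, Finset.mem_biUnion]
  refine exists_congr fun j => and_congr_right fun _ => ?_
  rw [Finset.mem_image]
  constructor
  · rintro ⟨v, hv, rfl⟩
    rw [add_sub_cancel_right]
    exact mem_box.1 hv
  · intro h
    exact ⟨b - j, mem_box.2 h, sub_add_cancel _ _⟩

theorem subset_Nb {d : ℕ} (B : Finset (Vt d)) : B ⊆ Nb B := by
  intro j hj
  rw [mem_Nb]
  exact ⟨j, hj, by rw [sub_self, nm_zero]; exact Nat.zero_le _⟩

theorem card_Nb_le {d : ℕ} (B : Finset (Vt d)) : (Nb B).card ≤ 3 ^ d * B.card := by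
  rw [mul_comm]
  refine Finset.card_biUnion_le_card_mul _ _ _ fun j _ => ?_
  refine Finset.card_image_le.trans ?_
  rw [card_box]

theorem determined {d : ℕ} {U₀ B B' X : Finset (Vt d)} (hU : U₀ ⊆ B')
    (hB : ∀ j ∈ B, ∃ u ∈ U₀,
      Relation.ReflTransGen (fun a b : Vt d => b ∈ B ∧ nm (a - b) ≤ 1) u j)
    (hX : X ∩ Nb B = B) (hX' : X ∩ Nb B' = B') : B ⊆ B' := by
  intro j hj
  obtain ⟨u, hu, hpath⟩ := hB j hj
  clear hj
  induction hpath with
  | refl => exact hU hu
  | tail _ hab ih =>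
    obtain ⟨hb, hn⟩ := hab
    rw [← hX'] 
    rw [Finset.mem_inter]
    refine ⟨?_, ?_⟩
    · rw [← hX] at hb
      exact (Finset.mem_inter.1 hb).1
    · rw [mem_Nb]
      exact ⟨_, ih, by rw [nm_sub_comm]; exact hn⟩

theorem animal (d : ℕ) : S_ANIMAL d := by
  intro m U₀ 𝓕 h𝓕
  classical
  set Ω : Finset (Vt d) := 𝓕.biUnion Nb with hΩ
  have hNΩ : ∀ B ∈ 𝓕, Nb B ⊆ Ω := fun B hB => Finset.subset_biUnion_of_mem Nb hB
  have hXB : ∀ B ∈ 𝓕, ∀ Y ⊆ Ω \ Nb B, (B ∪ Y) ∩ Nb B = B := by
    intro B _ Y hY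
    rw [Finset.union_inter_distrib_right, Finset.inter_eq_left.2 (subset_Nb B)]
    have : Y ∩ Nb B = ∅ := by
      rw [← Finset.disjoint_iff_inter_eq_empty]
      exact Finset.disjoint_of_subset_left hY Finset.sdiff_disjoint
    rw [this, Finset.union_empty]
  have hcard : (𝓕.sigma fun B => (Ω \ Nb B).powerset).card ≤ Ω.powerset.card := by
    refine Finset.card_le_card_of_injOn (fun p => p.1 ∪ p.2) ?_ ?_
    · rintro ⟨B, Y⟩ hp
      rw [Finset.mem_coe, Finset.mem_sigma, Finset.mem_powerset] at hp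
      rw [Finset.mem_coe, Finset.mem_powerset]
      exact Finset.union_subset ((subset_Nb B).trans (hNΩ B hp.1))
        (hp.2.trans Finset.sdiff_subset)
    · rintro ⟨B, Y⟩ hp ⟨B', Y'⟩ hp' heq
      rw [Finset.mem_coe, Finset.mem_sigma, Finset.mem_powerset] at hp hp'
      have heq' : B ∪ Y = B' ∪ Y' := heq
      have h1 := hXB B hp.1 Y hp.2
      have h2 := hXB B' hp'.1 Y' hp'.2
      have h2' := h2
      rw [← heq'] at h2'
      have h1' := h1
      rw [heq'] at h1'
      have hBB : B = B' := Finset.Subset.antisymm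
        (determined (h𝓕 B' hp'.1).2.1 (h𝓕 B hp.1).2.2 h1 h2')
        (determined (h𝓕 B hp.1).2.1 (h𝓕 B' hp'.1).2.2 h2 h1')
      subst hBB
      have hY : ∀ Z ⊆ Ω \ Nb B, (B ∪ Z) \ Nb B = Z := by
        intro Z hZ
        rw [Finset.union_sdiff_distrib, Finset.sdiff_eq_empty_iff_subset.2 (subset_Nb B),
          Finset.empty_union]
        exact Finset.sdiff_eq_self_of_disjoint
          (Finset.disjoint_of_subset_left hZ Finset.sdiff_disjoint)
      have h3 : Y = Y' := by
        rw [← hY Y hp.2, ← hY Y' hp'.2, heq']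
      subst h3
      rfl
  rw [Finset.card_sigma, Finset.card_powerset] at hcard
  have hB : ∀ B ∈ 𝓕, 2 ^ Ω.card ≤ 2 ^ (3 ^ d * m) * (Ω \ Nb B).powerset.card := by
    intro B hB
    rw [Finset.card_powerset, Finset.card_sdiff_of_subset (hNΩ B hB), ← pow_add]
    apply Nat.pow_le_pow_right (by norm_num)
    have h1 := card_Nb_le B
    rw [(h𝓕 B hB).1] at h1
    omega
  have hsum : 𝓕.card * 2 ^ Ω.card ≤ 2 ^ (3 ^ d * m) * 2 ^ Ω.card := by
    calc 𝓕.card * 2 ^ Ω.card = ∑ _B ∈ 𝓕, 2 ^ Ω.card := by rw [Finset.sum_const, smul_eq_mul]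
      _ ≤ ∑ B ∈ 𝓕, 2 ^ (3 ^ d * m) * (Ω \ Nb B).powerset.card := Finset.sum_le_sum hB
      _ = 2 ^ (3 ^ d * m) * ∑ B ∈ 𝓕, (Ω \ Nb B).powerset.card := by rw [Finset.mul_sum]
      _ ≤ _ := Nat.mul_le_mul_left _ hcard
  exact Nat.le_of_mul_le_mul_right hsum (by positivity)

theorem sep (d : ℕ) : S_SEP d := by
  intro J
  classical
  set col : Vt d → (Fin d → ZMod 5) := fun j i => (j i : ZMod 5) with hcol
  obtain ⟨c, -, hc⟩ := Finset.exists_max_image (Finset.univ : Finset (Fin d → ZMod 5))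
    (fun c => (J.filter fun j => col j = c).card) ⟨fun _ => 0, Finset.mem_univ _⟩
  refine ⟨J.filter fun j => col j = c, Finset.filter_subset _ _, ?_, ?_⟩
  · intro j hj j' hj' hne
    rw [Finset.mem_filter] at hj hj'
    obtain ⟨i, hi⟩ := Function.ne_iff.1 hne
    have h1 : (j i : ZMod 5) = (j' i : ZMod 5) := by
      have h2 : col j = col j' := hj.2.trans hj'.2.symm
      exact congrFun h2 i
    rw [ZMod.intCast_eq_intCast_iff] at h1
    have h2 : ((5 : ℕ) : ℤ) ∣ j i - j' i := h1.symm.dvd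
    have h3 : (j i - j' i).natAbs ≤ nm (j - j') := natAbs_le_nm_340 (j - j') i
    have h4 : j i - j' i ≠ 0 := sub_ne_zero.2 hi
    have h5 : 5 ≤ (j i - j' i).natAbs := by
      have h6 : 5 ∣ (j i - j' i).natAbs := Int.natCast_dvd.1 h2
      exact Nat.le_of_dvd (Int.natAbs_pos.2 h4) h6
    omega
  · have h1 : J.card = ∑ c' : Fin d → ZMod 5, (J.filter fun j => col j = c').card :=
      Finset.card_eq_sum_card_fiberwise fun j _ => Finset.mem_univ _
    rw [h1]
    calc ∑ c' : Fin d → ZMod 5, (J.filter fun j => col j = c').card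
        ≤ ∑ _c' : Fin d → ZMod 5, (J.filter fun j => col j = c).card :=
          Finset.sum_le_sum fun c' hc' => hc c' hc'
      _ = _ := by
          rw [Finset.sum_const, smul_eq_mul, Finset.card_univ, Fintype.card_fun, ZMod.card,
            Fintype.card_fin]

theorem even (d : ℕ) : S_EVEN d := by
  intro x D U hne
  classical
  obtain ⟨η, -, hη⟩ : ∃ η ⊆ D, (lat d).bd η = ind U := by
    by_contra hno
    push Not at hno
    apply hne
    change (lat d).L (fun _ => x) D (ind U) (fun _ => 1) = 0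
    unfold MG.L
    rw [Finset.filter_false_of_mem, Finset.sum_empty]
    intro η hη
    exact hno η (Finset.mem_powerset.1 hη)
  set W : Finset (Vt d) := U ∪ η.image (lat d).s ∪ η.image (lat d).t with hW
  have h1 : ∑ v ∈ W, (lat d).bd η v = 0 := by
    refine MG.sum_bd_eq_zero _ fun e he => ⟨?_, ?_⟩
    · exact Finset.mem_union_left _ (Finset.mem_union_right _ (Finset.mem_image_of_mem _ he))
    · exact Finset.mem_union_right _ (Finset.mem_image_of_mem _ he)
  rw [hη] at h1
  unfold ind at h1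
  rw [Finset.sum_ite_mem] at h1
  have h2 : W ∩ U = U := by
    apply Finset.inter_eq_right.2
    intro u hu
    exact Finset.mem_union_left _ (Finset.mem_union_left _ hu)
  rw [h2, Finset.sum_const, nsmul_eq_mul, mul_one] at h1
  exact (ZMod.natCast_eq_zero_iff_even).1 h1

end Pool.Agent.TH429.J468
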