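import Pool.Agent.TH981.LO.Bas

/-!
Job 479 (LO-SG4, for MP_f0ab88_pr): surgery, partition functions of the complement of the cluster.
-/

set_option autoImplicit false
set_option linter.unusedSectionVars false

open Pool.Agent.TH981.LO
open scoped BigOperators symmDiff MeasureTheory

namespace Pool.Agent.TH429.J479

theorem nm_add_ev {d : ℕ} (v : Vt d) (i : Fin d) : nm (v + ev i) ≤ nm v + 1 := by
  have h := nm_add_le v (ev i)
  rw [nm_ev] at h
  exact h

theorem nm_sub_ev {d : ℕ} (v : Vt d) (i : Fin d) : nm (v - ev i) ≤ nm v + 1 := by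
  have h := nm_sub_le v (ev i)
  rw [nm_ev] at h
  exact h

/-- the partition function is monotone in the domain -/
theorem ZZ_mono {d : ℕ} {x : ℝ} (hx0 : 0 < x) {A B : Finset (Ed d)} (h : A ⊆ B) :
    ZZ d x A 0 ≤ ZZ d x B 0 := by
  classical
  change (lat d).L (fun _ => x) A 0 (fun _ => 1) ≤ (lat d).L (fun _ => x) B 0 (fun _ => 1)
  unfold MG.L
  refine Finset.sum_le_sum_of_subset_of_nonneg
    (Finset.filter_subset_filter _ (Finset.powerset_mono.mpr h)) fun η _ _ => ?_
  rw [mul_one]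
  exact Finset.prod_nonneg fun _ _ => hx0.le

theorem ZZ_pos {d : ℕ} {x : ℝ} (hx0 : 0 < x) (A : Finset (Ed d)) : 0 < ZZ d x A 0 :=
  lt_of_lt_of_le one_pos ((lat d).one_le_Z_zero fun _ _ => hx0.le)

/-- adding `n` edges costs at most a factor `2 ^ n` -/
theorem ZZ_union {d : ℕ} {x : ℝ} (hx0 : 0 < x) (hx1 : x < 1) (A Y : Finset (Ed d)) :
    ZZ d x (A ∪ Y) 0 ≤ 2 ^ Y.card * ZZ d x A 0 := by
  classical
  induction Y using Finset.induction_on with
  | empty => simp
  | insert e Y he ih =>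
    rw [Finset.card_insert_of_notMem he, pow_succ]
    by_cases h : e ∈ A
    · have : A ∪ insert e Y = A ∪ Y := by
        rw [Finset.union_insert, Finset.insert_eq_of_mem (Finset.mem_union_left _ h)]
      rw [this]
      have h1 := ZZ_pos hx0 (d := d) A
      have h2 : (0 : ℝ) < 2 ^ Y.card := by positivity
      nlinarith [mul_pos h2 h1]
    · have h1 : A ∪ insert e Y = insert e (A ∪ Y) := Finset.union_insert _ _ _
      have h2 : e ∉ A ∪ Y := by
        rw [Finset.mem_union]
        rintro (h3 | h3)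
        · exact h h3
        · exact he h3
      rw [h1]
      have h3 := (lat d).Z_insert (fun _ => x) h2 0
      have h4 : ZZ d x (A ∪ Y) (0 + (lat d).inc e) ≤ ZZ d x (A ∪ Y) 0 := by
        have h5 := (lat d).corr_le_one (F := A ∪ Y) (w := fun _ => x) (0 + (lat d).inc e)
          (fun _ _ => hx0.le) (fun _ _ => hx1.le)
        unfold MG.corr at h5
        rwa [div_le_one (ZZ_pos hx0 (A ∪ Y))] at h5
      have h6 : 0 ≤ ZZ d x (A ∪ Y) (0 + (lat d).inc e) := (lat d).Z_nonneg _ fun _ _ => hx0.le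
      change (lat d).Z (fun _ => x) (insert e (A ∪ Y)) 0 ≤ _
      rw [h3]
      have h7 : x * ZZ d x (A ∪ Y) (0 + (lat d).inc e) ≤ 1 * ZZ d x (A ∪ Y) 0 :=
        mul_le_mul hx1.le h4 h6 (by norm_num)
      have h8 : (lat d).Z (fun _ => x) (A ∪ Y) 0 + x * (lat d).Z (fun _ => x) (A ∪ Y)
          (0 + (lat d).inc e) ≤ 2 * ZZ d x (A ∪ Y) 0 := by
        change ZZ d x (A ∪ Y) 0 + x * ZZ d x (A ∪ Y) (0 + (lat d).inc e) ≤ _
        linarith
      refine h8.trans ?_
      linarith

theorem exp_eq (c : ℝ) (a s : ℕ) :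
    Real.exp (-c * |(a : ℝ) - s|) = Real.exp (-c) ^ (((a : ℤ) - (s : ℤ)).natAbs) := by
  rw [← Real.exp_nat_mul]
  congr 1
  rw [Nat.cast_natAbs]
  push_cast
  ring

theorem exp_close {c : ℝ} (hc : 0 < c) {a b s : ℕ} (h1 : a ≤ b + 1) (h2 : b ≤ a + 1) :
    Real.exp (-c * |(a : ℝ) - s|) ≤ Real.exp c * Real.exp (-c * |(b : ℝ) - s|) := by
  rw [← Real.exp_add, Real.exp_le_exp]
  have h1' : (a : ℝ) ≤ b + 1 := by exact_mod_cast h1
  have h2' : (b : ℝ) ≤ a + 1 := by exact_mod_cast h2
  have h3 : |(b : ℝ) - s| ≤ |(a : ℝ) - s| + 1 := by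
    rw [abs_le]
    constructor
    · have := neg_abs_le ((a : ℝ) - s)
      linarith
    · have := le_abs_self ((a : ℝ) - s)
      linarith
  nlinarith

/-- the sum over the edges touching a set -/
theorem sum_TE_le {d : ℕ} {c : ℝ} (hc : 0 < c) (s : ℕ) (κ : Finset (Vt d)) :
    ∑ e ∈ TE κ, Real.exp (-c * |(nm e.1 : ℝ) - s|) ≤
      2 * d * Real.exp c * ms (Real.exp (-c)) s κ := by
  classical
  set g : Ed d → ℝ := fun e => Real.exp (-c * |(nm e.1 : ℝ) - s|) with hg
  have hg0 : ∀ e, 0 ≤ g e := fun e => (Real.exp_pos _).le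
  have hms : ms (Real.exp (-c)) s κ = ∑ v ∈ κ, Real.exp (-c * |(nm v : ℝ) - s|) := by
    rw [ms]
    exact Finset.sum_congr rfl fun v _ => (exp_eq c (nm v) s).symm
  set m := ∑ v ∈ κ, Real.exp (-c * |(nm v : ℝ) - s|) with hm
  have hm0 : 0 ≤ m := Finset.sum_nonneg fun v _ => (Real.exp_pos _).le
  have h1 : ∑ e ∈ κ ×ˢ (Finset.univ : Finset (Fin d)), g e = d * m := by
    rw [Finset.sum_product, hm, Finset.mul_sum]
    refine Finset.sum_congr rfl fun v _ => ?_
    simp [hg]
  have h2 : ∑ e ∈ (κ ×ˢ (Finset.univ : Finset (Fin d))).image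
      (fun e : Vt d × Fin d => ((e.1 - ev e.2, e.2) : Ed d)), g e ≤ d * Real.exp c * m := by
    rw [Finset.sum_image, Finset.sum_product, hm, Finset.mul_sum]
    · refine Finset.sum_le_sum fun v _ => ?_
      calc ∑ j : Fin d, g (v - ev j, j)
          ≤ ∑ _j : Fin d, Real.exp c * Real.exp (-c * |(nm v : ℝ) - s|) := by
            refine Finset.sum_le_sum fun j _ => ?_
            refine exp_close hc (nm_sub_ev v j) ?_
            have := nm_add_ev (v - ev j) j
            rwa [sub_add_cancel] at this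
        _ = _ := by simp [mul_assoc]
    · rintro ⟨v, j⟩ _ ⟨v', j'⟩ _ h
      simp only [Prod.mk.injEq] at h
      obtain ⟨h3, rfl⟩ := h
      rw [sub_left_inj] at h3
      rw [h3]
  have h3 := Finset.sum_union_inter (s₁ := κ ×ˢ (Finset.univ : Finset (Fin d)))
    (s₂ := (κ ×ˢ (Finset.univ : Finset (Fin d))).image
      (fun e : Vt d × Fin d => ((e.1 - ev e.2, e.2) : Ed d))) (f := g)
  have h4 : 0 ≤ ∑ e ∈ (κ ×ˢ (Finset.univ : Finset (Fin d))) ∩
    (κ ×ˢ (Finset.univ : Finset (Fin d))).image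
      (fun e : Vt d × Fin d => ((e.1 - ev e.2, e.2) : Ed d)), g e :=
    Finset.sum_nonneg fun e _ => hg0 e
  rw [hms]
  change ∑ e ∈ (κ ×ˢ (Finset.univ : Finset (Fin d))) ∪ (κ ×ˢ (Finset.univ : Finset (Fin d))).image
      (fun e : Vt d × Fin d => ((e.1 - ev e.2, e.2) : Ed d)), g e ≤ _
  have h5 : 1 ≤ Real.exp c := Real.one_le_exp hc.le
  have h6 : (d : ℝ) * m ≤ d * Real.exp c * m := by
    have : (d : ℝ) * m * 1 ≤ d * m * Real.exp c :=
      mul_le_mul_of_nonneg_left h5 (by positivity)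
    linarith
  linarith

theorem shc_le {d : ℕ} {q : ℝ} (hq0 : 0 < q) (hq1 : q < 1) (s : ℕ) (κ : Finset (Vt d)) :
    (shc s κ : ℝ) ≤ (q ^ 5)⁻¹ * ms q s κ := by
  have hq5 : 0 < q ^ 5 := by positivity
  rw [inv_mul_eq_div, le_div_iff₀ hq5, ms, shc]
  calc ((κ.filter fun v => s ≤ nm v + 5 ∧ nm v ≤ s + 5).card : ℝ) * q ^ 5
      = ∑ _v ∈ κ.filter (fun v => s ≤ nm v + 5 ∧ nm v ≤ s + 5), q ^ 5 := by
        rw [Finset.sum_const, nsmul_eq_mul]
    _ ≤ ∑ v ∈ κ.filter (fun v => s ≤ nm v + 5 ∧ nm v ≤ s + 5),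
          q ^ (((nm v : ℤ) - (s : ℤ)).natAbs) := by
        refine Finset.sum_le_sum fun v hv => ?_
        rw [Finset.mem_filter] at hv
        apply pow_le_pow_of_le_one hq0.le hq1.le
        omega
    _ ≤ _ := by
        refine Finset.sum_le_sum_of_subset_of_nonneg (Finset.filter_subset _ _) fun v _ _ => ?_
        positivity

/-- vertices near the sphere, and their translates -/
def W {d : ℕ} (s : ℕ) (i : Fin d) (κ : Finset (Vt d)) : Finset (Vt d) :=
  (κ.filter fun v => s ≤ nm v + 5 ∧ nm v ≤ s + 5) ∪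
    (κ.filter fun v => s ≤ nm v + 5 ∧ nm v ≤ s + 5).image fun v => v + ev i

theorem card_W {d : ℕ} (s : ℕ) (i : Fin d) (κ : Finset (Vt d)) : (W s i κ).card ≤ 2 * shc s κ := by
  refine (Finset.card_union_le _ _).trans ?_
  have := Finset.card_image_le (s := κ.filter fun v => s ≤ nm v + 5 ∧ nm v ≤ s + 5)
    (f := fun v => v + ev i)
  rw [shc]
  omega

theorem claim {d : ℕ} {s : ℕ} (hs : 1 ≤ s) (i : Fin d) {D : Finset (Ed d)} {κ : Finset (Vt d)}
    (hD : EB d (s + 1) ⊆ D) {e : Ed d} (heD : e ∈ D)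
    (he : e.1 ∈ srgK s i κ ∨ e.1 + ev e.2 ∈ srgK s i κ)
    (heFo : e ∉ (lat d).tch D κ \ EB d (s + 1))
    (heFi : e ∉ shF (ev i) (((lat d).tch D κ).filter fun e => shE (ev i) e ∈ EB d (s - 1))) :
    e ∈ TE (W s i κ) := by
  -- an endpoint in the new cluster
  obtain ⟨v, hv, hvK, hnv1, hnv2, hnv3, hnv4⟩ : ∃ v : Vt d, (e.1 = v ∨ e.1 + ev e.2 = v) ∧
      v ∈ srgK s i κ ∧ nm e.1 ≤ nm v + 1 ∧ nm (e.1 + ev e.2) ≤ nm v + 1 ∧
      nm v ≤ nm e.1 + 1 ∧ nm v ≤ nm (e.1 + ev e.2) + 1 := by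
    rcases he with he | he
    · refine ⟨_, Or.inl rfl, he, by omega, nm_add_ev _ _, by omega, ?_⟩
      have := nm_sub_ev (e.1 + ev e.2) e.2
      rwa [add_sub_cancel_right] at this
    · refine ⟨_, Or.inr rfl, he, ?_, by omega, nm_add_ev _ _, by omega⟩
      have := nm_sub_ev (e.1 + ev e.2) e.2
      rwa [add_sub_cancel_right] at this
  have htW : v ∈ W s i κ → e ∈ TE (W s i κ) := by
    intro h
    rw [mem_TE]
    rcases hv with hv | hv
    · left; rw [hv]; exact h
    · right; rw [hv]; exact h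
  rw [srgK, Finset.mem_union, Finset.mem_image] at hvK
  rcases hvK with ⟨u, hu, huv⟩ | hvK
  · by_cases hus : nm u ≤ s
    · rw [if_pos hus] at huv
      by_cases hnear : s ≤ nm u + 5
      · apply htW
        rw [W, Finset.mem_union, Finset.mem_image]
        right
        exact ⟨u, Finset.mem_filter.2 ⟨hu, hnear, by omega⟩, huv⟩
      · exfalso
        push Not at hnear
        apply heFi
        have h1 := nm_add_ev u i
        rw [huv] at h1
        rw [mem_shF, Finset.mem_filter]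
        have hsh : shE (ev i) ((e.1 - ev i, e.2) : Ed d) = e := by
          change (((e.1 - ev i) + ev i, e.2) : Ed d) = e
          rw [sub_add_cancel]
        refine ⟨?_, ?_⟩
        · rw [MG.tch, Finset.mem_filter]
          refine ⟨hD ?_, ?_⟩
          · rw [mem_EB]
            refine ⟨?_, ?_⟩
            · have := nm_sub_ev e.1 i
              change nm (e.1 - ev i) ≤ s + 1
              omega
            · have := nm_sub_ev (e.1 + ev e.2) i
              have h2 : e.1 - ev i + ev e.2 = e.1 + ev e.2 - ev i := by abel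
              change nm (e.1 - ev i + ev e.2) ≤ s + 1
              rw [h2]
              omega
          · rw [lat_s, lat_t]
            rcases hv with hv | hv
            · left
              change e.1 - ev i ∈ κ
              rw [hv, ← huv, add_sub_cancel_right]
              exact hu
            · right
              change e.1 - ev i + ev e.2 ∈ κ
              have h2 : e.1 - ev i + ev e.2 = e.1 + ev e.2 - ev i := by abel
              rw [h2, hv, ← huv, add_sub_cancel_right]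
              exact hu
        · rw [hsh, mem_EB]
          constructor <;> omega
    · rw [if_neg hus] at huv
      subst huv
      by_cases hnear : nm u ≤ s + 5
      · apply htW
        rw [W, Finset.mem_union]
        left
        exact Finset.mem_filter.2 ⟨hu, by omega, hnear⟩
      · exfalso
        push Not at hnear
        apply heFo
        rw [Finset.mem_sdiff, MG.tch, Finset.mem_filter]
        refine ⟨⟨heD, ?_⟩, ?_⟩
        · rw [lat_s, lat_t]
          rcases hv with hv | hv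
          · left; rw [hv]; exact hu
          · right; rw [hv]; exact hu
        · rw [mem_EB]
          intro h
          rcases hv with hv | hv
          · rw [hv] at h
            omega
          · rw [hv] at h
            omega
  · rw [spF, Finset.mem_filter] at hvK
    apply htW
    rw [W, Finset.mem_union]
    left
    exact Finset.mem_filter.2 ⟨hvK.1, by omega, by omega⟩

theorem sg4 (d : ℕ) (x : ℝ) (hx0 : 0 < x) (hx1 : x < 1) (h : S_PF d x) : S_SG4 d x := by
  obtain ⟨c, hc, C, hC, hPF⟩ := h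
  set q : ℝ := Real.exp (-c) with hq
  have hq0 : 0 < q := Real.exp_pos _
  have hq1 : q < 1 := by rw [hq, Real.exp_lt_one_iff]; linarith
  refine ⟨q, hq0, hq1, C * (2 * d * Real.exp c) + 4 * d * (q ^ 5)⁻¹, by positivity, ?_⟩
  intro s i D κ hs hD
  classical
  set F := (lat d).tch D κ with hF
  set Fo := F \ EB d (s + 1) with hFo
  set Fi := F.filter (fun e => shE (ev i) e ∈ EB d (s - 1)) with hFi
  have hFD : F ⊆ D := Finset.filter_subset _ _
  have h1 := hPF i D Fo Fi s hs hD (Finset.sdiff_subset.trans hFD) Finset.sdiff_disjoint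
    (fun e he => (Finset.mem_filter.1 he).2)
  set Y := (D \ (Fo ∪ shF (ev i) Fi)) \ (lat d).off D (srgK s i κ) with hY
  have hYsub : Y ⊆ TE (W s i κ) := by
    intro e he
    rw [hY, Finset.mem_sdiff, Finset.mem_sdiff, Finset.mem_union, MG.off, Finset.mem_filter] at he
    obtain ⟨⟨heD, heF⟩, heoff⟩ := he
    refine claim hs i hD heD ?_ (fun h => heF (Or.inl h)) (fun h => heF (Or.inr h))
    rw [lat_s, lat_t] at heoff
    by_contra hno
    push Not at hno
    exact heoff ⟨heD, hno.1, hno.2⟩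
  have hYcard : (Y.card : ℝ) ≤ 4 * d * shc s κ := by
    have h2 := (Finset.card_le_card hYsub).trans (card_TE_le (W s i κ))
    have h3 := card_W s i κ
    have h4 : Y.card ≤ 4 * d * shc s κ := by
      refine h2.trans ?_
      calc 2 * d * (W s i κ).card ≤ 2 * d * (2 * shc s κ) := Nat.mul_le_mul_left _ h3
        _ = _ := by ring
    exact_mod_cast h4
  -- the chain of inequalities
  have hA : ZZ d x ((lat d).off D κ) 0 ≤ ZZ d x (D \ (Fo ∪ Fi)) 0 := by
    refine ZZ_mono hx0 fun e he => ?_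
    rw [MG.off, Finset.mem_filter] at he
    rw [Finset.mem_sdiff, Finset.mem_union]
    refine ⟨he.1, ?_⟩
    have hnF : e ∉ F := by
      intro h
      rw [hF, MG.tch, Finset.mem_filter] at h
      rcases h.2 with h | h
      · exact he.2.1 h
      · exact he.2.2 h
    rintro (h | h)
    · exact hnF (Finset.mem_sdiff.1 h).1
    · exact hnF (Finset.mem_filter.1 h).1
  have hB : ZZ d x (D \ (Fo ∪ Fi)) 0 ≤
      Real.exp (C * ∑ e ∈ Fo ∪ Fi, Real.exp (-c * |(nm e.1 : ℝ) - s|)) *
        ZZ d x (D \ (Fo ∪ shF (ev i) Fi)) 0 := by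
    have hp1 := ZZ_pos hx0 (D \ (Fo ∪ Fi))
    have hp2 := ZZ_pos hx0 (D \ (Fo ∪ shF (ev i) Fi))
    have h2 := (abs_le.1 h1).2
    have h3 : Real.log (ZZ d x (D \ (Fo ∪ Fi)) 0) ≤
        C * ∑ e ∈ Fo ∪ Fi, Real.exp (-c * |(nm e.1 : ℝ) - s|) +
          Real.log (ZZ d x (D \ (Fo ∪ shF (ev i) Fi)) 0) := by linarith
    have h4 := Real.exp_le_exp.2 h3
    rwa [Real.exp_log hp1, Real.exp_add, Real.exp_log hp2] at h4
  have hCc : ZZ d x (D \ (Fo ∪ shF (ev i) Fi)) 0 ≤
      2 ^ Y.card * ZZ d x ((lat d).off D (srgK s i κ)) 0 := by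
    refine (ZZ_mono hx0 ?_).trans (ZZ_union hx0 hx1 _ Y)
    intro e he
    rw [Finset.mem_union]
    by_cases h2 : e ∈ (lat d).off D (srgK s i κ)
    · exact Or.inl h2
    · exact Or.inr (Finset.mem_sdiff.2 ⟨he, h2⟩)
  have hsum : ∑ e ∈ Fo ∪ Fi, Real.exp (-c * |(nm e.1 : ℝ) - s|) ≤
      2 * d * Real.exp c * ms q s κ := by
    refine le_trans ?_ (sum_TE_le hc s κ)
    refine Finset.sum_le_sum_of_subset_of_nonneg ?_ fun e _ _ => (Real.exp_pos _).le
    intro e he
    have heF : e ∈ F := by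
      rcases Finset.mem_union.1 he with h2 | h2
      · exact (Finset.mem_sdiff.1 h2).1
      · exact (Finset.mem_filter.1 h2).1
    rw [hF, MG.tch, Finset.mem_filter] at heF
    exact mem_TE.2 heF.2
  have hms0 : 0 ≤ ms q s κ := Finset.sum_nonneg fun v _ => by positivity
  have hpow : (2 : ℝ) ^ Y.card ≤ Real.exp (4 * d * (q ^ 5)⁻¹ * ms q s κ) := by
    have h2 : (2 : ℝ) ≤ Real.exp 1 := by
      have := Real.add_one_le_exp (1 : ℝ)
      linarith
    have h3 : (2 : ℝ) ^ Y.card ≤ Real.exp 1 ^ Y.card := pow_le_pow_left₀ (by norm_num) h2 _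
    rw [← Real.exp_nat_mul, mul_one] at h3
    refine h3.trans (Real.exp_le_exp.2 (hYcard.trans ?_))
    have h4 := shc_le hq0 hq1 s κ
    have h5 : 4 * (d : ℝ) * shc s κ ≤ 4 * d * ((q ^ 5)⁻¹ * ms q s κ) :=
      mul_le_mul_of_nonneg_left h4 (by positivity)
    linarith
  have hZ' := ZZ_pos hx0 ((lat d).off D (srgK s i κ))
  calc ZZ d x ((lat d).off D κ) 0 ≤ ZZ d x (D \ (Fo ∪ Fi)) 0 := hA
    _ ≤ _ := hB
    _ ≤ Real.exp (C * (2 * d * Real.exp c * ms q s κ)) *
        (Real.exp (4 * d * (q ^ 5)⁻¹ * ms q s κ) * ZZ d x ((lat d).off D (srgK s i κ)) 0) := by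
        apply mul_le_mul
        · exact Real.exp_le_exp.2 (mul_le_mul_of_nonneg_left hsum hC)
        · exact hCc.trans (mul_le_mul_of_nonneg_right hpow hZ'.le)
        · exact (ZZ_pos hx0 _).le
        · exact (Real.exp_pos _).le
    _ = _ := by
        rw [← mul_assoc, ← Real.exp_add]
        congr 2
        ring

end Pool.Agent.TH429.J479
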