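import Pool.Agent.TH981.LO.Bas

/-!
Job 483 (LO-SG67, for MP_f0ab88_pr): surgery near the centre.
-/

set_option autoImplicit false
set_option linter.unusedSectionVars false

open Pool.Agent.TH981.LO
open scoped BigOperators symmDiff MeasureTheory

namespace Pool.Agent.TH429.J483

theorem nm_add_ev {d : ℕ} (v : Vt d) (i : Fin d) : nm (v + ev i) ≤ nm v + 1 := by
  have h := nm_add_le v (ev i)
  rw [nm_ev] at h
  exact h

theorem nm_sub_ev {d : ℕ} (v : Vt d) (i : Fin d) : nm (v - ev i) ≤ nm v + 1 := by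
  have h := nm_sub_le v (ev i)
  rw [nm_ev] at h
  exact h

/-- near the centre, the shifted edge lies in the box -/
theorem shift_mem_EB {d : ℕ} {s m : ℕ} (i : Fin d) (hms : m < s) {e : Ed d} (he : e ∈ EB d m) :
    ((e.1 - ev i, e.2) : Ed d) ∈ EB d s := by
  rw [mem_EB] at he ⊢
  refine ⟨?_, ?_⟩
  · have := nm_sub_ev e.1 i
    change nm (e.1 - ev i) ≤ s
    omega
  · have := nm_sub_ev (e.1 + ev e.2) i
    have h2 : e.1 - ev i + ev e.2 = e.1 + ev e.2 - ev i := by abel
    change nm (e.1 - ev i + ev e.2) ≤ s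
    rw [h2]
    omega

theorem sg6 (d : ℕ) : S_SG6 d := by
  intro s m i κ η₁ η₂ hms
  ext e
  rw [Finset.mem_inter, Finset.mem_inter]
  refine and_congr_left fun he => ?_
  rw [Finset.mem_union, shF_union, Finset.mem_union]
  refine or_congr_left ?_
  have hes : e ∈ EB d s := EB_mono hms.le he
  have hnc : e ∉ conE i ((spF s κ).filter (fun a => (lat d).bd (η₁ ∩ EB d s) a ≠ 0)) := by
    rw [conE, Finset.mem_image]
    rintro ⟨a, ha, rfl⟩
    rw [Finset.mem_filter, spF, Finset.mem_filter] at ha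
    have h1 := ha.1.2
    rw [mem_EB] at he
    have h2 : nm a ≤ m := he.1
    omega
  have hn1 : e ∉ η₁ \ EB d s := fun h => (Finset.mem_sdiff.1 h).2 hes
  rw [srgH, Finset.mem_symmDiff, Finset.mem_symmDiff]
  have h3 : e ∈ shF (ev i) (η₁ ∩ EB d s) ↔ e ∈ shF (ev i) η₁ := by
    rw [mem_shF, mem_shF, Finset.mem_inter]
    exact and_iff_left (shift_mem_EB i hms he)
  rw [h3]
  tauto

theorem mem_srgK {d : ℕ} {s : ℕ} {i : Fin d} {κ : Finset (Vt d)} {v : Vt d} (hv : nm v < s) :
    v ∈ srgK s i κ ↔ v - ev i ∈ κ := by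
  rw [srgK, Finset.mem_union, Finset.mem_image]
  constructor
  · rintro (⟨u, hu, huv⟩ | h)
    · by_cases hus : nm u ≤ s
      · rw [if_pos hus] at huv
        rw [← huv, add_sub_cancel_right]
        exact hu
      · rw [if_neg hus] at huv
        rw [huv] at hus
        omega
    · rw [spF, Finset.mem_filter] at h
      omega
  · intro h
    left
    refine ⟨v - ev i, h, ?_⟩
    have := nm_sub_ev v i
    rw [if_pos (by omega), sub_add_cancel]

theorem sg7 (d : ℕ) : S_SG7 d := by
  intro s i D κ hs hD e he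
  have hms : s - 1 < s := by omega
  have heD : e ∈ D := hD (EB_mono (by omega) he)
  have he' : ((e.1 - ev i, e.2) : Ed d) ∈ D := hD (EB_mono (by omega) (shift_mem_EB i hms he))
  rw [mem_EB] at he
  rw [mem_shF, MG.off, MG.off, Finset.mem_filter, Finset.mem_filter]
  simp only [lat_s, lat_t]
  rw [mem_srgK (by omega), mem_srgK (by omega)]
  have h2 : e.1 - ev i + ev e.2 = e.1 + ev e.2 - ev i := by abel
  rw [h2]
  exact ⟨fun h => ⟨heD, h.2⟩, fun h => ⟨he', h.2⟩⟩

end Pool.Agent.TH429.J483
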