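import Pool.Agent.TH429.RDTools

/-!
# RD4: rapid decay passes to the limit
-/

set_option autoImplicit false

namespace Pool.Agent.TH429.RDLim

open Pool.Agent.TH63.RD (RDB)
open Pool.Agent.TH429.RDTools
open MonoidAlgebra

theorem rd_lim {F Qi : Type} [Group F] [Group Qi] (π : F →* Qi) (nm : F → ℕ) (ℓ : Qi → ℕ)
    (hl : ∀ q, ∃ g, π g = q ∧ nm g ≤ ℓ q) (r : ℕ) (K : ℝ)
    (h : ∀ T : Finset F, ∃ (Q : Type) (_ : Group Q) (ψ : F →* Q) (ℓ' : Q → ℕ),
      (∀ g, ℓ' (ψ g) ≤ nm g) ∧ RDB ℓ' r K ∧ (∀ g, ψ g = 1 → π g = 1) ∧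
      ∀ g ∈ T, π g = 1 → ψ g = 1) : RDB ℓ r K := by
  classical
  intro f g hf
  choose s hs hsl using hl
  obtain ⟨hF, hFs⟩ := lift π s hs f
  obtain ⟨hG, hGs⟩ := lift π s hs g
  set F1 := mapDomain s f with hF1
  set G1 := mapDomain s g with hG1
  set X := (F1 * G1).coeff.support with hX
  obtain ⟨Q, _, ψ, ℓ', h1, h2, h3, h4⟩ := h ((X ×ˢ X).image (fun p => p.1⁻¹ * p.2))
  have e1 : Pool.Agent.TH63.RD.sq (f * g) = Pool.Agent.TH63.RD.sq (mapDomain ψ (F1 * G1)) := by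
    rw [← sq_map_eq π ψ (F1 * G1), mapDomain_mul, hF, hG]
    intro a ha b hb
    constructor
    · intro hab
      apply h4 _ _ hab
      rw [Finset.mem_image]
      exact ⟨(a, b), Finset.mem_product.mpr ⟨ha, hb⟩, rfl⟩
    · exact h3 _
  have inj : ∀ (u : MonoidAlgebra ℝ Qi), Pool.Agent.TH63.RD.sq (mapDomain ψ (mapDomain s u))
      = Pool.Agent.TH63.RD.sq u := by
    intro u
    rw [sq_map_of_inj ψ (mapDomain s u), (lift π s hs u).2]
    intro a ha b hb hab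
    obtain ⟨x, -, rfl⟩ := mem_support_map s ha
    obtain ⟨y, -, rfl⟩ := mem_support_map s hb
    have := h3 _ hab
    rw [map_mul, map_inv, hs, hs, inv_mul_eq_one] at this
    rw [this, inv_mul_cancel]
  rw [e1, mapDomain_mul, ← inj f, ← inj g]
  apply h2
  intro x hx
  obtain ⟨y, hy, rfl⟩ := mem_support_map ψ hx
  obtain ⟨z, hz, rfl⟩ := mem_support_map s hy
  exact (h1 _).trans ((hsl z).trans (hf z hz))

end Pool.Agent.TH429.RDLim
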